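import Pool.Agent.W938.CQ.Lnk

/-!
# Averages over the records
-/

set_option autoImplicit false
set_option linter.unusedSectionVars false

namespace Pool.Agent.W938.CQ

open Finset Pool.Agent.H722R2.AA Pool.Agent.H746R2.AA Pool.Agent.H703R2.AA Pool.Agent.H703R2.AA.Pr
open Pool.Agent.H703R2.AB
open Pool.Agent.H620R2.Gauge Pool.Agent.W938.Hyb
open Pool.Agent.H889R3.RQ (DTree)

variable {b m N : ℕ}

lemma ind_le_add_of_or {p q r : Prop} (h : p → q ∨ r) : ind p ≤ ind q + ind r := by
  by_cases hp : p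
  · rcases h hp with hq | hr
    · have h1 : ind q = 1 := by unfold ind; rw [if_pos hq]
      have h2 := ind_nonneg r
      have h3 := ind_le_one p
      linarith
    · have h1 : ind r = 1 := by unfold ind; rw [if_pos hr]
      have h2 := ind_nonneg q
      have h3 := ind_le_one p
      linarith
  · have h1 : ind p = 0 := by unfold ind; rw [if_neg hp]
    have := ind_nonneg q
    have := ind_nonneg r
    linarith

lemma S_const {W : Type*} [Fintype W] (t : ℕ) (e : ℝ) :
    S t (fun _ : List W => e) = (Fintype.card W : ℝ) ^ t * e := by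
  induction t with
  | zero => simp [S]
  | succ t ih =>
    simp only [S]
    have : ∑ _w : W, e = (Fintype.card W : ℝ) * e := by
      rw [Finset.sum_const, Finset.card_univ, nsmul_eq_mul]
    simp_rw [this]
    rw [S_mul_left, ih]
    ring

namespace Par

variable (p : Par N m b)

/-- The number of records. -/
noncomputable def Mr : ℝ := ((2 : ℝ) ^ m) ^ p.n

lemma Mr_ge : 1 ≤ p.Mr := one_le_pow₀ (one_le_pow₀ (by norm_num))

lemma S_rec_le (c : ℕ) (hc : c ≤ p.n) (F : List (Fin m → Bool) → ℝ) (e : ℝ) (he : 0 ≤ e)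
    (hF : ∀ os, F os ≤ e) : S c F ≤ p.Mr * e := by
  refine (S_mono c hF).trans ?_
  rw [S_const]
  have h1 : (Fintype.card (Fin m → Bool) : ℝ) = 2 ^ m := by simp
  rw [h1]
  refine mul_le_mul_of_nonneg_right ?_ he
  exact pow_le_pow_right₀ (one_le_pow₀ (by norm_num)) hc

/-- Averages over histories inside a circuit. -/
lemma SA (x : Fin N → ℤˣ) (c i : ℕ) (hi : i ≤ p.L) (F : Cn N m → ℝ) :
    S (i + p.s0 + c * p.E) (fun h => nsq (p.P.A h x) * F (p.ctl h))
      = S c (fun os => nsq (p.me x os) * F (p.can x i os)) := by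
  have := p.S_can (fun cn s => nsq s * F cn) (fun cn => by simp [nsq]) x c i hi
  rw [this]
  refine S_congr' c fun os _ => ?_
  rw [nsq_cst]

/-- Averages over histories at the beginning of a circuit. -/
lemma SB (x : Fin N → ℤˣ) (c : ℕ) (F : Cn N m → ℝ) :
    S (c * p.E) (fun h => nsq (p.P.A h x) * F (p.ctl h))
      = S c (fun os => nsq (p.me x os) * F (start p.Dc p.st p.s0 p.L os (p.zb x os))) := by
  have := p.S_beg (fun cn s => nsq s * F cn) (fun cn => by simp [nsq]) x c
  rw [this]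
  refine S_congr' c fun os _ => ?_
  rw [nsq_load]
  rfl

lemma S_me (x : Fin N → ℤˣ) (c : ℕ) : S c (fun os => nsq (p.me x os)) = 1 := by
  have h1 := p.SB x c (fun _ => 1)
  simp only [mul_one] at h1
  rw [← h1]
  exact p.P.S_nsq (c * p.E) x

lemma me_le (x : Fin N → ℤˣ) (os : List (Fin m → Bool)) : nsq (p.me x os) ≤ 1 := by
  rw [← p.S_me x os.length]
  exact S_single (fun os => nsq (p.me x os)) (fun _ => nsq_nonneg _) os

lemma me_sum (x : Fin N → ℤˣ) (os : List (Fin m → Bool)) :
    ∑ o, nsq (p.me x (o :: os)) = nsq (p.me x os) := by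
  have h1 : nsq (circAct (p.Z.O (bx x)) (p.Dc os) (load m (p.me x os))) = nsq (p.me x os) := by
    rw [nsq_circAct, nsq_load]
    rfl
  rw [← h1]
  conv_rhs => unfold nsq
  rw [← (Fin.appendEquiv b m).sum_comp, Fintype.sum_prod_type, Finset.sum_comm]
  rfl

/-! ### The trees -/

/-- The tree of the reader before a circuit. -/
noncomputable def tb : List (Fin m → Bool) → DTree (Fin N)
  | [] => .leaf false
  | _ :: os => sq (tb os) p.si (p.st os)

/-- The tree of the reader after the questions for a circuit. -/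
noncomputable def ta (os : List (Fin m → Bool)) : DTree (Fin N) := sq (p.tb os) p.si (p.st os)

lemma zb_run (x : Fin N → ℤˣ) : ∀ os : List (Fin m → Bool), p.zb x os = run (p.tb os) p.si x
  | [] => rfl
  | o :: os => by
    have h1 : p.zb x (o :: os) = run (p.st os (p.zb x os)) (p.zb x os) x := rfl
    rw [h1, zb_run x os]
    exact (run_sq _ _ _ _).symm

lemma za_run (x : Fin N → ℤˣ) (os : List (Fin m → Bool)) : p.za x os = run (p.ta os) p.si x := by
  have h1 : p.za x os = run (p.st os (p.zb x os)) (p.zb x os) x := rfl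
  rw [h1, zb_run]
  exact (run_sq _ _ _ _).symm

lemma za_eq (x : Fin N → ℤˣ) (os : List (Fin m → Bool)) :
    p.za x os = run (p.st os (p.zb x os)) (p.zb x os) x := rfl

lemma Fresh_tb : ∀ os : List (Fin m → Bool), Fresh (p.tb os) p.si.R
  | [] => trivial
  | _ :: os => Fresh_sq _ (fun s => p.Fresh_st os s) _ _ (Fresh_tb os)

lemma Fresh_ta (os : List (Fin m → Bool)) : Fresh (p.ta os) p.si.R :=
  Fresh_sq _ (fun s => p.Fresh_st os s) _ _ (p.Fresh_tb os)

lemma Inv_si : Inv p.si := fun k hk => absurd hk (Finset.notMem_empty k)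

lemma Inv_zb (x : Fin N → ℤˣ) (os : List (Fin m → Bool)) : Inv (p.zb x os) := by
  rw [zb_run]; exact p.Inv_si.run _ _

lemma Inv_za (x : Fin N → ℤˣ) (os : List (Fin m → Bool)) : Inv (p.za x os) := by
  rw [za_run]; exact p.Inv_si.run _ _

lemma TLa (os : List (Fin m → Bool)) (Φ : RS N → (Fin N → ℤˣ) → ℝ) (hΦ : Natl Φ) :
    Ex (fun x => Φ (p.za x os) x) = Ex (fun x => Ex (fun z => Φ (p.za x os) z)) := by
  simp_rw [za_run]
  exact TL Φ hΦ _ _ p.Inv_si (p.Fresh_ta os)

lemma TLb (os : List (Fin m → Bool)) (Φ : RS N → (Fin N → ℤˣ) → ℝ) (hΦ : Natl Φ) :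
    Ex (fun x => Φ (p.zb x os) x) = Ex (fun x => Ex (fun z => Φ (p.zb x os) z)) := by
  simp_rw [zb_run]
  exact TL Φ hΦ _ _ p.Inv_si (p.Fresh_tb os)

lemma W_zb_le (x : Fin N → ℤˣ) (os : List (Fin m → Bool)) (D : List Gate) (i : ℕ)
    (S : Finset (Fin N)) : Wi (p.zb x os).Z b m D i S x ≤ Wi p.Z b m D i S x := by
  rw [zb_run]
  exact run_W_le _ p.si p.Inv_si x D i S

lemma W_za_le (x : Fin N → ℤˣ) (os : List (Fin m → Bool)) (D : List Gate) (i : ℕ)
    (S : Finset (Fin N)) : Wi (p.za x os).Z b m D i S x ≤ Wi p.Z b m D i S x := by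
  rw [za_run]
  exact run_W_le _ p.si p.Inv_si x D i S

/-- The probability that some weight is not small after reading. -/
noncomputable def er : ℝ := 5 ^ p.r * (2 * p.L * N * Real.exp (-p.t.Λ))

lemma er_nonneg : 0 ≤ p.er := by unfold er; positivity

lemma Natl_Lt (D : List Gate) (q : ℕ) (h : ℝ) :
    Natl (fun (s : RS N) z => ind (¬ Lt s.Z b m D q h z)) := by
  intro s hs k hk x u
  exact ind_congr (not_congr (Lt_indep m D hs q h k hk x u))

lemma za_light (os : List (Fin m → Bool)) :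
    Pb (fun x => ¬ Lt (p.za x os).Z b m (p.Dc os) (p.Dc os).length (p.t.H p.r) x) ≤ p.er := by
  have h1 : Pb (fun x => ¬ Lt (p.za x os).Z b m (p.Dc os) (p.Dc os).length (p.t.H p.r) x)
      = Ex (fun x => Ex (fun z => ind (¬ Lt (run (rt p.t m (p.Dc os) (p.B os) p.r 0 (p.zb x os))
        (p.zb x os) z).Z b m (p.Dc os) (p.Dc os).length (p.t.H p.r) z))) := by
    unfold Pb
    exact p.TLb os (fun s z => ind (¬ Lt (run (rt p.t m (p.Dc os) (p.B os) p.r 0 s) s z).Z b m
      (p.Dc os) (p.Dc os).length (p.t.H p.r) z)) (Natl_rt p.t m (p.Dc os) (p.B os) p.r 0 _ _)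
  rw [h1]
  exact Ex_le_const fun x => rt_light p.t m (p.Dc os) (p.B os) (p.hB os) (p.hD os) (p.zb x os)
    (p.Inv_zb x os)

/-- The position `l` has been read for a circuit, although its weight is small. -/
def bd (os : List (Fin m → Bool)) (x : Fin N → ℤˣ) : Prop :=
  ∃ l ∈ (p.za x os).R, l ∉ (p.zb x os).R ∧
    ∀ i < (p.Dc os).length, Wi (p.zb x os).Z b m (p.Dc os) i {l} x < p.t.c 0 / 4

lemma bd_le (os : List (Fin m → Bool)) :
    Pb (p.bd os) ≤ p.r * (4 * N * Real.exp (-p.t.Λ)) := by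
  have h1 : Pb (p.bd os)
      = Ex (fun x => Ex (fun z => ind (∃ l ∈ (run (rt p.t m (p.Dc os) (p.B os) p.r 0 (p.zb x os))
        (p.zb x os) z).R, l ∉ (p.zb x os).R ∧
        ∀ i < (p.Dc os).length, Wi (p.zb x os).Z b m (p.Dc os) i {l} z < p.t.c 0 / 4))) := by
    unfold Pb
    refine p.TLb os (fun s z => ind (∃ l ∈ (run (rt p.t m (p.Dc os) (p.B os) p.r 0 s)
        s z).R, l ∉ s.R ∧
        ∀ i < (p.Dc os).length, Wi s.Z b m (p.Dc os) i {l} z < p.t.c 0 / 4)) ?_
    intro s hs k hk x u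
    beta_reduce
    rw [run_indep _ _ (Fresh_rt p.t m (p.Dc os) (p.B os) p.r 0 s) k hk]
    simp_rw [Wi_congr s.Z (b := b) (m := m) (p.Dc os) _ _ ((hs k hk).bx x u)]
  rw [h1]
  exact Ex_le_const fun x => rt_cert p.t m (p.Dc os) (p.B os) (p.hB os) (p.hD os) p.r 0 (by omega)
    (p.zb x os) (p.Inv_zb x os)

/-! ### Events for the circuits -/

/-- The event happens for an earlier circuit. -/
def Ev (bad : List (Fin m → Bool) → Prop) : List (Fin m → Bool) → Prop
  | [] => False
  | _ :: os => bad os ∨ Ev bad os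

lemma tele (x : Fin N → ℤˣ) (bad : List (Fin m → Bool) → Prop) : ∀ n : ℕ,
    S n (fun os => nsq (p.me x os) * ind (Ev bad os))
      ≤ ∑ c ∈ Finset.range n, S c (fun os => nsq (p.me x os) * ind (bad os))
  | 0 => by simp [S, Ev, ind]
  | n + 1 => by
    rw [Finset.sum_range_succ]
    have ih := tele x bad n
    have h1 : S (n + 1) (fun os => nsq (p.me x os) * ind (Ev bad os))
        = S n (fun os => nsq (p.me x os) * ind (bad os ∨ Ev bad os)) := by
      simp only [S]
      refine S_congr' n fun os _ => ?_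
      have : ∀ o, nsq (p.me x (o :: os)) * ind (Ev bad (o :: os))
          = nsq (p.me x (o :: os)) * ind (bad os ∨ Ev bad os) := fun o => rfl
      simp_rw [this]
      rw [← Finset.sum_mul, me_sum]
    rw [h1]
    have h2 : S n (fun os => nsq (p.me x os) * ind (bad os ∨ Ev bad os))
        ≤ S n (fun os => nsq (p.me x os) * ind (Ev bad os) + nsq (p.me x os) * ind (bad os)) := by
      refine S_mono n fun os => ?_
      rw [← mul_add]
      refine mul_le_mul_of_nonneg_left ?_ (nsq_nonneg _)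
      exact ind_le_add_of_or fun h => h.symm
    rw [S_add] at h2
    linarith

/-! ### The good relation -/

/-- The set is light for the circuit of the history. -/
def SG (h : List (Bool × (Fin m → Bool))) (S : Finset (Fin N)) : Prop :=
  (p.ctl h).c = 0 → Sgd p.t m (p.ctl h).s.Z (p.Dc (p.ctl h).os) S

/-- The good relation. -/
def G (a b' : List (Bool × (Fin m → Bool))) : Prop :=
  Disjoint (p.ctl a).s.R (p.ctl b').s.R ∧ (∀ h', h' <:+ b' → p.SG h' (p.ctl a).s.R) ∧
    ∀ h', h' <:+ a → p.SG h' (p.ctl b').s.R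

lemma G_symm {a b' : List (Bool × (Fin m → Bool))} (h : p.G a b') : p.G b' a :=
  ⟨h.1.symm, h.2.2, h.2.1⟩

lemma Sgd_mono {Z : Adm N} {D : List Gate} {S S' : Finset (Fin N)} (hS : S ⊆ S')
    (h : Sgd p.t m Z D S') : Sgd p.t m Z D S := by
  intro i hi
  refine lt_of_le_of_lt (Pb_mono fun z hz => ⟨?_, hz.2⟩) (h i hi)
  exact hz.1.trans (Wi_mono Z D i hS z)

lemma G_l (w : Bool × (Fin m → Bool)) (a b' : List (Bool × (Fin m → Bool)))
    (h : p.G (w :: a) b') : p.G a b' := by
  have hsub : (p.ctl a).s.R ⊆ (p.ctl (w :: a)).s.R := p.rds.mono a w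
  refine ⟨h.1.mono_left hsub, fun h' hh' hc => p.Sgd_mono hsub (h.2.1 h' hh' hc), fun h' hh' => ?_⟩
  exact h.2.2 h' (hh'.trans (List.suffix_cons w a))

lemma clo : Clo p.G where
  l := p.G_l
  r := fun w a b' h => p.G_symm (p.G_l w b' a (p.G_symm h))

end Par

end Pool.Agent.W938.CQ
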