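import Pool.Agent.W938.CQ.Bnd1

/-!
# The collision bounds
-/

set_option autoImplicit false
set_option linter.unusedSectionVars false

namespace Pool.Agent.W938.CQ

open Finset Pool.Agent.H722R2.AA Pool.Agent.H746R2.AA Pool.Agent.H703R2.AA Pool.Agent.H703R2.AA.Pr
open Pool.Agent.H703R2.AB
open Pool.Agent.H620R2.Gauge Pool.Agent.W938.Hyb
open Pool.Agent.H889R3.RQ (DTree)

variable {b m N : ℕ}

section Gen

variable {κ ι W : Type*} [Fintype κ] [DecidableEq κ] [Fintype ι] [DecidableEq ι] [Fintype W]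
variable (P : Pr κ ι W)

lemma Ex_z_le' (s t : ℕ) : Ex (fun x => S t (fun a => ∑ k, nsq (P.z s k a x))) ≤ 1 := by
  rcases lt_or_ge s t with h | h
  · exact Ex_z_le P s t h
  · refine Ex_le_const fun x => ?_
    have : S t (fun a => ∑ k, nsq (P.z s k a x)) = 0 := by
      rw [← S_zero_fun (W := W) t]
      refine S_congr' t fun a ha => Finset.sum_eq_zero fun k _ => ?_
      rw [P.z_short s k a x (by omega), nsq_zero]
    rw [this]
    exact zero_le_one

lemma Ex_ztq_le' (Q : Finset ℕ) (T : ℕ) :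
    Ex (fun x => S T (fun a => ∑ k, nsq (ztq P Q k a x))) ≤ (Q.card : ℝ) ^ 2 := by
  have h1 : ∀ x : κ → ℤˣ, S T (fun a => ∑ k, nsq (ztq P Q k a x))
      ≤ Q.card * ∑ s ∈ Q, S T (fun a => ∑ k, nsq (P.z s k a x)) := by
    intro x
    rw [← S_sum, ← S_mul_left]
    refine S_mono T fun a => ?_
    rw [Finset.sum_comm, Finset.mul_sum]
    exact Finset.sum_le_sum fun k _ => nsq_ztq_le P Q k a x
  refine (Ex_mono h1).trans ?_
  rw [Ex_mul_left, Ex_sum]
  calc (Q.card : ℝ) * ∑ s ∈ Q, Ex (fun x => S T (fun a => ∑ k, nsq (P.z s k a x)))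
      ≤ (Q.card : ℝ) * ∑ _s ∈ Q, 1 := by
        refine mul_le_mul_of_nonneg_left ?_ (Nat.cast_nonneg _)
        exact Finset.sum_le_sum fun s _ => Ex_z_le' P s T
    _ = _ := by simp; ring

end Gen

/-- The weights after a flip. -/
lemma W_fl (Z : Adm N) (D : List Gate) (L : ℕ) (hL : D.length ≤ L) (i : ℕ) (k : Fin N)
    (y : Fin N → ℤˣ) :
    Wi Z b m D i {k} (fl k y) ≤ 2 * Wi Z b m D i {k} y
      + 8 * L * ∑ i' ∈ Finset.range L, Wi Z b m D i' {k} y := by
  have hs0 : 0 ≤ ∑ i' ∈ Finset.range L, Wi Z b m D i' {k} y :=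
    Finset.sum_nonneg fun i' _ => Wi_nonneg Z D i' _ y
  rcases lt_or_ge i D.length with hi | hi
  · have hg : D[i]? = some D[i] := List.getElem?_eq_getElem hi
    have a1 := sqrt_WS_sub_le Z (b := b) (m := m) (D.take i) D[i] {k} (fl k y) y
    have a2 := hyb Z (b := b) (m := m) D y (fl k y) i
    have a3 : nrm (fun q => Js Z b m (D.take i) (fl k y) q - Js Z b m (D.take i) y q)
        = nrm (fun q => Js Z b m (D.take i) y q - Js Z b m (D.take i) (fl k y) q) := by
      unfold nrm nsq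
      congr 1
      exact Finset.sum_congr rfl fun q _ => by ring
    rw [a3] at a1
    have hdf : df y (fl k y) ⊆ {k} := by
      intro l hl
      unfold df at hl
      rw [Finset.mem_filter] at hl
      rw [Finset.mem_singleton]
      by_contra hlk
      apply hl.2
      unfold fl
      rw [Function.update_of_ne hlk]
    have e1 : ∀ z : Fin N → ℤˣ, Wi Z b m D i {k} z = WS Z b m (D.take i) D[i] {k} z := by
      intro z
      unfold Wi
      rw [hg]
    rw [e1, e1]
    set u := Real.sqrt (WS Z b m (D.take i) D[i] {k} (fl k y)) with hu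
    set v := Real.sqrt (WS Z b m (D.take i) D[i] {k} y) with hv
    set s := ∑ i' ∈ Finset.range i, 2 * Real.sqrt (Wi Z b m D i' (df y (fl k y)) y) with hs
    have hu0 : 0 ≤ u := Real.sqrt_nonneg _
    have hv0 : 0 ≤ v := Real.sqrt_nonneg _
    have hss0 : 0 ≤ s := Finset.sum_nonneg fun i' _ => by positivity
    have huv : u ≤ v + s := by linarith
    have hu2 : u ^ 2 = WS Z b m (D.take i) D[i] {k} (fl k y) := Real.sq_sqrt (WS_nonneg _ _ _ _ _)
    have hv2 : v ^ 2 = WS Z b m (D.take i) D[i] {k} y := Real.sq_sqrt (WS_nonneg _ _ _ _ _)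
    rw [← hu2, ← hv2]
    have hs2 : s ^ 2 ≤ 4 * L * ∑ i' ∈ Finset.range L, Wi Z b m D i' {k} y := by
      rw [hs]
      refine (sq_sum_le_card_mul_sum_sq).trans ?_
      rw [Finset.card_range]
      have e3 : ∑ i' ∈ Finset.range i, (2 * Real.sqrt (Wi Z b m D i' (df y (fl k y)) y)) ^ 2
          ≤ 4 * ∑ i' ∈ Finset.range L, Wi Z b m D i' {k} y := by
        calc ∑ i' ∈ Finset.range i, (2 * Real.sqrt (Wi Z b m D i' (df y (fl k y)) y)) ^ 2
            = ∑ i' ∈ Finset.range i, 4 * Wi Z b m D i' (df y (fl k y)) y := by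
              refine Finset.sum_congr rfl fun i' _ => ?_
              rw [mul_pow, Real.sq_sqrt (Wi_nonneg Z D i' _ y)]
              norm_num
          _ ≤ ∑ i' ∈ Finset.range i, 4 * Wi Z b m D i' {k} y := by
              refine Finset.sum_le_sum fun i' _ => ?_
              have := Wi_mono Z D (b := b) (m := m) i' hdf y
              linarith
          _ ≤ ∑ i' ∈ Finset.range L, 4 * Wi Z b m D i' {k} y := by
              refine Finset.sum_le_sum_of_subset_of_nonneg ?_ fun i' _ _ => ?_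
              · exact Finset.range_subset_range.2 (by omega)
              · have := Wi_nonneg Z D (b := b) (m := m) i' {k} y
                linarith
          _ = _ := by rw [← Finset.mul_sum]
      have h5 : (i : ℝ) ≤ L := by
        have : i ≤ L := by omega
        exact_mod_cast this
      calc (i : ℝ) * ∑ i' ∈ Finset.range i, (2 * Real.sqrt (Wi Z b m D i' (df y (fl k y)) y)) ^ 2
          ≤ L * (4 * ∑ i' ∈ Finset.range L, Wi Z b m D i' {k} y) := by
            refine mul_le_mul h5 e3 (Finset.sum_nonneg fun _ _ => by positivity) (by positivity)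
        _ = _ := by ring
    have h6 : u ^ 2 ≤ (v + s) ^ 2 := pow_le_pow_left₀ hu0 huv 2
    nlinarith [sq_nonneg (v - s)]
  · rw [Wi_long Z D i hi]
    have := Wi_nonneg Z D (b := b) (m := m) i {k} y
    positivity

namespace Par

variable (p : Par N m b)

lemma qk_H (x : Fin N → ℤˣ) (c i : ℕ) (hi : i < p.L) (h : List (Bool × (Fin m → Bool)))
    (hh : h.length = i + p.s0 + c * p.E) (k : Fin N) :
    qk p.P h k x ≤ nsq (p.P.A h x) * (p.t.H p.r
      + ind (¬ Lt (p.ctl h).s.Z b m (p.Dc (p.ctl h).os) (p.Dc (p.ctl h).os).length (p.t.H p.r) x)) := by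
  have hH := p.t.H0 p.r
  by_cases hl : Lt (p.ctl h).s.Z b m (p.Dc (p.ctl h).os) (p.Dc (p.ctl h).os).length (p.t.H p.r) x
  · have h1 := p.qk_W x c i hi h hh k
    have h2 : Wi (p.ctl h).s.Z b m (p.Dc (p.ctl h).os) i {k} x ≤ p.t.H p.r := by
      rcases lt_or_ge i (p.Dc (p.ctl h).os).length with h | h
      · exact hl i h k
      · rw [Wi_long _ _ i h]; exact hH.le
    have h3 := mul_le_mul_of_nonneg_right h2 (nsq_nonneg (p.P.A h x))
    have h4 := mul_nonneg (nsq_nonneg (p.P.A h x)) (ind_nonneg (¬ Lt (p.ctl h).s.Z b m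
      (p.Dc (p.ctl h).os) (p.Dc (p.ctl h).os).length (p.t.H p.r) x))
    rw [mul_add]
    linarith
  · have h1 := Pool.Agent.H703R2.AB.qk_le p.P h k x
    have h2 : ind (¬ Lt (p.ctl h).s.Z b m (p.Dc (p.ctl h).os) (p.Dc (p.ctl h).os).length
        (p.t.H p.r) x) = 1 := by
      unfold ind
      rw [if_pos hl]
    rw [h2]
    have h3 := mul_nonneg (nsq_nonneg (p.P.A h x)) hH.le
    rw [mul_add]
    linarith

/-- The probability of a collision of two quantum steps. -/
theorem coll (r : ℝ) (h0 : 0 ≤ r) (h1 : r ≤ 1) {s t : ℕ} (hs : s ∈ p.Qs) :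
    CG p.P p.G s t r ≤ p.t.H p.r + p.Mr * p.er := by
  obtain ⟨c, hc, i, hi, rfl⟩ := p.mem_Qs.1 hs
  have hH := p.t.H0 p.r
  set F : (Fin N → ℤˣ) → Cn N m → ℝ := fun x cn => p.t.H p.r
      + ind (¬ Lt cn.s.Z b m (p.Dc cn.os) (p.Dc cn.os).length (p.t.H p.r) x) with hF
  have hF0 : ∀ x cn, 0 ≤ F x cn := fun x cn => add_nonneg hH.le (ind_nonneg _)
  have hpt : ∀ x y, SS (i + p.s0 + c * p.E) t (fun h h' => ind (p.G h h') * ∑ k, qk p.P h k x * qk p.P h' k y)
      ≤ S (i + p.s0 + c * p.E) (fun h => nsq (p.P.A h x) * F x (p.ctl h)) := by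
    intro x y
    have e1 : SS (i + p.s0 + c * p.E) t (fun h h' => (nsq (p.P.A h x) * F x (p.ctl h)) * nsq (p.P.A h' y))
        = S (i + p.s0 + c * p.E) (fun h => nsq (p.P.A h x) * F x (p.ctl h)) := by
      rw [SS_mul, p.P.S_nsq, mul_one]
    rw [← e1]
    refine SS_mono' _ _ fun h h' hh hh' => ?_
    have hq0 : 0 ≤ ∑ k, qk p.P h k x * qk p.P h' k y :=
      Finset.sum_nonneg fun k _ => mul_nonneg (qk_nonneg _ _ _ _) (qk_nonneg _ _ _ _)
    have h2 : ind (p.G h h') * ∑ k, qk p.P h k x * qk p.P h' k y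
        ≤ ∑ k, qk p.P h k x * qk p.P h' k y := by
      have := mul_le_mul_of_nonneg_right (ind_le_one (p.G h h')) hq0
      linarith
    refine h2.trans ?_
    have hA := mul_nonneg (nsq_nonneg (p.P.A h x)) (hF0 x (p.ctl h))
    calc ∑ k, qk p.P h k x * qk p.P h' k y
        ≤ ∑ k, (nsq (p.P.A h x) * F x (p.ctl h)) * qk p.P h' k y := by
          refine Finset.sum_le_sum fun k _ => ?_
          exact mul_le_mul_of_nonneg_right (p.qk_H x c i hi h hh k) (qk_nonneg _ _ _ _)
      _ = (nsq (p.P.A h x) * F x (p.ctl h)) * ∑ k, qk p.P h' k y := by rw [Finset.mul_sum]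
      _ ≤ _ := mul_le_mul_of_nonneg_left (sum_qk_le p.P h' y) hA
  unfold CG
  refine (PE_mono h0 h1 hpt).trans ?_
  rw [PE_left]
  have e2 : ∀ x, S (i + p.s0 + c * p.E) (fun h => nsq (p.P.A h x) * F x (p.ctl h))
      ≤ p.t.H p.r + S c (fun os => ind (¬ Lt (p.za x os).Z b m (p.Dc os) (p.Dc os).length
        (p.t.H p.r) x)) := by
    intro x
    rw [p.SA x c i hi.le (F x)]
    have e3 : ∀ os, nsq (p.me x os) * F x (p.can x i os) = p.t.H p.r * nsq (p.me x os)
        + nsq (p.me x os) * ind (¬ Lt (p.za x os).Z b m (p.Dc os) (p.Dc os).length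
        (p.t.H p.r) x) := by
      intro os
      simp only [hF, can]
      ring
    simp_rw [e3]
    rw [S_add, S_mul_left, p.S_me, mul_one]
    refine add_le_add le_rfl (S_mono c fun os => ?_)
    have := mul_le_mul_of_nonneg_right (p.me_le x os) (ind_nonneg (¬ Lt (p.za x os).Z b m (p.Dc os)
      (p.Dc os).length (p.t.H p.r) x))
    linarith
  refine (Ex_mono e2).trans ?_
  rw [Ex_add, Ex_const, Ex_S]
  refine add_le_add le_rfl ?_
  exact p.S_rec_le c hc.le _ _ p.er_nonneg fun os => p.za_light os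

/-! ### The positions read by the other run -/

/-- The bound for the weights of light sets. -/
noncomputable def k1 : ℝ := (1 + 2 * (p.L : ℝ)) ^ 2 * (9 / 4 * p.t.κ)

/-- The bound for the weights after a flip. -/
noncomputable def k2 : ℝ := (2 + 8 * (p.L : ℝ) ^ 2) * p.k1

lemma k1_pos : 0 < p.k1 := by
  unfold k1
  have := p.t.κ0
  positivity

lemma k1_le_k2 : p.k1 ≤ p.k2 := by
  unfold k2
  have := p.k1_pos
  have h : (0 : ℝ) ≤ (p.L : ℝ) ^ 2 := by positivity
  nlinarith

/-- The weight of the set is large after some change of the positions in the set. -/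
def XX (Z : Adm N) (D : List Gate) (S : Finset (Fin N)) (y : Fin N → ℤˣ) : Prop :=
  ∃ z : Fin N → ℤˣ, (∀ k ∉ S, z k = y k) ∧ ∃ i < D.length, p.k1 < Wi Z b m D i S z

lemma W_of_not_XX {Z : Adm N} {D : List Gate} {S : Finset (Fin N)} {y : Fin N → ℤˣ}
    (h : ¬ p.XX Z D S y) (z : Fin N → ℤˣ) (hz : ∀ k ∉ S, z k = y k) (i : ℕ) :
    Wi Z b m D i S z ≤ p.k1 := by
  rcases lt_or_ge i D.length with hi | hi
  · by_contra hc
    push Not at hc
    exact h ⟨z, hz, i, hi, hc⟩
  · rw [Wi_long Z D i hi]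
    exact p.k1_pos.le

/-- The weights of the positions of a light set after flips. -/
lemma U0 {Z : Adm N} {D : List Gate} (hD : D.length ≤ p.L) {S : Finset (Fin N)} {y : Fin N → ℤˣ}
    (h : ¬ p.XX Z D S y) (i : ℕ) :
    ∑ k ∈ S, Wi Z b m D i {k} (fl k y) ≤ p.k2 := by
  calc ∑ k ∈ S, Wi Z b m D i {k} (fl k y)
      ≤ ∑ k ∈ S, (2 * Wi Z b m D i {k} y
        + 8 * p.L * ∑ i' ∈ Finset.range p.L, Wi Z b m D i' {k} y) :=
        Finset.sum_le_sum fun k _ => W_fl Z D p.L hD i k y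
    _ = 2 * Wi Z b m D i S y + 8 * p.L * ∑ i' ∈ Finset.range p.L, Wi Z b m D i' S y := by
        rw [Finset.sum_add_distrib, ← Finset.mul_sum, ← Finset.mul_sum, Finset.sum_comm, ← Wi_sum]
        congr 2
        exact Finset.sum_congr rfl fun i' _ => (Wi_sum Z D i' S y).symm
    _ ≤ 2 * p.k1 + 8 * p.L * ∑ _i' ∈ Finset.range p.L, p.k1 := by
        have h1 := p.W_of_not_XX h y (fun _ _ => rfl) i
        have h2 : ∑ i' ∈ Finset.range p.L, Wi Z b m D i' S y ≤ ∑ _i' ∈ Finset.range p.L, p.k1 :=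
          Finset.sum_le_sum fun i' _ => p.W_of_not_XX h y (fun _ _ => rfl) i'
        have h3 : (0 : ℝ) ≤ 8 * p.L := by positivity
        have h4 := mul_le_mul_of_nonneg_left h2 h3
        linarith
    _ = p.k2 := by
        unfold k2
        simp
        ring

lemma A_fl_le (k : Fin N) (y : Fin N → ℤˣ) (h : List (Bool × (Fin m → Bool)))
    (hk : k ∉ (p.ctl h).s.R) (hT : h.length ≤ p.n * p.E) :
    nsq (p.P.A h (fl k y)) ≤ 2 * nsq (p.P.A h y) + 8 * nsq (ztq p.P p.Qs k h y) := by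
  have h1 : p.P.A h (fl k y) = p.P.A h y - (2 * sg y k) • ztq p.P p.Qs k h y := by
    have := p.P.A_sub (p.n * p.E) k h y hT
    rw [p.rds.sum_z k y h hk] at this
    rw [← this]; abel
  rw [h1]
  refine (nsq_sub_le _ _).trans ?_
  rw [nsq_smul]
  have h2 := sg_sq y k
  have h3 : (2 * sg y k) ^ 2 = 4 := by linear_combination 4 * h2
  rw [h3]
  linarith

/-- The pointwise bound. -/
lemma U1 (c i : ℕ) (hc : c < p.n) (hi : i < p.L) (h : List (Bool × (Fin m → Bool)))
    (hh : h.length = i + p.s0 + c * p.E) (S : Finset (Fin N))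
    (hS : Disjoint S (p.ctl h).s.R) (y : Fin N → ℤˣ) :
    ∑ k ∈ S, qk p.P h k (fl k y) ≤ p.k2 * (2 * nsq (p.P.A h y) + 8 * ∑ k, nsq (ztq p.P p.Qs k h y))
      + ∑ k ∈ S, ind (p.XX (p.ctl h).s.Z (p.Dc (p.ctl h).os) S y) * nsq (p.P.A h (fl k y)) := by
  have hk2 : 0 < p.k2 := lt_of_lt_of_le p.k1_pos p.k1_le_k2
  have hT : h.length ≤ p.n * p.E := (p.Qs_lt (p.mem_Qs.2 ⟨c, hc, i, hi, hh⟩)).le
  have hz0 : 0 ≤ ∑ k, nsq (ztq p.P p.Qs k h y) := Finset.sum_nonneg fun k _ => nsq_nonneg _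
  by_cases hX : p.XX (p.ctl h).s.Z (p.Dc (p.ctl h).os) S y
  · have h1 : ind (p.XX (p.ctl h).s.Z (p.Dc (p.ctl h).os) S y) = 1 := by
      unfold ind; rw [if_pos hX]
    rw [h1]
    have h2 : ∑ k ∈ S, qk p.P h k (fl k y) ≤ ∑ k ∈ S, 1 * nsq (p.P.A h (fl k y)) :=
      Finset.sum_le_sum fun k _ => by rw [one_mul]; exact Pool.Agent.H703R2.AB.qk_le p.P h k _
    have h3 : 0 ≤ p.k2 * (2 * nsq (p.P.A h y) + 8 * ∑ k, nsq (ztq p.P p.Qs k h y)) := by
      have := nsq_nonneg (p.P.A h y)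
      positivity
    linarith
  · have h1 : ind (p.XX (p.ctl h).s.Z (p.Dc (p.ctl h).os) S y) = 0 := by
      unfold ind; rw [if_neg hX]
    simp only [h1, zero_mul, Finset.sum_const_zero, add_zero]
    have hU := p.U0 (p.hD _) hX i
    have hkS : ∀ k ∈ S, Wi (p.ctl h).s.Z b m (p.Dc (p.ctl h).os) i {k} (fl k y) ≤ p.k2 := by
      intro k hk
      refine le_trans (Wi_mono _ _ i (Finset.singleton_subset_iff.2 hk) _) ?_
      refine (p.W_of_not_XX hX (fl k y) ?_ i).trans p.k1_le_k2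
      intro l hl
      unfold fl
      rw [Function.update_of_ne]
      rintro rfl
      exact hl hk
    calc ∑ k ∈ S, qk p.P h k (fl k y)
        ≤ ∑ k ∈ S, Wi (p.ctl h).s.Z b m (p.Dc (p.ctl h).os) i {k} (fl k y)
          * (2 * nsq (p.P.A h y) + 8 * nsq (ztq p.P p.Qs k h y)) := by
          refine Finset.sum_le_sum fun k hk => ?_
          refine (p.qk_W (fl k y) c i hi h hh k).trans ?_
          refine mul_le_mul_of_nonneg_left ?_ (Wi_nonneg _ _ _ _ _)
          exact p.A_fl_le k y h (Finset.disjoint_left.1 hS hk) hT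
      _ = 2 * nsq (p.P.A h y) * (∑ k ∈ S, Wi (p.ctl h).s.Z b m (p.Dc (p.ctl h).os) i {k} (fl k y))
          + 8 * ∑ k ∈ S, Wi (p.ctl h).s.Z b m (p.Dc (p.ctl h).os) i {k} (fl k y)
            * nsq (ztq p.P p.Qs k h y) := by
          rw [Finset.mul_sum, Finset.mul_sum, ← Finset.sum_add_distrib]
          exact Finset.sum_congr rfl fun k _ => by ring
      _ ≤ 2 * nsq (p.P.A h y) * p.k2 + 8 * (p.k2 * ∑ k, nsq (ztq p.P p.Qs k h y)) := by
          refine add_le_add ?_ ?_
          · exact mul_le_mul_of_nonneg_left hU (by have := nsq_nonneg (p.P.A h y); positivity)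
          · refine mul_le_mul_of_nonneg_left ?_ (by norm_num)
            rw [Finset.mul_sum]
            calc _ ≤ ∑ k ∈ S, p.k2 * nsq (ztq p.P p.Qs k h y) :=
                  Finset.sum_le_sum fun k hk => mul_le_mul_of_nonneg_right (hkS k hk) (nsq_nonneg _)
              _ ≤ _ := Finset.sum_le_sum_of_subset_of_nonneg (Finset.subset_univ _)
                  fun k _ _ => mul_nonneg hk2.le (nsq_nonneg _)
      _ = _ := by ring

/-- The bad event for the remainder. -/
noncomputable def HH (os : List (Fin m → Bool)) (S : Finset (Fin N)) (y : Fin N → ℤˣ) : ℝ :=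
  ind (∃ z : Fin N → ℤˣ, (∀ k ∉ S, z k = y k) ∧ Disjoint S (p.za z os).R
    ∧ Sgd p.t m (p.za z os).Z (p.Dc os) S ∧ p.XX (p.za z os).Z (p.Dc os) S y)

lemma XX_congr {Z : Adm N} {D : List Gate} {S : Finset (Fin N)} {y y' : Fin N → ℤˣ}
    (h : ∀ k ∉ S, y k = y' k) (hX : p.XX Z D S y) : p.XX Z D S y' := by
  obtain ⟨z, hz, hi⟩ := hX
  exact ⟨z, fun k hk => (hz k hk).trans (h k hk), hi⟩

lemma HH_indep (os : List (Fin m → Bool)) (S : Finset (Fin N)) : ∀ k ∈ S, ∀ y u,
    p.HH os S (Function.update y k u) = p.HH os S y := by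
  intro k hk y u
  have hne : ∀ l ∉ S, Function.update y k u l = y l := by
    intro l hl
    rw [Function.update_of_ne]
    rintro rfl
    exact hl hk
  refine ind_congr ⟨?_, ?_⟩
  · rintro ⟨z, h1, h2, h3, h4⟩
    exact ⟨z, fun l hl => (h1 l hl).trans (hne l hl), h2, h3, p.XX_congr hne h4⟩
  · rintro ⟨z, h1, h2, h3, h4⟩
    exact ⟨z, fun l hl => (h1 l hl).trans (hne l hl).symm, h2, h3,
      p.XX_congr (fun l hl => (hne l hl).symm) h4⟩

/-- The bound for the probability of the bad event. -/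
noncomputable def eH : ℝ := 4 * p.er + 2 * p.L * Real.exp (-p.t.Λ)

lemma eH_nonneg : 0 ≤ p.eH := by
  unfold eH
  have := p.er_nonneg
  positivity

lemma Natl_XX (D : List Gate) (S : Finset (Fin N)) :
    Natl (fun (s : RS N) y => ind (Sgd p.t m s.Z D S ∧ p.XX s.Z D S y)) := by
  intro s hs k hk x u
  have key : ∀ (x : Fin N → ℤˣ) (u : ℤˣ), p.XX s.Z D S x → p.XX s.Z D S (Function.update x k u) := by
    rintro x u ⟨z, hz, i, hi, hW⟩
    refine ⟨Function.update z k u, fun l hl => ?_, i, hi, ?_⟩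
    · by_cases hlk : l = k
      · subst hlk; rw [Function.update_self, Function.update_self]
      · rw [Function.update_of_ne hlk, Function.update_of_ne hlk, hz l hl]
    · rw [Wi_congr s.Z D i S ((hs k hk).bx z u)]
      exact hW
  refine ind_congr (and_congr_right fun _ => ⟨fun h => ?_, key x u⟩)
  have := key _ (x k) h
  rwa [Function.update_idem, Function.update_eq_self] at this

lemma HH_le (os : List (Fin m → Bool)) (S : Finset (Fin N)) : Ex (p.HH os S) ≤ p.eH := by
  have h1 : ∀ y, p.HH os S y ≤ ind (Sgd p.t m (p.za y os).Z (p.Dc os) S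
      ∧ p.XX (p.za y os).Z (p.Dc os) S y) := by
    intro y
    refine ind_mono ?_
    rintro ⟨z, h1, h2, h3, h4⟩
    have e : p.za y os = p.za z os := by
      rw [p.za_run, p.za_run]
      refine run_agree _ _ z y (fun k hk _ => ?_) (p.Fresh_ta os)
      apply h1
      intro hkS
      rw [← p.za_run] at hk
      exact Finset.disjoint_left.1 h2 hkS hk
    rw [e]
    exact ⟨h3, h4⟩
  refine (Ex_mono h1).trans ?_
  rw [p.TLa os (fun s y => ind (Sgd p.t m s.Z (p.Dc os) S ∧ p.XX s.Z (p.Dc os) S y))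
    (p.Natl_XX _ _)]
  have h2 : ∀ x, Ex (fun z => ind (Sgd p.t m (p.za x os).Z (p.Dc os) S
      ∧ p.XX (p.za x os).Z (p.Dc os) S z))
      ≤ 4 * Ex (fun z => ind (¬ Lt (p.za x os).Z b m (p.Dc os) (p.Dc os).length (p.t.H p.r) z))
        + 2 * p.L * Real.exp (-p.t.Λ) := by
    intro x
    by_cases hS : Sgd p.t m (p.za x os).Z (p.Dc os) S
    · refine le_trans ?_ (Sgd_hi p.t m (p.Dc os) (p.B os) (p.hB os) (p.hD os) _ S hS)
      exact Ex_mono fun z => ind_mono fun h => h.2
    · have h3 : Ex (fun z => ind (Sgd p.t m (p.za x os).Z (p.Dc os) S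
        ∧ p.XX (p.za x os).Z (p.Dc os) S z)) ≤ 0 := by
        refine Ex_le_const fun z => ?_
        unfold ind
        rw [if_neg (fun h => hS h.1)]
      have h4 : 0 ≤ Ex (fun z => ind (¬ Lt (p.za x os).Z b m (p.Dc os) (p.Dc os).length
        (p.t.H p.r) z)) := Ex_nonneg fun z => ind_nonneg _
      have h5 : 0 ≤ 2 * (p.L : ℝ) * Real.exp (-p.t.Λ) := by positivity
      linarith
  refine (Ex_mono h2).trans ?_
  rw [Ex_add, Ex_mul_left, Ex_const,
    ← p.TLa os (fun s z => ind (¬ Lt s.Z b m (p.Dc os) (p.Dc os).length (p.t.H p.r) z))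
      (Natl_Lt _ _ _)]
  have h3 := p.za_light os
  unfold Pb at h3
  unfold eH
  linarith

/-- The remainder for one history. -/
lemma U2 (c i : ℕ) (hi : i < p.L) (a : List (Bool × (Fin m → Bool))) (hc : c < p.n)
    (y : Fin N → ℤˣ) :
    S (i + p.s0 + c * p.E) (fun h => ind (p.G a h) * ∑ k ∈ (p.ctl a).s.R,
        ind (p.XX (p.ctl h).s.Z (p.Dc (p.ctl h).os) (p.ctl a).s.R y) * nsq (p.P.A h (fl k y)))
      ≤ N * S c (fun os => p.HH os (p.ctl a).s.R y) := by
  set S' := (p.ctl a).s.R with hS'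
  set F : Cn N m → ℝ := fun cn => ind (Disjoint S' cn.s.R ∧ Sgd p.t m cn.s.Z (p.Dc cn.os) S'
    ∧ p.XX cn.s.Z (p.Dc cn.os) S' y) with hF
  have h1 : S (i + p.s0 + c * p.E) (fun h => ind (p.G a h) * ∑ k ∈ S',
        ind (p.XX (p.ctl h).s.Z (p.Dc (p.ctl h).os) S' y) * nsq (p.P.A h (fl k y)))
      ≤ ∑ k ∈ S', S (i + p.s0 + c * p.E) (fun h => nsq (p.P.A h (fl k y)) * F (p.ctl h)) := by
    rw [← S_sum]
    refine S_mono' _ fun h hh => ?_
    rw [Finset.mul_sum]
    refine Finset.sum_le_sum fun k _ => ?_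
    have hcz : (p.ctl h).c = 0 := p.c_Q (p.mem_Qs.2 ⟨c, hc, i, hi, hh⟩)
    have h2 : ind (p.G a h) * ind (p.XX (p.ctl h).s.Z (p.Dc (p.ctl h).os) S' y) ≤ F (p.ctl h) := by
      by_cases hG : p.G a h
      · by_cases hX : p.XX (p.ctl h).s.Z (p.Dc (p.ctl h).os) S' y
        · have : F (p.ctl h) = 1 := by
            simp only [hF]
            unfold ind
            rw [if_pos]
            exact ⟨hG.1, hG.2.1 h (List.suffix_refl h) hcz, hX⟩
          rw [this]
          exact mul_le_one₀ (ind_le_one _) (ind_nonneg _) (ind_le_one _)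
        · have : ind (p.XX (p.ctl h).s.Z (p.Dc (p.ctl h).os) S' y) = 0 := by
            unfold ind; rw [if_neg hX]
          rw [this, mul_zero]
          exact ind_nonneg _
      · have : ind (p.G a h) = 0 := by unfold ind; rw [if_neg hG]
        rw [this, zero_mul]
        exact ind_nonneg _
    have h3 := mul_le_mul_of_nonneg_right h2 (nsq_nonneg (p.P.A h (fl k y)))
    calc _ = ind (p.G a h) * ind (p.XX (p.ctl h).s.Z (p.Dc (p.ctl h).os) S' y)
          * nsq (p.P.A h (fl k y)) := by ring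
      _ ≤ _ := h3.trans (le_of_eq (mul_comm _ _))
  refine h1.trans ?_
  have h2 : ∀ k ∈ S', S (i + p.s0 + c * p.E) (fun h => nsq (p.P.A h (fl k y)) * F (p.ctl h))
      ≤ S c (fun os => p.HH os S' y) := by
    intro k hk
    rw [p.SA (fl k y) c i hi.le F]
    refine S_mono c fun os => ?_
    have h3 : F (p.can (fl k y) i os) ≤ p.HH os S' y := by
      refine ind_mono ?_
      rintro ⟨a1, a2, a3⟩
      refine ⟨fl k y, fun l hl => ?_, a1, a2, a3⟩
      unfold fl
      rw [Function.update_of_ne]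
      rintro rfl
      exact hl hk
    have h4 := p.me_le (fl k y) os
    have h5 : 0 ≤ F (p.can (fl k y) i os) := ind_nonneg _
    have h6 := mul_le_mul_of_nonneg_right h4 h5
    linarith
  refine (Finset.sum_le_sum h2).trans ?_
  rw [Finset.sum_const, nsmul_eq_mul]
  have h7 : 0 ≤ S c (fun os => p.HH os S' y) := S_nonneg c fun os => ind_nonneg _
  refine mul_le_mul_of_nonneg_right ?_ h7
  have : S'.card ≤ N := by
    have := Finset.card_le_univ S'
    rwa [Fintype.card_fin] at this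
  exact_mod_cast this

/-- The weight of the positions read by the other run. -/
theorem coll2 (r : ℝ) (h0 : 0 ≤ r) (h1 : r ≤ 1) {t : ℕ} (ht : t ∈ p.Qs) :
    UG p.P p.G (fun h => (p.ctl h).s.R) (p.n * p.E) t r
      ≤ p.k2 * (2 + 8 * (p.Qs.card : ℝ) ^ 2) + N * (p.Mr * (p.Mr * p.eH)) := by
  obtain ⟨c, hc, i, hi, rfl⟩ := p.mem_Qs.1 ht
  set t := i + p.s0 + c * p.E with htd
  have hk2 : 0 < p.k2 := lt_of_lt_of_le p.k1_pos p.k1_le_k2
  set V : (Fin N → ℤˣ) → ℝ := fun y => p.k2 * (2 + 8 * S t (fun h => ∑ k, nsq (ztq p.P p.Qs k h y)))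
    with hV
  have hpt : ∀ x y, S (p.n * p.E) (fun a => S t (fun h' => ind (p.G a h')
      * (nsq (p.P.A a x) * ∑ k ∈ (p.ctl a).s.R, qk p.P h' k (fl k y))))
      ≤ V y + N * S p.n (fun os => S c (fun os' => p.HH os' (p.zb x os).R y)) := by
    intro x y
    have h2 : ∀ a, S t (fun h' => ind (p.G a h')
        * (nsq (p.P.A a x) * ∑ k ∈ (p.ctl a).s.R, qk p.P h' k (fl k y)))
        ≤ V y * nsq (p.P.A a x) + N * (nsq (p.P.A a x) * S c (fun os' => p.HH os' (p.ctl a).s.R y)) := by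
      intro a
      have hA := nsq_nonneg (p.P.A a x)
      have e1 : S t (fun h' => ind (p.G a h')
          * (nsq (p.P.A a x) * ∑ k ∈ (p.ctl a).s.R, qk p.P h' k (fl k y)))
          = nsq (p.P.A a x) * S t (fun h' => ind (p.G a h')
            * ∑ k ∈ (p.ctl a).s.R, qk p.P h' k (fl k y)) := by
        rw [← S_mul_left]
        exact S_congr' t fun h' _ => by ring
      rw [e1]
      have h3 : S t (fun h' => ind (p.G a h') * ∑ k ∈ (p.ctl a).s.R, qk p.P h' k (fl k y))
          ≤ V y + N * S c (fun os' => p.HH os' (p.ctl a).s.R y) := by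
        have h4 : S t (fun h' => ind (p.G a h') * ∑ k ∈ (p.ctl a).s.R, qk p.P h' k (fl k y))
            ≤ S t (fun h' => p.k2 * (2 * nsq (p.P.A h' y) + 8 * ∑ k, nsq (ztq p.P p.Qs k h' y))
              + ind (p.G a h') * ∑ k ∈ (p.ctl a).s.R,
                ind (p.XX (p.ctl h').s.Z (p.Dc (p.ctl h').os) (p.ctl a).s.R y)
                  * nsq (p.P.A h' (fl k y))) := by
          refine S_mono' t fun h' hh' => ?_
          have hn0 : 0 ≤ p.k2 * (2 * nsq (p.P.A h' y) + 8 * ∑ k, nsq (ztq p.P p.Qs k h' y)) := by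
            have := nsq_nonneg (p.P.A h' y)
            have : 0 ≤ ∑ k, nsq (ztq p.P p.Qs k h' y) := Finset.sum_nonneg fun k _ => nsq_nonneg _
            positivity
          by_cases hG : p.G a h'
          · have e2 : ind (p.G a h') = 1 := by unfold ind; rw [if_pos hG]
            rw [e2, one_mul, one_mul]
            exact p.U1 c i hc hi h' hh' _ hG.1 y
          · have e2 : ind (p.G a h') = 0 := by unfold ind; rw [if_neg hG]
            rw [e2, zero_mul, zero_mul, add_zero]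
            exact hn0
        refine h4.trans ?_
        rw [S_add]
        refine add_le_add (le_of_eq ?_) (p.U2 c i hi a hc y)
        rw [S_mul_left, S_add, S_mul_left, S_mul_left, p.P.S_nsq, mul_one]
      have h5 := mul_le_mul_of_nonneg_left h3 hA
      refine h5.trans (le_of_eq ?_)
      ring
    refine (S_mono _ h2).trans ?_
    rw [S_add, S_mul_left, p.P.S_nsq, mul_one, S_mul_left]
    refine add_le_add le_rfl (mul_le_mul_of_nonneg_left ?_ (Nat.cast_nonneg _))
    rw [p.SB x p.n (fun cn => S c (fun os' => p.HH os' cn.s.R y))]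
    refine S_mono _ fun os => ?_
    have h6 : 0 ≤ S c (fun os' => p.HH os' (p.zb x os).R y) := S_nonneg c fun os => ind_nonneg _
    have h7 := mul_le_mul_of_nonneg_right (p.me_le x os) h6
    change nsq (p.me x os) * S c (fun os' => p.HH os' (p.zb x os).R y) ≤ _
    linarith
  unfold UG
  refine (PE_mono h0 h1 hpt).trans ?_
  rw [PE_add, PE_right, PE_mul_left]
  refine add_le_add ?_ (mul_le_mul_of_nonneg_left ?_ (Nat.cast_nonneg _))
  · rw [Ex_mul_left, Ex_add, Ex_const, Ex_mul_left]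
    have := Ex_ztq_le' p.P p.Qs t
    have h2 : (2 : ℝ) + 8 * Ex (fun x => S t (fun a => ∑ k, nsq (ztq p.P p.Qs k a x)))
        ≤ 2 + 8 * (p.Qs.card : ℝ) ^ 2 := by linarith
    exact mul_le_mul_of_nonneg_left h2 hk2.le
  · rw [PE_S]
    have hM := p.Mr_ge
    refine p.S_rec_le p.n le_rfl _ _ (mul_nonneg (by linarith) p.eH_nonneg) fun os => ?_
    rw [PE_S]
    refine p.S_rec_le c hc.le _ _ p.eH_nonneg fun os' => ?_
    have h2 := PTL (p.HH os') (p.HH_indep os') p.eH (p.HH_le os') r (p.tb os) p.si (p.Fresh_tb os)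
      (fun _ => 1) (fun _ => zero_le_one) (fun _ _ _ _ => rfl)
    rw [Ex_const, one_mul] at h2
    refine le_trans (le_of_eq ?_) h2
    refine PE_congr fun x y => ?_
    rw [one_mul, p.zb_run]

lemma UG_swap (t : ℕ) (r : ℝ) :
    UG p.P (fun a b' => p.G b' a) (fun h => (p.ctl h).s.R) (p.n * p.E) t r
      = UG p.P p.G (fun h => (p.ctl h).s.R) (p.n * p.E) t r := by
  unfold UG
  refine PE_congr fun x y => ?_
  refine S_congr' _ fun a _ => S_congr' _ fun h' _ => ?_
  rw [ind_congr (⟨p.G_symm, p.G_symm⟩ : p.G h' a ↔ p.G a h')]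

end Par

end Pool.Agent.W938.CQ
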