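import Pool.Agent.W938.CQ.Bnd2

/-!
# The probability of bad pairs
-/

set_option autoImplicit false
set_option linter.unusedSectionVars false

namespace Pool.Agent.W938.CQ

open Finset Pool.Agent.H722R2.AA Pool.Agent.H746R2.AA Pool.Agent.H703R2.AA Pool.Agent.H703R2.AA.Pr
open Pool.Agent.H703R2.AB
open Pool.Agent.H620R2.Gauge Pool.Agent.W938.Hyb
open Pool.Agent.H889R3.RQ (DTree)

variable {b m N : ℕ}

lemma ind_one {q : Prop} (h : q) : ind q = 1 := by unfold ind; rw [if_pos h]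

lemma ind_zero {q : Prop} (h : ¬ q) : ind q = 0 := by unfold ind; rw [if_neg h]

lemma ind_and (q q' : Prop) : ind (q ∧ q') = ind q * ind q' := by
  by_cases h : q
  · by_cases h' : q'
    · rw [ind_one h, ind_one h', ind_one ⟨h, h'⟩, one_mul]
    · rw [ind_zero h', ind_zero (fun h2 : q ∧ q' => h' h2.2), mul_zero]
  · rw [ind_zero h, ind_zero (fun h2 : q ∧ q' => h h2.1), zero_mul]

lemma sum_ind_mem (R : Finset (Fin N)) : ∑ k, ind (k ∈ R) = R.card := by
  rw [← Finset.sum_subset (Finset.subset_univ R) (fun k _ hk => ind_zero hk),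
    Finset.sum_congr rfl (fun k hk => ind_one hk)]
  simp

namespace Par

variable (p : Par N m b)

/-- The weights of the positions. -/
noncomputable def mu (c i : ℕ) (k : Fin N) : ℝ :=
  Ex (fun x => S c (fun os => nsq (p.me x os) * Wi p.Z b m (p.Dc os) i {k} x))

lemma mu_nonneg (c i : ℕ) (k : Fin N) : 0 ≤ p.mu c i k :=
  Ex_nonneg fun _ => S_nonneg _ fun _ => mul_nonneg (nsq_nonneg _) (Wi_nonneg _ _ _ _ _)

/-- The bound for reading a position of small weight. -/
noncomputable def rb' : ℝ := p.r * (4 * N * Real.exp (-p.t.Λ))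

lemma rb'_nonneg : 0 ≤ p.rb' := by unfold rb'; positivity

lemma read1 (c : ℕ) (hc : c ≤ p.n) (k : Fin N) :
    Ex (fun x => S c (fun os => nsq (p.me x os) * ind (k ∈ (p.za x os).R ∧ k ∉ (p.zb x os).R)))
      ≤ 4 / p.t.c 0 * ∑ i ∈ Finset.range p.L, p.mu c i k + p.Mr * p.rb' := by
  have hc0 := p.t.c0 0
  have hpt : ∀ x, S c (fun os => nsq (p.me x os) * ind (k ∈ (p.za x os).R ∧ k ∉ (p.zb x os).R))
      ≤ 4 / p.t.c 0 * ∑ i ∈ Finset.range p.L, S c (fun os => nsq (p.me x os)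
        * Wi p.Z b m (p.Dc os) i {k} x) + S c (fun os => ind (p.bd os x)) := by
    intro x
    rw [← S_sum, ← S_mul_left, ← S_add]
    refine S_mono c fun os => ?_
    have hme := nsq_nonneg (p.me x os)
    have hme1 := p.me_le x os
    have hW0 : ∀ i, 0 ≤ Wi p.Z b m (p.Dc os) i {k} x := fun i => Wi_nonneg _ _ _ _ _
    have hs0 : 0 ≤ ∑ i ∈ Finset.range p.L, nsq (p.me x os) * Wi p.Z b m (p.Dc os) i {k} x :=
      Finset.sum_nonneg fun i _ => mul_nonneg hme (hW0 i)
    have hb0 := ind_nonneg (p.bd os x)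
    by_cases hk : k ∈ (p.za x os).R ∧ k ∉ (p.zb x os).R
    · rw [ind_one hk, mul_one]
      by_cases hb : p.bd os x
      · rw [ind_one hb]
        have : 0 ≤ 4 / p.t.c 0 * ∑ i ∈ Finset.range p.L, nsq (p.me x os)
          * Wi p.Z b m (p.Dc os) i {k} x := by positivity
        linarith
      · have h2 : ∃ i < (p.Dc os).length, p.t.c 0 / 4 ≤ Wi (p.zb x os).Z b m (p.Dc os) i {k} x := by
          by_contra hcon
          push Not at hcon
          exact hb ⟨k, hk.1, hk.2, hcon⟩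
        obtain ⟨i, hi, hW⟩ := h2
        have hiL : i < p.L := lt_of_lt_of_le hi (p.hD os)
        have h3 := hW.trans (p.W_zb_le x os (p.Dc os) i {k})
        have h4 : nsq (p.me x os) * Wi p.Z b m (p.Dc os) i {k} x
            ≤ ∑ i ∈ Finset.range p.L, nsq (p.me x os) * Wi p.Z b m (p.Dc os) i {k} x :=
          Finset.single_le_sum (f := fun i => nsq (p.me x os) * Wi p.Z b m (p.Dc os) i {k} x)
            (fun i _ => mul_nonneg hme (hW0 i)) (Finset.mem_range.2 hiL)
        have h5 : nsq (p.me x os) * (p.t.c 0 / 4) ≤ nsq (p.me x os) * Wi p.Z b m (p.Dc os) i {k} x :=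
          mul_le_mul_of_nonneg_left h3 hme
        have h6 : nsq (p.me x os) ≤ 4 / p.t.c 0 * ∑ i ∈ Finset.range p.L, nsq (p.me x os)
            * Wi p.Z b m (p.Dc os) i {k} x := by
          have h7 := mul_le_mul_of_nonneg_left (h5.trans h4)
            (by positivity : (0 : ℝ) ≤ 4 / p.t.c 0)
          have e : 4 / p.t.c 0 * (nsq (p.me x os) * (p.t.c 0 / 4)) = nsq (p.me x os) := by
            field_simp
          rw [e] at h7
          exact h7
        linarith
    · rw [ind_zero hk, mul_zero]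
      have : 0 ≤ 4 / p.t.c 0 * ∑ i ∈ Finset.range p.L, nsq (p.me x os)
          * Wi p.Z b m (p.Dc os) i {k} x := by positivity
      linarith
  refine (Ex_mono hpt).trans ?_
  rw [Ex_add, Ex_mul_left, Ex_sum, Ex_S]
  refine add_le_add le_rfl ?_
  exact p.S_rec_le c hc _ _ p.rb'_nonneg fun os => p.bd_le os

lemma Ev_read (x : Fin N → ℤˣ) (k : Fin N) : ∀ os : List (Fin m → Bool), k ∈ (p.zb x os).R →
    Ev (fun os => k ∈ (p.za x os).R ∧ k ∉ (p.zb x os).R) os
  | [], h => absurd h (Finset.notMem_empty k)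
  | o :: os, h => by
    have h' : k ∈ (p.za x os).R := h
    by_cases hk : k ∈ (p.zb x os).R
    · exact Or.inr (Ev_read x k os hk)
    · exact Or.inl ⟨h', hk⟩

variable (θ : ℝ) (hθ : 0 < θ) (hlt : ∀ c < p.n, ∀ i < p.L, ∀ k, p.mu c i k ≤ θ)
include hθ hlt

/-- The probability that a position is read. -/
lemma readp (k : Fin N) : S (p.n * p.E) (fun a => ind (k ∈ (p.ctl a).s.R) * p.P.p a)
    ≤ p.n * (4 / p.t.c 0 * (p.L * θ) + p.Mr * p.rb') := by
  have hc0 := p.t.c0 0
  have e1 : S (p.n * p.E) (fun a => ind (k ∈ (p.ctl a).s.R) * p.P.p a)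
      = Ex (fun x => S p.n (fun os => nsq (p.me x os) * ind (k ∈ (p.zb x os).R))) := by
    have h1 : ∀ x, S p.n (fun os => nsq (p.me x os) * ind (k ∈ (p.zb x os).R))
        = S (p.n * p.E) (fun a => nsq (p.P.A a x) * ind (k ∈ (p.ctl a).s.R)) := fun x =>
      (p.SB x p.n (fun cn => ind (k ∈ cn.s.R))).symm
    simp_rw [h1]
    rw [Ex_S]
    refine S_congr' _ fun a _ => ?_
    rw [Ex_mul_right, mul_comm]
    rfl
  rw [e1]
  have h2 : ∀ x, S p.n (fun os => nsq (p.me x os) * ind (k ∈ (p.zb x os).R))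
      ≤ ∑ c ∈ Finset.range p.n, S c (fun os => nsq (p.me x os)
        * ind (k ∈ (p.za x os).R ∧ k ∉ (p.zb x os).R)) := by
    intro x
    refine le_trans (S_mono _ fun os => ?_) (p.tele x _ p.n)
    exact mul_le_mul_of_nonneg_left (ind_mono (p.Ev_read x k os)) (nsq_nonneg _)
  refine (Ex_mono h2).trans ?_
  rw [Ex_sum]
  calc _ ≤ ∑ c ∈ Finset.range p.n, (4 / p.t.c 0 * (p.L * θ) + p.Mr * p.rb') := by
        refine Finset.sum_le_sum fun c hc => ?_
        rw [Finset.mem_range] at hc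
        refine (p.read1 c hc.le k).trans (add_le_add ?_ le_rfl)
        refine mul_le_mul_of_nonneg_left ?_ (by positivity)
        calc ∑ i ∈ Finset.range p.L, p.mu c i k ≤ ∑ _i ∈ Finset.range p.L, θ :=
              Finset.sum_le_sum fun i hi => hlt c hc i (Finset.mem_range.1 hi) k
          _ = p.L * θ := by simp
    _ = _ := by rw [Finset.sum_const, Finset.card_range, nsmul_eq_mul]

omit hθ hlt in
lemma card_R (a : List (Bool × (Fin m → Bool))) (ha : a.length = p.n * p.E) :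
    ((p.ctl a).s.R.card : ℝ) ≤ (p.n * p.s0 : ℕ) := by
  have h1 := (p.ok a).card
  have h2 := (p.ok a).c
  have h3 := (p.ok a).o
  rw [ha] at h2 h3
  rw [Nat.mul_mod_left] at h2
  rw [Nat.mul_div_cancel _ p.E_pos] at h3
  rw [h2, h3] at h1
  have h4 : (p.n + 1) * p.s0 = p.n * p.s0 + p.s0 := by ring
  have h5 : (p.ctl a).s.R.card ≤ p.n * p.s0 := by omega
  exact_mod_cast h5

omit hθ hlt in
lemma p_nonneg (a : List (Bool × (Fin m → Bool))) : 0 ≤ p.P.p a := Ex_nonneg fun _ => nsq_nonneg _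

/-- Collisions of the positions which are read. -/
lemma bad1 : SS (p.n * p.E) (p.n * p.E) (fun a b' =>
      ind (¬ Disjoint (p.ctl a).s.R (p.ctl b').s.R) * (p.P.p a * p.P.p b'))
    ≤ p.n * (4 / p.t.c 0 * (p.L * θ) + p.Mr * p.rb') * (p.n * p.s0 : ℕ) := by
  set T := p.n * p.E with hT
  have hc0 := p.t.c0 0
  set π1 : ℝ := p.n * (4 / p.t.c 0 * (p.L * θ) + p.Mr * p.rb') with hπ
  have hπ0 : 0 ≤ π1 := by
    have := p.Mr_ge
    have := p.rb'_nonneg
    positivity
  have h1 : ∀ a b' : List (Bool × (Fin m → Bool)),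
      ind (¬ Disjoint (p.ctl a).s.R (p.ctl b').s.R) * (p.P.p a * p.P.p b')
      ≤ ∑ k, (ind (k ∈ (p.ctl a).s.R) * p.P.p a) * (ind (k ∈ (p.ctl b').s.R) * p.P.p b') := by
    intro a b'
    have ha := p.p_nonneg a
    have hb := p.p_nonneg b'
    have hn : ∀ k, 0 ≤ (ind (k ∈ (p.ctl a).s.R) * p.P.p a) * (ind (k ∈ (p.ctl b').s.R) * p.P.p b') :=
      fun k => mul_nonneg (mul_nonneg (ind_nonneg _) ha) (mul_nonneg (ind_nonneg _) hb)
    by_cases hd : Disjoint (p.ctl a).s.R (p.ctl b').s.R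
    · rw [ind_zero (not_not.2 hd), zero_mul]
      exact Finset.sum_nonneg fun k _ => hn k
    · rw [ind_one hd, one_mul]
      rw [Finset.not_disjoint_iff] at hd
      obtain ⟨k, hk1, hk2⟩ := hd
      refine le_trans (le_of_eq ?_) (Finset.single_le_sum (f := fun k =>
        (ind (k ∈ (p.ctl a).s.R) * p.P.p a) * (ind (k ∈ (p.ctl b').s.R) * p.P.p b'))
        (fun k _ => hn k) (Finset.mem_univ k))
      rw [ind_one hk1, ind_one hk2, one_mul, one_mul]
  refine (SS_mono _ _ h1).trans ?_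
  rw [SS_sum]
  simp_rw [SS_mul]
  have hS0 : ∀ k : Fin N, 0 ≤ S T (fun a => ind (k ∈ (p.ctl a).s.R) * p.P.p a) := fun k =>
    S_nonneg T fun a => mul_nonneg (ind_nonneg _) (p.p_nonneg a)
  calc ∑ k, S T (fun a => ind (k ∈ (p.ctl a).s.R) * p.P.p a)
        * S T (fun b' => ind (k ∈ (p.ctl b').s.R) * p.P.p b')
      ≤ ∑ k, π1 * S T (fun b' => ind (k ∈ (p.ctl b').s.R) * p.P.p b') :=
        Finset.sum_le_sum fun k _ => mul_le_mul_of_nonneg_right (p.readp θ hθ hlt k) (hS0 k)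
    _ = π1 * S T (fun b' => ((p.ctl b').s.R.card : ℝ) * p.P.p b') := by
        rw [← Finset.mul_sum, ← S_sum]
        congr 1
        refine S_congr' T fun b' _ => ?_
        rw [← Finset.sum_mul, sum_ind_mem]
    _ ≤ π1 * (p.n * p.s0 : ℕ) := by
        refine mul_le_mul_of_nonneg_left ?_ hπ0
        calc S T (fun b' => ((p.ctl b').s.R.card : ℝ) * p.P.p b')
            ≤ S T (fun b' => ((p.n * p.s0 : ℕ) : ℝ) * p.P.p b') :=
              S_mono' T fun b' hb' => mul_le_mul_of_nonneg_right (p.card_R b' hb') (p.p_nonneg b')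
          _ = _ := by rw [S_mul_left, p.P.S_p, mul_one]

omit hθ hlt in
/-- States after the questions are canonical. -/
lemma lnk0 (x : Fin N → ℤˣ) (h : List (Bool × (Fin m → Bool))) (hc : (p.ctl h).c = 0) :
    p.P.A h x = 0 ∨ (p.ctl h).s = p.za x (p.ctl h).os := by
  have h1 := (p.ok h).c
  have hu : h.length % p.E < p.E := Nat.mod_lt _ p.E_pos
  have hEE : p.E = p.s0 + p.L + 1 := rfl
  rw [hc] at h1
  have h2 := Nat.div_add_mod h.length p.E
  rw [Nat.mul_comm] at h2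
  rcases p.lnk x (h.length / p.E) (h.length % p.E - p.s0) (by omega) h (by omega) with h3 | ⟨h3, _, _⟩
  · exact Or.inl h3
  · right
    rw [h3]
    rfl

omit hθ hlt in
/-- A bad event for an initial segment is an event for an earlier circuit. -/
lemma Ev_SG (x : Fin N → ℤˣ) (S : Finset (Fin N)) : ∀ h : List (Bool × (Fin m → Bool)),
    p.P.A h x ≠ 0 → (∃ h', h' <:+ h ∧ ¬ p.SG h' S) →
      Ev (fun os => ¬ Sgd p.t m (p.za x os).Z (p.Dc os) S) (p.ctl h).os ∨
        ((p.ctl h).c = 0 ∧ ¬ Sgd p.t m (p.za x (p.ctl h).os).Z (p.Dc (p.ctl h).os) S) := by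
  have self : ∀ h : List (Bool × (Fin m → Bool)), p.P.A h x ≠ 0 → ¬ p.SG h S →
      (p.ctl h).c = 0 ∧ ¬ Sgd p.t m (p.za x (p.ctl h).os).Z (p.Dc (p.ctl h).os) S := by
    intro h hA hS
    unfold SG at hS
    push Not at hS
    refine ⟨hS.1, ?_⟩
    rcases p.lnk0 x h hS.1 with h0 | h0
    · exact absurd h0 hA
    · rw [← h0]; exact hS.2
  intro h
  induction h with
  | nil =>
    rintro hA ⟨h', hh', hS⟩
    rw [List.suffix_nil] at hh'
    subst hh'
    exact Or.inr (self [] hA hS)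
  | cons w h ih =>
    rintro hA ⟨h', hh', hS⟩
    rcases List.suffix_cons_iff.1 hh' with rfl | hh'
    · exact Or.inr (self _ hA hS)
    · have hA' : p.P.A h x ≠ 0 := by
        intro h0
        apply hA
        change mv (p.P.Q h w x) (p.P.A h x) = 0
        rw [h0, mv_zero]
      have i1 := ih hA' ⟨h', hh', hS⟩
      rw [p.ctl_cons]
      generalize p.ctl h = cn at i1
      obtain ⟨os, s, c, τ, g, d, t⟩ := cn
      simp only at i1
      cases c with
      | succ c =>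
        rcases i1 with i1 | ⟨i1, _⟩
        · cases τ with
          | leaf β => exact Or.inl i1
          | ask q t0 t1 => exact Or.inl i1
        · exact absurd i1 (Nat.succ_ne_zero c)
      | zero => cases g with
        | succ g => cases t with
          | nil => exact i1.imp id (fun h => ⟨rfl, h.2⟩)
          | cons g' t' => exact i1.imp id (fun h => ⟨rfl, h.2⟩)
        | zero =>
          left
          rcases i1 with i1 | ⟨_, i1⟩
          · exact Or.inr i1
          · exact Or.inl i1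

omit hθ hlt in
/-- The average over the oracle for one circuit. -/
lemma bad2a (os : List (Fin m → Bool)) (S' : Finset (Fin N)) :
    Ex (fun y => nsq (p.me y os) * ind (¬ Sgd p.t m (p.za y os).Z (p.Dc os) S'))
      ≤ ∑ i ∈ Finset.range p.L, (4 / p.t.κ * ∑ k ∈ S', Ex (fun y => nsq (p.me y os)
          * Wi p.Z b m (p.Dc os) i {k} y) + 4 * Real.exp (-p.t.Λ)) := by
  have hκ := p.t.κ0
  set lo : ℕ → RS N → Prop := fun i s =>
    Pb (fun z => Wi s.Z b m (p.Dc os) i S' z < p.t.κ / 4) ≤ 4 * Real.exp (-p.t.Λ) with hlo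
  set Φ : ℕ → RS N → (Fin N → ℤˣ) → ℝ := fun i s y =>
    ind (lo i s ∧ Wi s.Z b m (p.Dc os) i S' y < p.t.κ / 4) with hΦ
  have hpt : ∀ y, nsq (p.me y os) * ind (¬ Sgd p.t m (p.za y os).Z (p.Dc os) S')
      ≤ ∑ i ∈ Finset.range p.L, (4 / p.t.κ * (nsq (p.me y os) * Wi p.Z b m (p.Dc os) i S' y)
        + Φ i (p.za y os) y) := by
    intro y
    have hme := nsq_nonneg (p.me y os)
    have hme1 := p.me_le y os
    have ht0 : ∀ i, 0 ≤ 4 / p.t.κ * (nsq (p.me y os) * Wi p.Z b m (p.Dc os) i S' y)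
        + Φ i (p.za y os) y := by
      intro i
      have := Wi_nonneg p.Z (p.Dc os) (b := b) (m := m) i S' y
      have : 0 ≤ Φ i (p.za y os) y := ind_nonneg _
      positivity
    by_cases hS : Sgd p.t m (p.za y os).Z (p.Dc os) S'
    · rw [ind_zero (not_not.2 hS), mul_zero]
      exact Finset.sum_nonneg fun i _ => ht0 i
    · rw [ind_one hS, mul_one]
      obtain ⟨i, hi, hl⟩ := Sgd_lo p.t m (p.Dc os) (p.B os) (p.hB os) (p.hD os) _ S' hS
      have hiL : i < p.L := lt_of_lt_of_le hi (p.hD os)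
      refine le_trans ?_ (Finset.single_le_sum (f := fun i =>
        4 / p.t.κ * (nsq (p.me y os) * Wi p.Z b m (p.Dc os) i S' y) + Φ i (p.za y os) y)
        (fun i _ => ht0 i) (Finset.mem_range.2 hiL))
      by_cases hW : Wi (p.za y os).Z b m (p.Dc os) i S' y < p.t.κ / 4
      · have h1 : Φ i (p.za y os) y = 1 := ind_one ⟨hl, hW⟩
        rw [h1]
        have := Wi_nonneg p.Z (p.Dc os) (b := b) (m := m) i S' y
        have : 0 ≤ 4 / p.t.κ * (nsq (p.me y os) * Wi p.Z b m (p.Dc os) i S' y) := by positivity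
        linarith
      · push Not at hW
        have h2 := hW.trans (p.W_za_le y os (p.Dc os) i S')
        have h3 : nsq (p.me y os) * (p.t.κ / 4) ≤ nsq (p.me y os) * Wi p.Z b m (p.Dc os) i S' y :=
          mul_le_mul_of_nonneg_left h2 hme
        have h4 := mul_le_mul_of_nonneg_left h3 (by positivity : (0 : ℝ) ≤ 4 / p.t.κ)
        have e : 4 / p.t.κ * (nsq (p.me y os) * (p.t.κ / 4)) = nsq (p.me y os) := by field_simp
        rw [e] at h4
        have : 0 ≤ Φ i (p.za y os) y := ind_nonneg _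
        linarith
  refine (Ex_mono hpt).trans ?_
  rw [Ex_sum]
  refine Finset.sum_le_sum fun i _ => ?_
  rw [Ex_add, Ex_mul_left]
  refine add_le_add (le_of_eq ?_) ?_
  · congr 1
    rw [← Ex_sum]
    refine Ex_congr fun y => ?_
    rw [Wi_sum, Finset.mul_sum]
  · have hN : Natl (Φ i) := by
      intro s hs k hk x u
      simp only [hΦ]
      rw [Wi_congr s.Z (p.Dc os) i S' ((hs k hk).bx x u)]
    rw [p.TLa os (Φ i) hN]
    refine Ex_le_const fun x => ?_
    by_cases hl : lo i (p.za x os)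
    · refine le_trans (Ex_mono fun z => ind_mono fun h => h.2) hl
    · have : Ex (fun z => Φ i (p.za x os) z) ≤ 0 := by
        refine Ex_le_const fun z => ?_
        simp only [hΦ]
        rw [ind_zero (fun h => hl h.1)]
      have := Real.exp_pos (-p.t.Λ)
      linarith

/-- The probability that a small set is not light. -/
lemma bad2 (S' : Finset (Fin N)) (hS' : (S'.card : ℝ) ≤ (p.n * p.s0 : ℕ)) :
    S (p.n * p.E) (fun b' => ind (∃ h', h' <:+ b' ∧ ¬ p.SG h' S') * p.P.p b')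
      ≤ p.n * (p.L * (4 / p.t.κ * ((p.n * p.s0 : ℕ) * θ) + p.Mr * (4 * Real.exp (-p.t.Λ)))) := by
  have hκ := p.t.κ0
  set T := p.n * p.E with hT
  have e1 : S T (fun b' => ind (∃ h', h' <:+ b' ∧ ¬ p.SG h' S') * p.P.p b')
      = Ex (fun y => S T (fun b' => nsq (p.P.A b' y) * ind (∃ h', h' <:+ b' ∧ ¬ p.SG h' S'))) := by
    rw [Ex_S]
    refine S_congr' _ fun a _ => ?_
    rw [Ex_mul_right, mul_comm]
    rfl
  rw [e1]
  have h2 : ∀ y, S T (fun b' => nsq (p.P.A b' y) * ind (∃ h', h' <:+ b' ∧ ¬ p.SG h' S'))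
      ≤ ∑ c ∈ Finset.range p.n, S c (fun os => nsq (p.me y os)
        * ind (¬ Sgd p.t m (p.za y os).Z (p.Dc os) S')) := by
    intro y
    have h3 : S T (fun b' => nsq (p.P.A b' y) * ind (∃ h', h' <:+ b' ∧ ¬ p.SG h' S'))
        ≤ S T (fun b' => nsq (p.P.A b' y)
          * ind (Ev (fun os => ¬ Sgd p.t m (p.za y os).Z (p.Dc os) S') (p.ctl b').os)) := by
      refine S_mono' T fun b' hb' => ?_
      by_cases hA : p.P.A b' y = 0
      · rw [hA, nsq_zero, zero_mul, zero_mul]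
      · refine mul_le_mul_of_nonneg_left (ind_mono fun h => ?_) (nsq_nonneg _)
        rcases p.Ev_SG y S' b' hA h with h4 | ⟨h4, _⟩
        · exact h4
        · exfalso
          have h5 := (p.ok b').c
          rw [hb', Nat.mul_mod_left, h4] at h5
          have h6 : 1 ≤ p.s0 := by unfold s0; omega
          omega
    refine h3.trans ?_
    rw [p.SB y p.n (fun cn => ind (Ev (fun os => ¬ Sgd p.t m (p.za y os).Z (p.Dc os) S') cn.os))]
    exact p.tele y _ p.n
  refine (Ex_mono h2).trans ?_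
  rw [Ex_sum]
  have h3 : ∀ c ∈ Finset.range p.n, Ex (fun y => S c (fun os => nsq (p.me y os)
        * ind (¬ Sgd p.t m (p.za y os).Z (p.Dc os) S')))
      ≤ p.L * (4 / p.t.κ * ((p.n * p.s0 : ℕ) * θ) + p.Mr * (4 * Real.exp (-p.t.Λ))) := by
    intro c hc
    rw [Finset.mem_range] at hc
    rw [Ex_S]
    refine (S_mono c fun os => p.bad2a os S').trans ?_
    rw [S_sum]
    have h4 : ∀ i ∈ Finset.range p.L, S c (fun os => 4 / p.t.κ * ∑ k ∈ S',
          Ex (fun y => nsq (p.me y os) * Wi p.Z b m (p.Dc os) i {k} y) + 4 * Real.exp (-p.t.Λ))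
        ≤ 4 / p.t.κ * ((p.n * p.s0 : ℕ) * θ) + p.Mr * (4 * Real.exp (-p.t.Λ)) := by
      intro i hi
      rw [Finset.mem_range] at hi
      rw [S_add, S_mul_left, S_sum]
      refine add_le_add ?_ ?_
      · refine mul_le_mul_of_nonneg_left ?_ (by positivity)
        calc ∑ k ∈ S', S c (fun os => Ex (fun y => nsq (p.me y os)
              * Wi p.Z b m (p.Dc os) i {k} y)) = ∑ k ∈ S', p.mu c i k := by
              refine Finset.sum_congr rfl fun k _ => ?_
              unfold mu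
              rw [Ex_S]
          _ ≤ ∑ _k ∈ S', θ := Finset.sum_le_sum fun k _ => hlt c hc i hi k
          _ = S'.card * θ := by rw [Finset.sum_const, nsmul_eq_mul]
          _ ≤ _ := mul_le_mul_of_nonneg_right hS' hθ.le
      · exact p.S_rec_le c hc.le _ _ (by positivity) fun os => le_rfl
    refine (Finset.sum_le_sum h4).trans (le_of_eq ?_)
    rw [Finset.sum_const, Finset.card_range, nsmul_eq_mul]
  refine (Finset.sum_le_sum h3).trans (le_of_eq ?_)
  rw [Finset.sum_const, Finset.card_range, nsmul_eq_mul]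

/-- The probability of bad pairs. -/
theorem bad : SS (p.n * p.E) (p.n * p.E) (fun a b' => ind (¬ p.G a b') * (p.P.p a * p.P.p b'))
    ≤ p.n * (4 / p.t.c 0 * (p.L * θ) + p.Mr * p.rb') * (p.n * p.s0 : ℕ)
      + 2 * (p.n * (p.L * (4 / p.t.κ * ((p.n * p.s0 : ℕ) * θ)
        + p.Mr * (4 * Real.exp (-p.t.Λ))))) := by
  set T := p.n * p.E with hT
  have hpt : ∀ a b' : List (Bool × (Fin m → Bool)), ind (¬ p.G a b') * (p.P.p a * p.P.p b')
      ≤ (ind (¬ Disjoint (p.ctl a).s.R (p.ctl b').s.R) * (p.P.p a * p.P.p b')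
        + p.P.p a * (ind (∃ h', h' <:+ b' ∧ ¬ p.SG h' (p.ctl a).s.R) * p.P.p b'))
        + p.P.p b' * (ind (∃ h', h' <:+ a ∧ ¬ p.SG h' (p.ctl b').s.R) * p.P.p a) := by
    intro a b'
    have ha := p.p_nonneg a
    have hb := p.p_nonneg b'
    have h1 : ind (¬ p.G a b') ≤ ind (¬ Disjoint (p.ctl a).s.R (p.ctl b').s.R)
        + ind ((∃ h', h' <:+ b' ∧ ¬ p.SG h' (p.ctl a).s.R)
          ∨ ∃ h', h' <:+ a ∧ ¬ p.SG h' (p.ctl b').s.R) := by
      refine ind_le_add_of_or fun h => ?_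
      by_contra hcon
      push Not at hcon
      exact h ⟨hcon.1, hcon.2.1, hcon.2.2⟩
    have h2 := ind_le_add_of_or (p := (∃ h', h' <:+ b' ∧ ¬ p.SG h' (p.ctl a).s.R)
          ∨ ∃ h', h' <:+ a ∧ ¬ p.SG h' (p.ctl b').s.R) id
    have h3 := mul_le_mul_of_nonneg_right (h1.trans (add_le_add le_rfl h2)) (mul_nonneg ha hb)
    refine h3.trans (le_of_eq ?_)
    ring
  refine (SS_mono T T hpt).trans ?_
  rw [SS_add, SS_add]
  have h1 := p.bad1 θ hθ hlt
  have h2 : SS T T (fun a b' => p.P.p a * (ind (∃ h', h' <:+ b' ∧ ¬ p.SG h' (p.ctl a).s.R)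
      * p.P.p b')) ≤ p.n * (p.L * (4 / p.t.κ * ((p.n * p.s0 : ℕ) * θ)
        + p.Mr * (4 * Real.exp (-p.t.Λ)))) := by
    unfold SS
    have h3 : ∀ a : List (Bool × (Fin m → Bool)), a.length = T →
        S T (fun b' => p.P.p a * (ind (∃ h', h' <:+ b' ∧ ¬ p.SG h' (p.ctl a).s.R) * p.P.p b'))
        ≤ (p.n * (p.L * (4 / p.t.κ * ((p.n * p.s0 : ℕ) * θ)
        + p.Mr * (4 * Real.exp (-p.t.Λ))))) * p.P.p a := by
      intro a ha
      rw [S_mul_left, mul_comm]
      exact mul_le_mul_of_nonneg_right (p.bad2 θ hθ hlt _ (p.card_R a ha)) (p.p_nonneg a)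
    refine (S_mono' T h3).trans (le_of_eq ?_)
    rw [S_mul_left, p.P.S_p, mul_one]
  have h3 : SS T T (fun a b' => p.P.p b' * (ind (∃ h', h' <:+ a ∧ ¬ p.SG h' (p.ctl b').s.R)
      * p.P.p a)) ≤ p.n * (p.L * (4 / p.t.κ * ((p.n * p.s0 : ℕ) * θ)
        + p.Mr * (4 * Real.exp (-p.t.Λ)))) := by
    refine le_trans (le_of_eq ?_) h2
    unfold SS
    rw [S_S_comm]
  linarith

/-- The light lemma for the machine. -/
theorem light (c u : ℝ) (hc : 0 < c) (hc1 : c ≤ 1) (hu : 0 < u) (hu1 : u ≤ 1)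
    (hC : p.t.H p.r + p.Mr * p.er ≤ c ^ 2)
    (hU : p.k2 * (2 + 8 * ((p.n : ℝ) * p.L) ^ 2) + N * (p.Mr * (p.Mr * p.eH)) ≤ u ^ 2)
    (g : List (Bool × (Fin m → Bool)) → ℝ) (hg0 : ∀ a, 0 ≤ g a) (hg1 : ∀ a, g a ≤ 1) :
    Cov (p.P.out (p.n * p.E) g) (p.P.out (p.n * p.E) g)
      ≤ 40 * ((p.n : ℝ) * p.L) ^ 4 * (c + u)
        + (p.n * (4 / p.t.c 0 * (p.L * θ) + p.Mr * p.rb') * (p.n * p.s0 : ℕ)
      + 2 * (p.n * (p.L * (4 / p.t.κ * ((p.n * p.s0 : ℕ) * θ)
        + p.Mr * (4 * Real.exp (-p.t.Λ)))))) := by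
  have hQ : (p.Qs.card : ℝ) ≤ (p.n : ℝ) * p.L := by exact_mod_cast p.card_Qs_le
  have hk2 : 0 < p.k2 := lt_of_lt_of_le p.k1_pos p.k1_le_k2
  have hU' : ∀ r : ℝ, 0 ≤ r → r ≤ 1 → ∀ t ∈ p.Qs,
      UG p.P p.G (fun h => (p.ctl h).s.R) (p.n * p.E) t r ≤ u ^ 2 := by
    intro r h0 h1 t ht
    refine (p.coll2 r h0 h1 ht).trans (le_trans ?_ hU)
    refine add_le_add (mul_le_mul_of_nonneg_left ?_ hk2.le) le_rfl
    have := pow_le_pow_left₀ (Nat.cast_nonneg _) hQ 2
    linarith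
  have key := light_cq p.rds p.clo (fun a b' h => h.1) c hc hc1 u hu hu1 p.card_Qs_pos
    (fun r h0 h1 s hs t _ => (p.coll r h0 h1 hs).trans hC) hU'
    (fun r h0 h1 t ht => by rw [p.UG_swap]; exact hU' r h0 h1 t ht) _ (p.bad θ hθ hlt) g hg0 hg1
  refine key.trans (add_le_add ?_ le_rfl)
  refine mul_le_mul_of_nonneg_right ?_ (by linarith)
  exact mul_le_mul_of_nonneg_left (pow_le_pow_left₀ (Nat.cast_nonneg _) hQ 4) (by norm_num)

end Par

end Pool.Agent.W938.CQ
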