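import Pool.Agent.W938.CQ.Tal
import Pool.Agent.W938.Hyb.Main1

/-!
# The weights of the questions of a circuit as functions of the oracle
-/

set_option autoImplicit false
set_option linter.unusedSectionVars false

namespace Pool.Agent.W938.CQ

open Finset Pool.Agent.H722R2.AA Pool.Agent.H746R2.AA Pool.Agent.H703R2.AA Pool.Agent.H703R2.AA.Pr
open Pool.Agent.H620R2.Gauge Pool.Agent.W938.Hyb

section Norms

variable {ι : Type*} [Fintype ι]

/-- The norm. -/
noncomputable def nrm (u : ι → ℝ) : ℝ := Real.sqrt (nsq u)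

lemma nrm_nonneg (u : ι → ℝ) : 0 ≤ nrm u := Real.sqrt_nonneg _

lemma nrm_sq (u : ι → ℝ) : nrm u ^ 2 = nsq u := Real.sq_sqrt (nsq_nonneg u)

lemma nrm_add (u v : ι → ℝ) : nrm (fun i => u i + v i) ≤ nrm u + nrm v := by
  unfold nrm
  rw [Real.sqrt_le_left (add_nonneg (Real.sqrt_nonneg _) (Real.sqrt_nonneg _))]
  have h1 : (∑ i, u i * v i) ≤ Real.sqrt (nsq u) * Real.sqrt (nsq v) := by
    rw [← Real.sqrt_mul (nsq_nonneg u)]
    refine (le_abs_self _).trans (Real.abs_le_sqrt ?_)
    exact Finset.sum_mul_sq_le_sq_mul_sq _ _ _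
  have h2 : nsq (fun i => u i + v i) = nsq u + 2 * (∑ i, u i * v i) + nsq v := by
    unfold nsq
    rw [Finset.mul_sum, ← Finset.sum_add_distrib, ← Finset.sum_add_distrib]
    exact Finset.sum_congr rfl fun i _ => by ring
  have h3 := Real.sq_sqrt (nsq_nonneg u)
  have h4 := Real.sq_sqrt (nsq_nonneg v)
  rw [h2]
  nlinarith

lemma nrm_sub_le (u v : ι → ℝ) : nrm u - nrm v ≤ nrm (fun i => u i - v i) := by
  have h := nrm_add (fun i => u i - v i) v
  have e : (fun i => u i - v i + v i) = u := by funext i; ring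
  rw [e] at h
  linarith

lemma nrm_mono {u v : ι → ℝ} (h : ∀ i, u i ^ 2 ≤ v i ^ 2) : nrm u ≤ nrm v :=
  Real.sqrt_le_sqrt (Finset.sum_le_sum fun i _ => h i)

end Norms

variable {b m N : ℕ}

/-- The joint state for all initial states of the memory. -/
noncomputable def Js (Z : Adm N) (b m : ℕ) (d : List Gate) (x : Fin N → ℤˣ) :
    (Fin b → Bool) × (Fin (b + m) → Bool) → ℝ :=
  fun q => circAct (Z.O (bx x)) d (load m (Ee q.1)) q.2

/-- The weight of a position at a gate. -/
noncomputable def Wg (Z : Adm N) (b m : ℕ) (d : List Gate) (g : Gate) (l : Fin N)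
    (x : Fin N → ℤˣ) : ℝ :=
  ∑ t : Fin b → Bool, Z.wt g l (circAct (Z.O (bx x)) d (load m (Ee t)))

/-- The weight of a set of positions at a gate. -/
noncomputable def WS (Z : Adm N) (b m : ℕ) (d : List Gate) (g : Gate) (S : Finset (Fin N))
    (x : Fin N → ℤˣ) : ℝ := ∑ l ∈ S, Wg Z b m d g l x

variable (Z : Adm N)

lemma Wg_nonneg (d : List Gate) (g : Gate) (l : Fin N) (x : Fin N → ℤˣ) : 0 ≤ Wg Z b m d g l x :=
  Finset.sum_nonneg fun t _ => Z.wt_nonneg _ _ _

lemma WS_nonneg (d : List Gate) (g : Gate) (S : Finset (Fin N)) (x : Fin N → ℤˣ) :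
    0 ≤ WS Z b m d g S x := Finset.sum_nonneg fun l _ => Wg_nonneg Z d g l x

lemma WS_univ_le (d : List Gate) (g : Gate) (x : Fin N → ℤˣ) :
    WS Z b m d g Finset.univ x ≤ 2 ^ b := by
  unfold WS Wg
  rw [Finset.sum_comm]
  calc _ ≤ ∑ _t : Fin b → Bool, (1 : ℝ) := by
        refine Finset.sum_le_sum fun t _ => ?_
        refine (Z.sum_wt_le _ _).trans ?_
        rw [nsq_circAct, nsq_Ee]
    _ = 2 ^ b := by simp

lemma WS_mono (d : List Gate) (g : Gate) {S S' : Finset (Fin N)} (h : S ⊆ S') (x : Fin N → ℤˣ) :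
    WS Z b m d g S x ≤ WS Z b m d g S' x :=
  Finset.sum_le_sum_of_subset_of_nonneg h fun l _ _ => Wg_nonneg Z d g l x

lemma WS_le (d : List Gate) (g : Gate) (S : Finset (Fin N)) (x : Fin N → ℤˣ) :
    WS Z b m d g S x ≤ 2 ^ b := (WS_mono Z d g (Finset.subset_univ S) x).trans (WS_univ_le Z d g x)

/-- The basis state asks for a position in `S`. -/
def InS (g : Gate) (S : Finset (Fin N)) (s : Fin m → Bool) : Prop :=
  match g with
  | Sum.inr (true, q, k) => ∃ l ∈ S, Z.kq q k s = Sum.inr l
  | _ => False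

open Classical in
lemma sum_wt_S (g : Gate) (S : Finset (Fin N)) (ψ : (Fin m → Bool) → ℝ) :
    ∑ l ∈ S, Z.wt g l ψ = ∑ s, if InS Z g S s then ψ s ^ 2 else 0 := by
  rcases g with i | ⟨u, q, k⟩
  · simp [Adm.wt, InS]
  · cases u with
    | false => simp [Adm.wt, InS]
    | true =>
      simp only [Adm.wt, InS]
      rw [Finset.sum_comm]
      refine Finset.sum_congr rfl fun s _ => ?_
      by_cases hl : ∃ l ∈ S, Z.kq q k s = Sum.inr l
      · rw [if_pos hl]
        obtain ⟨l0, hl0, hk⟩ := hl
        rw [Finset.sum_eq_single l0]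
        · rw [if_pos hk]
        · intro l _ hne
          rw [if_neg (fun h => hne (Sum.inr.inj (h.symm.trans hk)))]
        · intro h; exact absurd hl0 h
      · rw [if_neg hl]
        exact Finset.sum_eq_zero fun l hlS => if_neg fun h => hl ⟨l, hlS, h⟩

open Classical in
lemma WS_eq (d : List Gate) (g : Gate) (S : Finset (Fin N)) (x : Fin N → ℤˣ) :
    WS Z b m d g S x = nsq (fun q : (Fin b → Bool) × (Fin (b + m) → Bool) =>
      if InS Z g S q.2 then Js Z b m d x q else 0) := by
  unfold WS Wg nsq
  rw [Finset.sum_comm, Fintype.sum_prod_type]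
  refine Finset.sum_congr rfl fun t _ => ?_
  rw [sum_wt_S]
  refine Finset.sum_congr rfl fun s _ => ?_
  simp only [Js]
  split_ifs <;> simp

lemma sqrt_WS_sub_le (d : List Gate) (g : Gate) (S : Finset (Fin N)) (x y : Fin N → ℤˣ) :
    Real.sqrt (WS Z b m d g S x) - Real.sqrt (WS Z b m d g S y)
      ≤ nrm (fun q => Js Z b m d x q - Js Z b m d y q) := by
  classical
  rw [WS_eq, WS_eq]
  refine (nrm_sub_le _ _).trans (nrm_mono fun q => ?_)
  split_ifs
  · exact le_rfl
  · rw [sub_self, zero_pow (by norm_num)]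
    exact sq_nonneg _

lemma gate_sub (A : Oracle) (g : Gate) (ψ ψ' : (Fin m → Bool) → ℝ) :
    gateAct A g (fun s => ψ s - ψ' s) = fun s => gateAct A g ψ s - gateAct A g ψ' s := by
  funext s
  have h := gateAct_lin A g (Finset.univ : Finset Bool) (fun b => if b then (1 : ℝ) else -1)
    (fun b => if b then ψ else ψ') s
  simp only [Fintype.sum_bool, if_true, Bool.false_eq_true, if_false, one_mul, neg_one_mul] at h
  have e : (fun s => ψ s - ψ' s) = fun s => ψ s + -ψ' s := by funext s; ring
  rw [e, h]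
  ring

/-- The positions in which two inputs differ. -/
def df (x y : Fin N → ℤˣ) : Finset (Fin N) := Finset.univ.filter fun l => x l ≠ y l

lemma gate_diff (g : Gate) (x y : Fin N → ℤˣ) (ψ : (Fin m → Bool) → ℝ) :
    nsq (fun s => gateAct (Z.O (bx x)) g ψ s - gateAct (Z.O (bx y)) g ψ s)
      ≤ 4 * ∑ l ∈ df x y, Z.wt g l ψ := by
  classical
  rcases g with i | ⟨u, q, k⟩
  · simp [Adm.wt, gateAct, nsq]
  · cases u with
    | false => simp [Adm.wt, gateAct, nsq]
    | true =>
      rw [sum_wt_S]
      have hX : ∀ s : Fin m → Bool, InS Z (Sum.inr (true, q, k)) (df x y) (Xf k s)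
          ↔ InS Z (Sum.inr (true, q, k)) (df x y) s := by
        intro s
        simp only [InS, Adm.kq_Xf]
      have h1 : ∀ s, (gateAct (Z.O (bx x)) (Sum.inr (true, q, k)) ψ s
          - gateAct (Z.O (bx y)) (Sum.inr (true, q, k)) ψ s) ^ 2
          ≤ 2 * (if InS Z (Sum.inr (true, q, k)) (df x y) s then ψ s ^ 2 else 0)
            + 2 * (if InS Z (Sum.inr (true, q, k)) (df x y) (Xf k s) then ψ (Xf k s) ^ 2 else 0) := by
        intro s
        rw [if_congr (hX s) rfl rfl]
        simp only [gateAct]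
        rw [flipIf_eq, flipIf_eq]
        cases hk : Z.kq q k s with
        | inl c =>
          have h2 : ∀ y : Fin N → Bool, Z.O y (q.map (rd (clr k s))) = c := fun y => Z.kd_inl hk y
          rw [h2, h2, sub_self, zero_pow (by norm_num)]
          split_ifs <;> positivity
        | inr l =>
          have h2 : ∀ y : Fin N → Bool, Z.O y (q.map (rd (clr k s))) = y l := fun y => Z.kd_inr hk y
          rw [h2, h2]
          by_cases hl : x l = y l
          · have h3 : bx x l = bx y l := by unfold bx; rw [hl]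
            rw [h3, sub_self, zero_pow (by norm_num)]
            split_ifs <;> positivity
          · have h3 : InS Z (Sum.inr (true, q, k)) (df x y) s :=
              ⟨l, by unfold df; rw [Finset.mem_filter]; exact ⟨Finset.mem_univ _, hl⟩, hk⟩
            rw [if_pos h3, if_pos h3]
            split_ifs
            · rw [sub_self, zero_pow (by norm_num)]; positivity
            · nlinarith [sq_nonneg (ψ (Xf k s) + ψ s)]
            · nlinarith [sq_nonneg (ψ (Xf k s) + ψ s)]
            · rw [sub_self, zero_pow (by norm_num)]; positivity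
      unfold nsq
      refine (Finset.sum_le_sum fun s _ => h1 s).trans ?_
      rw [Finset.sum_add_distrib, ← Finset.mul_sum, ← Finset.mul_sum,
        sum_Xf k (fun s => if InS Z (Sum.inr (true, q, k)) (df x y) s then ψ s ^ 2 else 0)]
      linarith

/-- The weight of a set of positions at the gate number `i`. -/
noncomputable def Wi (Z : Adm N) (b m : ℕ) (D : List Gate) (i : ℕ) (S : Finset (Fin N))
    (x : Fin N → ℤˣ) : ℝ :=
  match D[i]? with
  | some g => WS Z b m (D.take i) g S x
  | none => 0

lemma Wi_nonneg (D : List Gate) (i : ℕ) (S : Finset (Fin N)) (x : Fin N → ℤˣ) :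
    0 ≤ Wi Z b m D i S x := by
  unfold Wi
  split
  · exact WS_nonneg _ _ _ _ _
  · exact le_rfl

lemma Wi_le (D : List Gate) (i : ℕ) (S : Finset (Fin N)) (x : Fin N → ℤˣ) :
    Wi Z b m D i S x ≤ 2 ^ b := by
  unfold Wi
  split
  · exact WS_le _ _ _ _ _
  · positivity

lemma Wi_mono (D : List Gate) (i : ℕ) {S S' : Finset (Fin N)} (h : S ⊆ S') (x : Fin N → ℤˣ) :
    Wi Z b m D i S x ≤ Wi Z b m D i S' x := by
  unfold Wi
  split
  · exact WS_mono _ _ _ h _
  · exact le_rfl

lemma Wi_sum (D : List Gate) (i : ℕ) (S : Finset (Fin N)) (x : Fin N → ℤˣ) :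
    Wi Z b m D i S x = ∑ l ∈ S, Wi Z b m D i {l} x := by
  unfold Wi
  split
  · unfold WS
    simp
  · simp

lemma Wi_long (D : List Gate) (i : ℕ) (h : D.length ≤ i) (S : Finset (Fin N)) (x : Fin N → ℤˣ) :
    Wi Z b m D i S x = 0 := by
  unfold Wi
  rw [List.getElem?_eq_none h]

lemma nsq_prod (u : (Fin b → Bool) × (Fin (b + m) → Bool) → ℝ) :
    nsq u = ∑ t, nsq (fun s => u (t, s)) := by
  unfold nsq
  rw [Fintype.sum_prod_type]

/-- The hybrid inequality. -/
lemma hyb (D : List Gate) (x y : Fin N → ℤˣ) : ∀ p : ℕ,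
    nrm (fun q => Js Z b m (D.take p) x q - Js Z b m (D.take p) y q)
      ≤ ∑ i ∈ Finset.range p, 2 * Real.sqrt (Wi Z b m D i (df x y) x)
  | 0 => by
    have e : (fun q => Js Z b m (D.take 0) x q - Js Z b m (D.take 0) y q) = fun _ => 0 := by
      funext q
      simp [Js, circAct]
    rw [e]
    simp [nrm, nsq]
  | p + 1 => by
    have ih := hyb D x y p
    rw [Finset.sum_range_succ]
    cases hg : D[p]? with
    | none =>
      have e : D.take (p + 1) = D.take p := by
        rw [List.take_succ, hg]; simp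
      rw [e]
      have := Real.sqrt_nonneg (Wi Z b m D p (df x y) x)
      linarith
    | some g =>
      have e : D.take (p + 1) = D.take p ++ [g] := by
        rw [List.take_succ, hg]; simp
      have e1 : ∀ z : Fin N → ℤˣ, ∀ q, Js Z b m (D.take (p + 1)) z q
          = gateAct (Z.O (bx z)) g (fun s => Js Z b m (D.take p) z (q.1, s)) q.2 := by
        intro z q
        unfold Js
        rw [e, circAct_append]
        rfl
      have e2 : (fun q => Js Z b m (D.take (p + 1)) x q - Js Z b m (D.take (p + 1)) y q)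
          = fun q => (gateAct (Z.O (bx x)) g (fun s => Js Z b m (D.take p) x (q.1, s)) q.2
              - gateAct (Z.O (bx y)) g (fun s => Js Z b m (D.take p) x (q.1, s)) q.2)
            + gateAct (Z.O (bx y)) g (fun s => Js Z b m (D.take p) x (q.1, s)
              - Js Z b m (D.take p) y (q.1, s)) q.2 := by
        funext q
        rw [e1, e1, gate_sub]
        ring
      rw [e2]
      refine (nrm_add _ _).trans ?_
      have h1 : nrm (fun q : (Fin b → Bool) × (Fin (b + m) → Bool) =>
          gateAct (Z.O (bx y)) g (fun s => Js Z b m (D.take p) x (q.1, s)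
              - Js Z b m (D.take p) y (q.1, s)) q.2)
          = nrm (fun q => Js Z b m (D.take p) x q - Js Z b m (D.take p) y q) := by
        unfold nrm
        rw [nsq_prod, nsq_prod]
        congr 1
        refine Finset.sum_congr rfl fun t _ => ?_
        exact nsq_gateAct (Z.O (bx y)) g (fun s => Js Z b m (D.take p) x (t, s)
              - Js Z b m (D.take p) y (t, s))
      have h2 : nrm (fun q : (Fin b → Bool) × (Fin (b + m) → Bool) =>
          (gateAct (Z.O (bx x)) g (fun s => Js Z b m (D.take p) x (q.1, s)) q.2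
              - gateAct (Z.O (bx y)) g (fun s => Js Z b m (D.take p) x (q.1, s)) q.2))
          ≤ 2 * Real.sqrt (Wi Z b m D p (df x y) x) := by
        have e3 : (2 : ℝ) = Real.sqrt 4 := by
          rw [show (4 : ℝ) = 2 ^ 2 by norm_num, Real.sqrt_sq (by norm_num)]
        rw [e3, ← Real.sqrt_mul (by norm_num)]
        unfold nrm
        refine Real.sqrt_le_sqrt ?_
        rw [nsq_prod]
        have e4 : Wi Z b m D p (df x y) x = ∑ t : Fin b → Bool, ∑ l ∈ df x y,
            Z.wt g l (circAct (Z.O (bx x)) (D.take p) (load m (Ee t))) := by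
          unfold Wi
          rw [hg]
          unfold WS Wg
          rw [Finset.sum_comm]
        rw [e4, Finset.mul_sum]
        refine Finset.sum_le_sum fun t _ => ?_
        exact gate_diff Z g x y (circAct (Z.O (bx x)) (D.take p) (load m (Ee t)))
      rw [h1]
      linarith

/-- `D` has at most `r` rounds of questions: it consists of gates which are no questions, and of
`r` blocks of parallel questions. -/
def Rounds : ℕ → List Gate → Prop
  | 0, D => ∀ g ∈ D, Free g
  | r + 1, D => ∃ G R D', D = G ++ R ++ D' ∧ (∀ g ∈ G, Free g) ∧ Round R ∧ Rounds r D'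

/-- The boundaries of the blocks. -/
structure Bd (r : ℕ) (D : List Gate) (B : ℕ → ℕ) : Prop where
  le : ∀ j, B j ≤ D.length
  mono : ∀ j, B j ≤ B (j + 1)
  last : B r = D.length
  first : ∀ i g, D[i]? = some g → i < B 0 → Free g
  wt : ∀ j, j < r → ∀ i g, D[i]? = some g → B j ≤ i → i < B (j + 1) →
    ∀ (N m : ℕ) (Z : Adm N) (A : Oracle) (φ : (Fin m → Bool) → ℝ) (l : Fin N),
      Z.wt g l (circAct A (D.take i) φ) = Z.wt g l (circAct A (D.take (B j)) φ)

lemma exists_Bd : ∀ (r : ℕ) (D : List Gate), Rounds r D → ∃ B, Bd r D B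
  | 0, D, h => ⟨fun _ => D.length, fun _ => le_rfl, fun _ => le_rfl, rfl,
      fun i g hg _ => h g (List.mem_of_getElem? hg), fun j hj => absurd hj (Nat.not_lt_zero j)⟩
  | r + 1, D, ⟨G, R, D', hD, hG, hR, hD'⟩ => by
    obtain ⟨B', hB⟩ := exists_Bd r D' hD'
    subst hD
    refine ⟨fun j => match j with | 0 => G.length | j + 1 => G.length + R.length + B' j,
      ?_, ?_, ?_, ?_, ?_⟩
    · rintro (_ | j)
      · simp only [List.length_append]; omega
      · simp only [List.length_append]
        have := hB.le j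
        omega
    · rintro (_ | j)
      · simp only; omega
      · simp only
        have := hB.mono j
        omega
    · simp only [List.length_append, hB.last]
    · intro i g hg hi
      simp only at hi
      rw [List.append_assoc, List.getElem?_append_left hi] at hg
      exact hG g (List.mem_of_getElem? hg)
    · rintro (_ | j) hj i g hg h1 h2 N m Z A φ l
      · simp only at h1 h2 ⊢
        obtain ⟨i', rfl⟩ : ∃ i', i = G.length + i' := ⟨i - G.length, by omega⟩
        rw [List.append_assoc, List.getElem?_append_right (by omega), Nat.add_sub_cancel_left] at hg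
        have hfree : Free g → Z.wt g l (circAct A ((G ++ R ++ D').take (G.length + i')) φ)
            = Z.wt g l (circAct A ((G ++ R ++ D').take G.length) φ) := by
          intro hf
          rw [wt_free Z hf, wt_free Z hf]
        by_cases hi' : i' < R.length
        · rw [List.getElem?_append_left hi'] at hg
          have hgR : g ∈ R := List.mem_of_getElem? hg
          have hnf := hR.1 g hgR
          unfold Free at hnf
          push Not at hnf
          obtain ⟨q, k, rfl⟩ := hnf
          have hkq : k ∉ q := hR.2 q k q k hgR hgR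
          have e1 : (G ++ R ++ D').take (G.length + i') = G ++ R.take i' := by
            rw [List.append_assoc, List.take_length_add_append, List.take_append_of_le_length hi'.le]
          have e2 : (G ++ R ++ D').take G.length = G := by
            rw [List.append_assoc, List.take_left]
          rw [e1, e2, circAct_append]
          refine Z.wt_round A hkq l _ ?_ _
          intro g' hg'
          have hgR' : g' ∈ R := List.mem_of_mem_take hg'
          have h5 := hR.1 g' hgR'
          unfold Free at h5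
          push Not at h5
          obtain ⟨q', k', rfl⟩ := h5
          exact ⟨q', k', rfl, hR.2 q' k' q k hgR' hgR⟩
        · rw [List.getElem?_append_right (by omega)] at hg
          exact hfree (hB.first _ g hg (by omega))
      · simp only at h1 h2 ⊢
        obtain ⟨i', rfl⟩ : ∃ i', i = (G ++ R).length + i' :=
          ⟨i - (G ++ R).length, by simp only [List.length_append]; omega⟩
        rw [List.getElem?_append_right (by omega), Nat.add_sub_cancel_left] at hg
        simp only [List.length_append] at h1 h2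
        have h3 := hB.wt j (by omega) i' g hg (by omega) (by omega) N m Z A (circAct A (G ++ R) φ) l
        rw [← circAct_append, ← circAct_append] at h3
        have e1 : (G ++ R ++ D').take ((G ++ R).length + i') = (G ++ R) ++ D'.take i' :=
          List.take_length_add_append _
        have e2 : (G ++ R ++ D').take (G.length + R.length + B' j) = (G ++ R) ++ D'.take (B' j) := by
          rw [← List.length_append]
          exact List.take_length_add_append _
        rw [e1, e2]
        exact h3

lemma Wi_block {r : ℕ} {D : List Gate} {B : ℕ → ℕ} (hB : Bd r D B) (j : ℕ) (hj : j < r) (i : ℕ)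
    (h1 : B j ≤ i) (h2 : i < B (j + 1)) (g : Gate) (hg : D[i]? = some g) (S : Finset (Fin N))
    (x : Fin N → ℤˣ) :
    Wi Z b m D i S x = WS Z b m (D.take (B j)) g S x := by
  unfold Wi
  rw [hg]
  unfold WS Wg
  refine Finset.sum_congr rfl fun l _ => Finset.sum_congr rfl fun t _ => ?_
  exact hB.wt j hj i g hg h1 h2 N _ Z _ _ l

lemma Wi_first {r : ℕ} {D : List Gate} {B : ℕ → ℕ} (hB : Bd r D B) (i : ℕ) (h : i < B 0)
    (S : Finset (Fin N)) (x : Fin N → ℤˣ) : Wi Z b m D i S x = 0 := by
  unfold Wi
  split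
  · rename_i g hg
    unfold WS Wg
    refine Finset.sum_eq_zero fun l _ => Finset.sum_eq_zero fun t _ => ?_
    exact wt_free Z (hB.first i g hg h) l _
  · rfl

/-- The gates before `p` ask every position with small weight. -/
def Lt (Z : Adm N) (b m : ℕ) (D : List Gate) (p : ℕ) (h : ℝ) (x : Fin N → ℤˣ) : Prop :=
  ∀ i < p, ∀ l, Wi Z b m D i {l} x ≤ h

/-- Concentration. -/
lemma conc {r : ℕ} {D : List Gate} {B : ℕ → ℕ} (hB : Bd r D B) (L : ℕ) (hL : D.length ≤ L)
    (j : ℕ) (hj : j < r) (i : ℕ) (h1 : B j ≤ i) (h2 : i < B (j + 1)) (S : Finset (Fin N))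
    (h s δ : ℝ) (hh : 0 < h) (hδ : 0 < δ) :
    Pb (fun y => Real.sqrt (Wi Z b m D i S y) < s)
      * Pb (fun x => s + δ ≤ Real.sqrt (Wi Z b m D i S x) ∧ Lt Z b m D (B j) h x)
      ≤ Real.exp (-(δ ^ 4 / (64 * (L : ℝ) ^ 4 * 2 ^ b * h))) := by
  have hiD : i < D.length := lt_of_lt_of_le h2 (hB.le _)
  have hL0 : 0 < L := by omega
  have hL0' : (0 : ℝ) < L := by exact_mod_cast hL0
  have hg : D[i]? = some D[i] := List.getElem?_eq_getElem hiD
  have hBL : B j ≤ L := (hB.le j).trans hL
  have key := tal_use (fun y => Real.sqrt (Wi Z b m D i S y) < s)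
    (fun x => s + δ ≤ Real.sqrt (Wi Z b m D i S x) ∧ Lt Z b m D (B j) h x)
    (fun x l => ∑ i' ∈ Finset.range (B j), Wi Z b m D i' {l} x)
    ((L : ℝ) ^ 2 * 2 ^ b * h) (δ ^ 2 / (4 * L)) (by positivity) (by positivity) ?_ ?_
  · refine key.trans (le_of_eq ?_)
    congr 1
    field_simp
    ring
  · rintro x ⟨_, hx⟩
    have a1 : ∀ l, ∑ i' ∈ Finset.range (B j), Wi Z b m D i' {l} x ≤ L * h := by
      intro l
      calc ∑ i' ∈ Finset.range (B j), Wi Z b m D i' {l} x ≤ ∑ _i' ∈ Finset.range (B j), h :=
            Finset.sum_le_sum fun i' hi' => hx i' (Finset.mem_range.1 hi') l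
        _ = B j * h := by simp
        _ ≤ L * h := mul_le_mul_of_nonneg_right (by exact_mod_cast hBL) hh.le
    have a0 : ∀ l, 0 ≤ ∑ i' ∈ Finset.range (B j), Wi Z b m D i' {l} x := fun l =>
      Finset.sum_nonneg fun i' _ => Wi_nonneg Z D i' _ x
    have a2 : ∑ l, ∑ i' ∈ Finset.range (B j), Wi Z b m D i' {l} x ≤ L * 2 ^ b := by
      rw [Finset.sum_comm]
      calc ∑ i' ∈ Finset.range (B j), ∑ l, Wi Z b m D i' {l} x
          ≤ ∑ _i' ∈ Finset.range (B j), (2 : ℝ) ^ b := by
            refine Finset.sum_le_sum fun i' _ => ?_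
            rw [← Wi_sum]
            exact Wi_le Z D i' _ x
        _ = B j * 2 ^ b := by simp
        _ ≤ L * 2 ^ b := mul_le_mul_of_nonneg_right (by exact_mod_cast hBL) (by positivity)
    calc ∑ l, (∑ i' ∈ Finset.range (B j), Wi Z b m D i' {l} x) ^ 2
        ≤ ∑ l, (L * h) * ∑ i' ∈ Finset.range (B j), Wi Z b m D i' {l} x := by
          refine Finset.sum_le_sum fun l _ => ?_
          rw [sq]
          exact mul_le_mul_of_nonneg_right (a1 l) (a0 l)
      _ = (L * h) * ∑ l, ∑ i' ∈ Finset.range (B j), Wi Z b m D i' {l} x := by rw [Finset.mul_sum]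
      _ ≤ (L * h) * (L * 2 ^ b) := mul_le_mul_of_nonneg_left a2 (by positivity)
      _ = _ := by ring
  · rintro x y ⟨hx1, hx2⟩ hy
    have a1 : δ ≤ ∑ i' ∈ Finset.range (B j), 2 * Real.sqrt (Wi Z b m D i' (df x y) x) := by
      have b1 := sqrt_WS_sub_le Z (b := b) (m := m) (D.take (B j)) D[i] S x y
      rw [← Wi_block Z hB j hj i h1 h2 _ hg, ← Wi_block Z hB j hj i h1 h2 _ hg] at b1
      have b2 := hyb Z (b := b) (m := m) D x y (B j)
      linarith
    have a2 : (∑ i' ∈ Finset.range (B j), Real.sqrt (Wi Z b m D i' (df x y) x)) ^ 2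
        ≤ L * ∑ i' ∈ Finset.range (B j), Wi Z b m D i' (df x y) x := by
      refine (sq_sum_le_card_mul_sum_sq).trans ?_
      rw [Finset.card_range]
      have e : ∑ i' ∈ Finset.range (B j), Real.sqrt (Wi Z b m D i' (df x y) x) ^ 2
          = ∑ i' ∈ Finset.range (B j), Wi Z b m D i' (df x y) x :=
        Finset.sum_congr rfl fun i' _ => Real.sq_sqrt (Wi_nonneg Z D i' _ x)
      rw [e]
      exact mul_le_mul_of_nonneg_right (by exact_mod_cast hBL)
        (Finset.sum_nonneg fun i' _ => Wi_nonneg Z D i' _ x)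
    have a3 : ∑ l, (∑ i' ∈ Finset.range (B j), Wi Z b m D i' {l} x) * ind (x l ≠ y l)
        = ∑ i' ∈ Finset.range (B j), Wi Z b m D i' (df x y) x := by
      simp_rw [Finset.sum_mul]
      rw [Finset.sum_comm]
      refine Finset.sum_congr rfl fun i' _ => ?_
      rw [Wi_sum]
      unfold df ind
      rw [Finset.sum_filter]
      exact Finset.sum_congr rfl fun l _ => by split_ifs <;> simp
    rw [a3, div_le_iff₀ (by positivity)]
    rw [← Finset.mul_sum] at a1
    have a4 : δ ^ 2 ≤ (2 * ∑ i' ∈ Finset.range (B j), Real.sqrt (Wi Z b m D i' (df x y) x)) ^ 2 :=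
      pow_le_pow_left₀ hδ.le a1 2
    nlinarith

end Pool.Agent.W938.CQ
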