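import Pool.Agent.W938.CQ.Rdg

/-!
# The reader reads all heavy positions of a circuit
-/

set_option autoImplicit false
set_option linter.unusedSectionVars false

namespace Pool.Agent.W938.CQ

open Finset Pool.Agent.H722R2.AA Pool.Agent.H746R2.AA Pool.Agent.H703R2.AA Pool.Agent.H703R2.AA.Pr
open Pool.Agent.H620R2.Gauge Pool.Agent.W938.Hyb
open Pool.Agent.H889R3.RQ (DTree)

variable {b m N : ℕ}

/-- The thresholds. -/
structure Thr (r L b : ℕ) where
  H : ℕ → ℝ
  c : ℕ → ℝ
  κ : ℝ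
  Λ : ℝ
  H0 : ∀ j, 0 < H j
  c0 : ∀ j, 0 < c j
  κ0 : 0 < κ
  hL : 1 ≤ L
  st : ∀ j, H (j + 1) = 9 / 4 * c j
  mono : ∀ j, H j ≤ H (j + 1)
  cl : ∀ j, j < r → Λ ≤ c j ^ 2 / (1024 * (L : ℝ) ^ 4 * 2 ^ b * H j)
  kl : Λ ≤ κ ^ 2 / (1024 * (L : ℝ) ^ 4 * 2 ^ b * H r)

section Conc

variable (Z : Adm N) {r : ℕ} {D : List Gate} {B : ℕ → ℕ}

lemma conc_hi (hB : Bd r D B) (L : ℕ) (hL : D.length ≤ L) (hL1 : 1 ≤ L) (j : ℕ) (hj : j < r)
    (i : ℕ) (h1 : B j ≤ i) (h2 : i < B (j + 1)) (S : Finset (Fin N)) (h cc Λ : ℝ) (hh : 0 < h)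
    (hc : 0 < cc) (hΛ : Λ ≤ cc ^ 2 / (1024 * (L : ℝ) ^ 4 * 2 ^ b * h))
    (hhalf : 1 / 2 ≤ Pb (fun y => Wi Z b m D i S y < cc)) :
    Pb (fun x => 9 / 4 * cc ≤ Wi Z b m D i S x ∧ Lt Z b m D (B j) h x) ≤ 2 * Real.exp (-Λ) := by
  have hL0 : (0 : ℝ) < L := by exact_mod_cast hL1
  have hs : 0 < Real.sqrt cc := Real.sqrt_pos.2 hc
  have key := conc Z hB L hL j hj i h1 h2 S h (Real.sqrt cc) (Real.sqrt cc / 2) hh (by positivity)
    (b := b) (m := m)
  have e1 : (Real.sqrt cc / 2) ^ 4 / (64 * (L : ℝ) ^ 4 * 2 ^ b * h)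
      = cc ^ 2 / (1024 * (L : ℝ) ^ 4 * 2 ^ b * h) := by
    have : (Real.sqrt cc / 2) ^ 4 = cc ^ 2 / 16 := by
      rw [div_pow, show Real.sqrt cc ^ 4 = (Real.sqrt cc ^ 2) ^ 2 by ring, Real.sq_sqrt hc.le]
      norm_num
    rw [this]
    field_simp
    norm_num
  rw [e1] at key
  have e2 : Pb (fun y => Wi Z b m D i S y < cc)
      ≤ Pb (fun y => Real.sqrt (Wi Z b m D i S y) < Real.sqrt cc) :=
    Pb_mono fun y hy => Real.sqrt_lt_sqrt (Wi_nonneg Z D i S y) hy
  have e3 : Pb (fun x => 9 / 4 * cc ≤ Wi Z b m D i S x ∧ Lt Z b m D (B j) h x)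
      ≤ Pb (fun x => Real.sqrt cc + Real.sqrt cc / 2 ≤ Real.sqrt (Wi Z b m D i S x)
        ∧ Lt Z b m D (B j) h x) := by
    refine Pb_mono fun x hx => ⟨?_, hx.2⟩
    apply Real.le_sqrt_of_sq_le
    have : (Real.sqrt cc + Real.sqrt cc / 2) ^ 2 = 9 / 4 * (Real.sqrt cc ^ 2) := by ring
    rw [this, Real.sq_sqrt hc.le]
    exact hx.1
  have e4 : Real.exp (-(cc ^ 2 / (1024 * (L : ℝ) ^ 4 * 2 ^ b * h))) ≤ Real.exp (-Λ) :=
    Real.exp_le_exp.2 (by linarith)
  have e5 := Pb_nonneg (fun x => Real.sqrt cc + Real.sqrt cc / 2 ≤ Real.sqrt (Wi Z b m D i S x)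
        ∧ Lt Z b m D (B j) h x)
  have e6 : 1 / 2 * Pb (fun x => Real.sqrt cc + Real.sqrt cc / 2 ≤ Real.sqrt (Wi Z b m D i S x)
        ∧ Lt Z b m D (B j) h x) ≤ Real.exp (-Λ) :=
    (mul_le_mul_of_nonneg_right (hhalf.trans e2) e5).trans (key.trans e4)
  linarith

lemma conc_lo (hB : Bd r D B) (L : ℕ) (hL : D.length ≤ L) (hL1 : 1 ≤ L) (j : ℕ) (hj : j < r)
    (i : ℕ) (h1 : B j ≤ i) (h2 : i < B (j + 1)) (S : Finset (Fin N)) (h cc Λ : ℝ) (hh : 0 < h)
    (hc : 0 < cc) (hΛ : Λ ≤ cc ^ 2 / (1024 * (L : ℝ) ^ 4 * 2 ^ b * h))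
    (hq : 1 / 4 ≤ Pb (fun x => cc ≤ Wi Z b m D i S x ∧ Lt Z b m D (B j) h x)) :
    Pb (fun y => Wi Z b m D i S y < cc / 4) ≤ 4 * Real.exp (-Λ) := by
  have hL0 : (0 : ℝ) < L := by exact_mod_cast hL1
  have hs : 0 < Real.sqrt cc := Real.sqrt_pos.2 hc
  have key := conc Z hB L hL j hj i h1 h2 S h (Real.sqrt cc / 2) (Real.sqrt cc / 2) hh
    (by positivity) (b := b) (m := m)
  have e1 : (Real.sqrt cc / 2) ^ 4 / (64 * (L : ℝ) ^ 4 * 2 ^ b * h)
      = cc ^ 2 / (1024 * (L : ℝ) ^ 4 * 2 ^ b * h) := by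
    have : (Real.sqrt cc / 2) ^ 4 = cc ^ 2 / 16 := by
      rw [div_pow, show Real.sqrt cc ^ 4 = (Real.sqrt cc ^ 2) ^ 2 by ring, Real.sq_sqrt hc.le]
      norm_num
    rw [this]
    field_simp
    norm_num
  rw [e1] at key
  have e2 : Pb (fun x => cc ≤ Wi Z b m D i S x ∧ Lt Z b m D (B j) h x)
      ≤ Pb (fun x => Real.sqrt cc / 2 + Real.sqrt cc / 2 ≤ Real.sqrt (Wi Z b m D i S x)
        ∧ Lt Z b m D (B j) h x) := by
    refine Pb_mono fun x hx => ⟨?_, hx.2⟩
    rw [add_halves]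
    exact Real.sqrt_le_sqrt hx.1
  have e3 : Pb (fun y => Wi Z b m D i S y < cc / 4)
      ≤ Pb (fun y => Real.sqrt (Wi Z b m D i S y) < Real.sqrt cc / 2) := by
    refine Pb_mono fun y hy => ?_
    rw [Real.sqrt_lt' (by positivity), div_pow, Real.sq_sqrt hc.le]
    linarith
  have e4 : Real.exp (-(cc ^ 2 / (1024 * (L : ℝ) ^ 4 * 2 ^ b * h))) ≤ Real.exp (-Λ) :=
    Real.exp_le_exp.2 (by linarith)
  have e5 := Pb_nonneg (fun y => Real.sqrt (Wi Z b m D i S y) < Real.sqrt cc / 2)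
  have e6 : Pb (fun y => Real.sqrt (Wi Z b m D i S y) < Real.sqrt cc / 2) * (1 / 4)
      ≤ Real.exp (-Λ) := (mul_le_mul_of_nonneg_left (hq.trans e2) e5).trans (key.trans e4)
  linarith

end Conc

section Stage

variable {r L : ℕ} (t : Thr r L b) (m : ℕ) (D : List Gate) (B : ℕ → ℕ)

open Classical in
/-- The heavy positions of the block `j`. -/
noncomputable def hv (j : ℕ) (s : RS N) : Finset (Fin N) :=
  Finset.univ.filter fun l => l ∉ s.R ∧ ∃ i, B j ≤ i ∧ i < B (j + 1) ∧
    1 / 4 ≤ Pb (fun x => t.c j ≤ Wi s.Z b m D i {l} x ∧ Lt s.Z b m D (B j) (t.H j) x)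

/-- Read the heavy positions of one block. -/
noncomputable def rb (j : ℕ) (s : RS N) : DTree (Fin N) := chain (hv t m D B j s).toList

/-- Read the heavy positions of `n` blocks, beginning with the block `j`. -/
noncomputable def rt : ℕ → ℕ → RS N → DTree (Fin N)
  | 0, _, _ => .leaf false
  | n + 1, j, s => sq (rb t m D B j s) s (rt n (j + 1))

lemma mem_hv {j : ℕ} {s : RS N} {l : Fin N} (h : l ∈ hv t m D B j s) : l ∉ s.R ∧
    ∃ i, B j ≤ i ∧ i < B (j + 1) ∧
    1 / 4 ≤ Pb (fun x => t.c j ≤ Wi s.Z b m D i {l} x ∧ Lt s.Z b m D (B j) (t.H j) x) := by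
  classical
  unfold hv at h
  rw [Finset.mem_filter] at h
  exact h.2

lemma Fresh_rb (j : ℕ) (s : RS N) : Fresh (rb t m D B j s) s.R := by
  refine Fresh_chain _ _ (Finset.nodup_toList _) fun k hk => ?_
  rw [Finset.mem_toList] at hk
  exact (mem_hv t m D B hk).1

lemma Fresh_rt : ∀ (n j : ℕ) (s : RS N), Fresh (rt t m D B n j s) s.R
  | 0, _, _ => trivial
  | n + 1, j, s => Fresh_sq _ (Fresh_rt n (j + 1)) _ s (Fresh_rb t m D B j s)

lemma run_rt_succ (n j : ℕ) (s : RS N) (x : Fin N → ℤˣ) :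
    run (rt t m D B (n + 1) j s) s x
      = run (rt t m D B n (j + 1) (run (rb t m D B j s) s x)) (run (rb t m D B j s) s x) x :=
  run_sq _ _ _ _

lemma c_mono {i j : ℕ} (h : i ≤ j) : t.c i ≤ t.c j := by
  have hH : ∀ i j, i ≤ j → t.H i ≤ t.H j := by
    intro i j h
    induction j, h using Nat.le_induction with
    | base => exact le_rfl
    | succ j _ ih => exact ih.trans (t.mono j)
  have h1 := hH (i + 1) (j + 1) (by omega)
  rw [t.st, t.st] at h1
  linarith

/-- The number of heavy positions. -/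
noncomputable def Thr.K : ℕ := ⌊4 * (L : ℝ) * 2 ^ b / t.c 0⌋₊

lemma card_hv (hD : D.length ≤ L) (hle : ∀ j, B j ≤ D.length) (j : ℕ) (s : RS N) :
    (hv t m D B j s).card ≤ t.K := by
  classical
  apply Nat.le_floor
  rw [le_div_iff₀ (t.c0 0)]
  have h1 : ∀ l ∈ hv t m D B j s, t.c 0 / 4
      ≤ ∑ i ∈ Finset.range D.length, Ex (fun x => Wi s.Z b m D i {l} x) := by
    intro l hl
    obtain ⟨_, i, hi1, hi2, hi3⟩ := mem_hv t m D B hl
    have h2 : Pb (fun x => t.c j ≤ Wi s.Z b m D i {l} x ∧ Lt s.Z b m D (B j) (t.H j) x)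
        ≤ Pb (fun x => t.c j ≤ Wi s.Z b m D i {l} x) := Pb_mono fun x hx => hx.1
    have h3 := Pb_markov (fun x => Wi s.Z b m D i {l} x) (fun x => Wi_nonneg _ _ _ _ _) (t.c j)
      (t.c0 j)
    have h4 : t.c 0 / 4 ≤ Ex (fun x => Wi s.Z b m D i {l} x) := by
      have h5 := mul_le_mul_of_nonneg_left (hi3.trans h2) (t.c0 j).le
      have h6 := c_mono t (Nat.zero_le j)
      linarith
    refine h4.trans ?_
    exact Finset.single_le_sum (f := fun i => Ex (fun x => Wi s.Z b m D i {l} x))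
      (fun i _ => Ex_nonneg fun x => Wi_nonneg _ _ _ _ _)
      (Finset.mem_range.2 (lt_of_lt_of_le hi2 (hle _)))
  have h7 : ((hv t m D B j s).card : ℝ) * (t.c 0 / 4) ≤ L * 2 ^ b := by
    calc ((hv t m D B j s).card : ℝ) * (t.c 0 / 4) = ∑ _l ∈ hv t m D B j s, t.c 0 / 4 := by
          rw [Finset.sum_const, nsmul_eq_mul]
      _ ≤ ∑ l ∈ hv t m D B j s, ∑ i ∈ Finset.range D.length,
          Ex (fun x => Wi s.Z b m D i {l} x) := Finset.sum_le_sum h1
      _ ≤ ∑ l, ∑ i ∈ Finset.range D.length, Ex (fun x => Wi s.Z b m D i {l} x) :=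
          Finset.sum_le_sum_of_subset_of_nonneg (Finset.subset_univ _) fun l _ _ =>
            Finset.sum_nonneg fun i _ => Ex_nonneg fun x => Wi_nonneg _ _ _ _ _
      _ = ∑ i ∈ Finset.range D.length, Ex (fun x => Wi s.Z b m D i Finset.univ x) := by
          rw [Finset.sum_comm]
          refine Finset.sum_congr rfl fun i _ => ?_
          rw [← Ex_sum]
          exact Ex_congr fun x => (Wi_sum _ _ _ _ _).symm
      _ ≤ ∑ _i ∈ Finset.range D.length, (2 : ℝ) ^ b :=
          Finset.sum_le_sum fun i _ => Ex_le_const fun x => Wi_le _ _ _ _ _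
      _ = D.length * 2 ^ b := by simp
      _ ≤ L * 2 ^ b := mul_le_mul_of_nonneg_right (by exact_mod_cast hD) (by positivity)
  linarith

lemma depth_rt (hD : D.length ≤ L) (hle : ∀ j, B j ≤ D.length) : ∀ (n j : ℕ) (s : RS N),
    (rt t m D B n j s).depth ≤ n * t.K
  | 0, _, _ => by simp [rt, DTree.depth]
  | n + 1, j, s => by
    have h1 := depth_sq (rt t m D B n (j + 1)) (n * t.K) (depth_rt hD hle n (j + 1))
      (rb t m D B j s) s
    have h2 : (rb t m D B j s).depth ≤ t.K := by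
      unfold rb
      rw [depth_chain, Finset.length_toList]
      exact card_hv t m D B hD hle j s
    simp only [rt]
    have : (n + 1) * t.K = t.K + n * t.K := by ring
    omega

variable (hB : Bd r D B) (hD : D.length ≤ L)
include hB hD

/-- The failure probability of one stage. -/
lemma stage_fail (j : ℕ) (hj : j < r) (s : RS N) (hs : Inv s) :
    Pb (fun z => ¬ Lt (run (rb t m D B j s) s z).Z b m D (B (j + 1)) (t.H (j + 1)) z)
      ≤ 4 * Pb (fun z => ¬ Lt s.Z b m D (B j) (t.H j) z) + 2 * L * N * Real.exp (-t.Λ) := by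
  classical
  have hE : 0 < Real.exp (-t.Λ) := Real.exp_pos _
  have hq0 := Pb_nonneg (fun z => ¬ Lt s.Z b m D (B j) (t.H j) z)
  by_cases hq : Pb (fun z => ¬ Lt s.Z b m D (B j) (t.H j) z) ≤ 1 / 4
  · -- the event
    have h1 : Pb (fun z => ¬ Lt (run (rb t m D B j s) s z).Z b m D (B (j + 1)) (t.H (j + 1)) z)
        ≤ Pb (fun z => ¬ Lt s.Z b m D (B j) (t.H j) z ∨ ∃ p : Fin L × Fin N,
          (B j ≤ p.1.1 ∧ p.1.1 < B (j + 1) ∧ p.2 ∉ hv t m D B j s ∧ p.2 ∉ s.R) ∧
          (9 / 4 * t.c j ≤ Wi s.Z b m D p.1.1 {p.2} z ∧ Lt s.Z b m D (B j) (t.H j) z)) := by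
      refine Pb_mono fun z hz => ?_
      by_contra hcon
      push Not at hcon
      obtain ⟨hc1, hc2⟩ := hcon
      apply hz
      intro i hi l
      have hW := run_W (rb t m D B j s) s hs z D i l (b := b) (m := m)
      rw [hW]
      split_ifs with hl
      · exact (t.H0 _).le
      · have hl1 : l ∉ s.R := fun h => hl (run_sub _ _ _ h)
        have hl2 : l ∉ hv t m D B j s := by
          intro h
          apply hl
          unfold rb
          rw [run_chain_R, Finset.mem_union, List.mem_toFinset, Finset.mem_toList]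
          exact Or.inr h
        rcases lt_or_ge i (B j) with h | h
        · exact (hc1 i h l).trans (t.mono j)
        · by_contra hcc
          push Not at hcc
          rw [t.st] at hcc
          have hiL : i < L := lt_of_lt_of_le hi ((hB.le _).trans hD)
          exact hc2 (⟨i, hiL⟩, l) ⟨h, hi, hl2, hl1⟩ hcc.le hc1
    have h2 : ∀ p : Fin L × Fin N, Pb (fun z =>
          (B j ≤ p.1.1 ∧ p.1.1 < B (j + 1) ∧ p.2 ∉ hv t m D B j s ∧ p.2 ∉ s.R) ∧
          (9 / 4 * t.c j ≤ Wi s.Z b m D p.1.1 {p.2} z ∧ Lt s.Z b m D (B j) (t.H j) z))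
          ≤ 2 * Real.exp (-t.Λ) := by
      intro p
      by_cases hp : B j ≤ p.1.1 ∧ p.1.1 < B (j + 1) ∧ p.2 ∉ hv t m D B j s ∧ p.2 ∉ s.R
      · have h3 : Pb (fun x => t.c j ≤ Wi s.Z b m D p.1.1 {p.2} x
            ∧ Lt s.Z b m D (B j) (t.H j) x) < 1 / 4 := by
          by_contra hc
          push Not at hc
          apply hp.2.2.1
          unfold hv
          rw [Finset.mem_filter]
          exact ⟨Finset.mem_univ _, hp.2.2.2, p.1.1, hp.1, hp.2.1, hc⟩
        have h4 : 1 / 2 ≤ Pb (fun y => Wi s.Z b m D p.1.1 {p.2} y < t.c j) := by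
          have h5 : Pb (fun y => ¬ (Wi s.Z b m D p.1.1 {p.2} y < t.c j))
              ≤ Pb (fun y => (t.c j ≤ Wi s.Z b m D p.1.1 {p.2} y ∧ Lt s.Z b m D (B j) (t.H j) y)
                ∨ ¬ Lt s.Z b m D (B j) (t.H j) y) := by
            refine Pb_mono fun y hy => ?_
            rw [not_lt] at hy
            by_cases h6 : Lt s.Z b m D (B j) (t.H j) y
            · exact Or.inl ⟨hy, h6⟩
            · exact Or.inr h6
          have h6 := h5.trans (Pb_or _ _)
          rw [Pb_not] at h6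
          linarith
        refine (Pb_mono fun z hz => hz.2).trans ?_
        exact conc_hi s.Z hB L hD t.hL j hj p.1.1 hp.1 hp.2.1 {p.2} (t.H j) (t.c j) t.Λ (t.H0 j)
          (t.c0 j) (t.cl j hj) h4
      · have h3 : Pb (fun z =>
          (B j ≤ p.1.1 ∧ p.1.1 < B (j + 1) ∧ p.2 ∉ hv t m D B j s ∧ p.2 ∉ s.R) ∧
          (9 / 4 * t.c j ≤ Wi s.Z b m D p.1.1 {p.2} z ∧ Lt s.Z b m D (B j) (t.H j) z)) ≤ 0 := by
          unfold Pb
          refine Ex_le_const fun z => ?_
          unfold ind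
          rw [if_neg (fun h => hp h.1)]
        linarith
    refine h1.trans ((Pb_or _ _).trans ?_)
    have h3 := (Pb_exists (fun (p : Fin L × Fin N) z =>
          (B j ≤ p.1.1 ∧ p.1.1 < B (j + 1) ∧ p.2 ∉ hv t m D B j s ∧ p.2 ∉ s.R) ∧
          (9 / 4 * t.c j ≤ Wi s.Z b m D p.1.1 {p.2} z ∧ Lt s.Z b m D (B j) (t.H j) z))).trans
      (Finset.sum_le_sum fun p _ => h2 p)
    rw [Finset.sum_const, Finset.card_univ, Fintype.card_prod, Fintype.card_fin, Fintype.card_fin,
      nsmul_eq_mul] at h3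
    push_cast at h3
    linarith
  · push Not at hq
    have h1 := Pb_le_one (fun z => ¬ Lt (run (rb t m D B j s) s z).Z b m D (B (j + 1)) (t.H (j + 1)) z)
    have h2 : 0 ≤ 2 * (L : ℝ) * N * Real.exp (-t.Λ) := by positivity
    linarith

omit hB hD in
lemma ind_congr {p q : Prop} (h : p ↔ q) : ind p = ind q := by
  unfold ind
  by_cases hp : p
  · rw [if_pos hp, if_pos (h.1 hp)]
  · rw [if_neg hp, if_neg (fun hq => hp (h.2 hq))]

omit hB hD in
lemma Lt_indep {s : RS N} (hs : Inv s) (p : ℕ) (h : ℝ) (k : Fin N) (hk : k ∈ s.R)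
    (x : Fin N → ℤˣ) (u : ℤˣ) :
    Lt s.Z b m D p h (Function.update x k u) ↔ Lt s.Z b m D p h x := by
  unfold Lt
  simp_rw [Wi_congr s.Z (b := b) (m := m) D _ _ ((hs k hk).bx x u)]

omit hB hD in
/-- The final failure is natural. -/
lemma Natl_rt (n j p : ℕ) (h : ℝ) : Natl (fun (s : RS N) z =>
    ind (¬ Lt (run (rt t m D B n j s) s z).Z b m D p h z)) := by
  intro s hs k hk x u
  beta_reduce
  rw [run_indep _ _ (Fresh_rt t m D B n j s) k hk]
  exact ind_congr (not_congr (Lt_indep m D (hs.run _ x) p h k (run_sub _ _ _ hk) x u))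

/-- The failure probability of all stages. -/
lemma rt_fail : ∀ (n j : ℕ) (_ : j + n ≤ r) (s : RS N) (_ : Inv s),
    Pb (fun z => ¬ Lt (run (rt t m D B n j s) s z).Z b m D (B (j + n)) (t.H (j + n)) z)
      ≤ 4 ^ n * Pb (fun z => ¬ Lt s.Z b m D (B j) (t.H j) z)
        + (5 ^ n - 1) * (2 * L * N * Real.exp (-t.Λ))
  | 0, j, _, s, _ => by simp [rt, run]
  | n + 1, j, hj, s, hs => by
    set E' : ℝ := 2 * L * N * Real.exp (-t.Λ) with hE'
    have hE0 : 0 ≤ E' := by positivity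
    have ej : j + (n + 1) = (j + 1) + n := by omega
    have e1 : Pb (fun z => ¬ Lt (run (rt t m D B (n + 1) j s) s z).Z b m D (B (j + (n + 1)))
          (t.H (j + (n + 1))) z)
        = Ex (fun x => Ex (fun z => ind (¬ Lt (run (rt t m D B n (j + 1) (run (rb t m D B j s) s x))
          (run (rb t m D B j s) s x) z).Z b m D (B ((j + 1) + n)) (t.H ((j + 1) + n)) z))) := by
      unfold Pb
      rw [ej]
      simp_rw [run_rt_succ]
      exact TL _ (Natl_rt t m D B n (j + 1) _ _) (rb t m D B j s) s hs (Fresh_rb t m D B j s)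
    rw [e1]
    have ih := fun x => rt_fail n (j + 1) (by omega) (run (rb t m D B j s) s x) (hs.run _ x)
    have h1 := Ex_mono ih
    refine h1.trans ?_
    rw [Ex_add, Ex_mul_left, Ex_const]
    have h2 : Ex (fun x => Pb (fun z => ¬ Lt (run (rb t m D B j s) s x).Z b m D (B (j + 1))
          (t.H (j + 1)) z))
        = Pb (fun z => ¬ Lt (run (rb t m D B j s) s z).Z b m D (B (j + 1)) (t.H (j + 1)) z) := by
      unfold Pb
      symm
      refine TL (fun s z => ind (¬ Lt s.Z b m D (B (j + 1)) (t.H (j + 1)) z)) ?_ _ s hs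
        (Fresh_rb t m D B j s)
      intro s hs k hk x u
      exact ind_congr (not_congr (Lt_indep m D hs _ _ k hk x u))
    rw [h2]
    have h3 := stage_fail t m D B hB hD j (by omega) s hs
    have h4 := mul_le_mul_of_nonneg_left h3 (by positivity : (0 : ℝ) ≤ 4 ^ n)
    rw [← hE'] at h4
    have h5 : (4 : ℝ) ^ n ≤ 5 ^ n := pow_le_pow_left₀ (by norm_num) (by norm_num) n
    have h6 := mul_le_mul_of_nonneg_right h5 hE0
    have h7 : (1 : ℝ) ≤ 5 ^ n := one_le_pow₀ (by norm_num)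
    have h8 : 0 ≤ (5 : ℝ) ^ n * E' := by positivity
    calc _ ≤ 4 ^ n * (4 * Pb (fun z => ¬ Lt s.Z b m D (B j) (t.H j) z) + E') + (5 ^ n - 1) * E' := by
          linarith
      _ = 4 ^ (n + 1) * Pb (fun z => ¬ Lt s.Z b m D (B j) (t.H j) z)
          + (4 ^ n * E' + 5 ^ n * E' - E') := by ring
      _ ≤ 4 ^ (n + 1) * Pb (fun z => ¬ Lt s.Z b m D (B j) (t.H j) z) + (5 ^ (n + 1) - 1) * E' := by
          have e9 : ((5 : ℝ) ^ (n + 1) - 1) * E' = 5 * (5 ^ n * E') - E' := by ring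
          rw [e9]
          linarith

/-- After reading, all weights are small. -/
lemma rt_light (s : RS N) (hs : Inv s) :
    Pb (fun z => ¬ Lt (run (rt t m D B r 0 s) s z).Z b m D D.length (t.H r) z)
      ≤ 5 ^ r * (2 * L * N * Real.exp (-t.Λ)) := by
  have h1 := rt_fail t m D B hB hD r 0 (by omega) s hs
  rw [zero_add, hB.last] at h1
  have h2 : Pb (fun z => ¬ Lt s.Z b m D (B 0) (t.H 0) z) = 0 := by
    unfold Pb
    rw [← Ex_const (ι := Fin N) 0]
    refine Ex_congr fun z => ?_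
    unfold ind
    rw [if_neg]
    rw [not_not]
    intro i hi l
    rw [Wi_first s.Z hB i hi]
    exact (t.H0 0).le
  rw [h2, mul_zero, zero_add] at h1
  have h3 : 0 ≤ 2 * (L : ℝ) * N * Real.exp (-t.Λ) := by positivity
  linarith

/-- Every position which is read has a weight which is not small. -/
lemma rt_cert : ∀ (n j : ℕ) (_ : j + n ≤ r) (s : RS N) (_ : Inv s),
    Pb (fun z => ∃ l ∈ (run (rt t m D B n j s) s z).R, l ∉ s.R ∧
      ∀ i < D.length, Wi s.Z b m D i {l} z < t.c 0 / 4)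
      ≤ n * (4 * N * Real.exp (-t.Λ))
  | 0, j, _, s, _ => by
    simp only [Nat.cast_zero, zero_mul]
    unfold Pb
    refine Ex_le_const fun z => ?_
    unfold ind
    rw [if_neg]
    rintro ⟨l, hl, hl', _⟩
    exact hl' hl
  | n + 1, j, hj, s, hs => by
    classical
    have h1 : Pb (fun z => ∃ l ∈ (run (rt t m D B (n + 1) j s) s z).R, l ∉ s.R ∧
        ∀ i < D.length, Wi s.Z b m D i {l} z < t.c 0 / 4)
        ≤ Pb (fun z => (∃ l : Fin N, l ∈ hv t m D B j s ∧
            ∀ i < D.length, Wi s.Z b m D i {l} z < t.c 0 / 4) ∨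
          (∃ l ∈ (run (rt t m D B n (j + 1) (run (rb t m D B j s) s z))
            (run (rb t m D B j s) s z) z).R, l ∉ (run (rb t m D B j s) s z).R ∧
            ∀ i < D.length, Wi (run (rb t m D B j s) s z).Z b m D i {l} z < t.c 0 / 4)) := by
      refine Pb_mono fun z hz => ?_
      obtain ⟨l, hl1, hl2, hl3⟩ := hz
      rw [run_rt_succ] at hl1
      by_cases hl : l ∈ (run (rb t m D B j s) s z).R
      · left
        refine ⟨l, ?_, hl3⟩
        unfold rb at hl
        rw [run_chain_R, Finset.mem_union, List.mem_toFinset, Finset.mem_toList] at hl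
        rcases hl with h | h
        · exact absurd h hl2
        · exact h
      · right
        exact ⟨l, hl1, hl, fun i hi => lt_of_le_of_lt (run_W_le _ s hs z D i {l}) (hl3 i hi)⟩
    refine h1.trans ((Pb_or _ _).trans ?_)
    have h2 : Pb (fun z => ∃ l : Fin N, l ∈ hv t m D B j s ∧
            ∀ i < D.length, Wi s.Z b m D i {l} z < t.c 0 / 4) ≤ 4 * N * Real.exp (-t.Λ) := by
      refine (Pb_exists _).trans ?_
      have h3 : ∀ l : Fin N, Pb (fun z => l ∈ hv t m D B j s ∧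
            ∀ i < D.length, Wi s.Z b m D i {l} z < t.c 0 / 4) ≤ 4 * Real.exp (-t.Λ) := by
        intro l
        by_cases hl : l ∈ hv t m D B j s
        · obtain ⟨_, i, hi1, hi2, hi3⟩ := mem_hv t m D B hl
          have h4 := conc_lo s.Z hB L hD t.hL j (by omega) i hi1 hi2 {l} (t.H j) (t.c j) t.Λ (t.H0 j)
            (t.c0 j) (t.cl j (by omega)) hi3
          refine le_trans (Pb_mono fun z hz => ?_) h4
          have h5 := hz.2 i (lt_of_lt_of_le hi2 (hB.le _))
          have h6 := c_mono t (Nat.zero_le j)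
          linarith
        · have h3 : Pb (fun z => l ∈ hv t m D B j s ∧
            ∀ i < D.length, Wi s.Z b m D i {l} z < t.c 0 / 4) ≤ 0 := by
            unfold Pb
            refine Ex_le_const fun z => ?_
            unfold ind
            rw [if_neg (fun h => hl h.1)]
          have := Real.exp_pos (-t.Λ)
          linarith
      refine (Finset.sum_le_sum fun l _ => h3 l).trans (le_of_eq ?_)
      rw [Finset.sum_const, Finset.card_univ, Fintype.card_fin, nsmul_eq_mul]
      ring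
    have h3 : Pb (fun z => ∃ l ∈ (run (rt t m D B n (j + 1) (run (rb t m D B j s) s z))
            (run (rb t m D B j s) s z) z).R, l ∉ (run (rb t m D B j s) s z).R ∧
            ∀ i < D.length, Wi (run (rb t m D B j s) s z).Z b m D i {l} z < t.c 0 / 4)
        ≤ n * (4 * N * Real.exp (-t.Λ)) := by
      have h4 : Pb (fun z => ∃ l ∈ (run (rt t m D B n (j + 1) (run (rb t m D B j s) s z))
            (run (rb t m D B j s) s z) z).R, l ∉ (run (rb t m D B j s) s z).R ∧
            ∀ i < D.length, Wi (run (rb t m D B j s) s z).Z b m D i {l} z < t.c 0 / 4)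
          = Ex (fun x => Ex (fun z => ind (∃ l ∈ (run (rt t m D B n (j + 1)
              (run (rb t m D B j s) s x)) (run (rb t m D B j s) s x) z).R,
            l ∉ (run (rb t m D B j s) s x).R ∧
            ∀ i < D.length, Wi (run (rb t m D B j s) s x).Z b m D i {l} z < t.c 0 / 4))) := by
        unfold Pb
        refine TL (fun s z => ind (∃ l ∈ (run (rt t m D B n (j + 1) s) s z).R, l ∉ s.R ∧
            ∀ i < D.length, Wi s.Z b m D i {l} z < t.c 0 / 4)) ?_ _ s hs (Fresh_rb t m D B j s)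
        intro s hs k hk x u
        beta_reduce
        rw [run_indep _ _ (Fresh_rt t m D B n (j + 1) s) k hk]
        simp_rw [Wi_congr s.Z (b := b) (m := m) D _ _ ((hs k hk).bx x u)]
      rw [h4]
      exact Ex_le_const fun x => rt_cert n (j + 1) (by omega) (run (rb t m D B j s) s x) (hs.run _ x)
    have h5 := add_le_add h2 h3
    refine h5.trans (le_of_eq ?_)
    push_cast
    ring

/-! ### Sets of positions -/

omit hB hD in
/-- The set `S` is light for the circuit. -/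
def Sgd (t : Thr r L b) (m : ℕ) (Z : Adm N) (D : List Gate) (S : Finset (Fin N)) : Prop :=
  ∀ i < D.length, Pb (fun z => t.κ ≤ Wi Z b m D i S z ∧ Lt Z b m D D.length (t.H r) z) < 1 / 4

omit hD in
lemma exists_block (i : ℕ) (h1 : B 0 ≤ i) (h2 : i < D.length) :
    ∃ j, j < r ∧ B j ≤ i ∧ i < B (j + 1) := by
  rw [← hB.last] at h2
  have key : ∀ n, B 0 ≤ i → i < B n → ∃ j, j < n ∧ B j ≤ i ∧ i < B (j + 1) := by
    intro n
    induction n with
    | zero => intro h1 h2; omega
    | succ n ih =>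
      intro h1 h2
      by_cases h : i < B n
      · obtain ⟨j, hj1, hj2, hj3⟩ := ih h1 h
        exact ⟨j, by omega, hj2, hj3⟩
      · exact ⟨n, by omega, by omega, h2⟩
  exact key r h1 h2

lemma Sgd_lo (Z : Adm N) (S : Finset (Fin N)) (h : ¬ Sgd t m Z D S) :
    ∃ i < D.length, Pb (fun z => Wi Z b m D i S z < t.κ / 4) ≤ 4 * Real.exp (-t.Λ) := by
  unfold Sgd at h
  push Not at h
  obtain ⟨i, hi, h⟩ := h
  refine ⟨i, hi, ?_⟩
  rcases lt_or_ge i (B 0) with h0 | h0
  · exfalso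
    have : Pb (fun z => t.κ ≤ Wi Z b m D i S z ∧ Lt Z b m D D.length (t.H r) z) ≤ 0 := by
      unfold Pb
      refine Ex_le_const fun z => ?_
      unfold ind
      rw [if_neg]
      rintro ⟨h1, _⟩
      rw [Wi_first Z hB i h0] at h1
      exact absurd h1 (not_le.2 t.κ0)
    linarith
  · obtain ⟨j, hj, hj1, hj2⟩ := exists_block D B hB i h0 hi
    refine conc_lo Z hB L hD t.hL j hj i hj1 hj2 S (t.H r) t.κ t.Λ (t.H0 r) t.κ0 t.kl ?_
    refine h.trans (Pb_mono fun z hz => ⟨hz.1, fun i hi l => hz.2 i (lt_of_lt_of_le hi (hB.le j)) l⟩)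

lemma Sgd_hi (Z : Adm N) (S : Finset (Fin N)) (h : Sgd t m Z D S) :
    Pb (fun y => ∃ z : Fin N → ℤˣ, (∀ k ∉ S, z k = y k) ∧
      ∃ i < D.length, (1 + 2 * (L : ℝ)) ^ 2 * (9 / 4 * t.κ) < Wi Z b m D i S z)
      ≤ 4 * Pb (fun y => ¬ Lt Z b m D D.length (t.H r) y) + 2 * L * Real.exp (-t.Λ) := by
  classical
  have hE : 0 < Real.exp (-t.Λ) := Real.exp_pos _
  have hκ := t.κ0
  by_cases hq : Pb (fun y => ¬ Lt Z b m D D.length (t.H r) y) ≤ 1 / 4
  · have h1 : Pb (fun y => ∃ z : Fin N → ℤˣ, (∀ k ∉ S, z k = y k) ∧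
        ∃ i < D.length, (1 + 2 * (L : ℝ)) ^ 2 * (9 / 4 * t.κ) < Wi Z b m D i S z)
        ≤ Pb (fun y => ¬ Lt Z b m D D.length (t.H r) y ∨ ∃ i : Fin L,
          i.1 < D.length ∧ (9 / 4 * t.κ ≤ Wi Z b m D i.1 S y ∧ Lt Z b m D D.length (t.H r) y)) := by
      refine Pb_mono fun y hy => ?_
      by_contra hcon
      push Not at hcon
      obtain ⟨hc1, hc2⟩ := hcon
      obtain ⟨z, hz, i, hi, hW⟩ := hy
      have hsm : ∀ i < D.length, Real.sqrt (Wi Z b m D i S y) ≤ Real.sqrt (9 / 4 * t.κ) := by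
        intro i hi
        apply Real.sqrt_le_sqrt
        by_contra hcc
        push Not at hcc
        exact hc2 ⟨i, by omega⟩ hi hcc.le hc1
      have hg : D[i]? = some D[i] := List.getElem?_eq_getElem hi
      have a1 := sqrt_WS_sub_le Z (b := b) (m := m) (D.take i) D[i] S z y
      have a2 := hyb Z (b := b) (m := m) D y z i
      have a3 : nrm (fun q => Js Z b m (D.take i) z q - Js Z b m (D.take i) y q)
          = nrm (fun q => Js Z b m (D.take i) y q - Js Z b m (D.take i) z q) := by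
        unfold nrm nsq
        congr 1
        exact Finset.sum_congr rfl fun q _ => by ring
      rw [a3] at a1
      have hdf : df y z ⊆ S := by
        intro k hk
        unfold df at hk
        rw [Finset.mem_filter] at hk
        by_contra hkS
        exact hk.2 (hz k hkS).symm
      have a4 : ∑ i' ∈ Finset.range i, 2 * Real.sqrt (Wi Z b m D i' (df y z) y)
          ≤ 2 * L * Real.sqrt (9 / 4 * t.κ) := by
        calc ∑ i' ∈ Finset.range i, 2 * Real.sqrt (Wi Z b m D i' (df y z) y)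
            ≤ ∑ _i' ∈ Finset.range i, 2 * Real.sqrt (9 / 4 * t.κ) := by
              refine Finset.sum_le_sum fun i' hi' => ?_
              rw [Finset.mem_range] at hi'
              have h2 : Real.sqrt (Wi Z b m D i' (df y z) y) ≤ Real.sqrt (Wi Z b m D i' S y) :=
                Real.sqrt_le_sqrt (Wi_mono Z D i' hdf y)
              have h3 := hsm i' (by omega)
              linarith
          _ = i * (2 * Real.sqrt (9 / 4 * t.κ)) := by simp
          _ ≤ L * (2 * Real.sqrt (9 / 4 * t.κ)) := by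
              refine mul_le_mul_of_nonneg_right ?_ (by positivity)
              have : i ≤ L := by omega
              exact_mod_cast this
          _ = _ := by ring
      have a5 : Real.sqrt (WS Z b m (D.take i) D[i] S y) ≤ Real.sqrt (9 / 4 * t.κ) := by
        have := hsm i hi
        unfold Wi at this
        rw [hg] at this
        exact this
      have a6 : Real.sqrt (WS Z b m (D.take i) D[i] S z) ≤ (1 + 2 * L) * Real.sqrt (9 / 4 * t.κ) := by
        linarith
      have a7 : Wi Z b m D i S z = WS Z b m (D.take i) D[i] S z := by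
        unfold Wi
        rw [hg]
      rw [a7] at hW
      have a8 : WS Z b m (D.take i) D[i] S z ≤ ((1 + 2 * L) * Real.sqrt (9 / 4 * t.κ)) ^ 2 := by
        rw [← Real.sq_sqrt (WS_nonneg Z (b := b) (m := m) (D.take i) D[i] S z)]
        exact pow_le_pow_left₀ (Real.sqrt_nonneg _) a6 2
      rw [mul_pow, Real.sq_sqrt (by positivity)] at a8
      linarith
    have h2 : ∀ i : Fin L, Pb (fun y =>
          i.1 < D.length ∧ (9 / 4 * t.κ ≤ Wi Z b m D i.1 S y ∧ Lt Z b m D D.length (t.H r) y))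
          ≤ 2 * Real.exp (-t.Λ) := by
      intro i
      by_cases hi : i.1 < D.length
      · rcases lt_or_ge i.1 (B 0) with h0 | h0
        · have : Pb (fun y => i.1 < D.length ∧
              (9 / 4 * t.κ ≤ Wi Z b m D i.1 S y ∧ Lt Z b m D D.length (t.H r) y)) ≤ 0 := by
            unfold Pb
            refine Ex_le_const fun z => ?_
            unfold ind
            rw [if_neg]
            rintro ⟨_, h1, _⟩
            rw [Wi_first Z hB i.1 h0] at h1
            linarith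
          linarith
        · obtain ⟨j, hj, hj1, hj2⟩ := exists_block D B hB i.1 h0 hi
          have h4 : 1 / 2 ≤ Pb (fun y => Wi Z b m D i.1 S y < t.κ) := by
            have h5 : Pb (fun y => ¬ (Wi Z b m D i.1 S y < t.κ))
                ≤ Pb (fun y => (t.κ ≤ Wi Z b m D i.1 S y ∧ Lt Z b m D D.length (t.H r) y)
                  ∨ ¬ Lt Z b m D D.length (t.H r) y) := by
              refine Pb_mono fun y hy => ?_
              rw [not_lt] at hy
              by_cases h6 : Lt Z b m D D.length (t.H r) y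
              · exact Or.inl ⟨hy, h6⟩
              · exact Or.inr h6
            have h6 := h5.trans (Pb_or _ _)
            rw [Pb_not] at h6
            have h7 := h i.1 hi
            linarith
          have h5 := conc_hi Z hB L hD t.hL j hj i.1 hj1 hj2 S (t.H r) t.κ t.Λ (t.H0 r) t.κ0 t.kl h4
          refine le_trans (Pb_mono fun y hy => ⟨hy.2.1, ?_⟩) h5
          exact fun i hi l => hy.2.2 i (lt_of_lt_of_le hi (hB.le j)) l
      · have : Pb (fun y => i.1 < D.length ∧
              (9 / 4 * t.κ ≤ Wi Z b m D i.1 S y ∧ Lt Z b m D D.length (t.H r) y)) ≤ 0 := by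
          unfold Pb
          refine Ex_le_const fun z => ?_
          unfold ind
          rw [if_neg (fun h => hi h.1)]
        linarith
    refine h1.trans ((Pb_or _ _).trans ?_)
    have h3 := (Pb_exists (fun (i : Fin L) y =>
          i.1 < D.length ∧ (9 / 4 * t.κ ≤ Wi Z b m D i.1 S y ∧ Lt Z b m D D.length (t.H r) y))).trans
      (Finset.sum_le_sum fun i _ => h2 i)
    rw [Finset.sum_const, Finset.card_univ, Fintype.card_fin, nsmul_eq_mul] at h3
    have := Pb_nonneg (fun y => ¬ Lt Z b m D D.length (t.H r) y)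
    linarith
  · push Not at hq
    have h1 := Pb_le_one (fun y => ∃ z : Fin N → ℤˣ, (∀ k ∉ S, z k = y k) ∧
      ∃ i < D.length, (1 + 2 * (L : ℝ)) ^ 2 * (9 / 4 * t.κ) < Wi Z b m D i S z)
    have h2 : 0 ≤ 2 * (L : ℝ) * Real.exp (-t.Λ) := by positivity
    linarith

end Stage

end Pool.Agent.W938.CQ
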