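import Pool.Agent.W938.CQ.Lt
import Pool.Agent.H703R2.AA.Osss

/-!
# Influential coordinates from a light lemma, for classes of functions with weights
-/

set_option autoImplicit false
set_option linter.unusedSectionVars false

namespace Pool.Agent.W938.CQ

open Finset Pool.Agent.H722R2.AA Pool.Agent.H746R2.AA Pool.Agent.H703R2.AA Pool.Agent.H703R2.AA.Pr
  Pool.Agent.H703R2.AB Pool.Agent.H703R2.AC

variable {κ τ : Type*} [Fintype κ] [DecidableEq κ] [Fintype τ]

/-- A class of functions with weights of the positions: `C f L μ` means that `f` is in the class,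
that the positions in `L` are dead, and that `μ t k` are the weights. -/
structure FC (κ τ : Type*) [Fintype κ] [DecidableEq κ] [Fintype τ] (tot : ℝ) where
  C : ((κ → ℤˣ) → ℝ) → Finset κ → (τ → κ → ℝ) → Prop
  nn : ∀ f L μ, C f L μ → ∀ t k, 0 ≤ μ t k
  sm : ∀ f L μ, C f L μ → ∀ t, ∑ k, μ t k ≤ tot
  dead : ∀ f L μ, C f L μ → ∀ t, ∀ l ∈ L, μ t l = 0
  f0 : ∀ f L μ, C f L μ → ∀ x, 0 ≤ f x
  f1 : ∀ f L μ, C f L μ → ∀ x, f x ≤ 1
  res : ∀ f L μ, C f L μ → ∀ k, ∃ μ1 μ2, C (fr k 1 f) (insert k L) μ1 ∧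
    C (fr k (-1) f) (insert k L) μ2 ∧ ∀ t l, μ1 t l + μ2 t l = if l = k then 0 else 2 * μ t l

variable {tot : ℝ} (M : FC κ τ tot)

/-- The potential. -/
noncomputable def Pf (μ : τ → κ → ℝ) : ℝ := ∑ t, ∑ k, μ t k

lemma Pf_nonneg {f : (κ → ℤˣ) → ℝ} {L : Finset κ} {μ : τ → κ → ℝ} (h : M.C f L μ) : 0 ≤ Pf μ :=
  Finset.sum_nonneg fun t _ => Finset.sum_nonneg fun k _ => M.nn f L μ h t k

lemma Pf_le {f : (κ → ℤˣ) → ℝ} {L : Finset κ} {μ : τ → κ → ℝ} (h : M.C f L μ) :
    Pf μ ≤ Fintype.card τ * tot := by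
  calc Pf μ ≤ ∑ _t : τ, tot := Finset.sum_le_sum fun t _ => M.sm f L μ h t
    _ = _ := by simp

lemma Pf_res (k : κ) (μ μ1 μ2 : τ → κ → ℝ)
    (h : ∀ t l, μ1 t l + μ2 t l = if l = k then 0 else 2 * μ t l) :
    Pf μ1 + Pf μ2 = 2 * (Pf μ - ∑ t, μ t k) := by
  unfold Pf
  rw [← Finset.sum_add_distrib, ← Finset.sum_sub_distrib, Finset.mul_sum]
  refine Finset.sum_congr rfl fun t _ => ?_
  rw [← Finset.sum_add_distrib]
  simp_rw [h]
  rw [← Finset.add_sum_erase Finset.univ (fun l : κ => if l = k then (0 : ℝ) else 2 * μ t l)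
      (Finset.mem_univ k), if_pos rfl, zero_add,
    ← Finset.add_sum_erase Finset.univ (fun l : κ => μ t l) (Finset.mem_univ k),
    add_sub_cancel_left, Finset.mul_sum]
  refine Finset.sum_congr rfl fun l hl => ?_
  rw [if_neg (Finset.ne_of_mem_erase hl)]

/-- The covariance bound. -/
theorem cov_f (θ : ℝ) (hθ : 0 < θ) (B : ℝ)
    (hB : ∀ f L μ, M.C f L μ → (∀ t k, μ t k ≤ θ) → Cov f f ≤ B)
    (h : (κ → ℤˣ) → ℝ) (I : ℝ) (hI : ∀ l, Real.sqrt (Inf h l) ≤ I) (hI0 : 0 ≤ I) :
    ∀ (m : ℕ) (L : Finset κ) (f : (κ → ℤˣ) → ℝ) (μ : τ → κ → ℝ), Lᶜ.card = m → M.C f L μ →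
      |Cov f h| ≤ Real.sqrt B * Real.sqrt (Cov h h) + Pf μ / (2 * θ) * I := by
  intro m
  induction m with
  | zero =>
    intro L f μ hn hL
    have hlight := hB f L μ hL (fun t k => by
      have hk : k ∈ L := by
        by_contra hk
        have : k ∈ Lᶜ := Finset.mem_compl.2 hk
        rw [Finset.card_eq_zero.1 hn] at this
        simp at this
      rw [M.dead f L μ hL t k hk]
      exact hθ.le)
    have h1 := abs_Cov_le f h
    have h2 : Real.sqrt (Cov f f) * Real.sqrt (Cov h h)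
        ≤ Real.sqrt B * Real.sqrt (Cov h h) :=
      mul_le_mul_of_nonneg_right (Real.sqrt_le_sqrt hlight) (Real.sqrt_nonneg _)
    have h3 : 0 ≤ Pf μ / (2 * θ) * I :=
      mul_nonneg (div_nonneg (Pf_nonneg M hL) (by positivity)) hI0
    linarith
  | succ m ih =>
    intro L f μ hn hL
    by_cases hlt : ∀ t k, μ t k ≤ θ
    · have hlight := hB f L μ hL hlt
      have h1 := abs_Cov_le f h
      have h2 : Real.sqrt (Cov f f) * Real.sqrt (Cov h h)
          ≤ Real.sqrt B * Real.sqrt (Cov h h) :=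
        mul_le_mul_of_nonneg_right (Real.sqrt_le_sqrt hlight) (Real.sqrt_nonneg _)
      have h3 : 0 ≤ Pf μ / (2 * θ) * I :=
        mul_nonneg (div_nonneg (Pf_nonneg M hL) (by positivity)) hI0
      linarith
    · push Not at hlt
      obtain ⟨t, k, hk⟩ := hlt
      have hkL : k ∉ L := by
        intro hkL
        rw [M.dead f L μ hL t k hkL] at hk
        linarith
      have hcard : (insert k L)ᶜ.card = m := by
        have h1 := Finset.card_compl_add_card L
        have h2 := Finset.card_compl_add_card (insert k L)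
        rw [Finset.card_insert_of_notMem hkL] at h2
        omega
      obtain ⟨μ1, μ2, hM1, hM2, hμ⟩ := M.res f L μ hL k
      have i1 := ih (insert k L) _ μ1 hcard hM1
      have i2 := ih (insert k L) _ μ2 hcard hM2
      have hsplit := Cov_split f h k
      have hq : |Ex (fun x => sg x k * D f k x * h x)| ≤ 1 / 2 * I := by
        refine (abs_Ex_sg_mul_le k (D f k) h (fun x u => D_update _ k x u)).trans ?_
        refine mul_le_mul ?_ (hI k) (Real.sqrt_nonneg _) (by norm_num)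
        rw [Real.sqrt_le_left (by norm_num)]
        refine Ex_le_const fun x => ?_
        have := abs_D_le f (M.f0 f L μ hL) (M.f1 f L μ hL) k x
        rw [← sq_abs]
        exact pow_le_pow_left₀ (abs_nonneg _) this 2
      have hPot := Pf_res k μ μ1 μ2 hμ
      have hdk : θ ≤ ∑ t, μ t k :=
        hk.le.trans (Finset.single_le_sum (f := fun t => μ t k)
          (fun t _ => M.nn f L μ hL t k) (Finset.mem_univ t))
      have hc3 : 0 < 2 * θ := by positivity
      have hfin : (Pf μ1 / (2 * θ) * I + Pf μ2 / (2 * θ) * I) / 2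
          + 1 / 2 * I ≤ Pf μ / (2 * θ) * I := by
        have e : (Pf μ1 / (2 * θ) * I + Pf μ2 / (2 * θ) * I) / 2
            = (Pf μ - ∑ t, μ t k) / (2 * θ) * I := by
          have : Pf μ1 / (2 * θ) * I + Pf μ2 / (2 * θ) * I
              = (Pf μ1 + Pf μ2) / (2 * θ) * I := by ring
          rw [this, hPot]; ring
        rw [e]
        have h5 : (Pf μ - ∑ t, μ t k) / (2 * θ)
            ≤ Pf μ / (2 * θ) - 1 / 2 := by
          rw [div_le_iff₀ hc3, sub_mul, div_mul_cancel₀ _ hc3.ne']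
          linarith
        have h6 := mul_le_mul_of_nonneg_right h5 hI0
        linarith
      rw [hsplit]
      calc |(Cov (fr k 1 f) h + Cov (fr k (-1) f) h) / 2
            + Ex (fun x => sg x k * D f k x * h x)|
          ≤ |(Cov (fr k 1 f) h + Cov (fr k (-1) f) h) / 2|
            + |Ex (fun x => sg x k * D f k x * h x)| := abs_add_le _ _
        _ ≤ (|Cov (fr k 1 f) h| + |Cov (fr k (-1) f) h|) / 2
            + |Ex (fun x => sg x k * D f k x * h x)| := by
            rw [abs_div, abs_of_pos (by norm_num : (0 : ℝ) < 2)]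
            have := abs_add_le (Cov (fr k 1 f) h) (Cov (fr k (-1) f) h)
            linarith
        _ ≤ _ := by linarith

/-- Influential coordinates from a light lemma. -/
theorem main_f (θ : ℝ) (hθ : 0 < θ) (hn : 1 ≤ Fintype.card τ) (htot : 0 < tot)
    (f : (κ → ℤˣ) → ℝ) (μ : τ → κ → ℝ) (hf : M.C f ∅ μ) (hV : 0 < Cov f f)
    (hB : ∀ f' L μ', M.C f' L μ' → (∀ t k, μ' t k ≤ θ) → Cov f' f' ≤ Cov f f / 4) :
    ∃ l, (θ * Cov f f / (Fintype.card τ * tot)) ^ 2 ≤ Inf f l := by
  set V := Cov f f with hVdef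
  have hT0 : (0 : ℝ) < Fintype.card τ * tot := by
    have : (0 : ℝ) < Fintype.card τ := by exact_mod_cast hn
    positivity
  have hsq : Real.sqrt (V / 4) * Real.sqrt V ≤ V / 2 := by
    have e : V / 4 = (Real.sqrt V / 2) ^ 2 := by
      rw [div_pow, Real.sq_sqrt hV.le]; norm_num
    have h1 : Real.sqrt (V / 4) = Real.sqrt V / 2 := by
      rw [e, Real.sqrt_sq (by positivity)]
    rw [h1, div_mul_eq_mul_div, Real.mul_self_sqrt hV.le]
  have key : ∀ I : ℝ, 0 ≤ I → (∀ l, Real.sqrt (Inf f l) ≤ I) →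
      θ * V / (Fintype.card τ * tot) ≤ I := by
    intro I hI0 hI
    have h1 := cov_f M θ hθ (V / 4) hB f I hI hI0 (∅ᶜ : Finset κ).card ∅ f μ rfl hf
    rw [← hVdef, abs_of_pos hV] at h1
    have h2 := Pf_le M hf
    have h3 : Pf μ / (2 * θ) * I ≤ (Fintype.card τ * tot) / (2 * θ) * I :=
      mul_le_mul_of_nonneg_right (div_le_div_of_nonneg_right h2 (by positivity)) hI0
    have h4 : V / 2 ≤ (Fintype.card τ * tot) / (2 * θ) * I := by linarith
    rw [div_le_iff₀ hT0]
    have h6 := mul_le_mul_of_nonneg_right h4 (by positivity : 0 ≤ 2 * θ)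
    have e2 : ((Fintype.card τ : ℝ) * tot) / (2 * θ) * I * (2 * θ)
        = I * (Fintype.card τ * tot) := by
      field_simp
    linarith
  rcases isEmpty_or_nonempty κ with hκ | hκ
  · exfalso
    have := key 0 le_rfl (fun l => (IsEmpty.false l).elim)
    have h2 : 0 < θ * V / (Fintype.card τ * tot) := by positivity
    linarith
  · obtain ⟨l, _, hl⟩ := Finset.exists_max_image (Finset.univ : Finset κ) (fun l => Inf f l)
      Finset.univ_nonempty
    refine ⟨l, ?_⟩
    have h1 := key (Real.sqrt (Inf f l)) (Real.sqrt_nonneg _)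
      (fun l' => Real.sqrt_le_sqrt (hl l' (Finset.mem_univ _)))
    calc _ ≤ Real.sqrt (Inf f l) ^ 2 := pow_le_pow_left₀ (by positivity) h1 2
      _ = _ := Real.sq_sqrt (Inf_nonneg f l)

end Pool.Agent.W938.CQ
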