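import Pool.Agent.W938.CQ.Bnd3
import Pool.Agent.W938.CQ.Osf

/-!
# The class of the acceptance probabilities of hybrid computations
-/

set_option autoImplicit false
set_option linter.unusedSectionVars false

namespace Pool.Agent.W938.CQ

open Finset Pool.Agent.H722R2.AA Pool.Agent.H746R2.AA Pool.Agent.H703R2.AA Pool.Agent.H703R2.AA.Pr
open Pool.Agent.H703R2.AB
open Pool.Agent.H620R2.Gauge Pool.Agent.W938.Hyb
open Pool.Agent.H889R3.RQ (DTree)
open Pool.Agent.NPC (pairBits)

variable {b m N : ℕ}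

/-- The record as a list of bits. -/
def flat : List (Fin m → Bool) → List Bool
  | [] => []
  | o :: os => List.ofFn o ++ flat os

lemma flat_length : ∀ os : List (Fin m → Bool), (flat os).length = os.length * m
  | [] => by simp [flat]
  | o :: os => by
    simp only [flat, List.length_append, List.length_ofFn, List.length_cons, flat_length os]
    ring

/-- The circuits. -/
def DD (C : List Bool → List Gate) (inp : List Bool) (n : ℕ) (os : List (Fin m → Bool)) :
    List Gate :=
  if os.length < n then C (pairBits inp (flat os)) else []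

variable (Dc : List (Fin m → Bool) → List Gate)

lemma me0_sum (Z : Adm N) (x : Fin N → ℤˣ) (os : List (Fin m → Bool)) :
    ∑ o, nsq (me0 b Dc Z x (o :: os)) = nsq (me0 b Dc Z x os) := by
  have h1 : nsq (circAct (Z.O (bx x)) (Dc os) (load m (me0 b Dc Z x os)))
      = nsq (me0 b Dc Z x os) := by
    rw [nsq_circAct, nsq_load]
    rfl
  rw [← h1]
  conv_rhs => unfold nsq
  rw [← (Fin.appendEquiv b m).sum_comp, Fintype.sum_prod_type, Finset.sum_comm]
  rfl

lemma S_me0 (Z : Adm N) (x : Fin N → ℤˣ) (c : ℕ) :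
    S c (fun os => nsq (me0 b Dc Z x os)) = 1 := by
  rw [S_peel_eq 0 c (Nat.zero_le _) _ (fun a _ => me0_sum Dc Z x a)]
  exact Pool.Agent.H116R3.RQ.initSt_norm b

lemma me0_fix (Z : Adm N) (k : Fin N) (u : ℤˣ) (x : Fin N → ℤˣ) : ∀ os : List (Fin m → Bool),
    me0 b Dc (Z.fix k (decide (u = -1))) x os = me0 b Dc Z (Function.update x k u) os
  | [] => rfl
  | o :: os => by
    simp only [me0]
    rw [me0_fix Z k u x os]
    have : (Z.fix k (decide (u = -1))).O (bx x) = Z.O (bx (Function.update x k u)) := by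
      rw [bx_update]
      rfl
    rw [this]

lemma Wi_fix' (Z : Adm N) (k : Fin N) (u : ℤˣ) (x : Fin N → ℤˣ) (D : List Gate) (i : ℕ)
    (l : Fin N) : Wi (Z.fix k (decide (u = -1))) b m D i {l} x
      = if l = k then 0 else Wi Z b m D i {l} (Function.update x k u) := by
  have h1 := Wi_fix (b := b) (m := m) Z k (Function.update x k u) D i l
  rw [Function.update_self] at h1
  rw [← h1]
  exact (Wi_congr _ D i {l} ((NoDep.fix_self Z k (decide (u = -1))).bx x u)).symm

/-- The weights. -/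
noncomputable def muZ (b : ℕ) (Z : Adm N) (c i : ℕ) (k : Fin N) : ℝ :=
  Ex (fun x => S c (fun os => nsq (me0 b Dc Z x os) * Wi Z b m (Dc os) i {k} x))

lemma muZ_nonneg (Z : Adm N) (c i : ℕ) (k : Fin N) : 0 ≤ muZ Dc b Z c i k :=
  Ex_nonneg fun _ => S_nonneg _ fun _ => mul_nonneg (nsq_nonneg _) (Wi_nonneg _ _ _ _ _)

lemma muZ_sum (Z : Adm N) (c i : ℕ) : ∑ k, muZ Dc b Z c i k ≤ 2 ^ b := by
  unfold muZ
  rw [← Ex_sum]
  refine Ex_le_const fun x => ?_
  rw [← S_sum]
  calc _ ≤ S c (fun os => 2 ^ b * nsq (me0 b Dc Z x os)) := by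
        refine S_mono c fun os => ?_
        rw [← Finset.mul_sum, ← Wi_sum, mul_comm]
        exact mul_le_mul_of_nonneg_right (Wi_le Z _ _ _ _) (nsq_nonneg _)
    _ = _ := by rw [S_mul_left, S_me0, mul_one]

lemma muZ_dead (Z : Adm N) (c i : ℕ) (k : Fin N) (hk : NoDep Z k) : muZ Dc b Z c i k = 0 := by
  unfold muZ
  rw [← Ex_const (ι := Fin N) 0]
  refine Ex_congr fun x => ?_
  rw [← S_zero_fun (W := Fin m → Bool) c]
  refine S_congr' c fun os _ => ?_
  rw [Wi_NoDep hk, mul_zero]

lemma muZ_fix (Z : Adm N) (c i : ℕ) (k l : Fin N) :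
    muZ Dc b (Z.fix k (decide ((1 : ℤˣ) = -1))) c i l + muZ Dc b (Z.fix k (decide ((-1 : ℤˣ) = -1))) c i l
      = if l = k then 0 else 2 * muZ Dc b Z c i l := by
  have h1 : ∀ u : ℤˣ, muZ Dc b (Z.fix k (decide (u = -1))) c i l
      = if l = k then 0 else Ex (fr k u (fun x => S c (fun os => nsq (me0 b Dc Z x os)
        * Wi Z b m (Dc os) i {l} x))) := by
    intro u
    unfold muZ fr
    split_ifs with h
    · rw [← Ex_const (ι := Fin N) 0]
      refine Ex_congr fun x => ?_
      rw [← S_zero_fun (W := Fin m → Bool) c]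
      refine S_congr' c fun os _ => ?_
      rw [Wi_fix', if_pos h, mul_zero]
    · refine Ex_congr fun x => S_congr' c fun os _ => ?_
      rw [Wi_fix', if_neg h, me0_fix]
  rw [h1, h1]
  split_ifs
  · ring
  · have := Ex_split k (fun x => S c (fun os => nsq (me0 b Dc Z x os) * Wi Z b m (Dc os) i {l} x))
    unfold muZ
    linarith

variable (C : List Bool → List Gate) (inp : List Bool) (n : ℕ)

/-- The acceptance probability. -/
noncomputable def fx (b m : ℕ) (Z : Adm N) (x : Fin N → ℤˣ) : ℝ := fa Z C inp b m n (bx x)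

/-- The output. -/
noncomputable def go (os : List (Fin m → Bool)) : ℝ := if (flat os).head? = some true then 1 else 0

lemma go_nonneg (os : List (Fin m → Bool)) : 0 ≤ go os := by unfold go; split_ifs <;> norm_num

lemma go_le (os : List (Fin m → Bool)) : go os ≤ 1 := by unfold go; split_ifs <;> norm_num

lemma accH_S (Z : Adm N) (x : Fin N → ℤˣ) : ∀ (k j : ℕ), j + k = n →
    S j (fun os : List (Fin m → Bool) => accH (Z.O (bx x)) C inp b m k (flat os)
        (me0 b (DD C inp n) Z x os))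
      = S n (fun os : List (Fin m → Bool) => nsq (me0 b (DD C inp n) Z x os) * go os)
  | 0, j, h => by
    have hj : j = n := by omega
    subst hj
    refine S_congr' j fun os _ => ?_
    simp only [accH, go]
    split_ifs
    · rw [mul_one]; rfl
    · rw [mul_zero]
  | k + 1, j, h => by
    rw [← accH_S Z x k (j + 1) (by omega)]
    simp only [S]
    refine S_congr' j fun os hos => ?_
    simp only [accH]
    refine Finset.sum_congr rfl fun w _ => ?_
    have hD : DD C inp n os = C (pairBits inp (flat os)) := by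
      unfold DD
      rw [if_pos (by omega)]
    rw [← hD]
    rfl

lemma fx_eq (Z : Adm N) (x : Fin N → ℤˣ) :
    fx C inp n b m Z x
      = S n (fun os : List (Fin m → Bool) => nsq (me0 b (DD C inp n) Z x os) * go os) := by
  rw [← accH_S C inp n Z x n 0 (by omega)]
  rfl

lemma fx_nonneg (Z : Adm N) (x : Fin N → ℤˣ) : 0 ≤ fx C inp n b m Z x := by
  rw [fx_eq]
  exact S_nonneg n fun os => mul_nonneg (nsq_nonneg _) (go_nonneg os)

lemma fx_le (Z : Adm N) (x : Fin N → ℤˣ) : fx C inp n b m Z x ≤ 1 := by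
  rw [fx_eq, ← S_me0 (b := b) (DD C inp n (m := m)) Z x n]
  refine S_mono n fun os => ?_
  have := mul_le_mul_of_nonneg_left (go_le os) (nsq_nonneg (me0 b (DD C inp n) Z x os))
  linarith

lemma fr_fx (Z : Adm N) (k : Fin N) (u : ℤˣ) :
    fr k u (fx C inp n b m Z) = fx C inp n b m (Z.fix k (decide (u = -1))) := by
  funext x
  unfold fr fx fa
  rw [bx_update]
  rfl

/-- The class. -/
noncomputable def Kl (b m n L : ℕ) (N : ℕ) : FC (Fin N) (Fin n × Fin L) ((2 : ℝ) ^ b) where
  C := fun f L' μ => ∃ Z : Adm N, f = fx C inp n b m Z ∧ (∀ l ∈ L', NoDep Z l) ∧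
    μ = fun t k => muZ (DD C inp n (m := m)) b Z t.1 t.2 k
  nn := by
    rintro f L' μ ⟨Z, rfl, _, rfl⟩ t k
    exact muZ_nonneg _ _ _ _ _
  sm := by
    rintro f L' μ ⟨Z, rfl, _, rfl⟩ t
    exact muZ_sum _ _ _ _
  dead := by
    rintro f L' μ ⟨Z, rfl, h, rfl⟩ t l hl
    exact muZ_dead _ _ _ _ _ (h l hl)
  f0 := by
    rintro f L' μ ⟨Z, rfl, _, rfl⟩ x
    exact fx_nonneg C inp n Z x
  f1 := by
    rintro f L' μ ⟨Z, rfl, _, rfl⟩ x
    exact fx_le C inp n Z x
  res := by
    rintro f L' μ ⟨Z, rfl, h, rfl⟩ k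
    have hd : ∀ c, ∀ l ∈ insert k L', NoDep (Z.fix k c) l := by
      intro c l hl
      rcases Finset.mem_insert.1 hl with rfl | hl
      · exact NoDep.fix_self _ _ _
      · exact (h l hl).fix _ _
    exact ⟨_, _, ⟨Z.fix k (decide ((1 : ℤˣ) = -1)), fr_fx C inp n Z k 1, hd _, rfl⟩,
      ⟨Z.fix k (decide ((-1 : ℤˣ) = -1)), fr_fx C inp n Z k (-1), hd _, rfl⟩,
      fun t l => muZ_fix _ Z t.1 t.2 k l⟩

/-- The output of the machine. -/
lemma out_fx (p : Par N m b) (hn : p.n = n) (hDc : p.Dc = DD C inp n) (x : Fin N → ℤˣ) :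
    p.P.out (p.n * p.E) (fun h => go (p.ctl h).os) x = fx C inp n b m p.Z x := by
  rw [fx_eq, ← hDc, ← hn]
  have h1 := p.SB x p.n (fun cn => go cn.os)
  refine Eq.trans ?_ h1
  unfold Pr.out
  exact S_congr' _ fun h _ => mul_comm _ _

end Pool.Agent.W938.CQ
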