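import Pool.Agent.W938.CQ.Infl
import Pool.Agent.W938.NF.Fin

/-!
# Hybrid computations with circuits which ask few rounds of questions
-/

set_option autoImplicit false
set_option linter.unusedSectionVars false

namespace Pool.Agent.W938.CQ

open Filter Pool.Agent.H620R2.Gauge Pool.Agent.NPC Pool.Agent.H889R3.RQ Pool.Agent.W938.Hyb
open H568R2
open Pool.Agent.H628R3.RO (randomOracle)
open Pool.Agent.H572R2 (EE EE_congr)
open Pool.Agent.H572R4.QA (var rs DegLe)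

variable {N : ℕ}

/-! ### The full tree -/

/-- Ask for all bits. -/
def full : List (Fin N) → ((Fin N → Bool) → Bool) → DTree (Fin N)
  | [], g => .leaf (g fun _ => false)
  | j :: js, g => .ask j (full js fun x => g (Function.update x j false))
      (full js fun x => g (Function.update x j true))

lemma full_depth : ∀ (js : List (Fin N)) (g : (Fin N → Bool) → Bool),
    (full js g).depth = js.length
  | [], _ => rfl
  | j :: js, g => by simp [full, DTree.depth, full_depth js]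

lemma full_eval : ∀ (js : List (Fin N)) (g : (Fin N → Bool) → Bool)
    (_ : ∀ x y : Fin N → Bool, (∀ i ∈ js, x i = y i) → g x = g y) (x : Fin N → Bool),
    (full js g).eval x = g x
  | [], g, h, x => h _ _ (fun i hi => absurd hi List.not_mem_nil)
  | j :: js, g, h, x => by
    have h1 : ∀ c, ∀ x y : Fin N → Bool, (∀ i ∈ js, x i = y i) →
        g (Function.update x j c) = g (Function.update y j c) := by
      intro c x y hxy
      refine h _ _ fun i hi => ?_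
      by_cases hij : i = j
      · subst hij; rw [Function.update_self, Function.update_self]
      · rw [Function.update_of_ne hij, Function.update_of_ne hij]
        rcases List.mem_cons.1 hi with h2 | h2
        · exact absurd h2 hij
        · exact hxy i h2
    simp only [full, DTree.eval]
    rw [full_eval js _ (h1 true), full_eval js _ (h1 false)]
    cases hx : x j with
    | true =>
      simp only [if_true]
      rw [← hx, Function.update_eq_self]
    | false =>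
      simp only [Bool.false_eq_true, if_false]
      rw [← hx, Function.update_eq_self]

lemma tree_full (f : (Fin N → Bool) → ℝ) : ∃ T : DTree (Fin N), T.depth ≤ N ∧ EE (bad f T) = 0 := by
  classical
  refine ⟨full (List.finRange N) (fun y => decide (1 / 2 ≤ f y)), ?_, ?_⟩
  · rw [full_depth, List.length_finRange]
  · have h0 : bad f (full (List.finRange N) (fun y => decide (1 / 2 ≤ f y))) = fun _ => 0 := by
      funext y
      unfold bad
      rw [full_eval _ _ (fun x y hxy => by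
        rw [funext fun i => hxy i (List.mem_finRange i)])]
      rw [if_neg]
      rintro (⟨h1, h2⟩ | ⟨h1, h2⟩)
      · rw [decide_eq_false_iff_not] at h2
        apply h2
        linarith
      · rw [decide_eq_true_iff] at h2
        linarith
    rw [h0]
    simp [EE]

/-! ### From functions of bits to oracles -/

/-- From functions of the bits to random oracles. -/
theorem tree_oracle (p : Oracle → ℝ) (q : ℕ) (D η : ℝ)
    (hloc : ∀ A A' : Oracle, (∀ z : List Bool, z.length ≤ q → A z = A' z) → p A = p A')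
    (h : ∀ (N : ℕ) (Z : Adm N), N + 1 ≤ 2 ^ (q + 1) → ∃ T : DTree (Fin N), (T.depth : ℝ) ≤ D ∧
      EE (bad (fun y => p (Z.O y)) T) ≤ η) :
    ∃ T : DTree (List Bool), (T.depth : ℝ) ≤ D ∧ MeasurableSet (WrongA p T) ∧
      randomOracle.real (WrongA p T) ≤ η := by
  classical
  set S : Finset (List Bool) := (List.finite_length_le Bool q).toFinset with hS
  have hmem : ∀ z : List Bool, z.length ≤ q → z ∈ S := by
    intro z hz
    rw [hS, Set.Finite.mem_toFinset]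
    exact hz
  have hcard : S.card + 1 ≤ 2 ^ (q + 1) := by
    rw [← Pool.Agent.W938.NF.sl_length q]
    refine Nat.add_le_add_right ?_ 1
    have hsub : S ⊆ (Pool.Agent.W938.NF.sl q).toFinset := by
      intro z hz
      rw [hS, Set.Finite.mem_toFinset] at hz
      rw [List.mem_toFinset]
      exact Pool.Agent.W938.NF.mem_sl q z hz
    exact (Finset.card_le_card hsub).trans (List.toFinset_card_le _)
  set N := S.card with hN
  set e : Fin N → List Bool := fun i => (S.equivFin.symm i).1 with he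
  have hinj : Function.Injective e := by
    intro i j hij
    exact S.equivFin.symm.injective (Subtype.ext hij)
  set O : (Fin N → Bool) → (List Bool → Bool) := fun y z =>
    if h : z ∈ S then y (S.equivFin ⟨z, h⟩) else false with hO
  have hOprop : ∀ z, (∃ b, ∀ y, O y z = b) ∨ ∃ i, ∀ y, O y z = y i := by
    intro z
    by_cases h : z ∈ S
    · exact Or.inr ⟨S.equivFin ⟨z, h⟩, fun y => by simp only [hO, dif_pos h]⟩
    · exact Or.inl ⟨false, fun y => by simp only [hO, dif_neg h]⟩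
  set f : (Fin N → Bool) → ℝ := fun y => p (O y) with hf
  have hloc' : ∀ A : Oracle, p A = f (fun i => A (e i)) := by
    intro A
    rw [hf]
    refine hloc _ _ fun z hz => ?_
    simp only [hO, dif_pos (hmem z hz), he, Equiv.symm_apply_apply]
  obtain ⟨T, hT1, hT2⟩ := h N ⟨O, hOprop⟩ hcard
  have hW : WrongA p (T.map e) = {A : List Bool → Bool |
      (fun y : Fin N → Bool => (2 / 3 ≤ f y ∧ T.eval y = false) ∨ (f y ≤ 1 / 3 ∧ T.eval y = true))
        (fun i => A (e i))} := by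
    ext A
    simp only [WrongA, Set.mem_ofPred_eq, DTree.eval_map, hloc' A]
  obtain ⟨hm, hp⟩ := Pool.Agent.H54.RQ.c1 N e hinj
    (fun y : Fin N → Bool => (2 / 3 ≤ f y ∧ T.eval y = false) ∨ (f y ≤ 1 / 3 ∧ T.eval y = true))
    (fun _ => Classical.propDecidable _)
  refine ⟨T.map e, ?_, ?_, ?_⟩
  · rw [DTree.depth_map]
    exact hT1
  · rw [hW]; exact hm
  · rw [hW, hp]
    refine le_trans (le_of_eq ?_) hT2
    refine EE_congr fun y => ?_
    unfold bad
    split_ifs <;> rfl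

/-! ### Numbers -/

/-- The base. -/
def Y1 (n L V B r : ℕ) : ℕ :=
  2 ^ 13 * (640 * V * (n * L) ^ 4) ^ 2 * L ^ 6 * n ^ 2 + 6144 * L ^ 4 * B + 272 * V * n ^ 2 * L
    + (9 * L * B * r + 1) + 20 * (640 * V * (n * L) ^ 4) ^ 2 * L + 16 * V * n ^ 2 * (4 * r + 8 * L)

/-- The exponent. -/
def La1 (n L V B r ff m q : ℕ) : ℕ :=
  2 * ff * Y1 n L V B r + 4 * r + 4 * (q + 2) + 4 * (m * n)

/-- The factor. -/
def M1 (n L ι V B : ℕ) : ℕ := 2 * (2 * (n * (L + 1)) + 1) * (V * (n * L * B)) ^ 2 * ι + 1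

lemma exp_bound (r q m n N : ℕ) (hN : N + 1 ≤ 2 ^ (q + 1)) (Y0 Λ : ℝ) (hY0 : 1 ≤ Y0)
    (hΛ : 2 * 4 ^ (r + 4) * Y0 + 4 * r + 4 * (q + 2) + 4 * (m * n) ≤ Λ) :
    5 ^ r * (Y0 * Λ) ^ (2 ^ (r + 2) + 1) * (((N : ℝ) + 1) * ((2 : ℝ) ^ m) ^ n) ^ 2
      * Real.exp (-Λ) ≤ 1 := by
  have h4 : (0 : ℝ) < 4 ^ (r + 4) := by positivity
  have hr0 : (0 : ℝ) ≤ r := Nat.cast_nonneg r
  have hq0 : (0 : ℝ) ≤ q := Nat.cast_nonneg q
  have hmn0 : (0 : ℝ) ≤ (m : ℝ) * n := by positivity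
  have hY4 : (1 : ℝ) ≤ 4 ^ (r + 4) * Y0 := one_le_mul_of_one_le_of_one_le (one_le_pow₀ (by norm_num)) hY0
  have hΛ1 : 1 ≤ Λ := by linarith
  have hYΛ : 1 ≤ Y0 * Λ := one_le_mul_of_one_le_of_one_le hY0 hΛ1
  -- the first factor
  have a1 : (Y0 * Λ) ^ (2 ^ (r + 2) + 1) ≤ Real.exp (Λ / 2) := by
    set w : ℝ := Λ / 2 ^ (r + 4) with hw
    have hw0 : 0 ≤ w := by positivity
    have b1 : w ^ 2 / 2 ≤ Real.exp w := by
      have := Real.quadratic_le_exp_of_nonneg hw0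
      linarith
    have b2 : Y0 * Λ ≤ w ^ 2 / 2 := by
      have e1 : w ^ 2 / 2 = Λ * (Λ / (2 * 4 ^ (r + 4))) := by
        rw [hw, div_pow, ← pow_mul, mul_comm (r + 4) 2, pow_mul]
        norm_num
        field_simp
      rw [e1, mul_comm Y0]
      refine mul_le_mul_of_nonneg_left ?_ (by linarith)
      rw [le_div_iff₀ (by positivity)]
      linarith
    have b3 : 2 ^ (r + 2) + 1 ≤ 2 ^ (r + 3) := by
      rw [pow_succ 2 (r + 2)]
      have : 1 ≤ 2 ^ (r + 2) := Nat.one_le_two_pow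
      omega
    calc (Y0 * Λ) ^ (2 ^ (r + 2) + 1) ≤ (Y0 * Λ) ^ (2 ^ (r + 3)) := pow_le_pow_right₀ hYΛ b3
      _ ≤ (Real.exp w) ^ (2 ^ (r + 3)) := pow_le_pow_left₀ (by linarith) (b2.trans b1) _
      _ = Real.exp (Λ / 2) := by
          rw [← Real.exp_nat_mul]
          congr 1
          rw [hw]
          push_cast
          rw [pow_succ 2 (r + 3)]
          field_simp
  have a2 : 5 ^ r * (((N : ℝ) + 1) * ((2 : ℝ) ^ m) ^ n) ^ 2 ≤ Real.exp (Λ / 2) := by
    have c1 : (5 : ℝ) ^ r ≤ Real.exp (2 * r) := by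
      have h5 : (5 : ℝ) ≤ Real.exp 2 := by
        have := Real.quadratic_le_exp_of_nonneg (show (0 : ℝ) ≤ 2 by norm_num)
        linarith
      calc (5 : ℝ) ^ r ≤ (Real.exp 2) ^ r := pow_le_pow_left₀ (by norm_num) h5 r
        _ = Real.exp (2 * r) := by rw [← Real.exp_nat_mul, mul_comm]
    have h2 : (2 : ℝ) ≤ Real.exp 1 := by
      have := Real.add_one_le_exp (1 : ℝ)
      linarith
    have hpow : ∀ k : ℕ, (2 : ℝ) ^ k ≤ Real.exp k := by
      intro k
      calc (2 : ℝ) ^ k ≤ (Real.exp 1) ^ k := pow_le_pow_left₀ (by norm_num) h2 k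
        _ = Real.exp k := by rw [← Real.exp_nat_mul, mul_one]
    have c2 : ((N : ℝ) + 1) ^ 2 ≤ Real.exp (2 * (q + 2)) := by
      have d1 : ((N : ℝ) + 1) ≤ 2 ^ (q + 2) := by
        have : N + 1 ≤ 2 ^ (q + 2) := hN.trans (Nat.pow_le_pow_right (by norm_num) (by omega))
        exact_mod_cast this
      calc ((N : ℝ) + 1) ^ 2 ≤ ((2 : ℝ) ^ (q + 2)) ^ 2 := pow_le_pow_left₀ (by positivity) d1 2
        _ = (2 : ℝ) ^ ((q + 2) * 2) := by rw [← pow_mul]
        _ ≤ Real.exp (((q + 2) * 2 : ℕ) : ℝ) := hpow _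
        _ = Real.exp (2 * (q + 2)) := by
            congr 1
            push_cast
            ring
    have c3 : (((2 : ℝ) ^ m) ^ n) ^ 2 ≤ Real.exp (2 * (m * n)) := by
      calc (((2 : ℝ) ^ m) ^ n) ^ 2 = (2 : ℝ) ^ (m * n * 2) := by
            rw [← pow_mul, ← pow_mul, mul_assoc]
        _ ≤ Real.exp ((m * n * 2 : ℕ) : ℝ) := hpow _
        _ = Real.exp (2 * (m * n)) := by
            congr 1
            push_cast
            ring
    calc 5 ^ r * (((N : ℝ) + 1) * ((2 : ℝ) ^ m) ^ n) ^ 2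
        = 5 ^ r * (((N : ℝ) + 1) ^ 2 * (((2 : ℝ) ^ m) ^ n) ^ 2) := by rw [mul_pow]
      _ ≤ Real.exp (2 * r) * (Real.exp (2 * (q + 2)) * Real.exp (2 * (m * n))) := by gcongr
      _ = Real.exp (2 * r + (2 * (q + 2) + 2 * (m * n))) := by rw [← Real.exp_add, ← Real.exp_add]
      _ ≤ Real.exp (Λ / 2) := by
          apply Real.exp_le_exp.2
          linarith
  calc 5 ^ r * (Y0 * Λ) ^ (2 ^ (r + 2) + 1) * (((N : ℝ) + 1) * ((2 : ℝ) ^ m) ^ n) ^ 2
        * Real.exp (-Λ)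
      = (5 ^ r * (((N : ℝ) + 1) * ((2 : ℝ) ^ m) ^ n) ^ 2) * (Y0 * Λ) ^ (2 ^ (r + 2) + 1)
        * Real.exp (-Λ) := by ring
    _ ≤ Real.exp (Λ / 2) * Real.exp (Λ / 2) * Real.exp (-Λ) := by gcongr
    _ = 1 := by
        rw [← Real.exp_add, ← Real.exp_add]
        have : Λ / 2 + Λ / 2 + -Λ = 0 := by ring
        rw [this, Real.exp_zero]

/-- Trees for hybrid computations. -/
theorem tree_cq (Z : Adm N) (C : List Bool → List Gate) (inp : List Bool) (b m n L r q ι : ℕ)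
    (hι : 1 ≤ ι) (hn : 1 ≤ n) (hL : 1 ≤ L)
    (hC : ∀ a : List Bool, a.length ≤ n * m → (C (pairBits inp a)).length ≤ L)
    (hR : ∀ a, Rounds r (C (pairBits inp a))) (hN : N + 1 ≤ 2 ^ (q + 1)) :
    ∃ T : DTree (Fin N), (T.depth : ℝ) ≤ ((M1 n L ι (72 * ι) (2 ^ b)
        * (Y1 n L (72 * ι) (2 ^ b) r
          * La1 n L (72 * ι) (2 ^ b) r (4 ^ (r + 4)) m q) ^ (2 ^ (r + 4)) : ℕ) : ℝ) ∧
      EE (bad (fa Z C inp b m n) T) ≤ 1 / ι := by
  have hn1 : (1 : ℝ) ≤ n := by exact_mod_cast hn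
  have hL1 : (1 : ℝ) ≤ L := by exact_mod_cast hL
  have hι1 : (1 : ℝ) ≤ ι := by exact_mod_cast hι
  set V : ℝ := 72 * ι with hV
  set U : ℝ := 640 * V * ((n : ℝ) * L) ^ 4 with hU
  set Y0 : ℝ := ((Y1 n L (72 * ι) (2 ^ b) r : ℕ) : ℝ) with hY0
  set Λ : ℝ := ((La1 n L (72 * ι) (2 ^ b) r (4 ^ (r + 4)) m q : ℕ) : ℝ) with hΛ
  have eY : Y0 = 2 ^ 13 * U ^ 2 * (L : ℝ) ^ 6 * (n : ℝ) ^ 2 + 6144 * (L : ℝ) ^ 4 * 2 ^ b
      + 272 * V * (n : ℝ) ^ 2 * L + (9 * L * 2 ^ b * r + 1) + 20 * U ^ 2 * L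
      + 16 * V * (n : ℝ) ^ 2 * (4 * r + 8 * L) := by
    rw [hY0, hU, hV]
    unfold Y1
    push_cast
    ring
  have eΛ : Λ = 2 * 4 ^ (r + 4) * Y0 + 4 * r + 4 * (q + 2) + 4 * (m * n) := by
    rw [hΛ, hY0]
    unfold La1
    push_cast
    ring
  have hV1 : 1 ≤ V := by rw [hV]; linarith
  have p1 : 0 ≤ 2 ^ 13 * U ^ 2 * (L : ℝ) ^ 6 * (n : ℝ) ^ 2 := by positivity
  have p2 : 0 ≤ 6144 * (L : ℝ) ^ 4 * 2 ^ b := by positivity
  have p3 : 0 ≤ 272 * V * (n : ℝ) ^ 2 * L := by positivity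
  have p4 : 0 ≤ 9 * (L : ℝ) * 2 ^ b * r := by positivity
  have p5 : 0 ≤ 20 * U ^ 2 * L := by positivity
  have p6 : 0 ≤ 16 * V * (n : ℝ) ^ 2 * (4 * r + 8 * L) := by positivity
  have hY01 : 1 ≤ Y0 := by rw [eY]; linarith
  have hΛ1 : 1 ≤ Λ := by
    rw [eΛ]
    have hY4 : (1 : ℝ) ≤ 4 ^ (r + 4) * Y0 :=
      one_le_mul_of_one_le_of_one_le (one_le_pow₀ (by norm_num)) hY01
    have hr0 : (0 : ℝ) ≤ r := Nat.cast_nonneg r
    have hq0 : (0 : ℝ) ≤ q := Nat.cast_nonneg q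
    have hmn0 : (0 : ℝ) ≤ (m : ℝ) * n := by positivity
    linarith
  have hYY : Y0 ≤ Y0 * Λ := by nlinarith
  have hinf : ∀ Z' : Adm N, 1 / V < var (fa Z' C inp b m n) →
      ∃ l, (1 / (Y0 * Λ) ^ (2 ^ (r + 3)) * (1 / V) / ((n : ℝ) * L * 2 ^ b)) ^ 2
        ≤ inf2 (fa Z' C inp b m n) l := by
    intro Z' hv
    refine infl_cq C inp n L r hn hL hC hR V U (Y0 * Λ) Λ hV1 hU (le_trans (by rw [eY]; linarith) hYY)
      (by linarith) ?_ (le_trans (by rw [eY]; linarith) hYY) (le_trans (by rw [eY]; linarith) hYY)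
      (le_trans (by rw [eY]; linarith) hYY) (le_trans (by rw [eY]; linarith) hYY) ?_ Z' hv
    · refine mul_le_mul_of_nonneg_right ?_ (by linarith)
      rw [eY]; linarith
    · exact exp_bound r q m n N hN Y0 Λ hY01 (by rw [eΛ])
  have hY1 : 1 ≤ Y0 * Λ := hY01.trans hYY
  set τ : ℝ := (1 / (Y0 * Λ) ^ (2 ^ (r + 3)) * (1 / V) / ((n : ℝ) * L * 2 ^ b)) ^ 2 with hτ
  have hτ0 : 0 < τ := by positivity
  have hη0 : (0 : ℝ) < 1 / ι := by positivity
  obtain ⟨T, t1, t2⟩ := Pool.Agent.W938.NF.tree_pre {f | ∃ Z' : Adm N, f = fa Z' C inp b m n}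
    (2 * (n * (L + 1)))
    (by
      rintro f ⟨Z', rfl⟩ j c
      exact ⟨Z'.fix j c, rfl⟩)
    (by
      rintro f ⟨Z', rfl⟩
      exact (degle Z' C inp n L hC).2)
    (by
      rintro f ⟨Z', rfl⟩
      exact (degle Z' C inp n L hC).1)
    (1 / ι) τ hη0 hτ0
    (by
      rintro f ⟨Z', rfl⟩ hv
      refine hinf Z' (lt_of_le_of_lt (le_of_eq ?_) hv)
      rw [hV]
      field_simp)
    [] (fa Z C inp b m n) ⟨Z, rfl⟩
  refine ⟨T, t1.trans ?_, t2⟩
  rw [List.length_nil, Nat.cast_zero, zero_add]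
  have e1 : 2 * (((2 * (n * (L + 1)) : ℕ) : ℝ) + 1) / (τ * (1 / ι))
      = 2 * (2 * (n * (L + 1)) + 1) * (V * (n * L * 2 ^ b)) ^ 2 * ι
        * (Y0 * Λ) ^ (2 ^ (r + 4)) := by
    have e2 : ((Y0 * Λ) ^ (2 ^ (r + 3))) ^ 2 = (Y0 * Λ) ^ (2 ^ (r + 4)) := by
      rw [← pow_mul, pow_succ 2 (r + 3)]
    rw [← e2, hτ]
    push_cast
    field_simp
  rw [e1]
  have h1 : (1 : ℝ) ≤ (Y0 * Λ) ^ (2 ^ (r + 4)) := one_le_pow₀ hY1
  have e3 : ((M1 n L ι (72 * ι) (2 ^ b) * (Y1 n L (72 * ι) (2 ^ b) r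
          * La1 n L (72 * ι) (2 ^ b) r (4 ^ (r + 4)) m q) ^ (2 ^ (r + 4)) : ℕ) : ℝ)
      = (2 * (2 * (n * (L + 1)) + 1) * (V * (n * L * 2 ^ b)) ^ 2 * ι + 1)
        * (Y0 * Λ) ^ (2 ^ (r + 4)) := by
    rw [hY0, hΛ, hV]
    unfold M1
    push_cast
    ring
  rw [e3, add_mul, one_mul]
  linarith

end Pool.Agent.W938.CQ
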