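import Pool.Agent.W938.CQ.Num

/-!
# The influence theorem
-/

set_option autoImplicit false
set_option linter.unusedSectionVars false

namespace Pool.Agent.W938.CQ

open Finset Pool.Agent.H722R2.AA Pool.Agent.H746R2.AA Pool.Agent.H703R2.AA Pool.Agent.H703R2.AA.Pr
open Pool.Agent.H703R2.AB
open Pool.Agent.H620R2.Gauge Pool.Agent.W938.Hyb
open Pool.Agent.H889R3.RQ (DTree inf2)
open Pool.Agent.H572R4.QA (var)
open Pool.Agent.NPC (pairBits)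

variable {b m N : ℕ}

lemma Rounds_nil : ∀ r, Rounds r []
  | 0 => fun g hg => absurd hg List.not_mem_nil
  | r + 1 => ⟨[], [], [], rfl, fun g hg => absurd hg List.not_mem_nil,
      ⟨fun g hg => absurd hg List.not_mem_nil, fun _ _ _ _ h => absurd h List.not_mem_nil⟩,
      Rounds_nil r⟩

/-- The variance of light functions. -/
theorem var_light (C : List Bool → List Gate) (inp : List Bool) (n L r : ℕ) (hn : 1 ≤ n) (hL : 1 ≤ L)
    (hC : ∀ a : List Bool, a.length ≤ n * m → (C (pairBits inp a)).length ≤ L)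
    (hR : ∀ a, Rounds r (C (pairBits inp a))) (V U Y Λ : ℝ) (hV : 1 ≤ V)
    (hU : U = 640 * V * ((n : ℝ) * L) ^ 4)
    (h1 : 2 ^ 13 * U ^ 2 * (L : ℝ) ^ 6 * (n : ℝ) ^ 2 ≤ Y) (hΛ : 0 ≤ Λ)
    (h2 : 6144 * (L : ℝ) ^ 4 * 2 ^ b * Λ ≤ Y)
    (h3 : 272 * V * (n : ℝ) ^ 2 * L ≤ Y) (h4 : 9 * (L : ℝ) * 2 ^ b * r + 1 ≤ Y)
    (h5 : 20 * U ^ 2 * L ≤ Y) (h6 : 16 * V * (n : ℝ) ^ 2 * (4 * r + 8 * L) ≤ Y)
    (hE : 5 ^ r * Y ^ (2 ^ (r + 2) + 1) * (((N : ℝ) + 1) * ((2 : ℝ) ^ m) ^ n) ^ 2 * Real.exp (-Λ) ≤ 1)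
    (Z : Adm N) (hmu : ∀ c < n, ∀ i < L, ∀ k,
      muZ (DD C inp n (m := m)) b Z c i k ≤ 1 / Y ^ (2 ^ (r + 3))) :
    Cov (fx C inp n b m Z) (fx C inp n b m Z) ≤ 1 / (4 * V) := by
  have hn1 : (1 : ℝ) ≤ n := by exact_mod_cast hn
  have hL1 : (1 : ℝ) ≤ L := by exact_mod_cast hL
  have hnL : (1 : ℝ) ≤ (n : ℝ) * L := by nlinarith
  have hnL4 : (1 : ℝ) ≤ ((n : ℝ) * L) ^ 4 := one_le_pow₀ hnL
  have hU1 : 1 ≤ U := by rw [hU]; nlinarith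
  have hU2 : (1 : ℝ) ≤ U ^ 2 := one_le_pow₀ hU1
  have hL6 : (1 : ℝ) ≤ (L : ℝ) ^ 6 := one_le_pow₀ hL1
  have hn2 : (1 : ℝ) ≤ (n : ℝ) ^ 2 := one_le_pow₀ hn1
  have hKn : (1 : ℝ) ≤ 2 ^ 13 * U ^ 2 * (L : ℝ) ^ 6 * (n : ℝ) ^ 2 := by
    have a1 : (1 : ℝ) ≤ U ^ 2 * (L : ℝ) ^ 6 := one_le_mul_of_one_le_of_one_le hU2 hL6
    have a2 : (1 : ℝ) ≤ U ^ 2 * (L : ℝ) ^ 6 * (n : ℝ) ^ 2 := one_le_mul_of_one_le_of_one_le a1 hn2
    linarith
  have hY1 : 1 ≤ Y := hKn.trans h1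
  have hY0 : 0 < Y := by linarith
  set t := thr r L b hL _ Y Λ hKn h1 hΛ h2 with ht
  have hDR : ∀ os : List (Fin m → Bool), Rounds r (DD C inp n os) := by
    intro os
    unfold DD
    split_ifs
    · exact hR _
    · exact Rounds_nil r
  choose B hB using fun os : List (Fin m → Bool) => exists_Bd r (DD C inp n os) (hDR os)
  set p : Par N m b := ⟨n, L, r, DD C inp n, B, t, Z, hB, by
    intro os
    unfold DD
    split_ifs with h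
    · refine hC _ ?_
      rw [flat_length]
      exact Nat.mul_le_mul_right m h.le
    · exact Nat.zero_le _, hn⟩ with hp
  set A := 2 ^ (r + 2) - 1 with hA
  have hA1 : A + 1 = 2 ^ (r + 2) := Nat.sub_add_cancel Nat.one_le_two_pow
  have hA2 : 2 ^ (r + 3) = 2 * A + 2 := by rw [pow_succ]; omega
  have hA3 : 1 ≤ A := by
    have : 2 ^ 2 ≤ 2 ^ (r + 2) := Nat.pow_le_pow_right (by norm_num) (by omega)
    omega
  set YA := Y ^ A with hYA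
  have hYYA : Y ≤ YA := by
    calc Y = Y ^ 1 := (pow_one Y).symm
      _ ≤ Y ^ A := pow_le_pow_right₀ hY1 hA3
  have hYA1 : 1 ≤ YA := hY1.trans hYYA
  have hE2 : (5 : ℝ) ^ r * (YA * Y ^ 2) * (((N : ℝ) + 1) * ((2 : ℝ) ^ m) ^ n) ^ 2
      * Real.exp (-Λ) ≤ 1 := by
    have e : YA * Y ^ 2 = Y ^ (2 ^ (r + 2) + 1) := by
      rw [hYA, ← pow_add]
      congr 1
      omega
    rw [e]; exact hE
  set θ : ℝ := 1 / Y ^ (2 ^ (r + 3)) with hθ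
  have hθ0 : 0 < θ := by positivity
  have hθe : θ = 1 / (YA ^ 2 * Y ^ 2) := by
    rw [hθ, hA2, hYA, ← pow_mul, ← pow_add, mul_comm A 2]
  have hMr : (1 : ℝ) ≤ ((2 : ℝ) ^ m) ^ n := one_le_pow₀ (one_le_pow₀ (by norm_num))
  have hN0 : (0 : ℝ) ≤ N := Nat.cast_nonneg N
  have hF : (1 : ℝ) ≤ 5 ^ r := one_le_pow₀ (by norm_num)
  have he : 0 < Real.exp (-Λ) := Real.exp_pos _
  have hE3 : (5 : ℝ) ^ r * Y * (((N : ℝ) + 1) * ((2 : ℝ) ^ m) ^ n) ^ 2 * Real.exp (-Λ) ≤ 1 := by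
    refine le_trans ?_ hE2
    have : Y ≤ YA * Y ^ 2 := by nlinarith [sq_nonneg Y]
    gcongr
  have key := p.light θ hθ0 hmu (1 / U) (1 / U) (by positivity)
    (by rw [div_le_one (by positivity)]; exact hU1) (by positivity)
    (by rw [div_le_one (by positivity)]; exact hU1)
    (by
      have := numC L U Y (((2 : ℝ) ^ m) ^ n) N (5 ^ r) (Real.exp (-Λ)) hL1 hU1 hY1 he hMr hN0 hF h5 hE3
      refine le_trans (le_of_eq ?_) this
      change 1 / Y ^ ax r r + _ = _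
      rw [ax_last]
      rfl)
    (by
      have := numU n L U Y (((2 : ℝ) ^ m) ^ n) N (5 ^ r) (Real.exp (-Λ)) hn1 hL1 hU1 hY1 he hMr hN0
        hF h5 hE3
      exact this)
    (fun h => go (p.ctl h).os) (fun h => go_nonneg _) (fun h => go_le _)
  have hout : p.P.out (p.n * p.E) (fun h => go (p.ctl h).os) = fx C inp n b m Z :=
    funext fun x => out_fx C inp n p rfl rfl x
  rw [hout] at key
  refine key.trans ?_
  have hK2 := thr_K r L b hL _ Y Λ hKn h1 hΛ h2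
  have hs : ((p.n * p.s0 : ℕ) : ℝ) ≤ n * (Y * YA) := by
    have e : ((p.n * p.s0 : ℕ) : ℝ) = n * ((r * t.K + 1 : ℕ) : ℝ) := by
      rw [Nat.cast_mul]
      rfl
    rw [e]
    refine mul_le_mul_of_nonneg_left ?_ (Nat.cast_nonneg n)
    refine hK2.trans ?_
    exact mul_le_mul_of_nonneg_right h4 (by positivity)
  have hck : 4 / t.c 0 ≤ 9 * YA := by
    change 4 / (4 / 9 * (1 / Y ^ ax r (0 + 1))) ≤ _
    have e : 4 / (4 / 9 * (1 / Y ^ ax r (0 + 1))) = 9 * Y ^ ax r (0 + 1) := by field_simp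
    rw [e]
    have := pow_le_pow_right₀ hY1 (ax_le r (0 + 1))
    linarith
  have hik : 4 / t.κ ≤ 4 * Y := by
    change 4 / (1 / (2 ^ 13 * U ^ 2 * (L : ℝ) ^ 6 * (n : ℝ) ^ 2)) ≤ _
    rw [div_div_eq_mul_div, div_one]
    linarith
  have hfin := nums n L V U Y YA (Real.exp (-Λ)) (((2 : ℝ) ^ m) ^ n) N (5 ^ r) θ (4 / t.c 0)
    (4 / t.κ) ((p.n * p.s0 : ℕ) : ℝ) r hn1 hL1 hV hY1 hYYA he hMr hN0 hF (Nat.cast_nonneg r)
    (Nat.cast_nonneg _) hθe hck (by have := t.c0 0; positivity) hik (by have := t.κ0; positivity)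
    hs h3 h6 hE2
  have h40 : 40 * ((n : ℝ) * L) ^ 4 * (1 / U + 1 / U) = 1 / (8 * V) := by
    rw [hU]
    field_simp
    norm_num
  have e8 : 1 / (4 * V) = 1 / (8 * V) + 1 / (8 * V) := by field_simp; norm_num
  rw [e8]
  refine add_le_add (le_of_eq h40) ?_
  exact hfin

/-- The influence theorem. -/
theorem infl_cq (C : List Bool → List Gate) (inp : List Bool) (n L r : ℕ) (hn : 1 ≤ n) (hL : 1 ≤ L)
    (hC : ∀ a : List Bool, a.length ≤ n * m → (C (pairBits inp a)).length ≤ L)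
    (hR : ∀ a, Rounds r (C (pairBits inp a))) (V U Y Λ : ℝ) (hV : 1 ≤ V)
    (hU : U = 640 * V * ((n : ℝ) * L) ^ 4)
    (h1 : 2 ^ 13 * U ^ 2 * (L : ℝ) ^ 6 * (n : ℝ) ^ 2 ≤ Y) (hΛ : 0 ≤ Λ)
    (h2 : 6144 * (L : ℝ) ^ 4 * 2 ^ b * Λ ≤ Y)
    (h3 : 272 * V * (n : ℝ) ^ 2 * L ≤ Y) (h4 : 9 * (L : ℝ) * 2 ^ b * r + 1 ≤ Y)
    (h5 : 20 * U ^ 2 * L ≤ Y) (h6 : 16 * V * (n : ℝ) ^ 2 * (4 * r + 8 * L) ≤ Y)
    (hE : 5 ^ r * Y ^ (2 ^ (r + 2) + 1) * (((N : ℝ) + 1) * ((2 : ℝ) ^ m) ^ n) ^ 2 * Real.exp (-Λ) ≤ 1)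
    (Z : Adm N) (hv : 1 / V < var (fa Z C inp b m n)) :
    ∃ l, (1 / Y ^ (2 ^ (r + 3)) * (1 / V) / ((n : ℝ) * L * 2 ^ b)) ^ 2 ≤ inf2 (fa Z C inp b m n) l := by
  have hn1 : (1 : ℝ) ≤ n := by exact_mod_cast hn
  have hL1 : (1 : ℝ) ≤ L := by exact_mod_cast hL
  have hV0 : 0 < V := by linarith
  have hY0 : 0 < Y := by
    have h0 : (0 : ℝ) ≤ 9 * (L : ℝ) * 2 ^ b * r := by positivity
    linarith
  have hcov : Cov (fx C inp n b m Z) (fx C inp n b m Z) = var (fa Z C inp b m n) :=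
    Cov_bx (fa Z C inp b m n)
  have hcard : Fintype.card (Fin n × Fin L) = n * L := by simp
  have hτ0 : 0 < 1 / Y ^ (2 ^ (r + 3)) := by positivity
  obtain ⟨l, hl⟩ := main_f (Kl C inp b m n L N) (1 / Y ^ (2 ^ (r + 3))) hτ0
    (by rw [hcard]; exact Nat.mul_pos hn hL) (by positivity) (fx C inp n b m Z)
    (fun t k => muZ (DD C inp n (m := m)) b Z t.1 t.2 k)
    ⟨Z, rfl, fun l hl => absurd hl (Finset.notMem_empty l), rfl⟩
    (by rw [hcov]; exact lt_trans (by positivity) hv)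
    (by
      rintro f' L' μ' ⟨Z', rfl, _, rfl⟩ hlt
      have := var_light C inp n L r hn hL hC hR V U Y Λ hV hU h1 hΛ h2 h3 h4 h5 h6 hE Z'
        (fun c hc i hi k => hlt (⟨c, hc⟩, ⟨i, hi⟩) k)
      refine this.trans ?_
      rw [hcov]
      have e : 1 / (4 * V) = (1 / V) / 4 := by field_simp
      rw [e]
      linarith)
  refine ⟨l, ?_⟩
  have e1 : Inf (fx C inp n b m Z) l = inf2 (fa Z C inp b m n) l := Inf_bx (fa Z C inp b m n) l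
  rw [e1, hcov, hcard] at hl
  refine le_trans ?_ hl
  push_cast
  apply pow_le_pow_left₀ (by positivity)
  apply div_le_div_of_nonneg_right _ (by positivity)
  exact mul_le_mul_of_nonneg_left hv.le hτ0.le

end Pool.Agent.W938.CQ
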