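import Pool.Agent.W938.CQ.Lt2
import Pool.Agent.H703R2.AA.Light

/-!
# The light lemma for processes which also read bits, third part
-/

set_option autoImplicit false
set_option linter.unusedSectionVars false

namespace Pool.Agent.W938.CQ

open Finset Pool.Agent.H722R2.AA Pool.Agent.H746R2.AA Pool.Agent.H703R2.AA Pool.Agent.H703R2.AA.Pr
  Pool.Agent.H703R2.AB

variable {κ ι W : Type*} [Fintype κ] [DecidableEq κ] [Fintype ι] [DecidableEq ι] [Fintype W]
variable {P : Pr κ ι W} {T : ℕ} {Q : Finset ℕ} {R : List W → Finset κ} {vl : List W → κ → ℤˣ}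
variable {G : List W → List W → Prop}

lemma deriv_cq (H : RdS P T Q R vl) (hG : Clo G) (hdis : ∀ a b, G a b → Disjoint (R a) (R b))
    {r : ℝ} (h0 : 0 ≤ r) (h1 : r ≤ 1) (c : ℝ) (hc : 0 < c) (hc1 : c ≤ 1) (u : ℝ) (hu : 0 < u)
    (hu1 : u ≤ 1) (hq : 1 ≤ Q.card)
    (hC : ∀ s ∈ Q, ∀ t ∈ Q, CG P G s t r ≤ c ^ 2)
    (hU : ∀ t ∈ Q, UG P G R T t r ≤ u ^ 2) (hU' : ∀ t ∈ Q, UG P (fun a b => G b a) R T t r ≤ u ^ 2)
    (g : List W → ℝ) (hg0 : ∀ a, 0 ≤ g a) (hg1 : ∀ a, g a ≤ 1) :
    |SS T T (fun a b => (ind (G a b) * (g a * g b))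
      * ∑ k, PE r (fun x y => D (fun x => nsq (P.A a x)) k x * D (fun y => nsq (P.A b y)) k y))|
      ≤ 20 * (Q.card : ℝ) ^ 4 * (c + u) := by
  classical
  have hq' : (1 : ℝ) ≤ Q.card := by exact_mod_cast hq
  set q : ℝ := (Q.card : ℝ) with hqd
  refine (SS_abs _ _ _).trans ?_
  have hD : ∀ (b : List W) (k : κ) (y : κ → ℤˣ),
      D (fun y => nsq (P.A b y)) k (fl k y) = D (fun y => nsq (P.A b y)) k y := fun b k y =>
    D_fl_eq _ k y
  have step : SS T T (fun a b => |(ind (G a b) * (g a * g b))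
      * ∑ k, PE r (fun x y => D (fun x => nsq (P.A a x)) k x * D (fun y => nsq (P.A b y)) k y)|)
      ≤ SS T T (fun a b => PE r (fun x y => ind (G a b) * (nsq (P.A a x)
            * |∑ k ∈ R a, sv (vl a k) * D (fun y => nsq (P.A b y)) k y|))
          + PE r (fun x y => ind (G a b) * (nsq (P.A b x)
            * |∑ k ∈ R b, sv (vl b k) * D (fun y => nsq (P.A a y)) k y|))
          + PE r (fun x y => ind (G a b) * |∑ k ∈ (R a ∪ R b)ᶜ,
              D (fun x => nsq (P.A a x)) k x * D (fun y => nsq (P.A b y)) k y|)) := by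
    refine SS_mono' T T fun a b ha hb => ?_
    rw [PE_mul_left, PE_mul_left, PE_mul_left, ← mul_add, ← mul_add]
    rw [abs_mul]
    have hgg : |ind (G a b) * (g a * g b)| ≤ ind (G a b) := by
      have hi := ind_nonneg (G a b)
      have h3 : 0 ≤ g a * g b := mul_nonneg (hg0 a) (hg0 b)
      have h4 : g a * g b ≤ 1 := mul_le_one₀ (hg1 a) (hg0 b) (hg1 b)
      rw [abs_of_nonneg (mul_nonneg hi h3)]
      exact mul_le_of_le_one_right hi h4
    by_cases hab : G a b
    · refine mul_le_mul hgg ?_ (abs_nonneg _) (ind_nonneg _)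
      have hd := hdis a b hab
      have e1 : ∑ k, PE r (fun x y => D (fun x => nsq (P.A a x)) k x * D (fun y => nsq (P.A b y)) k y)
          = ∑ k ∈ R a, PE r (fun x y => D (fun x => nsq (P.A a x)) k x * D (fun y => nsq (P.A b y)) k y)
          + ∑ k ∈ R b, PE r (fun x y => D (fun x => nsq (P.A a x)) k x * D (fun y => nsq (P.A b y)) k y)
          + ∑ k ∈ (R a ∪ R b)ᶜ,
            PE r (fun x y => D (fun x => nsq (P.A a x)) k x * D (fun y => nsq (P.A b y)) k y) := by
        rw [← Finset.sum_union hd, Finset.sum_add_sum_compl]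
      rw [e1]
      refine (abs_add_le _ _).trans (add_le_add ((abs_add_le _ _).trans (add_le_add ?_ ?_)) ?_)
      · have e2 : ∑ k ∈ R a, PE r (fun x y => D (fun x => nsq (P.A a x)) k x
            * D (fun y => nsq (P.A b y)) k y)
            = PE r (fun x y => nsq (P.A a x)
              * ∑ k ∈ R a, sv (vl a k) * D (fun y => nsq (P.A b y)) k y) := by
          have e3 : ∀ k ∈ R a, PE r (fun x y => D (fun x => nsq (P.A a x)) k x
              * D (fun y => nsq (P.A b y)) k y)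
              = PE r (fun x y => sv (vl a k) * (nsq (P.A a x) * D (fun y => nsq (P.A b y)) k y)) :=
            fun k hk => H.PE_read r k a hk _ (hD b k)
          rw [Finset.sum_congr rfl e3, ← PE_sum]
          refine PE_congr fun x y => ?_
          rw [Finset.mul_sum]
          exact Finset.sum_congr rfl fun k _ => by ring
        rw [e2]
        refine (PE_abs h0 h1 _).trans (PE_mono h0 h1 fun x y => ?_)
        rw [abs_mul, abs_of_nonneg (nsq_nonneg _)]
      · have e2 : ∑ k ∈ R b, PE r (fun x y => D (fun x => nsq (P.A a x)) k x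
            * D (fun y => nsq (P.A b y)) k y)
            = PE r (fun x y => nsq (P.A b x)
              * ∑ k ∈ R b, sv (vl b k) * D (fun y => nsq (P.A a y)) k y) := by
          have e3 : ∀ k ∈ R b, PE r (fun x y => D (fun x => nsq (P.A a x)) k x
              * D (fun y => nsq (P.A b y)) k y)
              = PE r (fun x y => sv (vl b k) * (nsq (P.A b x) * D (fun y => nsq (P.A a y)) k y)) := by
            intro k hk
            rw [← H.PE_read r k b hk _ (hD a k), ← PE_comm]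
            exact PE_congr fun x y => mul_comm _ _
          rw [Finset.sum_congr rfl e3, ← PE_sum]
          refine PE_congr fun x y => ?_
          rw [Finset.mul_sum]
          exact Finset.sum_congr rfl fun k _ => by ring
        rw [e2]
        refine (PE_abs h0 h1 _).trans (PE_mono h0 h1 fun x y => ?_)
        rw [abs_mul, abs_of_nonneg (nsq_nonneg _)]
      · rw [← PE_sum]
        exact PE_abs h0 h1 _
    · have hi : ind (G a b) = 0 := by unfold ind; rw [if_neg hab]
      rw [hi] at hgg ⊢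
      have h5 : |0 * (g a * g b)| = 0 := by rw [zero_mul, abs_zero]
      rw [h5, zero_mul, zero_mul]
  refine step.trans ?_
  rw [SS_add, SS_add]
  have b1 := T2a H hG hdis h0 h1 u hu hu1 hq hU
  rw [PE_SS] at b1
  have b2 := T2a H hG.swap (fun a b h => (hdis b a h).symm) h0 h1 u hu hu1 hq hU'
  rw [PE_SS] at b2
  have b3 := T1 H hG hdis h0 h1 c hc hc1 hq hC
  rw [PE_SS] at b3
  rw [← hqd] at b1 b2 b3
  have e4 : SS T T (fun a b => PE r (fun x y => ind (G a b) * (nsq (P.A b x)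
            * |∑ k ∈ R b, sv (vl b k) * D (fun y => nsq (P.A a y)) k y|)))
      = SS T T (fun a b => PE r (fun x y => ind (G b a) * (nsq (P.A a x)
            * |∑ k ∈ R a, sv (vl a k) * D (fun y => nsq (P.A b y)) k y|))) := S_S_comm T T _
  rw [e4]
  have h5 : q ^ 3 ≤ q ^ 4 := pow_le_pow_right₀ hq' (by norm_num)
  have h6 : q ^ 3 * u ≤ q ^ 4 * u := mul_le_mul_of_nonneg_right h5 hu.le
  have h7 : 0 ≤ q ^ 4 * u := by positivity
  linarith

/-- The part of the second moment coming from good pairs. -/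
noncomputable def Gg (P : Pr κ ι W) (G : List W → List W → Prop) (T : ℕ) (g : List W → ℝ) (r : ℝ) : ℝ :=
  SS T T (fun a b => (ind (G a b) * (g a * g b))
    * PE r (fun x y => nsq (P.A a x) * nsq (P.A b y)))

/-- The part of the second moment coming from bad pairs. -/
noncomputable def Bg (P : Pr κ ι W) (G : List W → List W → Prop) (T : ℕ) (g : List W → ℝ) (r : ℝ) : ℝ :=
  SS T T (fun a b => (ind (¬ G a b) * (g a * g b))
    * PE r (fun x y => nsq (P.A a x) * nsq (P.A b y)))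

lemma Gg_deriv (g : List W → ℝ) (r : ℝ) :
    HasDerivAt (Gg P G T g) (SS T T (fun a b => (ind (G a b) * (g a * g b))
      * ∑ k, PE r (fun x y => D (fun x => nsq (P.A a x)) k x * D (fun y => nsq (P.A b y)) k y))) r := by
  unfold Gg
  exact hasDerivAt_SS T T _ _ r fun a b =>
    (hasDerivAt_PE (fun x => nsq (P.A a x)) (fun y => nsq (P.A b y)) r).const_mul _

lemma Gg_add_Bg (g : List W → ℝ) (r : ℝ) :
    Gg P G T g r + Bg P G T g r = PE r (fun x y => P.out T g x * P.out T g y) := by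
  rw [P.PE_out]
  unfold Gg Bg
  rw [← SS_add]
  refine SS_congr' T T fun a b _ _ => ?_
  rw [ind_not]; ring

/-- The light lemma. -/
theorem light_cq (H : RdS P T Q R vl) (hG : Clo G) (hdis : ∀ a b, G a b → Disjoint (R a) (R b))
    (c : ℝ) (hc : 0 < c) (hc1 : c ≤ 1) (u : ℝ) (hu : 0 < u) (hu1 : u ≤ 1) (hq : 1 ≤ Q.card)
    (hC : ∀ r : ℝ, 0 ≤ r → r ≤ 1 → ∀ s ∈ Q, ∀ t ∈ Q, CG P G s t r ≤ c ^ 2)
    (hU : ∀ r : ℝ, 0 ≤ r → r ≤ 1 → ∀ t ∈ Q, UG P G R T t r ≤ u ^ 2)
    (hU' : ∀ r : ℝ, 0 ≤ r → r ≤ 1 → ∀ t ∈ Q, UG P (fun a b => G b a) R T t r ≤ u ^ 2)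
    (β : ℝ) (hβ : SS T T (fun a b => ind (¬ G a b) * (P.p a * P.p b)) ≤ β)
    (g : List W → ℝ) (hg0 : ∀ a, 0 ≤ g a) (hg1 : ∀ a, g a ≤ 1) :
    Cov (P.out T g) (P.out T g) ≤ 40 * (Q.card : ℝ) ^ 4 * (c + u) + β := by
  have hsub : ∀ g : List W → ℝ, (∀ a, 0 ≤ g a) → (∀ a, g a ≤ 1) →
      |Gg P G T g 1 - Gg P G T g 0| ≤ 20 * (Q.card : ℝ) ^ 4 * (c + u) := by
    intro g hg0 hg1
    have := (convex_Icc (0 : ℝ) 1).norm_image_sub_le_of_norm_hasDerivWithin_le
      (f := Gg P G T g) (C := 20 * (Q.card : ℝ) ^ 4 * (c + u))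
      (fun r _ => (Gg_deriv g r).hasDerivWithinAt)
      (fun r hr => by
        rw [Real.norm_eq_abs]
        exact deriv_cq H hG hdis hr.1 hr.2 c hc hc1 u hu hu1 hq (hC r hr.1 hr.2) (hU r hr.1 hr.2)
          (hU' r hr.1 hr.2) g hg0 hg1)
      (Set.left_mem_Icc.2 zero_le_one) (Set.right_mem_Icc.2 zero_le_one)
    simpa using this
  have hC2 := hsub g hg0 hg1
  have hC1 := hsub (fun _ => 1) (fun _ => zero_le_one) (fun _ => le_rfl)
  have hPE0 : ∀ {r : ℝ}, 0 ≤ r → r ≤ 1 → ∀ a b : List W,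
      0 ≤ PE r (fun x y => nsq (P.A a x) * nsq (P.A b y)) := fun h0 h1 a b =>
    PE_nonneg h0 h1 fun x y => mul_nonneg (nsq_nonneg _) (nsq_nonneg _)
  have hB0 : 0 ≤ Bg P G T g 0 := by
    unfold Bg
    refine SS_nonneg T T fun a b => ?_
    exact mul_nonneg (mul_nonneg (ind_nonneg _) (mul_nonneg (hg0 a) (hg0 b)))
      (hPE0 le_rfl zero_le_one a b)
  have hB1 : Bg P G T g 1 ≤ Bg P G T (fun _ => 1) 1 := by
    unfold Bg
    refine SS_mono T T fun a b => ?_
    refine mul_le_mul_of_nonneg_right ?_ (hPE0 zero_le_one le_rfl a b)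
    refine mul_le_mul_of_nonneg_left ?_ (ind_nonneg _)
    rw [one_mul]
    exact mul_le_one₀ (hg1 a) (hg0 b) (hg1 b)
  have hone : ∀ r : ℝ, Gg P G T (fun _ => 1) r + Bg P G T (fun _ => 1) r = 1 := by
    intro r
    rw [Gg_add_Bg]
    simp_rw [P.out_one, one_mul]
    exact PE_const r 1
  have hbad : Bg P G T (fun _ => 1) 0 ≤ β := by
    have e : Bg P G T (fun _ => 1) 0 = SS T T (fun a b => ind (¬ G a b) * (P.p a * P.p b)) := by
      unfold Bg
      refine SS_congr' T T fun a b _ _ => ?_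
      rw [PE_zero]
      have : ∀ x : κ → ℤˣ, Ex (fun y => nsq (P.A a x) * nsq (P.A b y)) = nsq (P.A a x) * P.p b := by
        intro x
        rw [Ex_mul_left]; rfl
      simp_rw [this]
      rw [Ex_mul_right]
      simp only [mul_one, p]
    rw [e]
    exact hβ
  have hcov : Cov (P.out T g) (P.out T g)
      = (Gg P G T g 1 + Bg P G T g 1) - (Gg P G T g 0 + Bg P G T g 0) := by
    rw [Gg_add_Bg, Gg_add_Bg, PE_one, PE_zero]
    unfold Cov
    congr 1
    simp_rw [Ex_mul_left]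
    rw [Ex_mul_right]
  have h1 := (abs_le.1 hC2).2
  have h2 := (abs_le.1 hC1).1
  have h3 := hone 1
  have h4 := hone 0
  rw [hcov]
  linarith

end Pool.Agent.W938.CQ
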