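import Pool.Agent.W938.CQ.Mch
import Pool.Agent.W938.CQ.Fail
import Pool.Agent.W938.CQ.Lt3

/-!
# The states of the machine
-/

set_option autoImplicit false
set_option linter.unusedSectionVars false

namespace Pool.Agent.W938.CQ

open Finset Pool.Agent.H722R2.AA Pool.Agent.H746R2.AA Pool.Agent.H703R2.AA Pool.Agent.H703R2.AA.Pr
open Pool.Agent.H703R2.AB
open Pool.Agent.H620R2.Gauge Pool.Agent.W938.Hyb
open Pool.Agent.H889R3.RQ (DTree)

variable {b m N : ℕ}

/-- The parameters: `n` circuits of length at most `L` with `r` rounds of questions. -/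
structure Par (N m b : ℕ) where
  n : ℕ
  L : ℕ
  r : ℕ
  Dc : List (Fin m → Bool) → List Gate
  B : List (Fin m → Bool) → ℕ → ℕ
  t : Thr r L b
  Z : Adm N
  hB : ∀ os, Bd r (Dc os) (B os)
  hD : ∀ os, (Dc os).length ≤ L
  hn : 1 ≤ n

lemma S_single {W : Type*} [Fintype W] (F : List W → ℝ) (h0 : ∀ h, 0 ≤ F h) (h : List W) :
    F h ≤ S h.length F := by
  induction h generalizing F with
  | nil => exact le_rfl
  | cons w h ih =>
    have h1 : F (w :: h) ≤ ∑ w, F (w :: h) :=
      Finset.single_le_sum (f := fun w => F (w :: h)) (fun w _ => h0 _) (Finset.mem_univ w)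
    exact h1.trans (ih (fun h => ∑ w, F (w :: h)) fun h => Finset.sum_nonneg fun w _ => h0 _)

namespace Par

variable (p : Par N m b)

/-- The reader. -/
noncomputable def st (os : List (Fin m → Bool)) (s : RS N) : DTree (Fin N) :=
  rt p.t m (p.Dc os) (p.B os) p.r 0 s

/-- The number of steps of the reader. -/
noncomputable def s0 : ℕ := p.r * p.t.K + 1

/-- The initial state of the reader. -/
def si : RS N := ⟨p.Z, ∅, fun _ => 1⟩

/-- The number of steps for one circuit. -/
noncomputable def E : ℕ := p.s0 + p.L + 1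

/-- The initial control state. -/
noncomputable def ci : Cn N m := start p.Dc p.st p.s0 p.L [] p.si

/-- The control state. -/
noncomputable def ctl (h : List (Bool × (Fin m → Bool))) : Cn N m :=
  (CM p.Dc p.st p.s0 p.L b).ctl p.ci h

/-- The process. -/
noncomputable def P : Pr (Fin N) (Fin (b + m) → Bool) (Bool × (Fin m → Bool)) :=
  (CM p.Dc p.st p.s0 p.L b).pr p.ci (load m (initSt b)) nsq_init

/-- The reader before the circuit. -/
noncomputable def zb (x : Fin N → ℤˣ) (os : List (Fin m → Bool)) : RS N := zs p.st p.si x os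

/-- The reader after the questions for the circuit. -/
noncomputable def za (x : Fin N → ℤˣ) (os : List (Fin m → Bool)) : RS N := zr p.st p.si x os

/-- The memory. -/
noncomputable def me (x : Fin N → ℤˣ) (os : List (Fin m → Bool)) : (Fin b → Bool) → ℝ :=
  me0 b p.Dc p.Z x os

lemma depth_st (os : List (Fin m → Bool)) (s : RS N) : (p.st os s).depth ≤ p.s0 :=
  (depth_rt p.t m (p.Dc os) (p.B os) (p.hD os) (p.hB os).le p.r 0 s).trans (Nat.le_succ _)

lemma Fresh_st (os : List (Fin m → Bool)) (s : RS N) : Fresh (p.st os s) s.R :=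
  Fresh_rt p.t m (p.Dc os) (p.B os) p.r 0 s

/-- The canonical control state. -/
noncomputable def can (x : Fin N → ℤˣ) (i : ℕ) (os : List (Fin m → Bool)) : Cn N m :=
  ⟨os, p.za x os, 0, .leaf ((p.st os (p.zb x os)).eval (bx x)), p.L - i, (p.Dc os).take i,
    (p.Dc os).drop i⟩

/-- The canonical state. -/
noncomputable def cst (x : Fin N → ℤˣ) (i : ℕ) (os : List (Fin m → Bool)) :
    (Fin (b + m) → Bool) → ℝ :=
  circAct (p.Z.O (bx x)) ((p.Dc os).take i) (load m (p.me x os))

lemma za_O (x : Fin N → ℤˣ) (os : List (Fin m → Bool)) :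
    (p.za x os).Z.O (bx x) = p.Z.O (bx x) := by
  unfold za zr
  rw [run_O]
  exact zs_O p.st p.Z p.si x rfl os

lemma S_beg (Ψ : Cn N m → ((Fin (b + m) → Bool) → ℝ) → ℝ) (hΨ : ∀ c, Ψ c (fun _ => 0) = 0)
    (x : Fin N → ℤˣ) (c : ℕ) :
    S (c * p.E) (fun h => Ψ (p.ctl h) (p.P.A h x))
      = S c (fun os => Ψ (start p.Dc p.st p.s0 p.L os (p.zb x os)) (load m (p.me x os))) := by
  have h1 := S_Psi (CM p.Dc p.st p.s0 p.L b) p.ci (load m (initSt b)) nsq_init Ψ x (c * p.E)
  have h2 := gv_circs b p.Dc p.st p.s0 p.L p.Z p.si Ψ hΨ p.depth_st p.hD x rfl c 0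
  rw [Nat.zero_add] at h2
  exact h1.trans h2

lemma S_can (Ψ : Cn N m → ((Fin (b + m) → Bool) → ℝ) → ℝ) (hΨ : ∀ c, Ψ c (fun _ => 0) = 0)
    (x : Fin N → ℤˣ) (c i : ℕ) (hi : i ≤ p.L) :
    S (i + p.s0 + c * p.E) (fun h => Ψ (p.ctl h) (p.P.A h x))
      = S c (fun os => Ψ (p.can x i os) (p.cst x i os)) := by
  have h1 := S_Psi (CM p.Dc p.st p.s0 p.L b) p.ci (load m (initSt b)) nsq_init Ψ x
    (i + p.s0 + c * p.E)
  have h2 := gv_circs b p.Dc p.st p.s0 p.L p.Z p.si Ψ hΨ p.depth_st p.hD x rfl c (i + p.s0)
  refine (h1.trans h2).trans (S_congr' c fun os _ => ?_)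
  unfold start
  rw [gv_read b p.Dc p.st p.s0 p.L Ψ hΨ x i os p.L [] (p.Dc os) _ p.s0 _ _ (p.depth_st _ _)]
  have h3 := gv_gates b p.Dc p.st p.s0 p.L Ψ hΨ x 0 os
    (run (p.st os (zs p.st p.si x os)) (zs p.st p.si x os) x)
    (.leaf ((p.st os (zs p.st p.si x os)).eval (bx x))) i p.L [] (p.Dc os)
    (load m (me0 b p.Dc p.Z x os)) hi
  rw [Nat.zero_add] at h3
  rw [h3]
  have hO : (run (p.st os (zs p.st p.si x os)) (zs p.st p.si x os) x).Z.O (bx x)
      = p.Z.O (bx x) := p.za_O x os
  rw [hO]
  rfl

/-- The states of the machine are canonical. -/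
lemma lnk (x : Fin N → ℤˣ) (c i : ℕ) (hi : i ≤ p.L) (h : List (Bool × (Fin m → Bool)))
    (hh : h.length = i + p.s0 + c * p.E) : p.P.A h x = 0 ∨
      (p.ctl h = p.can x i (p.ctl h).os ∧ p.P.A h x = p.cst x i (p.ctl h).os
        ∧ (p.ctl h).os.length = c) := by
  by_contra hcon
  push Not at hcon
  obtain ⟨h1, h2⟩ := hcon
  have key := p.S_can (fun cn s => nsq s * ind (¬ (cn = p.can x i cn.os ∧ s = p.cst x i cn.os
    ∧ cn.os.length = c))) (fun cn => by simp [nsq]) x c i hi
  have h3 : S c (fun os => nsq (p.cst x i os) * ind (¬ (p.can x i os = p.can x i (p.can x i os).os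
      ∧ p.cst x i os = p.cst x i (p.can x i os).os ∧ (p.can x i os).os.length = c))) = 0 := by
    rw [← S_zero_fun (W := Fin m → Bool) c]
    refine S_congr' c fun os hos => ?_
    have : ind (¬ (p.can x i os = p.can x i (p.can x i os).os
      ∧ p.cst x i os = p.cst x i (p.can x i os).os ∧ (p.can x i os).os.length = c)) = 0 := by
      unfold ind
      rw [if_neg]
      rw [not_not]
      exact ⟨rfl, rfl, hos⟩
    rw [this, mul_zero]
  rw [h3] at key
  have h4 := S_single (fun h => nsq (p.P.A h x) * ind (¬ (p.ctl h = p.can x i (p.ctl h).os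
    ∧ p.P.A h x = p.cst x i (p.ctl h).os ∧ (p.ctl h).os.length = c)))
    (fun h => mul_nonneg (nsq_nonneg _) (ind_nonneg _)) h
  rw [hh, key] at h4
  have h5 : ind (¬ (p.ctl h = p.can x i (p.ctl h).os
    ∧ p.P.A h x = p.cst x i (p.ctl h).os ∧ (p.ctl h).os.length = c)) = 1 := by
    unfold ind
    rw [if_pos]
    rintro ⟨a1, a2, a3⟩
    exact h2 a1 a2 a3
  simp only [h5, mul_one] at h4
  apply h1
  have h6 : nsq (p.P.A h x) = 0 := le_antisymm h4 (nsq_nonneg _)
  unfold nsq at h6
  rw [Finset.sum_eq_zero_iff_of_nonneg fun _ _ => sq_nonneg _] at h6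
  funext j
  have := h6 j (Finset.mem_univ j)
  exact pow_eq_zero_iff (by norm_num) |>.1 this

lemma P_a (h : List (Bool × (Fin m → Bool))) (w : Bool × (Fin m → Bool)) (k : Option (Fin N)) :
    p.P.a h w k = km b (kind (p.ctl h)) w k := rfl

lemma P_Q (h : List (Bool × (Fin m → Bool))) (w : Bool × (Fin m → Bool)) (x : Fin N → ℤˣ) :
    p.P.Q h w x = fun i j => ∑ k, sgo x k * km b (kind (p.ctl h)) w k i j := rfl

lemma ctl_cons (h : List (Bool × (Fin m → Bool))) (w : Bool × (Fin m → Bool)) :
    p.ctl (w :: h) = nx p.Dc p.st p.s0 p.L (p.ctl h) w := rfl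

lemma nsq_cst (x : Fin N → ℤˣ) (i : ℕ) (os : List (Fin m → Bool)) :
    nsq (p.cst x i os) = nsq (p.me x os) := by
  unfold cst
  rw [nsq_circAct, nsq_load]
  rfl

/-- The weights of the questions. -/
lemma qk_W (x : Fin N → ℤˣ) (c i : ℕ) (hi : i < p.L) (h : List (Bool × (Fin m → Bool)))
    (hh : h.length = i + p.s0 + c * p.E) (k : Fin N) :
    qk p.P h k x ≤ Wi (p.ctl h).s.Z b m (p.Dc (p.ctl h).os) i {k} x * nsq (p.P.A h x) := by
  rcases p.lnk x c i hi.le h hh with h0 | ⟨h1, h2, h3⟩
  · unfold qk
    rw [h0, nsq_zero, mul_zero]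
    refine le_of_eq (Finset.sum_eq_zero fun w _ => ?_)
    rw [mv_zero, nsq_zero]
  · set os := (p.ctl h).os with hos
    have hs : (p.ctl h).s = p.za x os := by rw [h1]; rfl
    have hkind : kind (p.ctl h) = match (p.Dc os).drop i with
        | g :: _ => Kd.gate (p.za x os).Z g
        | [] => Kd.idle := by
      rw [h1]
      unfold can kind
      simp only
      obtain ⟨u, hu⟩ : ∃ u, p.L - i = u + 1 := ⟨p.L - i - 1, by omega⟩
      rw [hu]
      rfl
    unfold qk
    simp_rw [p.P_a, hkind]
    rw [h2, hs, nsq_cst]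
    cases hd : (p.Dc os).drop i with
    | nil =>
      simp only
      have : ∀ w, mv (km b (Kd.idle : Kd N) w (some k)) (p.cst x i os) = 0 := by
        intro w
        funext j
        simp [mv, km]
      simp_rw [this, nsq_zero, Finset.sum_const_zero]
      exact mul_nonneg (Wi_nonneg _ _ _ _ _) (nsq_nonneg _)
    | cons g t' =>
      simp only
      have hg : (p.Dc os)[i]? = some g := by
        have : (p.Dc os)[i]? = ((p.Dc os).drop i)[0]? := by simp
        rw [this, hd]
        rfl
      rw [sum_w0]
      · have e1 : km b (Kd.gate (p.za x os).Z g) (w0 (m := m)) (some k) = (p.za x os).Z.gm g (some k) := by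
          funext n' i'
          simp [km]
        rw [e1]
        refine ((p.za x os).Z.nsq_gm_le g k _).trans ?_
        unfold Wi
        rw [hg]
        simp only [WS, Finset.sum_singleton, Wg]
        rw [p.za_O]
        unfold cst
        rw [load_sum (p.me x os)]
        have e3 : circAct (p.Z.O (bx x)) ((p.Dc os).take i)
            (fun s => ∑ t, p.me x os t * load m (Ee t) s)
            = fun s => ∑ t, p.me x os t * circAct (p.Z.O (bx x)) ((p.Dc os).take i) (load m (Ee t)) s := by
          funext s
          exact circAct_lin _ _ _ _ _ _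
        rw [e3, mul_comm]
        exact (p.za x os).Z.wt_lin g k (p.me x os) _
      · intro w hw
        have : mv (km b (Kd.gate (p.za x os).Z g) w (some k)) (p.cst x i os) = 0 := by
          funext j
          simp [mv, km, hw]
        rw [this, nsq_zero]

/-! ### Times -/

lemma md1 (a E : ℕ) (h : a % E + 1 < E) : (a + 1) % E = a % E + 1 ∧ (a + 1) / E = a / E := by
  have hE : 0 < E := by omega
  have h1 := Nat.div_add_mod a E
  have h2 : (a + 1) / E = a / E ∧ (a + 1) % E = a % E + 1 := by
    rw [Nat.div_mod_unique hE]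
    constructor
    · omega
    · exact h
  exact ⟨h2.2, h2.1⟩

lemma md2 (a E : ℕ) (hE : 0 < E) (h : a % E + 1 = E) : (a + 1) % E = 0 ∧ (a + 1) / E = a / E + 1 := by
  have h1 := Nat.div_add_mod a E
  have h2 : (a + 1) / E = a / E + 1 ∧ (a + 1) % E = 0 := by
    rw [Nat.div_mod_unique hE]
    constructor
    · rw [Nat.mul_add]; omega
    · exact hE
  exact ⟨h2.2, h2.1⟩

/-- The invariants. -/
structure OK (h : List (Bool × (Fin m → Bool))) : Prop where
  inv : Inv (p.ctl h).s
  fr : Fresh (p.ctl h).τ (p.ctl h).s.R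
  dp : (p.ctl h).τ.depth ≤ (p.ctl h).c
  c : (p.ctl h).c = p.s0 - h.length % p.E
  g : (p.ctl h).g = min p.L (p.s0 + p.L - h.length % p.E)
  o : (p.ctl h).os.length = h.length / p.E
  card : (p.ctl h).s.R.card + (p.ctl h).c ≤ ((p.ctl h).os.length + 1) * p.s0

lemma E_pos : 0 < p.E := by unfold E; omega

lemma ok : ∀ h : List (Bool × (Fin m → Bool)), p.OK h
  | [] => by
    have e : p.ctl [] = start p.Dc p.st p.s0 p.L [] p.si := rfl
    constructor
    · rw [e]; intro k hk; exact absurd hk (Finset.notMem_empty k)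
    · rw [e]; exact p.Fresh_st _ _
    · rw [e]; exact p.depth_st _ _
    · rw [e]; simp [start]
    · rw [e]; simp [start]
    · rw [e]; simp [start]
    · rw [e]; simp [start, si]
  | w :: h => by
    have ih := ok h
    have hE := p.E_pos
    have hu : h.length % p.E < p.E := Nat.mod_lt _ hE
    have hEE : p.E = p.s0 + p.L + 1 := rfl
    have e := p.ctl_cons h w
    have i1 := ih.inv
    have i2 := ih.fr
    have i3 := ih.dp
    have i4 := ih.c
    have i5 := ih.g
    have i6 := ih.o
    have i7 := ih.card
    generalize p.ctl h = cn at e i1 i2 i3 i4 i5 i6 i7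
    obtain ⟨os, s, c, τ, g, d, t⟩ := cn
    simp only at i1 i2 i3 i4 i5 i6 i7
    cases c with
    | succ c =>
      have hm := md1 h.length p.E (by omega)
      cases τ with
      | leaf β =>
        have e2 : p.ctl (w :: h) = ⟨os, s, c, .leaf β, g, d, t⟩ := e
        constructor
        · rw [e2]; exact i1
        · rw [e2]; trivial
        · rw [e2]; simp [DTree.depth]
        · rw [e2, List.length_cons, hm.1]; simp only; omega
        · rw [e2, List.length_cons, hm.1]; simp only; omega
        · rw [e2, List.length_cons, hm.2]; exact i6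
        · rw [e2]; simp only; omega
      | ask q t0 t1 =>
        have e2 : p.ctl (w :: h) = ⟨os, s.rd q (sgn w.1), c, tt t0 t1 (sgn w.1), g, d, t⟩ := e
        simp only [DTree.depth] at i3
        constructor
        · rw [e2]; exact i1.rd _ _
        · rw [e2]; exact Fresh_tt i2 _
        · rw [e2]; simp only [tt]; split_ifs <;> omega
        · rw [e2, List.length_cons, hm.1]; simp only; omega
        · rw [e2, List.length_cons, hm.1]; simp only; omega
        · rw [e2, List.length_cons, hm.2]; exact i6
        · rw [e2]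
          simp only [RS.rd]
          have := Finset.card_insert_le q s.R
          omega
    | zero =>
      have hτ : ∃ β, τ = .leaf β := by
        cases τ with
        | leaf β => exact ⟨β, rfl⟩
        | ask q t0 t1 => simp [DTree.depth] at i3
      cases g with
      | succ g =>
        have hm := md1 h.length p.E (by omega)
        have e2 : ∃ d' t', p.ctl (w :: h) = ⟨os, s, 0, τ, g, d', t'⟩ := by
          rw [e]
          cases t with
          | nil => exact ⟨_, _, rfl⟩
          | cons g' t' => exact ⟨_, _, rfl⟩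
        obtain ⟨d', t', e2⟩ := e2
        constructor
        · rw [e2]; exact i1
        · rw [e2]; exact i2
        · rw [e2]; exact i3
        · rw [e2, List.length_cons, hm.1]; simp only; omega
        · rw [e2, List.length_cons, hm.1]; simp only; omega
        · rw [e2, List.length_cons, hm.2]; exact i6
        · rw [e2]; exact i7
      | zero =>
        have hL := p.t.hL
        have hm := md2 h.length p.E hE (by omega)
        have e2 : p.ctl (w :: h) = start p.Dc p.st p.s0 p.L (w.2 :: os) s := e
        constructor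
        · rw [e2]; exact i1
        · rw [e2]; exact p.Fresh_st _ _
        · rw [e2]; exact p.depth_st _ _
        · rw [e2, List.length_cons, hm.1]; simp [start]
        · rw [e2, List.length_cons, hm.1]; simp [start]
        · rw [e2, List.length_cons, hm.2]; simp [start, i6]
        · rw [e2]
          simp only [start, List.length_cons]
          have e3 : (os.length + 1 + 1) * p.s0 = (os.length + 1) * p.s0 + p.s0 := by ring
          omega

/-- The times of the gates. -/
noncomputable def Qs : Finset ℕ :=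
  (Finset.range p.n ×ˢ Finset.range p.L).image fun c => c.2 + p.s0 + c.1 * p.E

lemma mem_Qs {t : ℕ} : t ∈ p.Qs ↔ ∃ c < p.n, ∃ i < p.L, t = i + p.s0 + c * p.E := by
  unfold Qs
  simp only [Finset.mem_image, Finset.mem_product, Finset.mem_range, Prod.exists]
  constructor
  · rintro ⟨c, i, ⟨h1, h2⟩, h3⟩
    exact ⟨c, h1, i, h2, h3.symm⟩
  · rintro ⟨c, h1, i, h2, h3⟩
    exact ⟨c, i, ⟨h1, h2⟩, h3.symm⟩

lemma card_Qs_le : p.Qs.card ≤ p.n * p.L := by
  unfold Qs
  refine Finset.card_image_le.trans ?_
  rw [Finset.card_product, Finset.card_range, Finset.card_range]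

lemma card_Qs_pos : 1 ≤ p.Qs.card := by
  rw [Nat.succ_le_iff, Finset.card_pos]
  exact ⟨_, p.mem_Qs.2 ⟨0, p.hn, 0, p.t.hL, rfl⟩⟩

lemma Qs_lt {t : ℕ} (h : t ∈ p.Qs) : t < p.n * p.E := by
  obtain ⟨c, hc, i, hi, rfl⟩ := p.mem_Qs.1 h
  have h1 : (c + 1) * p.E ≤ p.n * p.E := Nat.mul_le_mul_right _ hc
  have h2 : (c + 1) * p.E = c * p.E + p.E := by ring
  have h3 : p.E = p.s0 + p.L + 1 := rfl
  omega

lemma mod_Q (c i : ℕ) (hi : i ≤ p.L) : (i + p.s0 + c * p.E) % p.E = i + p.s0 := by
  rw [Nat.add_mul_mod_self_right]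
  apply Nat.mod_eq_of_lt
  unfold E
  omega

lemma c_Q {h : List (Bool × (Fin m → Bool))} (hh : h.length ∈ p.Qs) : (p.ctl h).c = 0 := by
  obtain ⟨c, hc, i, hi, e⟩ := p.mem_Qs.1 hh
  rw [(p.ok h).c, e, p.mod_Q c i hi.le]
  omega

lemma not_Q {h : List (Bool × (Fin m → Bool))} (hT : h.length < p.n * p.E) (hh : h.length ∉ p.Qs) :
    0 < (p.ctl h).c ∨ (p.ctl h).g = 0 := by
  have hu : h.length % p.E < p.E := Nat.mod_lt _ p.E_pos
  have hEE : p.E = p.s0 + p.L + 1 := rfl
  rw [(p.ok h).c, (p.ok h).g]
  by_cases h1 : h.length % p.E < p.s0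
  · left; omega
  · right
    by_cases h2 : h.length % p.E < p.s0 + p.L
    · exfalso
      apply hh
      rw [p.mem_Qs]
      refine ⟨h.length / p.E, ?_, h.length % p.E - p.s0, by omega, ?_⟩
      · exact (Nat.div_lt_iff_lt_mul p.E_pos).2 hT
      · have := Nat.div_add_mod h.length p.E
        rw [Nat.mul_comm] at this
        omega
    · omega

lemma mat_ext {ι : Type*} [Fintype ι] [DecidableEq ι] (A B : ι → ι → ℝ)
    (h : ∀ u, mv A u = mv B u) : A = B := by
  funext i j
  have := congrFun (h (fun l => if l = j then 1 else 0)) i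
  simpa [mv] using this

/-- The process reads bits. -/
lemma rds : RdS p.P (p.n * p.E) p.Qs (fun h => (p.ctl h).s.R) (fun h => (p.ctl h).s.v) where
  lt := fun t ht => p.Qs_lt ht
  R0 := rfl
  mono := by
    intro h w
    beta_reduce
    rw [p.ctl_cons]
    generalize p.ctl h = cn
    obtain ⟨os, s, c, τ, g, d, t⟩ := cn
    cases c with
    | succ c => cases τ with
      | leaf β => exact Finset.Subset.refl _
      | ask q t0 t1 => exact Finset.subset_insert _ _
    | zero => cases g with
      | succ g => cases t <;> exact Finset.Subset.refl _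
      | zero => exact Finset.Subset.refl _
  rq := by
    intro h w hQ
    beta_reduce
    have hc := p.c_Q hQ
    rw [p.ctl_cons]
    generalize p.ctl h = cn at hc
    obtain ⟨os, s, c, τ, g, d, t⟩ := cn
    simp only at hc
    subst hc
    cases g with
    | succ g => cases t <;> rfl
    | zero => rfl
  qr := by
    intro h w k hQ hk
    beta_reduce at hk
    have hc := p.c_Q hQ
    have hi := (p.ok h).inv
    rw [p.P_a]
    generalize p.ctl h = cn at hc hk hi
    obtain ⟨os, s, c, τ, g, d, t⟩ := cn
    simp only at hc hk hi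
    subst hc
    have hnd := hi k hk
    cases g with
    | succ g => cases t with
      | nil => funext n i; simp [kind, km]
      | cons g' t' =>
        funext n i
        simp only [kind, km]
        split_ifs
        · rcases g' with i0 | ⟨u, q, k0⟩
          · simp [Adm.gm]
          · cases u with
            | false => simp [Adm.gm]
            | true =>
              simp only [Adm.gm, Adm.kq]
              rw [if_neg (NoDep_kd hnd _)]
              rfl
        · rfl
    | zero => funext n i; simp [kind, km]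
  nq := by
    intro h w k hT hQ hk
    beta_reduce at hk
    have hc := p.not_Q hT hQ
    rw [p.ctl_cons] at hk
    rw [p.P_a]
    generalize p.ctl h = cn at hc hk
    obtain ⟨os, s, c, τ, g, d, t⟩ := cn
    simp only at hc
    cases c with
    | succ c => cases τ with
      | leaf β => funext n i; simp [kind, km]
      | ask q t0 t1 =>
        have hkq : k ≠ q := by
          rintro rfl
          exact hk (Finset.mem_insert_self _ _)
        funext n i
        simp [kind, km, hkq]
    | zero =>
      have hg : g = 0 := by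
        rcases hc with hc | hc
        · omega
        · exact hc
      subst hg
      funext n i
      simp [kind, km]
  rd := by
    intro h w k x hk hk' hx
    beta_reduce at hk hk' hx
    have hfr := (p.ok h).fr
    rw [p.ctl_cons] at hk hx
    rw [p.P_Q]
    apply mat_ext
    intro ψ
    rw [kQ]
    have hz : mv (0 : (Fin (b + m) → Bool) → (Fin (b + m) → Bool) → ℝ) ψ = fun _ => 0 := by
      funext i; simp [mv]
    rw [hz]
    generalize p.ctl h = cn at hk hk' hx hfr
    obtain ⟨os, s, c, τ, g, d, t⟩ := cn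
    cases c with
    | succ c => cases τ with
      | leaf β => exact absurd hk hk'
      | ask q t0 t1 =>
        rcases Finset.mem_insert.1 hk with rfl | hk
        · simp only [nx, RS.rd, Function.update_self] at hx
          simp only [kind]
          rw [if_neg (fun h => hx h.2)]
        · exact absurd hk hk'
    | zero => cases g with
      | succ g => cases t <;> exact absurd hk hk'
      | zero => exact absurd hk hk'
  vlm := by
    intro h w k hk
    beta_reduce at hk
    beta_reduce
    have hfr := (p.ok h).fr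
    rw [p.ctl_cons]
    generalize p.ctl h = cn at hk hfr
    obtain ⟨os, s, c, τ, g, d, t⟩ := cn
    cases c with
    | succ c => cases τ with
      | leaf β => rfl
      | ask q t0 t1 =>
        simp only [nx, RS.rd]
        rw [Function.update_of_ne]
        rintro rfl
        exact hfr.1 hk
    | zero => cases g with
      | succ g => cases t <;> rfl
      | zero => rfl

end Par

end Pool.Agent.W938.CQ
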