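import Pool.Agent.H703R2.AC.Deriv

/-!
# The light lemma for processes which also read bits

Some steps of the process are quantum steps (their times are in `Q`), in the other steps a bit may
be read and stored in the history.
-/

set_option autoImplicit false
set_option linter.unusedSectionVars false

namespace Pool.Agent.W938.CQ

open Finset Pool.Agent.H722R2.AA Pool.Agent.H746R2.AA Pool.Agent.H703R2.AA Pool.Agent.H703R2.AA.Pr
  Pool.Agent.H703R2.AB

variable {κ ι W : Type*} [Fintype κ] [DecidableEq κ] [Fintype ι] [DecidableEq ι] [Fintype W]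
variable (P : Pr κ ι W)

lemma nsq_orth (h : List W) (u : κ → ι → ℝ) :
    ∑ w, nsq (∑ k, mv (P.a h w (some k)) (u k)) = ∑ k, ∑ w, nsq (mv (P.a h w (some k)) (u k)) := by
  have e : ∀ w, nsq (∑ k, mv (P.a h w (some k)) (u k))
      = ∑ k, ∑ l, dot (mv (P.a h w (some k)) (u k)) (mv (P.a h w (some l)) (u l)) := by
    intro w
    rw [← dot_self, dot_sum_left]
    refine Finset.sum_congr rfl fun k _ => ?_
    rw [dot_comm, dot_sum_left]
    exact Finset.sum_congr rfl fun l _ => dot_comm _ _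
  simp_rw [e]
  rw [Finset.sum_comm]
  refine Finset.sum_congr rfl fun k _ => ?_
  rw [Finset.sum_comm, Finset.sum_eq_single k]
  · exact Finset.sum_congr rfl fun w _ => dot_self _
  · intro l _ hl
    exact sum_dot_orth P h (some k) (some l) (fun h => hl (Option.some.inj h).symm) _ _
  · intro hk; exact absurd (Finset.mem_univ _) hk

lemma peel_one (G' : List W → Prop) (hG : ∀ w h, G' (w :: h) → G' h) (γ : κ → ℝ) (t T : ℕ)
    (ht : t < T) (y : κ → ℤˣ) :
    S T (fun b => ind (G' b) * nsq (∑ k, γ k • P.z t k b y))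
      ≤ S t (fun h => ind (G' h) * ∑ k, γ k ^ 2 * qk P h k (fl k y)) := by
  refine (S_peel (t + 1) T ht _ fun b hb => ?_).trans ?_
  · calc ∑ w, ind (G' (w :: b)) * nsq (∑ k, γ k • P.z t k (w :: b) y)
        ≤ ∑ w, ind (G' b) * nsq (mv (P.Q b w y) (∑ k, γ k • P.z t k b y)) := by
          refine Finset.sum_le_sum fun w _ => ?_
          have e : ∑ k, γ k • P.z t k (w :: b) y = mv (P.Q b w y) (∑ k, γ k • P.z t k b y) := by
            rw [mv_sum]
            refine Finset.sum_congr rfl fun k _ => ?_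
            rw [mv_smul, P.z_cons t k b w y (by omega)]
          rw [e]
          exact mul_le_mul_of_nonneg_right (ind_mono (hG w b)) (nsq_nonneg _)
      _ = _ := by rw [← Finset.mul_sum, P.iso]
  · change S t (fun h => ∑ w, ind (G' (w :: h)) * nsq (∑ k, γ k • P.z t k (w :: h) y)) ≤ _
    refine S_mono' t fun h hh => ?_
    calc ∑ w, ind (G' (w :: h)) * nsq (∑ k, γ k • P.z t k (w :: h) y)
        ≤ ∑ w, ind (G' h) * nsq (∑ k, mv (P.a h w (some k)) (γ k • P.A h (fl k y))) := by
          refine Finset.sum_le_sum fun w _ => ?_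
          have e : ∑ k, γ k • P.z t k (w :: h) y
              = ∑ k, mv (P.a h w (some k)) (γ k • P.A h (fl k y)) := by
            refine Finset.sum_congr rfl fun k _ => ?_
            rw [mv_smul, P.z_top t k h w y hh]
          rw [e]
          exact mul_le_mul_of_nonneg_right (ind_mono (hG w h)) (nsq_nonneg _)
      _ = _ := by
          rw [← Finset.mul_sum, nsq_orth]
          congr 1
          refine Finset.sum_congr rfl fun k _ => ?_
          unfold qk
          rw [Finset.mul_sum]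
          refine Finset.sum_congr rfl fun w _ => ?_
          rw [mv_smul, nsq_smul]

lemma peel_sq (G' : List W → Prop) (hG : ∀ w h, G' (w :: h) → G' h) (c : κ → ℝ)
    (hc : ∀ k, 0 ≤ c k) (t T : ℕ) (ht : t < T) (y : κ → ℤˣ) :
    S T (fun b => ind (G' b) * ∑ k, nsq (P.z t k b y) * c k)
      ≤ S t (fun h => ind (G' h) * ∑ k, qk P h k (fl k y) * c k) := by
  refine (S_peel (t + 1) T ht _ fun b hb => ?_).trans ?_
  · calc ∑ w, ind (G' (w :: b)) * ∑ k, nsq (P.z t k (w :: b) y) * c k
        ≤ ∑ w, ind (G' b) * ∑ k, nsq (mv (P.Q b w y) (P.z t k b y)) * c k := by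
          refine Finset.sum_le_sum fun w _ => ?_
          have e : ∀ k, P.z t k (w :: b) y = mv (P.Q b w y) (P.z t k b y) := fun k =>
            P.z_cons t k b w y (by omega)
          simp_rw [e]
          exact mul_le_mul_of_nonneg_right (ind_mono (hG w b))
            (Finset.sum_nonneg fun k _ => mul_nonneg (nsq_nonneg _) (hc k))
      _ = _ := by
          rw [← Finset.mul_sum, Finset.sum_comm]
          simp_rw [← Finset.sum_mul, P.iso]
  · change S t (fun h => ∑ w, ind (G' (w :: h)) * ∑ k, nsq (P.z t k (w :: h) y) * c k) ≤ _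
    refine S_mono' t fun h hh => ?_
    calc ∑ w, ind (G' (w :: h)) * ∑ k, nsq (P.z t k (w :: h) y) * c k
        ≤ ∑ w, ind (G' h) * ∑ k, nsq (mv (P.a h w (some k)) (P.A h (fl k y))) * c k := by
          refine Finset.sum_le_sum fun w _ => ?_
          simp_rw [fun k => P.z_top t k h w y hh]
          exact mul_le_mul_of_nonneg_right (ind_mono (hG w h))
            (Finset.sum_nonneg fun k _ => mul_nonneg (nsq_nonneg _) (hc k))
      _ = _ := by
          rw [← Finset.mul_sum, Finset.sum_comm]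
          simp_rw [← Finset.sum_mul]
          rfl

/-! ### Collisions -/

/-- The collision sum at a point. -/
noncomputable def JJ (G : List W → List W → Prop) (s t : ℕ) (x y : κ → ℤˣ) : ℝ :=
  SS s t (fun h h' => ind (G h h') * ∑ k, qk P h k (fl k x) * qk P h' k (fl k y))

/-- The collision probability. -/
noncomputable def CG (G : List W → List W → Prop) (s t : ℕ) (r : ℝ) : ℝ :=
  PE r (fun x y => SS s t (fun h h' => ind (G h h') * ∑ k, qk P h k x * qk P h' k y))

lemma PE_JJ (G : List W → List W → Prop) (s t : ℕ) (r : ℝ) : PE r (JJ P G s t) = CG P G s t r := by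
  unfold JJ CG
  rw [PE_SS, PE_SS]
  refine SS_congr' s t fun h h' _ _ => ?_
  rw [PE_mul_left, PE_mul_left, PE_sum, PE_sum]
  congr 1
  refine Finset.sum_congr rfl fun k _ => ?_
  exact PE_fl r k (fun x y => qk P h k x * qk P h' k y)

/-- The good relation is closed under initial segments. -/
structure Clo (G : List W → List W → Prop) : Prop where
  l : ∀ w a b, G (w :: a) b → G a b
  r : ∀ w a b, G a (w :: b) → G a b

lemma Clo.swap {G : List W → List W → Prop} (h : Clo G) : Clo (fun a b => G b a) :=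
  ⟨fun w a b => h.r w b a, fun w a b => h.l w b a⟩

lemma L1 {G : List W → List W → Prop} (hG : Clo G) (s t T : ℕ) (hs : s < T) (x y : κ → ℤˣ) :
    S T (fun a => S t (fun h' => ind (G a h') * ∑ k, nsq (P.z s k a x) * qk P h' k (fl k y)))
      ≤ JJ P G s t x y := by
  have e : JJ P G s t x y = S t (fun h' => S s (fun h => ind (G h h')
      * ∑ k, qk P h k (fl k x) * qk P h' k (fl k y))) := S_S_comm s t _
  rw [e, S_S_comm]
  exact S_mono t fun h' => peel_sq P (fun a => G a h') (fun w h => hG.l w h h')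
    (fun k => qk P h' k (fl k y)) (fun k => qk_nonneg P h' k _) s T hs x

lemma L2 {G : List W → List W → Prop} (hG : Clo G) (s t T : ℕ) (hs : s < T) (ht : t < T)
    (x y : κ → ℤˣ) :
    SS T T (fun a b => ind (G a b) * ∑ k, nsq (P.z s k a x) * nsq (P.z t k b y))
      ≤ JJ P G s t x y := by
  refine le_trans ?_ (L1 P hG s t T hs x y)
  refine S_mono T fun a => ?_
  have := peel_sq P (fun b => G a b) (fun w h => hG.r w a h) (fun k => nsq (P.z s k a x))
    (fun k => nsq_nonneg _) t T ht y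
  simp_rw [mul_comm (nsq (P.z s _ a x))]
  exact this

lemma SS_AA (T : ℕ) (x y : κ → ℤˣ) :
    SS T T (fun a b => nsq (P.A a x) * nsq (P.A b y)) = 1 := by
  rw [SS_mul, P.S_nsq, P.S_nsq, one_mul]

/-- The main terms. -/
lemma X1 {G : List W → List W → Prop} (hG : Clo G) (K : List W → Finset κ) {r : ℝ} (h0 : 0 ≤ r)
    (h1 : r ≤ 1) (s t T : ℕ) (hs : s < T) (ht : t < T) (c : ℝ) (hc : 0 < c)
    (hC : CG P G s t r ≤ c ^ 2) :
    PE r (fun x y => SS T T (fun a b => ind (G a b)
      * |∑ k ∈ K a, dot (P.z s k a x) (P.A a x) * dot (P.z t k b y) (P.A b y)|)) ≤ c := by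
  have hpt : ∀ x y : κ → ℤˣ, SS T T (fun a b => ind (G a b)
      * |∑ k ∈ K a, dot (P.z s k a x) (P.A a x) * dot (P.z t k b y) (P.A b y)|)
      ≤ (1 / (2 * c)) * JJ P G s t x y + c / 2 := by
    intro x y
    set γ : List W → κ → ℝ := fun a k => if k ∈ K a then
      dot (P.z s k a x) (P.A a x) / Real.sqrt (nsq (P.A a x)) else 0 with hγ
    have hγ2 : ∀ a k, γ a k ^ 2 ≤ nsq (P.z s k a x) := by
      intro a k
      rw [hγ]
      beta_reduce
      split_ifs
      · rw [div_pow, Real.sq_sqrt (nsq_nonneg _)]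
        refine div_le_of_le_mul₀ (nsq_nonneg _) (nsq_nonneg _) ?_
        unfold dot nsq
        exact Finset.sum_mul_sq_le_sq_mul_sq _ _ _
      · rw [zero_pow (by norm_num)]
        exact nsq_nonneg _
    have hd0 : ∀ a, nsq (P.A a x) = 0 → P.A a x = 0 := by
      intro a h
      funext i
      have h2 := (Finset.sum_eq_zero_iff_of_nonneg (fun i _ => sq_nonneg (P.A a x i))).1 h i
        (Finset.mem_univ i)
      simpa using h2
    have hγ1 : ∀ a b, ∑ k ∈ K a, dot (P.z s k a x) (P.A a x) * dot (P.z t k b y) (P.A b y)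
        = dot (∑ k, γ a k • P.z t k b y) (Real.sqrt (nsq (P.A a x)) • P.A b y) := by
      intro a b
      rw [dot_smul_right, dot_sum_left, Finset.mul_sum, ← Finset.sum_subset (Finset.subset_univ (K a))]
      · refine Finset.sum_congr rfl fun k hk => ?_
        rw [dot_smul_left, hγ]
        beta_reduce
        rw [if_pos hk]
        by_cases h : nsq (P.A a x) = 0
        · rw [hd0 a h]
          have e : dot (P.z s k a x) 0 = 0 := by unfold dot; simp
          rw [e]; ring
        · have h2 : Real.sqrt (nsq (P.A a x)) ≠ 0 := by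
            rw [Ne, Real.sqrt_eq_zero (nsq_nonneg _)]
            exact h
          field_simp
      · intro k _ hk
        rw [dot_smul_left, hγ]
        beta_reduce
        rw [if_neg hk]
        ring
    have hb : ∀ a, S T (fun b => ind (G a b)
        * |∑ k ∈ K a, dot (P.z s k a x) (P.A a x) * dot (P.z t k b y) (P.A b y)|)
        ≤ (1 / (2 * c)) * S t (fun h' => ind (G a h') * ∑ k, nsq (P.z s k a x) * qk P h' k (fl k y))
          + c / 2 * nsq (P.A a x) := by
      intro a
      have h3 : S T (fun b => ind (G a b)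
        * |∑ k ∈ K a, dot (P.z s k a x) (P.A a x) * dot (P.z t k b y) (P.A b y)|)
        ≤ S T (fun b => (1 / (2 * c)) * (ind (G a b) * nsq (∑ k, γ a k • P.z t k b y))
          + (c / 2 * nsq (P.A a x)) * nsq (P.A b y)) := by
        refine S_mono T fun b => ?_
        rw [hγ1]
        have h4 := abs_dot_le (∑ k, γ a k • P.z t k b y) (Real.sqrt (nsq (P.A a x)) • P.A b y)
          (1 / c) (by positivity)
        rw [nsq_smul, Real.sq_sqrt (nsq_nonneg _)] at h4
        have h5 := mul_le_mul_of_nonneg_left h4 (ind_nonneg (G a b))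
        refine h5.trans ?_
        have h6 : ind (G a b) * (nsq (P.A a x) * nsq (P.A b y)) ≤ nsq (P.A a x) * nsq (P.A b y) :=
          mul_le_of_le_one_left (mul_nonneg (nsq_nonneg _) (nsq_nonneg _)) (ind_le_one _)
        have e : ind (G a b) * ((1 / c * nsq (∑ k, γ a k • P.z t k b y)
            + nsq (P.A a x) * nsq (P.A b y) / (1 / c)) / 2)
            = (1 / (2 * c)) * (ind (G a b) * nsq (∑ k, γ a k • P.z t k b y))
              + c / 2 * (ind (G a b) * (nsq (P.A a x) * nsq (P.A b y))) := by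
          field_simp
        rw [e]
        have h7 := mul_le_mul_of_nonneg_left h6 (by positivity : 0 ≤ c / 2)
        linarith
      refine h3.trans ?_
      rw [S_add, S_mul_left, S_mul_left, P.S_nsq, mul_one]
      have h4 := peel_one P (fun b => G a b) (fun w h => hG.r w a h) (γ a) t T ht y
      have h5 : S t (fun h => ind (G a h) * ∑ k, γ a k ^ 2 * qk P h k (fl k y))
          ≤ S t (fun h' => ind (G a h') * ∑ k, nsq (P.z s k a x) * qk P h' k (fl k y)) :=
        S_mono t fun h => mul_le_mul_of_nonneg_left (Finset.sum_le_sum fun k _ =>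
          mul_le_mul_of_nonneg_right (hγ2 a k) (qk_nonneg P h k _)) (ind_nonneg _)
      have h6 := mul_le_mul_of_nonneg_left (h4.trans h5) (by positivity : 0 ≤ 1 / (2 * c))
      linarith
    unfold SS
    refine (S_mono T hb).trans ?_
    rw [S_add, S_mul_left, S_mul_left, P.S_nsq, mul_one]
    have := mul_le_mul_of_nonneg_left (L1 P hG s t T hs x y) (by positivity : 0 ≤ 1 / (2 * c))
    linarith
  refine (PE_mono h0 h1 hpt).trans ?_
  rw [PE_add, PE_mul_left, PE_JJ, PE_const]
  have := mul_le_mul_of_nonneg_left hC (by positivity : 0 ≤ 1 / (2 * c))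
  have e : 1 / (2 * c) * c ^ 2 = c / 2 := by field_simp
  rw [e] at this
  linarith

/-! ### The quantum steps -/

variable (Q : Finset ℕ)

/-- The part of the difference which comes from the quantum steps. -/
def ztq (k : κ) (h : List W) (x : κ → ℤˣ) : ι → ℝ := ∑ s ∈ Q, P.z s k h x

lemma nsq_sum_le {τ : Type*} (s : Finset τ) (u : τ → ι → ℝ) :
    nsq (∑ a ∈ s, u a) ≤ s.card * ∑ a ∈ s, nsq (u a) := by
  unfold nsq
  rw [Finset.sum_comm, Finset.mul_sum]
  refine Finset.sum_le_sum fun i _ => ?_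
  rw [Finset.sum_apply]
  exact sq_sum_le_card_mul_sum_sq

lemma nsq_ztq_le (k : κ) (h : List W) (x : κ → ℤˣ) :
    nsq (ztq P Q k h x) ≤ Q.card * ∑ s ∈ Q, nsq (P.z s k h x) := nsq_sum_le Q _

lemma Ex_z_le (s T : ℕ) (hs : s < T) :
    Ex (fun x => S T (fun a => ∑ k, nsq (P.z s k a x))) ≤ 1 := by
  have h1 : ∀ x : κ → ℤˣ, S T (fun a => ∑ k, nsq (P.z s k a x))
      ≤ S s (fun h => ∑ k, qk P h k (fl k x)) := by
    intro x
    have h2 := peel_sq P (fun _ => True) (fun _ _ _ => trivial) (fun _ => 1)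
      (fun _ => zero_le_one) s T hs x
    have e : ind True = 1 := by unfold ind; rw [if_pos trivial]
    simpa only [e, one_mul, mul_one] using h2
  refine (Ex_mono h1).trans ?_
  rw [Ex_S]
  have h3 : S s (fun h => Ex (fun x => ∑ k, qk P h k (fl k x))) ≤ S s (fun h => P.p h) := by
    refine S_mono s fun h => ?_
    rw [Ex_sum]
    have e : ∀ k, Ex (fun x => qk P h k (fl k x)) = Ex (fun x => qk P h k x) := fun k =>
      Ex_fl k (fun x => qk P h k x)
    simp_rw [e]
    rw [← Ex_sum]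
    exact Ex_mono fun x => sum_qk_le P h x
  rw [P.S_p] at h3
  exact h3

lemma Ex_ztq_le (T : ℕ) (hQ : ∀ s ∈ Q, s < T) :
    Ex (fun x => S T (fun a => ∑ k, nsq (ztq P Q k a x))) ≤ (Q.card : ℝ) ^ 2 := by
  have h1 : ∀ x : κ → ℤˣ, S T (fun a => ∑ k, nsq (ztq P Q k a x))
      ≤ Q.card * ∑ s ∈ Q, S T (fun a => ∑ k, nsq (P.z s k a x)) := by
    intro x
    rw [← S_sum, ← S_mul_left]
    refine S_mono T fun a => ?_
    rw [Finset.sum_comm, Finset.mul_sum]
    exact Finset.sum_le_sum fun k _ => nsq_ztq_le P Q k a x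
  refine (Ex_mono h1).trans ?_
  rw [Ex_mul_left, Ex_sum]
  calc (Q.card : ℝ) * ∑ s ∈ Q, Ex (fun x => S T (fun a => ∑ k, nsq (P.z s k a x)))
      ≤ (Q.card : ℝ) * ∑ _s ∈ Q, 1 := by
        refine mul_le_mul_of_nonneg_left ?_ (Nat.cast_nonneg _)
        exact Finset.sum_le_sum fun s hs => Ex_z_le P s T (hQ s hs)
    _ = _ := by simp [sq]

lemma cross_pt (u v u' v' : ι → ℝ) (l : ℝ) (hl : 0 < l) :
    |dot u v * dot u' v'| ≤ (l * (nsq u * nsq u') + nsq v * nsq v' / l) / 2 := by
  rw [← dot_tn]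
  have := abs_dot_le (tn u u') (tn v v') l hl
  rwa [nsq_tn, nsq_tn] at this

/-- The cross terms. -/
lemma X2 {G : List W → List W → Prop} (hG : Clo G) {r : ℝ} (h0 : 0 ≤ r)
    (h1 : r ≤ 1) (s t T : ℕ) (hs : s < T) (ht : t < T) (hQ : ∀ s ∈ Q, s < T) (c : ℝ) (hc : 0 < c)
    (hq : 1 ≤ Q.card) (hC : CG P G s t r ≤ c ^ 2) :
    PE r (fun x y => SS T T (fun a b => ind (G a b)
      * ∑ k, |dot (P.z s k a x) (ztq P Q k a x) * dot (P.z t k b y) (P.A b y)|))
      ≤ Q.card * c := by
  have hq' : (1 : ℝ) ≤ Q.card := by exact_mod_cast hq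
  set q : ℝ := (Q.card : ℝ) with hqd
  have hq0 : 0 < q := by linarith
  have hpt : ∀ x y : κ → ℤˣ, SS T T (fun a b => ind (G a b)
      * ∑ k, |dot (P.z s k a x) (ztq P Q k a x) * dot (P.z t k b y) (P.A b y)|)
      ≤ (q / (2 * c)) * JJ P G s t x y
        + (c / (2 * q)) * S T (fun a => ∑ k, nsq (ztq P Q k a x)) := by
    intro x y
    have h2 : SS T T (fun a b => ind (G a b)
      * ∑ k, |dot (P.z s k a x) (ztq P Q k a x) * dot (P.z t k b y) (P.A b y)|)
      ≤ SS T T (fun a b => (q / (2 * c)) * (ind (G a b) * ∑ k, nsq (P.z s k a x) * nsq (P.z t k b y))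
        + (c / (2 * q)) * ((∑ k, nsq (ztq P Q k a x)) * nsq (P.A b y))) := by
      refine SS_mono T T fun a b => ?_
      have h3 : ∑ k, |dot (P.z s k a x) (ztq P Q k a x) * dot (P.z t k b y) (P.A b y)|
          ≤ (q / (2 * c)) * (∑ k, nsq (P.z s k a x) * nsq (P.z t k b y))
            + (c / (2 * q)) * ((∑ k, nsq (ztq P Q k a x)) * nsq (P.A b y)) := by
        rw [Finset.sum_mul, Finset.mul_sum, Finset.mul_sum, ← Finset.sum_add_distrib]
        refine Finset.sum_le_sum fun k _ => ?_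
        refine (cross_pt _ _ _ _ (q / c) (by positivity)).trans (le_of_eq ?_)
        field_simp
      have h4 := mul_le_mul_of_nonneg_left h3 (ind_nonneg (G a b))
      refine h4.trans ?_
      have h5 : ind (G a b) * ((c / (2 * q)) * ((∑ k, nsq (ztq P Q k a x)) * nsq (P.A b y)))
          ≤ (c / (2 * q)) * ((∑ k, nsq (ztq P Q k a x)) * nsq (P.A b y)) :=
        mul_le_of_le_one_left (mul_nonneg (by positivity) (mul_nonneg
          (Finset.sum_nonneg fun k _ => nsq_nonneg _) (nsq_nonneg _))) (ind_le_one _)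
      rw [mul_add]
      have e : ind (G a b) * ((q / (2 * c)) * (∑ k, nsq (P.z s k a x) * nsq (P.z t k b y)))
          = (q / (2 * c)) * (ind (G a b) * ∑ k, nsq (P.z s k a x) * nsq (P.z t k b y)) := by ring
      rw [e]
      linarith
    refine h2.trans ?_
    rw [SS_add, SS_mul_left, SS_mul_left,
      SS_mul T T (fun a => ∑ k, nsq (ztq P Q k a x)) (fun b => nsq (P.A b y)), P.S_nsq, mul_one]
    have := mul_le_mul_of_nonneg_left (L2 P hG s t T hs ht x y) (by positivity : 0 ≤ q / (2 * c))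
    linarith
  refine (PE_mono h0 h1 hpt).trans ?_
  rw [PE_add, PE_mul_left, PE_JJ, PE_mul_left, PE_left]
  have a1 := mul_le_mul_of_nonneg_left hC (by positivity : 0 ≤ q / (2 * c))
  have a2 := mul_le_mul_of_nonneg_left (Ex_ztq_le P Q T hQ) (by positivity : 0 ≤ c / (2 * q))
  rw [← hqd] at a2
  have e1 : q / (2 * c) * c ^ 2 = q * c / 2 := by field_simp
  have e2 : c / (2 * q) * q ^ 2 = q * c / 2 := by field_simp
  rw [e1] at a1
  rw [e2] at a2
  linarith

/-- The second cross terms. -/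
lemma X3 {G : List W → List W → Prop} (hG : Clo G) {r : ℝ} (h0 : 0 ≤ r)
    (h1 : r ≤ 1) (s t T : ℕ) (hs : s < T) (ht : t < T) (hQ : ∀ s ∈ Q, s < T) (c : ℝ)
    (hq : 1 ≤ Q.card) (hCs : CG P G s t r ≤ c ^ 2) (hC : ∀ s ∈ Q, ∀ t ∈ Q, CG P G s t r ≤ c ^ 2) :
    PE r (fun x y => SS T T (fun a b => ind (G a b)
      * ∑ k, |dot (P.z s k a x) (ztq P Q k a x) * dot (P.z t k b y) (ztq P Q k b y)|))
      ≤ (Q.card : ℝ) ^ 2 * c ^ 2 := by
  have hq' : (1 : ℝ) ≤ Q.card := by exact_mod_cast hq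
  set q : ℝ := (Q.card : ℝ) with hqd
  have hq0 : 0 < q := by linarith
  have hpt : ∀ x y : κ → ℤˣ, SS T T (fun a b => ind (G a b)
      * ∑ k, |dot (P.z s k a x) (ztq P Q k a x) * dot (P.z t k b y) (ztq P Q k b y)|)
      ≤ (q ^ 2 / 2) * JJ P G s t x y
        + (1 / 2) * ∑ s' ∈ Q, ∑ t' ∈ Q, JJ P G s' t' x y := by
    intro x y
    have h2 : SS T T (fun a b => ind (G a b)
      * ∑ k, |dot (P.z s k a x) (ztq P Q k a x) * dot (P.z t k b y) (ztq P Q k b y)|)
      ≤ SS T T (fun a b => (q ^ 2 / 2) * (ind (G a b) * ∑ k, nsq (P.z s k a x) * nsq (P.z t k b y))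
        + (1 / 2) * ∑ s' ∈ Q, ∑ t' ∈ Q,
            ind (G a b) * ∑ k, nsq (P.z s' k a x) * nsq (P.z t' k b y)) := by
      refine SS_mono T T fun a b => ?_
      have h3 : ∑ k, |dot (P.z s k a x) (ztq P Q k a x) * dot (P.z t k b y) (ztq P Q k b y)|
          ≤ (q ^ 2 / 2) * (∑ k, nsq (P.z s k a x) * nsq (P.z t k b y))
            + (1 / 2) * ∑ s' ∈ Q, ∑ t' ∈ Q, ∑ k, nsq (P.z s' k a x) * nsq (P.z t' k b y) := by
        have e4 : ∑ s' ∈ Q, ∑ t' ∈ Q, ∑ k, nsq (P.z s' k a x) * nsq (P.z t' k b y)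
            = ∑ k, (∑ s' ∈ Q, nsq (P.z s' k a x)) * ∑ t' ∈ Q, nsq (P.z t' k b y) := by
          simp_rw [Finset.sum_mul_sum]
          calc ∑ s' ∈ Q, ∑ t' ∈ Q, ∑ k, nsq (P.z s' k a x) * nsq (P.z t' k b y)
              = ∑ s' ∈ Q, ∑ k, ∑ t' ∈ Q, nsq (P.z s' k a x) * nsq (P.z t' k b y) :=
                Finset.sum_congr rfl fun s' _ => Finset.sum_comm
            _ = _ := Finset.sum_comm
        rw [e4, Finset.mul_sum, Finset.mul_sum, ← Finset.sum_add_distrib]
        refine Finset.sum_le_sum fun k _ => ?_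
        refine (cross_pt _ _ _ _ (q ^ 2) (by positivity)).trans ?_
        have h5 : nsq (ztq P Q k a x) * nsq (ztq P Q k b y)
            ≤ (q * ∑ s' ∈ Q, nsq (P.z s' k a x)) * (q * ∑ t' ∈ Q, nsq (P.z t' k b y)) :=
          mul_le_mul (nsq_ztq_le P Q k a x) (nsq_ztq_le P Q k b y) (nsq_nonneg _)
            (mul_nonneg hq0.le (Finset.sum_nonneg fun _ _ => nsq_nonneg _))
        have h6 : nsq (ztq P Q k a x) * nsq (ztq P Q k b y) / q ^ 2
            ≤ (∑ s' ∈ Q, nsq (P.z s' k a x)) * ∑ t' ∈ Q, nsq (P.z t' k b y) := by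
          rw [div_le_iff₀ (by positivity)]
          linarith
        linarith
      have h4 := mul_le_mul_of_nonneg_left h3 (ind_nonneg (G a b))
      refine h4.trans (le_of_eq ?_)
      simp_rw [← Finset.mul_sum]
      ring
    refine h2.trans ?_
    rw [SS_add, SS_mul_left, SS_mul_left, SS_sum]
    simp_rw [SS_sum]
    have a1 := mul_le_mul_of_nonneg_left (L2 P hG s t T hs ht x y) (by positivity : 0 ≤ q ^ 2 / 2)
    have a2 : ∑ s' ∈ Q, ∑ t' ∈ Q, SS T T (fun a b => ind (G a b)
        * ∑ k, nsq (P.z s' k a x) * nsq (P.z t' k b y)) ≤ ∑ s' ∈ Q, ∑ t' ∈ Q, JJ P G s' t' x y :=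
      Finset.sum_le_sum fun s' hs' => Finset.sum_le_sum fun t' ht' =>
        L2 P hG s' t' T (hQ s' hs') (hQ t' ht') x y
    linarith
  refine (PE_mono h0 h1 hpt).trans ?_
  rw [PE_add, PE_mul_left, PE_JJ, PE_mul_left, PE_sum]
  simp_rw [PE_sum, PE_JJ]
  have a1 := mul_le_mul_of_nonneg_left hCs (by positivity : 0 ≤ q ^ 2 / 2)
  have a2 : ∑ s' ∈ Q, ∑ t' ∈ Q, CG P G s' t' r ≤ ∑ _s' ∈ Q, ∑ _t' ∈ Q, c ^ 2 :=
    Finset.sum_le_sum fun s' hs' => Finset.sum_le_sum fun t' ht' => hC s' hs' t' ht'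
  simp only [Finset.sum_const, nsmul_eq_mul] at a2
  rw [← hqd] at a2
  linarith

end Pool.Agent.W938.CQ
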