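import Pool.Agent.W938.CQ.Lt

/-!
# The light lemma for processes which also read bits, second part
-/

set_option autoImplicit false
set_option linter.unusedSectionVars false

namespace Pool.Agent.W938.CQ

open Finset Pool.Agent.H722R2.AA Pool.Agent.H746R2.AA Pool.Agent.H703R2.AA Pool.Agent.H703R2.AA.Pr
  Pool.Agent.H703R2.AB

variable {κ ι W : Type*} [Fintype κ] [DecidableEq κ] [Fintype ι] [DecidableEq ι] [Fintype W]
variable (P : Pr κ ι W)

lemma PE_comm (r : ℝ) (H : (κ → ℤˣ) → (κ → ℤˣ) → ℝ) : PE r (fun x y => H y x) = PE r H := by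
  unfold PE
  rw [Finset.sum_comm]
  refine Finset.sum_congr rfl fun x _ => Finset.sum_congr rfl fun y _ => by rw [wt_comm]

lemma PE_SS_swap (r : ℝ) (T : ℕ) (F : List W → List W → (κ → ℤˣ) → (κ → ℤˣ) → ℝ) :
    PE r (fun x y => SS T T (fun a b => F b a y x)) = PE r (fun x y => SS T T (fun a b => F a b x y)) := by
  rw [← PE_comm]
  refine PE_congr fun x y => ?_
  exact S_S_comm T T _

lemma CG_swap (G : List W → List W → Prop) (s t : ℕ) (r : ℝ) :
    CG P (fun a b => G b a) s t r = CG P G t s r := by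
  unfold CG
  rw [← PE_comm]
  refine PE_congr fun x y => ?_
  unfold SS
  rw [S_S_comm]
  refine S_congr' t fun h _ => S_congr' s fun h' _ => ?_
  congr 1
  exact Finset.sum_congr rfl fun k _ => mul_comm _ _

/-- The value of a sign. -/
def sv (u : ℤˣ) : ℝ := ((u : ℤ) : ℝ)

lemma sv_cases (u : ℤˣ) : sv u = 1 ∨ sv u = -1 := by
  unfold sv
  rcases Int.units_eq_one_or u with h | h <;> simp [h]

lemma sv_sq (u : ℤˣ) : sv u ^ 2 = 1 := by
  rcases sv_cases u with h | h <;> rw [h] <;> norm_num

/-- The process reads the bits in `R` along a history, with the values `vl`. The quantum steps are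
those whose times are in `Q`. -/
structure RdS (T : ℕ) (Q : Finset ℕ) (R : List W → Finset κ) (vl : List W → κ → ℤˣ) : Prop where
  lt : ∀ t ∈ Q, t < T
  R0 : R [] = ∅
  mono : ∀ h w, R h ⊆ R (w :: h)
  rq : ∀ h w, h.length ∈ Q → R (w :: h) = R h
  qr : ∀ h w k, h.length ∈ Q → k ∈ R h → P.a h w (some k) = 0
  nq : ∀ h w k, h.length < T → h.length ∉ Q → k ∉ R (w :: h) → P.a h w (some k) = 0
  rd : ∀ h w k x, k ∈ R (w :: h) → k ∉ R h → x k ≠ vl (w :: h) k → P.Q h w x = 0
  vlm : ∀ h w k, k ∈ R h → vl (w :: h) k = vl h k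

lemma mv_zero_left (u : ι → ℝ) : mv (0 : ι → ι → ℝ) u = 0 := by
  funext i
  simp [mv]

namespace RdS

variable {P} {T : ℕ} {Q : Finset ℕ} {R : List W → Finset κ} {vl : List W → κ → ℤˣ}
variable (H : RdS P T Q R vl)
include H

lemma A_read (k : κ) (x : κ → ℤˣ) : ∀ a : List W, k ∈ R a → x k ≠ vl a k → P.A a x = 0
  | [], h, _ => by rw [H.R0] at h; exact absurd h (Finset.notMem_empty _)
  | w :: a, h, hx => by
    change mv (P.Q a w x) (P.A a x) = 0
    by_cases hk : k ∈ R a
    · rw [A_read k x a hk (by rwa [H.vlm a w k hk] at hx), mv_zero]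
    · rw [H.rd a w k x h hk hx, mv_zero_left]

lemma z_read (k : κ) (x : κ → ℤˣ) (s : ℕ) (hs : s ∈ Q) : ∀ a : List W, k ∈ R a → x k ≠ vl a k →
    P.z s k a x = 0
  | [], h, _ => by rw [H.R0] at h; exact absurd h (Finset.notMem_empty _)
  | w :: a, h, hx => by
    by_cases hk : k ∈ R a
    · by_cases hl : a.length = s
      · rw [P.z_top s k a w x hl, H.qr a w k (by rw [hl]; exact hs) hk, mv_zero_left]
      · rw [P.z_cons s k a w x hl, z_read k x s hs a hk (by rwa [H.vlm a w k hk] at hx), mv_zero]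
    · have hl : a.length ≠ s := by
        rintro rfl
        rw [H.rq a w hs] at h
        exact hk h
      rw [P.z_cons s k a w x hl, H.rd a w k x h hk hx, mv_zero_left]

lemma z_nq (k : κ) (x : κ → ℤˣ) (s : ℕ) (hsT : s < T) (hs : s ∉ Q) : ∀ a : List W, k ∉ R a →
    P.z s k a x = 0
  | [], _ => rfl
  | w :: a, h => by
    have hk : k ∉ R a := fun hk => h (H.mono a w hk)
    by_cases hl : a.length = s
    · rw [P.z_top s k a w x hl, H.nq a w k (by rw [hl]; exact hsT) (by rw [hl]; exact hs) h,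
        mv_zero_left]
    · rw [P.z_cons s k a w x hl, z_nq k x s hsT hs a hk, mv_zero]

lemma sum_z (k : κ) (x : κ → ℤˣ) (a : List W) (hk : k ∉ R a) :
    ∑ s ∈ Finset.range T, P.z s k a x = ztq P Q k a x := by
  unfold ztq
  symm
  refine Finset.sum_subset (fun s hs => Finset.mem_range.2 (H.lt s hs)) ?_
  intro s hs hsQ
  exact H.z_nq k x s (Finset.mem_range.1 hs) hsQ a hk

/-- The derivative in a direction which is not read. -/
lemma D_q (k : κ) (x : κ → ℤˣ) (a : List W) (hk : k ∉ R a) (ha : a.length ≤ T) :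
    D (fun x => nsq (P.A a x)) k x
      = ∑ s ∈ Q, (2 * dot (P.z s k a x) (P.A a x)
        - 2 * (sg x k * dot (P.z s k a x) (ztq P Q k a x))) := by
  rw [P.D_nsq T k a x ha]
  have h1 : P.A a (fl k x) = P.A a x - (2 * sg x k) • ztq P Q k a x := by
    have := P.A_sub T k a x ha
    rw [H.sum_z k x a hk] at this
    rw [← this]; abel
  have e : ∀ s, dot (P.z s k a x) (P.A a x + P.A a (fl k x))
      = 2 * dot (P.z s k a x) (P.A a x) - 2 * (sg x k * dot (P.z s k a x) (ztq P Q k a x)) := by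
    intro s
    rw [h1]
    have e2 : P.A a x + (P.A a x - (2 * sg x k) • ztq P Q k a x)
        = (2 : ℝ) • P.A a x + (-(2 * sg x k)) • ztq P Q k a x := by
      rw [neg_smul, two_smul]; abel
    rw [e2, dot_add_right, dot_smul_right, dot_smul_right]
    ring
  simp_rw [e]
  symm
  refine Finset.sum_subset (fun s hs => Finset.mem_range.2 (H.lt s hs)) ?_
  intro s hs hsQ
  rw [H.z_nq k x s (Finset.mem_range.1 hs) hsQ a hk]
  have e3 : ∀ v : ι → ℝ, dot 0 v = 0 := fun v => by unfold dot; simp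
  rw [e3, e3]; ring

/-- The derivative in a direction which is read. -/
lemma PE_read (r : ℝ) (k : κ) (a : List W) (hk : k ∈ R a) (g : (κ → ℤˣ) → ℝ)
    (hg : ∀ y, g (fl k y) = g y) :
    PE r (fun x y => D (fun x => nsq (P.A a x)) k x * g y)
      = PE r (fun x y => sv (vl a k) * (nsq (P.A a x) * g y)) := by
  have e : ∀ x, D (fun x => nsq (P.A a x)) k x
      = 1 / 2 * (sv (vl a k) * nsq (P.A a x)) + 1 / 2 * (sv (vl a k) * nsq (P.A a (fl k x))) := by
    intro x
    rw [D_fl]
    by_cases hx : x k = vl a k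
    · have h1 : (fl k x) k ≠ vl a k := by
        unfold fl
        rw [Function.update_self, ← hx]
        rcases Int.units_eq_one_or (x k) with h | h <;> rw [h] <;> decide
      rw [H.A_read k (fl k x) a hk h1, nsq_zero]
      have h2 : sg x k = sv (vl a k) := by unfold sg sv; rw [hx]
      rw [h2]; ring
    · rw [H.A_read k x a hk hx, nsq_zero]
      have h2 : sg x k = - sv (vl a k) := by
        unfold sg sv
        rcases Int.units_eq_one_or (x k) with h | h <;>
          rcases Int.units_eq_one_or (vl a k) with h' | h'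
        · exact absurd (h.trans h'.symm) hx
        · rw [h, h']; norm_num
        · rw [h, h']; norm_num
        · exact absurd (h.trans h'.symm) hx
      rw [h2]; ring
  have h3 : PE r (fun x y => D (fun x => nsq (P.A a x)) k x * g y)
      = PE r (fun x y => 1 / 2 * (sv (vl a k) * (nsq (P.A a x) * g y)))
        + PE r (fun x y => 1 / 2 * (sv (vl a k) * (nsq (P.A a (fl k x)) * g (fl k y)))) := by
    rw [← PE_add]
    refine PE_congr fun x y => ?_
    rw [e, hg]; ring
  have h4 : PE r (fun x y => 1 / 2 * (sv (vl a k) * (nsq (P.A a (fl k x)) * g (fl k y))))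
      = PE r (fun x y => 1 / 2 * (sv (vl a k) * (nsq (P.A a x) * g y))) :=
    PE_fl r k (fun x y => 1 / 2 * (sv (vl a k) * (nsq (P.A a x) * g y)))
  rw [h3, h4, ← PE_add]
  refine PE_congr fun x y => ?_
  ring

end RdS

/-- The weight of the positions read by one run in the quantum steps of the other one. -/
noncomputable def UG (G : List W → List W → Prop) (R : List W → Finset κ) (T t : ℕ) (r : ℝ) : ℝ :=
  PE r (fun x y => S T (fun a => S t (fun h' => ind (G a h')
    * (nsq (P.A a x) * ∑ k ∈ R a, qk P h' k (fl k y)))))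

section Bounds

variable {P} {T : ℕ} {Q : Finset ℕ} {R : List W → Finset κ} {vl : List W → κ → ℤˣ}
variable {G : List W → List W → Prop}

lemma sum_abs_le_of (s : Finset κ) (f g : κ → ℝ) (h : ∀ k, |f k| ≤ g k) : |∑ k ∈ s, f k| ≤ ∑ k, g k := by
  refine (Finset.abs_sum_le_sum_abs _ _).trans ?_
  refine (Finset.sum_le_sum fun k _ => h k).trans ?_
  exact Finset.sum_le_sum_of_subset_of_nonneg (Finset.subset_univ _)
    fun k _ _ => (abs_nonneg _).trans (h k)

/-- The terms from the positions read by the first run. -/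
lemma T2a (H : RdS P T Q R vl) (hG : Clo G) (hdis : ∀ a b, G a b → Disjoint (R a) (R b))
    {r : ℝ} (h0 : 0 ≤ r) (h1 : r ≤ 1) (u : ℝ) (hu : 0 < u) (hu1 : u ≤ 1) (hq : 1 ≤ Q.card)
    (hU : ∀ t ∈ Q, UG P G R T t r ≤ u ^ 2) :
    PE r (fun x y => SS T T (fun a b => ind (G a b) * (nsq (P.A a x)
      * |∑ k ∈ R a, sv (vl a k) * D (fun y => nsq (P.A b y)) k y|)))
      ≤ 4 * (Q.card : ℝ) ^ 3 * u := by
  classical
  have hq' : (1 : ℝ) ≤ Q.card := by exact_mod_cast hq
  set q : ℝ := (Q.card : ℝ) with hqd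
  have hq0 : 0 < q := by linarith
  set γ : List W → κ → ℝ := fun a k => if k ∈ R a then sv (vl a k) else 0 with hγ
  set cc : List W → κ → ℝ := fun a k => if k ∈ R a then 1 else 0 with hcc
  have hcc0 : ∀ a k, 0 ≤ cc a k := by
    intro a k; rw [hcc]; beta_reduce; split_ifs <;> norm_num
  -- the bound for one pair
  have hpair : ∀ (a b : List W) (y : κ → ℤˣ), G a b → b.length ≤ T →
      |∑ k ∈ R a, sv (vl a k) * D (fun y => nsq (P.A b y)) k y|
      ≤ ∑ t ∈ Q, ((1 / u) * nsq (∑ k, γ a k • P.z t k b y) + u * nsq (P.A b y)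
        + (1 + q ^ 2) * ∑ k, nsq (P.z t k b y) * cc a k) := by
    intro a b y hab hb
    have hnot : ∀ k ∈ R a, k ∉ R b := fun k hk => Finset.disjoint_left.1 (hdis a b hab) hk
    have e1 : ∑ k ∈ R a, sv (vl a k) * D (fun y => nsq (P.A b y)) k y
        = ∑ t ∈ Q, (2 * dot (∑ k, γ a k • P.z t k b y) (P.A b y)
          - ∑ k ∈ R a, 2 * (sv (vl a k) * (sg y k * dot (P.z t k b y) (ztq P Q k b y)))) := by
      have e2 : ∀ k ∈ R a, sv (vl a k) * D (fun y => nsq (P.A b y)) k y
          = ∑ t ∈ Q, (2 * (sv (vl a k) * dot (P.z t k b y) (P.A b y))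
            - 2 * (sv (vl a k) * (sg y k * dot (P.z t k b y) (ztq P Q k b y)))) := by
        intro k hk
        rw [H.D_q k y b (hnot k hk) hb, Finset.mul_sum]
        exact Finset.sum_congr rfl fun t _ => by ring
      rw [Finset.sum_congr rfl e2, Finset.sum_comm]
      refine Finset.sum_congr rfl fun t _ => ?_
      rw [Finset.sum_sub_distrib]
      congr 1
      rw [dot_sum_left, Finset.mul_sum, ← Finset.sum_subset (Finset.subset_univ (R a))]
      · refine Finset.sum_congr rfl fun k hk => ?_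
        rw [dot_smul_left, hγ]
        beta_reduce
        rw [if_pos hk]
      · intro k _ hk
        rw [dot_smul_left, hγ]
        beta_reduce
        rw [if_neg hk]
        ring
    rw [e1]
    refine (Finset.abs_sum_le_sum_abs _ _).trans ?_
    have e3 : ∀ t ∈ Q, |2 * dot (∑ k, γ a k • P.z t k b y) (P.A b y)
          - ∑ k ∈ R a, 2 * (sv (vl a k) * (sg y k * dot (P.z t k b y) (ztq P Q k b y)))|
        ≤ ((1 / u) * nsq (∑ k, γ a k • P.z t k b y) + u * nsq (P.A b y))
          + ((∑ k, nsq (P.z t k b y) * cc a k) + ∑ k, nsq (ztq P Q k b y) * cc a k) := by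
      intro t _
      refine (abs_sub _ _).trans (add_le_add ?_ ?_)
      · rw [abs_mul, abs_of_pos (by norm_num : (0 : ℝ) < 2)]
        have h4 := abs_dot_le (∑ k, γ a k • P.z t k b y) (P.A b y) (1 / u) (by positivity)
        have e4 : nsq (P.A b y) / (1 / u) = u * nsq (P.A b y) := by field_simp
        rw [e4] at h4
        linarith
      · rw [← Finset.sum_add_distrib]
        refine (Finset.abs_sum_le_sum_abs _ _).trans ?_
        rw [← Finset.sum_subset (Finset.subset_univ (R a))]
        · refine Finset.sum_le_sum fun k hk => ?_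
          have h5 := abs_dot_le (P.z t k b y) (ztq P Q k b y) 1 one_pos
          rw [one_mul, div_one] at h5
          have h6 : |sv (vl a k)| = 1 := by
            rcases sv_cases (vl a k) with h | h <;> rw [h] <;> norm_num
          have h7 : |sg y k| = 1 := by
            rcases sg_cases y k with h | h <;> rw [h] <;> norm_num
          rw [abs_mul, abs_mul, abs_mul, h6, h7, abs_of_pos (by norm_num : (0 : ℝ) < 2), one_mul,
            one_mul, hcc]
          beta_reduce
          rw [if_pos hk, mul_one, mul_one]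
          linarith
        · intro k _ hk
          rw [hcc]
          beta_reduce
          rw [if_neg hk]
          ring
    refine (Finset.sum_le_sum e3).trans ?_
    have e5 : ∑ _t ∈ Q, ∑ k, nsq (ztq P Q k b y) * cc a k
        ≤ q ^ 2 * ∑ t ∈ Q, ∑ k, nsq (P.z t k b y) * cc a k := by
      rw [Finset.sum_const, nsmul_eq_mul, ← hqd]
      have h8 : ∑ k, nsq (ztq P Q k b y) * cc a k ≤ q * ∑ t ∈ Q, ∑ k, nsq (P.z t k b y) * cc a k := by
        rw [Finset.sum_comm, Finset.mul_sum]
        refine Finset.sum_le_sum fun k _ => ?_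
        rw [← Finset.sum_mul, ← mul_assoc]
        exact mul_le_mul_of_nonneg_right (nsq_ztq_le P Q k b y) (hcc0 a k)
      have := mul_le_mul_of_nonneg_left h8 hq0.le
      calc _ ≤ q * (q * ∑ t ∈ Q, ∑ k, nsq (P.z t k b y) * cc a k) := this
        _ = _ := by ring
    have e6 : ∑ t ∈ Q, ((1 / u) * nsq (∑ k, γ a k • P.z t k b y) + u * nsq (P.A b y)
        + (1 + q ^ 2) * ∑ k, nsq (P.z t k b y) * cc a k)
        = ∑ t ∈ Q, ((1 / u) * nsq (∑ k, γ a k • P.z t k b y) + u * nsq (P.A b y))
          + (∑ t ∈ Q, ∑ k, nsq (P.z t k b y) * cc a k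
            + q ^ 2 * ∑ t ∈ Q, ∑ k, nsq (P.z t k b y) * cc a k) := by
      rw [Finset.sum_add_distrib, ← Finset.mul_sum]
      ring
    rw [e6, Finset.sum_add_distrib, Finset.sum_add_distrib (s := Q)
      (f := fun t => ∑ k, nsq (P.z t k b y) * cc a k)]
    linarith
  -- the sum over the pairs
  have hpt : ∀ x y : κ → ℤˣ, SS T T (fun a b => ind (G a b) * (nsq (P.A a x)
      * |∑ k ∈ R a, sv (vl a k) * D (fun y => nsq (P.A b y)) k y|))
      ≤ ∑ t ∈ Q, ((1 / u + (1 + q ^ 2)) * S T (fun a => S t (fun h' => ind (G a h')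
        * (nsq (P.A a x) * ∑ k ∈ R a, qk P h' k (fl k y)))) + u) := by
    intro x y
    have ha : ∀ a : List W, a.length = T → S T (fun b => ind (G a b) * (nsq (P.A a x)
        * |∑ k ∈ R a, sv (vl a k) * D (fun y => nsq (P.A b y)) k y|))
        ≤ ∑ t ∈ Q, ((1 / u + (1 + q ^ 2)) * S t (fun h' => ind (G a h')
        * (nsq (P.A a x) * ∑ k ∈ R a, qk P h' k (fl k y))) + u * nsq (P.A a x)) := by
      intro a _
      have h2 : S T (fun b => ind (G a b) * (nsq (P.A a x)
        * |∑ k ∈ R a, sv (vl a k) * D (fun y => nsq (P.A b y)) k y|))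
        ≤ S T (fun b => ∑ t ∈ Q, ((1 / u * nsq (P.A a x))
            * (ind (G a b) * nsq (∑ k, γ a k • P.z t k b y))
            + (u * nsq (P.A a x)) * nsq (P.A b y)
            + ((1 + q ^ 2) * nsq (P.A a x)) * (ind (G a b) * ∑ k, nsq (P.z t k b y) * cc a k))) := by
        refine S_mono' T fun b hb => ?_
        by_cases hab : G a b
        · have hi : ind (G a b) = 1 := by unfold ind; rw [if_pos hab]
          have h3 := mul_le_mul_of_nonneg_left (hpair a b y hab hb.le) (nsq_nonneg (P.A a x))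
          rw [hi, one_mul]
          refine h3.trans (le_of_eq ?_)
          rw [Finset.mul_sum]
          exact Finset.sum_congr rfl fun t _ => by ring
        · have hi : ind (G a b) = 0 := by unfold ind; rw [if_neg hab]
          rw [hi, zero_mul]
          refine Finset.sum_nonneg fun t _ => ?_
          have := nsq_nonneg (P.A a x)
          have := nsq_nonneg (P.A b y)
          simp only [zero_mul, mul_zero, add_zero, zero_add]
          positivity
      refine h2.trans ?_
      rw [S_sum]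
      refine Finset.sum_le_sum fun t ht => ?_
      rw [S_add, S_add, S_mul_left, S_mul_left, S_mul_left, P.S_nsq, mul_one]
      have p1 := peel_one P (fun b => G a b) (fun w h => hG.r w a h) (γ a) t T (H.lt t ht) y
      have p2 := peel_sq P (fun b => G a b) (fun w h => hG.r w a h) (cc a) (hcc0 a) t T (H.lt t ht) y
      have e1 : ∀ h' : List W, ∑ k, γ a k ^ 2 * qk P h' k (fl k y) = ∑ k ∈ R a, qk P h' k (fl k y) := by
        intro h'
        rw [← Finset.sum_subset (Finset.subset_univ (R a))]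
        · refine Finset.sum_congr rfl fun k hk => ?_
          rw [hγ]
          beta_reduce
          rw [if_pos hk, sv_sq, one_mul]
        · intro k _ hk
          rw [hγ]
          beta_reduce
          rw [if_neg hk]; ring
      have e2 : ∀ h' : List W, ∑ k, qk P h' k (fl k y) * cc a k = ∑ k ∈ R a, qk P h' k (fl k y) := by
        intro h'
        rw [← Finset.sum_subset (Finset.subset_univ (R a))]
        · refine Finset.sum_congr rfl fun k hk => ?_
          rw [hcc]
          beta_reduce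
          rw [if_pos hk, mul_one]
        · intro k _ hk
          rw [hcc]
          beta_reduce
          rw [if_neg hk]; ring
      simp_rw [e1] at p1
      simp_rw [e2] at p2
      have e3 : S t (fun h' => ind (G a h') * (nsq (P.A a x) * ∑ k ∈ R a, qk P h' k (fl k y)))
          = nsq (P.A a x) * S t (fun h' => ind (G a h') * ∑ k ∈ R a, qk P h' k (fl k y)) := by
        rw [← S_mul_left]
        exact S_congr' t fun h _ => by ring
      rw [e3]
      have hn := nsq_nonneg (P.A a x)
      have p1' := mul_le_mul_of_nonneg_left p1 (by positivity : 0 ≤ 1 / u * nsq (P.A a x))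
      have p2' := mul_le_mul_of_nonneg_left p2 (by positivity : 0 ≤ (1 + q ^ 2) * nsq (P.A a x))
      linarith
    refine (S_mono' T ha).trans ?_
    rw [S_sum]
    refine Finset.sum_le_sum fun t _ => ?_
    rw [S_add, S_mul_left, S_mul_left, P.S_nsq, mul_one]
  refine (PE_mono h0 h1 hpt).trans ?_
  rw [PE_sum]
  have hfin : ∀ t ∈ Q, PE r (fun x y => (1 / u + (1 + q ^ 2)) * S T (fun a => S t (fun h' => ind (G a h')
        * (nsq (P.A a x) * ∑ k ∈ R a, qk P h' k (fl k y)))) + u) ≤ 4 * q ^ 2 * u := by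
    intro t ht
    rw [PE_add, PE_mul_left, PE_const]
    have h2 := mul_le_mul_of_nonneg_left (hU t ht) (by positivity : 0 ≤ 1 / u + (1 + q ^ 2))
    have e : (1 / u + (1 + q ^ 2)) * u ^ 2 = u + (1 + q ^ 2) * (u * u) := by
      field_simp
    rw [e] at h2
    have h3 : u * u ≤ u := by nlinarith
    have h4 : (1 + q ^ 2) * (u * u) ≤ (1 + q ^ 2) * u := mul_le_mul_of_nonneg_left h3 (by positivity)
    have h5 : u ≤ q ^ 2 * u := le_mul_of_one_le_left hu.le (one_le_pow₀ hq')
    have h6 : PE r (fun x y => S T (fun a => S t (fun h' => ind (G a h')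
        * (nsq (P.A a x) * ∑ k ∈ R a, qk P h' k (fl k y))))) = UG P G R T t r := rfl
    rw [h6]
    linarith
  refine (Finset.sum_le_sum hfin).trans (le_of_eq ?_)
  rw [Finset.sum_const, nsmul_eq_mul, ← hqd]
  ring

/-- The terms from the positions which are not read. -/
lemma T1 (H : RdS P T Q R vl) (hG : Clo G) (hdis : ∀ a b, G a b → Disjoint (R a) (R b))
    {r : ℝ} (h0 : 0 ≤ r) (h1 : r ≤ 1) (c : ℝ) (hc : 0 < c) (hc1 : c ≤ 1) (hq : 1 ≤ Q.card)
    (hC : ∀ s ∈ Q, ∀ t ∈ Q, CG P G s t r ≤ c ^ 2) :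
    PE r (fun x y => SS T T (fun a b => ind (G a b)
      * |∑ k ∈ (R a ∪ R b)ᶜ, D (fun x => nsq (P.A a x)) k x * D (fun y => nsq (P.A b y)) k y|))
      ≤ 20 * (Q.card : ℝ) ^ 4 * c := by
  classical
  have hq' : (1 : ℝ) ≤ Q.card := by exact_mod_cast hq
  set q : ℝ := (Q.card : ℝ) with hqd
  have hq0 : 0 < q := by linarith
  -- the bound for one pair
  have hpair : ∀ (a b : List W) (x y : κ → ℤˣ), G a b → a.length ≤ T → b.length ≤ T →
      |∑ k ∈ (R a ∪ R b)ᶜ, D (fun x => nsq (P.A a x)) k x * D (fun y => nsq (P.A b y)) k y|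
      ≤ ∑ s ∈ Q, ∑ t ∈ Q,
        (4 * |∑ k ∈ (R a)ᶜ, dot (P.z s k a x) (P.A a x) * dot (P.z t k b y) (P.A b y)|
        + 4 * |∑ k ∈ R b, dot (P.z t k b y) (P.A b y) * dot (P.z s k a x) (P.A a x)|
        + 4 * (∑ k, |dot (P.z s k a x) (ztq P Q k a x) * dot (P.z t k b y) (P.A b y)|)
        + 4 * (∑ k, |dot (P.z t k b y) (ztq P Q k b y) * dot (P.z s k a x) (P.A a x)|)
        + 4 * (∑ k, |dot (P.z s k a x) (ztq P Q k a x) * dot (P.z t k b y) (ztq P Q k b y)|)) := by
    intro a b x y hab hla hlb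
    have hd := hdis a b hab
    have e1 : ∀ k ∈ (R a ∪ R b)ᶜ, D (fun x => nsq (P.A a x)) k x * D (fun y => nsq (P.A b y)) k y
        = ∑ s ∈ Q, ∑ t ∈ Q, (4 * (dot (P.z s k a x) (P.A a x) * dot (P.z t k b y) (P.A b y))
          + (-4 * sg x k) * (dot (P.z s k a x) (ztq P Q k a x) * dot (P.z t k b y) (P.A b y))
          + (-4 * sg y k) * (dot (P.z t k b y) (ztq P Q k b y) * dot (P.z s k a x) (P.A a x))
          + (4 * sg x k * sg y k)
            * (dot (P.z s k a x) (ztq P Q k a x) * dot (P.z t k b y) (ztq P Q k b y))) := by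
      intro k hk
      rw [Finset.mem_compl, Finset.mem_union, not_or] at hk
      rw [H.D_q k x a hk.1 hla, H.D_q k y b hk.2 hlb, Finset.sum_mul_sum]
      exact Finset.sum_congr rfl fun s _ => Finset.sum_congr rfl fun t _ => by ring
    rw [Finset.sum_congr rfl e1, Finset.sum_comm]
    refine (Finset.abs_sum_le_sum_abs _ _).trans (Finset.sum_le_sum fun s _ => ?_)
    rw [Finset.sum_comm]
    refine (Finset.abs_sum_le_sum_abs _ _).trans (Finset.sum_le_sum fun t _ => ?_)
    rw [Finset.sum_add_distrib, Finset.sum_add_distrib, Finset.sum_add_distrib]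
    have hsx : ∀ k, |sg x k| = 1 := fun k => by
      rcases sg_cases x k with h | h <;> rw [h] <;> norm_num
    have hsy : ∀ k, |sg y k| = 1 := fun k => by
      rcases sg_cases y k with h | h <;> rw [h] <;> norm_num
    have f1 : |∑ k ∈ (R a ∪ R b)ᶜ, 4 * (dot (P.z s k a x) (P.A a x) * dot (P.z t k b y) (P.A b y))|
        ≤ 4 * |∑ k ∈ (R a)ᶜ, dot (P.z s k a x) (P.A a x) * dot (P.z t k b y) (P.A b y)|
        + 4 * |∑ k ∈ R b, dot (P.z t k b y) (P.A b y) * dot (P.z s k a x) (P.A a x)| := by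
      have hsub : R b ⊆ (R a)ᶜ := by
        intro k hk
        rw [Finset.mem_compl]
        exact fun hk' => Finset.disjoint_left.1 hd hk' hk
      have hset : (R a ∪ R b)ᶜ = (R a)ᶜ \ R b := by
        ext k
        simp only [Finset.mem_compl, Finset.mem_union, Finset.mem_sdiff, not_or]
      have hs := Finset.sum_sdiff hsub
        (f := fun k => dot (P.z s k a x) (P.A a x) * dot (P.z t k b y) (P.A b y))
      rw [← Finset.mul_sum, hset]
      have e2 : ∑ k ∈ (R a)ᶜ \ R b, dot (P.z s k a x) (P.A a x) * dot (P.z t k b y) (P.A b y)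
          = ∑ k ∈ (R a)ᶜ, dot (P.z s k a x) (P.A a x) * dot (P.z t k b y) (P.A b y)
            - ∑ k ∈ R b, dot (P.z t k b y) (P.A b y) * dot (P.z s k a x) (P.A a x) := by
        rw [← hs]
        have : ∑ k ∈ R b, dot (P.z t k b y) (P.A b y) * dot (P.z s k a x) (P.A a x)
            = ∑ k ∈ R b, dot (P.z s k a x) (P.A a x) * dot (P.z t k b y) (P.A b y) :=
          Finset.sum_congr rfl fun k _ => mul_comm _ _
        rw [this]; ring
      rw [e2, abs_mul, abs_of_pos (by norm_num : (0 : ℝ) < 4)]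
      have := abs_sub (∑ k ∈ (R a)ᶜ, dot (P.z s k a x) (P.A a x) * dot (P.z t k b y) (P.A b y))
        (∑ k ∈ R b, dot (P.z t k b y) (P.A b y) * dot (P.z s k a x) (P.A a x))
      linarith
    have f2 : |∑ k ∈ (R a ∪ R b)ᶜ, (-4 * sg x k)
          * (dot (P.z s k a x) (ztq P Q k a x) * dot (P.z t k b y) (P.A b y))|
        ≤ 4 * (∑ k, |dot (P.z s k a x) (ztq P Q k a x) * dot (P.z t k b y) (P.A b y)|) := by
      rw [Finset.mul_sum]
      refine sum_abs_le_of _ _ _ fun k => ?_
      rw [abs_mul, abs_mul, hsx]; norm_num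
    have f3 : |∑ k ∈ (R a ∪ R b)ᶜ, (-4 * sg y k)
          * (dot (P.z t k b y) (ztq P Q k b y) * dot (P.z s k a x) (P.A a x))|
        ≤ 4 * (∑ k, |dot (P.z t k b y) (ztq P Q k b y) * dot (P.z s k a x) (P.A a x)|) := by
      rw [Finset.mul_sum]
      refine sum_abs_le_of _ _ _ fun k => ?_
      rw [abs_mul, abs_mul, hsy]; norm_num
    have f4 : |∑ k ∈ (R a ∪ R b)ᶜ, (4 * sg x k * sg y k)
          * (dot (P.z s k a x) (ztq P Q k a x) * dot (P.z t k b y) (ztq P Q k b y))|
        ≤ 4 * (∑ k, |dot (P.z s k a x) (ztq P Q k a x) * dot (P.z t k b y) (ztq P Q k b y)|) := by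
      rw [Finset.mul_sum]
      refine sum_abs_le_of _ _ _ fun k => ?_
      rw [abs_mul, abs_mul, abs_mul, hsx, hsy]; norm_num
    refine (abs_add_le _ _).trans ?_
    refine (add_le_add (abs_add_le _ _) le_rfl).trans ?_
    refine (add_le_add (add_le_add (abs_add_le _ _) le_rfl) le_rfl).trans ?_
    linarith
  have hpt : ∀ x y : κ → ℤˣ, SS T T (fun a b => ind (G a b)
      * |∑ k ∈ (R a ∪ R b)ᶜ, D (fun x => nsq (P.A a x)) k x * D (fun y => nsq (P.A b y)) k y|)
      ≤ ∑ s ∈ Q, ∑ t ∈ Q,
        (4 * SS T T (fun a b => ind (G a b)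
          * |∑ k ∈ (R a)ᶜ, dot (P.z s k a x) (P.A a x) * dot (P.z t k b y) (P.A b y)|)
        + 4 * SS T T (fun a b => ind (G a b)
          * |∑ k ∈ R b, dot (P.z t k b y) (P.A b y) * dot (P.z s k a x) (P.A a x)|)
        + 4 * SS T T (fun a b => ind (G a b)
          * ∑ k, |dot (P.z s k a x) (ztq P Q k a x) * dot (P.z t k b y) (P.A b y)|)
        + 4 * SS T T (fun a b => ind (G a b)
          * ∑ k, |dot (P.z t k b y) (ztq P Q k b y) * dot (P.z s k a x) (P.A a x)|)
        + 4 * SS T T (fun a b => ind (G a b)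
          * ∑ k, |dot (P.z s k a x) (ztq P Q k a x) * dot (P.z t k b y) (ztq P Q k b y)|)) := by
    intro x y
    simp_rw [← SS_mul_left, ← SS_add, ← SS_sum]
    refine SS_mono' T T fun a b ha hb => ?_
    by_cases hab : G a b
    · have hi : ind (G a b) = 1 := by unfold ind; rw [if_pos hab]
      simp only [hi, one_mul]
      exact hpair a b x y hab ha.le hb.le
    · have hi : ind (G a b) = 0 := by unfold ind; rw [if_neg hab]
      simp only [hi, zero_mul, mul_zero, add_zero, Finset.sum_const_zero, le_refl]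
  refine (PE_mono h0 h1 hpt).trans ?_
  rw [PE_sum]
  simp_rw [PE_sum]
  have hfin : ∀ s ∈ Q, ∀ t ∈ Q, PE r (fun x y =>
        (4 * SS T T (fun a b => ind (G a b)
          * |∑ k ∈ (R a)ᶜ, dot (P.z s k a x) (P.A a x) * dot (P.z t k b y) (P.A b y)|)
        + 4 * SS T T (fun a b => ind (G a b)
          * |∑ k ∈ R b, dot (P.z t k b y) (P.A b y) * dot (P.z s k a x) (P.A a x)|)
        + 4 * SS T T (fun a b => ind (G a b)
          * ∑ k, |dot (P.z s k a x) (ztq P Q k a x) * dot (P.z t k b y) (P.A b y)|)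
        + 4 * SS T T (fun a b => ind (G a b)
          * ∑ k, |dot (P.z t k b y) (ztq P Q k b y) * dot (P.z s k a x) (P.A a x)|)
        + 4 * SS T T (fun a b => ind (G a b)
          * ∑ k, |dot (P.z s k a x) (ztq P Q k a x) * dot (P.z t k b y) (ztq P Q k b y)|)))
      ≤ 20 * q ^ 2 * c := by
    intro s hs t ht
    rw [PE_add, PE_add, PE_add, PE_add, PE_mul_left, PE_mul_left, PE_mul_left, PE_mul_left,
      PE_mul_left]
    have b1 := X1 P hG (fun a => (R a)ᶜ) h0 h1 s t T (H.lt s hs) (H.lt t ht) c hc (hC s hs t ht)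
    have hC' : CG P (fun a b => G b a) t s r ≤ c ^ 2 := by
      rw [CG_swap]; exact hC s hs t ht
    have b2 := X1 P hG.swap R h0 h1 t s T (H.lt t ht) (H.lt s hs) c hc hC'
    rw [← PE_SS_swap r T (fun a b x y => ind (G b a)
      * |∑ k ∈ R a, dot (P.z t k a x) (P.A a x) * dot (P.z s k b y) (P.A b y)|)] at b2
    have b3 := X2 P Q hG h0 h1 s t T (H.lt s hs) (H.lt t ht) H.lt c hc hq (hC s hs t ht)
    have b4 := X2 P Q hG.swap h0 h1 t s T (H.lt t ht) (H.lt s hs) H.lt c hc hq hC'
    rw [← PE_SS_swap r T (fun a b x y => ind (G b a)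
      * ∑ k, |dot (P.z t k a x) (ztq P Q k a x) * dot (P.z s k b y) (P.A b y)|)] at b4
    have b5 := X3 P Q hG h0 h1 s t T (H.lt s hs) (H.lt t ht) H.lt c hq (hC s hs t ht) hC
    rw [← hqd] at b3 b4 b5
    have g1 : c ≤ q ^ 2 * c := le_mul_of_one_le_left hc.le (one_le_pow₀ hq')
    have g2 : q * c ≤ q ^ 2 * c := by
      have : q ≤ q ^ 2 := by nlinarith
      exact mul_le_mul_of_nonneg_right this hc.le
    have g3 : q ^ 2 * c ^ 2 ≤ q ^ 2 * c := by
      refine mul_le_mul_of_nonneg_left ?_ (by positivity)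
      nlinarith
    linarith
  calc _ ≤ ∑ _s ∈ Q, ∑ _t ∈ Q, 20 * q ^ 2 * c :=
        Finset.sum_le_sum fun s hs => Finset.sum_le_sum fun t ht => hfin s hs t ht
    _ = _ := by
        simp only [Finset.sum_const, nsmul_eq_mul]
        rw [← hqd]; ring

end Bounds

end Pool.Agent.W938.CQ
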