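import Pool.Agent.W938.CQ.Fin

/-!
# Hybrid computations with circuits which ask few rounds of questions: languages
-/

set_option autoImplicit false
set_option linter.unusedSectionVars false

namespace Pool.Agent.W938.CQ

open Filter Pool.Agent.H620R2.Gauge Pool.Agent.NPC Pool.Agent.H889R3.RQ Pool.Agent.W938.Hyb
open H568R2
open Pool.Agent.H628R3.RO (randomOracle)
open Pool.Agent.H572R2 (EE EE_congr)

/-- The language `L` is decided with bounded error by a classical polynomial-time computation which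
controls a quantum computer with a small memory and asks at most `r n` rounds of questions per
circuit, on inputs of length `n`: for some polynomial `p`, on inputs `x` of length `n`, it runs
`p n` circuits one after the other, each of them on `p n` fresh qubits and the `⌊log₂ (p n)⌋` qubits
of the quantum memory. The gates of the next circuit are computed in polynomial time from the input
and the record of all measurements. -/
def IsHybridRounds (r : ℕ → ℕ) (A : Oracle) (L : Set (List Bool)) : Prop :=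
  ∃ (C : List Bool → List Gate) (p : Polynomial ℕ), PolyTime (fun z => bits (C z)) ∧
    (∀ x a, Rounds (r x.length) (C (pairBits x a))) ∧
    ∀ x, (x ∈ L → 2 / 3 ≤ accH A C x (Nat.log 2 (p.eval x.length)) (p.eval x.length)
        (p.eval x.length) [] (initSt _)) ∧
      (x ∉ L → accH A C x (Nat.log 2 (p.eval x.length)) (p.eval x.length)
        (p.eval x.length) [] (initSt _) ≤ 1 / 3)

/-- The devices. -/
def Dev (r : ℕ → ℕ) : Type := {g : (List Bool → List Gate) × Polynomial ℕ //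
  PolyTime (fun z => bits (g.1 z)) ∧ ∀ x a, Rounds (r x.length) (g.1 (pairBits x a))}

instance (r : ℕ → ℕ) : Countable (Dev r) := by
  have h0 : Countable (Polynomial ℕ) := countable_poly
  have h1 : {g : (List Bool → List Gate) × Polynomial ℕ |
      PolyTime (fun z => bits (g.1 z)) ∧ ∀ x a, Rounds (r x.length) (g.1 (pairBits x a))}.Countable := by
    refine (countable_gates.prod (Set.countable_univ (α := Polynomial ℕ))).mono ?_
    rintro ⟨C, p⟩ ⟨h, _⟩
    exact ⟨h, Set.mem_univ _⟩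
  exact h1.to_subtype

/-- The acceptance probability of a device. -/
noncomputable def pd (r : ℕ → ℕ) (g : Dev r) (x : List Bool) (A : Oracle) : ℝ :=
  accH A g.1.1 x (Nat.log 2 (g.1.2.eval x.length)) (g.1.2.eval x.length)
    (g.1.2.eval x.length) [] (initSt _)

/-- The product of the numbers. -/
def FF (n L ι B r ff : ℕ) : ℕ :=
  M1 n L ι (72 * ι) B * (Y1 n L (72 * ι) B r * La1 n L (72 * ι) B r ff n L)

lemma FF_mono (n L ι : ℕ) {B B' r r' ff ff' : ℕ} (hB : B ≤ B') (hr : r ≤ r') (hf : ff ≤ ff') :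
    FF n L ι B r ff ≤ FF n L ι B' r' ff' := by
  have hM : M1 n L ι (72 * ι) B ≤ M1 n L ι (72 * ι) B' := by unfold M1; gcongr
  have hY : Y1 n L (72 * ι) B r ≤ Y1 n L (72 * ι) B' r' := by unfold Y1; gcongr
  have hL : La1 n L (72 * ι) B r ff n L ≤ La1 n L (72 * ι) B' r' ff' n L := by
    unfold La1; gcongr
  unfold FF
  exact Nat.mul_le_mul hM (Nat.mul_le_mul hY hL)

open Polynomial in
lemma FF_poly (p Lc : Polynomial ℕ) (k : ℕ) : ∃ Q : Polynomial ℕ, ∀ n : ℕ,
    Q.eval n = FF (p.eval n) (Lc.eval n) ((n + 2) ^ k) (p.eval n + 1) (Lc.eval n + 1)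
      (256 * (Lc.eval n + 1) ^ 2) := by
  set ι : Polynomial ℕ := (X + 2) ^ k with hι
  set V : Polynomial ℕ := 72 * ι with hV
  set Y : Polynomial ℕ := 2 ^ 13 * (640 * V * (p * Lc) ^ 4) ^ 2 * Lc ^ 6 * p ^ 2
    + 6144 * Lc ^ 4 * (p + 1) + 272 * V * p ^ 2 * Lc
    + (9 * Lc * (p + 1) * (Lc + 1) + 1) + 20 * (640 * V * (p * Lc) ^ 4) ^ 2 * Lc
    + 16 * V * p ^ 2 * (4 * (Lc + 1) + 8 * Lc) with hY
  refine ⟨(2 * (2 * (p * (Lc + 1)) + 1) * (V * (p * Lc * (p + 1))) ^ 2 * ι + 1)
    * (Y * (2 * (256 * (Lc + 1) ^ 2) * Y + 4 * (Lc + 1) + 4 * (Lc + 2) + 4 * (p * p))), fun n => ?_⟩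
  have h2 : eval n (2 : Polynomial ℕ) = 2 := by simp
  simp only [hY, hV, hι, FF, M1, Y1, La1, eval_mul, eval_add, eval_pow, eval_X, eval_one,
    eval_ofNat]

open Polynomial in
theorem dev_tree (r : ℕ → ℕ) (g : Dev r) (k : ℕ) : ∃ d : ℕ, ∀ x : List Bool,
    ∃ T : DTree (List Bool), T.depth ≤ (x.length + 2) ^ (d * 2 ^ r x.length) ∧
    MeasurableSet (WrongA (pd r g x) T) ∧
    randomOracle.real (WrongA (pd r g x) T) ≤ 1 / ((x.length : ℝ) + 2) ^ k := by
  obtain ⟨⟨C, p⟩, hpoly, hone⟩ := g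
  obtain ⟨B, hB⟩ := gates_bound hpoly
  set Bc : Polynomial ℕ := B.comp (2 * X + 1 + p * p) + 1 with hBc
  obtain ⟨Q, hQ⟩ := FF_poly p Bc k
  obtain ⟨d, hd⟩ := poly_bound (Q ^ 16)
  refine ⟨d + 1, fun x => ?_⟩
  set n := x.length with hn
  set P := p.eval n with hP
  set L := Bc.eval n with hL
  have hLe : L = B.eval (2 * n + 1 + P * P) + 1 := by
    rw [hL, hBc, Polynomial.eval_add, Polynomial.eval_comp]
    simp [hP]
  have hL1 : 1 ≤ L := by omega
  have hlen : ∀ a : List Bool, a.length ≤ P * P →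
      (C (pairBits x a)).length ≤ L ∧
        ∀ q k, Sum.inr (true, q, k) ∈ C (pairBits x a) → q.length ≤ L := by
    intro a ha
    have h1 : (pairBits x a).length ≤ 2 * n + 1 + P * P := by
      rw [pairBits_length]; omega
    have h2 : B.eval (pairBits x a).length ≤ L := by
      have := eval_mono B h1
      omega
    obtain ⟨h3, h4⟩ := hB (pairBits x a)
    exact ⟨h3.trans h2, fun q k h => (h4 q k h).trans h2⟩
  set η : ℝ := 1 / ((n : ℝ) + 2) ^ k with hη
  have hη0 : 0 < η := by positivity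
  have hloc : ∀ A A' : Oracle, (∀ z : List Bool, z.length ≤ L → A z = A' z) →
      pd r ⟨⟨C, p⟩, hpoly, hone⟩ x A = pd r ⟨⟨C, p⟩, hpoly, hone⟩ x A' := fun A A' hAA =>
    accH_local C x _ P (P * P) L (fun a ha => (hlen a ha).2) hAA P [] _ (by simp)
  have h2n : 2 ≤ n + 2 := by omega
  -- the bound
  obtain ⟨D, hD1, hD2⟩ : ∃ D : ℕ, D ≤ (n + 2) ^ ((d + 1) * 2 ^ r n) ∧
      ∀ (N : ℕ) (Z : Adm N), N + 1 ≤ 2 ^ (L + 1) → ∃ T : DTree (Fin N), (T.depth : ℝ) ≤ (D : ℝ) ∧
        EE (bad (fun y => pd r ⟨⟨C, p⟩, hpoly, hone⟩ x (Z.O y)) T) ≤ η := by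
    rcases Nat.eq_zero_or_pos P with hP0 | hP0
    · refine ⟨0, Nat.zero_le _, fun N Z _ => ⟨.leaf false, by simp [DTree.depth], ?_⟩⟩
      have h0 : bad (fun y => pd r ⟨⟨C, p⟩, hpoly, hone⟩ x (Z.O y)) (.leaf false)
          = fun _ : Fin N → Bool => (0 : ℝ) := by
        funext y
        have h1 : pd r ⟨⟨C, p⟩, hpoly, hone⟩ x (Z.O y) = 0 := by
          unfold pd
          have : ∀ (b m : ℕ) (u : (Fin b → Bool) → ℝ) (n' : ℕ), n' = 0 →
              accH (Z.O y) C x b m n' [] u = 0 := by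
            rintro b m u n' rfl
            simp [accH]
          exact this _ _ _ _ hP0
        unfold bad
        rw [if_neg]
        rintro (⟨h2, _⟩ | ⟨_, h2⟩)
        · have h3 : (2 : ℝ) / 3 ≤ 0 := le_of_le_of_eq h2 h1
          norm_num at h3
        · simp [DTree.eval] at h2
      rw [h0]
      have : EE (fun _ : Fin N → Bool => (0 : ℝ)) = 0 := by simp [EE]
      rw [this]
      exact hη0.le
    · by_cases hr : 2 ^ r n ≤ L + 1
      · -- the main case
        have hrL : r n ≤ L + 1 := (Nat.lt_two_pow_self (n := r n)).le.trans hr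
        have hff : 4 ^ (r n + 4) ≤ 256 * (L + 1) ^ 2 := by
          have e : 4 ^ (r n + 4) = 256 * (2 ^ r n) ^ 2 := by
            rw [pow_add, ← pow_mul, mul_comm (r n) 2, pow_mul]
            norm_num
            ring
          rw [e]
          gcongr
        have hM : (2 : ℕ) ^ (Nat.log 2 P) ≤ P + 1 :=
          (Nat.pow_log_le_self 2 (by omega)).trans (Nat.le_succ _)
        refine ⟨M1 P L ((n + 2) ^ k) (72 * (n + 2) ^ k) (2 ^ (Nat.log 2 P))
          * (Y1 P L (72 * (n + 2) ^ k) (2 ^ (Nat.log 2 P)) (r n)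
            * La1 P L (72 * (n + 2) ^ k) (2 ^ (Nat.log 2 P)) (r n) (4 ^ (r n + 4)) P L)
              ^ (2 ^ (r n + 4)), ?_, fun N Z hN => ?_⟩
        · have a1 : 2 ^ (r n + 4) = 16 * 2 ^ r n := by rw [pow_add]; ring
          have a2 : 1 ≤ 2 ^ (r n + 4) := Nat.one_le_two_pow
          have a3 : ∀ M X e : ℕ, 1 ≤ M → 1 ≤ e → M * X ^ e ≤ (M * X) ^ e := by
            intro M X e hM he
            rw [mul_pow]
            exact Nat.mul_le_mul_right _ (Nat.le_self_pow (by omega) M)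
          refine (a3 _ _ _ (by unfold M1; omega) a2).trans ?_
          have a4 : FF P L ((n + 2) ^ k) (2 ^ (Nat.log 2 P)) (r n) (4 ^ (r n + 4))
              ≤ FF P L ((n + 2) ^ k) (P + 1) (L + 1) (256 * (L + 1) ^ 2) := FF_mono _ _ _ hM hrL hff
          have a5 : Q.eval n = FF P L ((n + 2) ^ k) (P + 1) (L + 1) (256 * (L + 1) ^ 2) := hQ n
          have a6 : (Q.eval n) ^ 16 ≤ (n + 2) ^ d := by
            have := hd n
            rwa [Polynomial.eval_pow] at this
          calc _ = (FF P L ((n + 2) ^ k) (2 ^ (Nat.log 2 P)) (r n) (4 ^ (r n + 4)))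
                ^ (2 ^ (r n + 4)) := rfl
            _ ≤ (Q.eval n) ^ (2 ^ (r n + 4)) := by
                rw [a5]
                exact Nat.pow_le_pow_left a4 _
            _ = ((Q.eval n) ^ 16) ^ (2 ^ r n) := by rw [a1, pow_mul]
            _ ≤ ((n + 2) ^ d) ^ (2 ^ r n) := Nat.pow_le_pow_left a6 _
            _ = (n + 2) ^ (d * 2 ^ r n) := by rw [← pow_mul]
            _ ≤ (n + 2) ^ ((d + 1) * 2 ^ r n) := by
                apply Nat.pow_le_pow_right (by omega)
                exact Nat.mul_le_mul_right _ (by omega)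
        · have h1 := tree_cq Z C x (Nat.log 2 P) P P L (r n) L ((n + 2) ^ k)
            (Nat.one_le_pow _ _ (by omega)) hP0 hL1 (fun a ha => (hlen a ha).1)
            (fun a => hone x a) hN
          obtain ⟨T, h2, h3⟩ := h1
          refine ⟨T, h2, ?_⟩
          have e : (1 : ℝ) / (((n + 2) ^ k : ℕ) : ℝ) = η := by
            rw [hη]; push_cast; rfl
          rw [← e]
          exact h3
      · -- many rounds
        push Not at hr
        refine ⟨2 ^ (L + 1), ?_, fun N Z hN => ?_⟩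
        · calc 2 ^ (L + 1) ≤ 2 ^ (2 ^ r n) := Nat.pow_le_pow_right (by norm_num) hr.le
            _ ≤ (n + 2) ^ (2 ^ r n) := Nat.pow_le_pow_left h2n _
            _ ≤ (n + 2) ^ ((d + 1) * 2 ^ r n) := by
                apply Nat.pow_le_pow_right (by omega)
                exact Nat.le_mul_of_pos_left _ (by omega)
        · obtain ⟨T, h1, h2⟩ := tree_full (fun y => pd r ⟨⟨C, p⟩, hpoly, hone⟩ x (Z.O y))
          refine ⟨T, ?_, by rw [h2]; exact hη0.le⟩
          have : T.depth ≤ 2 ^ (L + 1) := by omega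
          exact_mod_cast this
  obtain ⟨T, hT1, hT2, hT3⟩ := tree_oracle (pd r ⟨⟨C, p⟩, hpoly, hone⟩ x) L (D : ℝ) η hloc hD2
  refine ⟨T, ?_, hT2, hT3⟩
  have : T.depth ≤ D := by exact_mod_cast hT1
  exact this.trans hD1

open Classical in
/-- The theorem for hybrid computations. -/
theorem final (r : ℕ → ℕ) (k : ℕ) : ∃ T : ℕ → List Bool → DTree (List Bool),
    (∀ i, ∃ d : ℕ, ∀ x, (T i x).depth ≤ (x.length + 2) ^ (d * 2 ^ r x.length)) ∧
    (∀ w : List Bool → ℝ, (∀ x, 0 ≤ w x) → (∀ n, ∑ x : Fin n → Bool, w (List.ofFn x) ≤ 1) →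
      ∀ᵐ A ∂randomOracle, ∀ L : Set (List Bool), IsHybridRounds r A L → ∃ i, ∀ᶠ n : ℕ in atTop,
        (∑ x : Fin n → Bool, if ((T i (List.ofFn x)).eval A = true ↔ List.ofFn x ∈ L) then 0
          else w (List.ofFn x)) * n ^ k ≤ 1) ∧
    (∀ S : Set (List Bool), (∀ n, 1 ≤ n → {x : Fin n → Bool | List.ofFn x ∈ S}.ncard ≤ n ^ k) →
      ∀ᵐ A ∂randomOracle, ∀ L : Set (List Bool), IsHybridRounds r A L → ∃ i, ∀ᶠ n : ℕ in atTop,
        ∀ x : Fin n → Bool, List.ofFn x ∈ S →
          ((T i (List.ofFn x)).eval A = true ↔ List.ofFn x ∈ L)) :=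
  Pool.Agent.W938.Rnd.languages (fun d n => (n + 2) ^ (d * 2 ^ r n)) (pd r) (dev_tree r)
    (IsHybridRounds r) (fun A L ⟨C, p, h1, h2, h3⟩ => ⟨⟨⟨C, p⟩, h1, h2⟩, h3⟩) k

end Pool.Agent.W938.CQ
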