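import Pool.Agent.W938.CQ.Rdg
import Pool.Agent.W938.CQ.Lt2

/-!
# The machine which also reads bits
-/

set_option autoImplicit false
set_option linter.unusedSectionVars false

namespace Pool.Agent.W938.CQ

open Finset Pool.Agent.H722R2.AA Pool.Agent.H746R2.AA Pool.Agent.H703R2.AA Pool.Agent.H703R2.AA.Pr
open Pool.Agent.H620R2.Gauge Pool.Agent.W938.Hyb
open Pool.Agent.H889R3.RQ (DTree)

variable {b m N : ℕ}

/-- The kinds of steps. -/
inductive Kd (N : ℕ) : Type
  | idle : Kd N
  | read (q : Fin N) : Kd N
  | gate (Z : Adm N) (g : Gate) : Kd N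
  | meas : Kd N

/-- The trivial outcome. -/
def w0 : Bool × (Fin m → Bool) := (false, fun _ => false)

/-- The sign of a bit. -/
def sgn (β : Bool) : ℤˣ := if β then -1 else 1

/-- The matrices of a step. -/
noncomputable def km (b : ℕ) (K : Kd N) (w : Bool × (Fin m → Bool)) (k : Option (Fin N))
    (n i : Fin (b + m) → Bool) : ℝ :=
  match K with
  | .idle => if w = w0 ∧ k = none then Ee n i else 0
  | .read q => if w.2 = (fun _ => false) then
      (match k with
        | none => Ee n i / 2
        | some l => if l = q then sv (sgn w.1) * (Ee n i / 2) else 0) else 0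
  | .gate Z g => if w = w0 then Z.gm g k n i else 0
  | .meas => if w.1 = false ∧ k = none then Kr w.2 n i else 0

lemma sum_w0 (F : Bool × (Fin m → Bool) → ℝ) (h : ∀ w, w ≠ w0 → F w = 0) : ∑ w, F w = F w0 :=
  Finset.sum_eq_single w0 (fun w _ hw => h w hw) fun h => absurd (Finset.mem_univ _) h

lemma sum_read (F : Bool × (Fin m → Bool) → ℝ) (h : ∀ w, w.2 ≠ (fun _ => false) → F w = 0) :
    ∑ w, F w = F (true, fun _ => false) + F (false, fun _ => false) := by
  rw [Fintype.sum_prod_type, Fintype.sum_bool]
  congr 1 <;>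
  exact Finset.sum_eq_single _ (fun w _ hw => h _ hw) fun h => absurd (Finset.mem_univ _) h

lemma sum_meas (F : Bool × (Fin m → Bool) → ℝ) (h : ∀ w, w.1 ≠ false → F w = 0) :
    ∑ w, F w = ∑ o : Fin m → Bool, F (false, o) := by
  rw [Fintype.sum_prod_type, Fintype.sum_bool]
  have : ∑ y : Fin m → Bool, F (true, y) = 0 := Finset.sum_eq_zero fun y _ => h _ (by simp)
  rw [this, zero_add]

lemma km_orth (K : Kd N) (k l : Option (Fin N)) (hkl : k ≠ l) (i j : Fin (b + m) → Bool) :
    ∑ w : Bool × (Fin m → Bool), ∑ n, km b K w k n i * km b K w l n j = 0 := by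
  cases K with
  | idle =>
    refine Finset.sum_eq_zero fun w _ => Finset.sum_eq_zero fun n _ => ?_
    simp only [km]
    by_cases h : w = w0 ∧ k = none
    · rw [if_neg (c := w = w0 ∧ l = none) (fun h2 => hkl (h.2.trans h2.2.symm)), mul_zero]
    · rw [if_neg h, zero_mul]
  | read q =>
    rw [sum_read]
    · have st1 : sv (sgn true) = -1 := by simp [sgn, sv]
      have st2 : sv (sgn false) = 1 := by simp [sgn, sv]
      simp only [km, if_true, st1, st2]
      rw [← Finset.sum_add_distrib]
      refine Finset.sum_eq_zero fun n _ => ?_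
      cases k with
      | none =>
        cases l with
        | none => exact absurd rfl hkl
        | some l =>
          by_cases h1 : l = q
          · simp only [if_pos h1]; ring
          · simp only [if_neg h1]; ring
      | some k =>
        cases l with
        | none =>
          by_cases h1 : k = q
          · simp only [if_pos h1]; ring
          · simp only [if_neg h1]; ring
        | some l =>
          by_cases h1 : k = q
          · have h2 : l ≠ q := fun h => hkl (by rw [h1, h])
            simp only [if_neg h2]; ring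
          · simp only [if_neg h1]; ring
    · intro w hw
      refine Finset.sum_eq_zero fun n _ => ?_
      simp only [km]
      rw [if_neg hw, zero_mul]
  | gate Z g =>
    rw [sum_w0]
    · simp only [km, if_true]
      exact Z.gm_orth g k l hkl i j
    · intro w hw
      refine Finset.sum_eq_zero fun n _ => ?_
      simp only [km]
      rw [if_neg hw, zero_mul]
  | meas =>
    refine Finset.sum_eq_zero fun w _ => Finset.sum_eq_zero fun n _ => ?_
    simp only [km]
    by_cases h : w.1 = false ∧ k = none
    · rw [if_neg (c := w.1 = false ∧ l = none) (fun h2 => hkl (h.2.trans h2.2.symm)), mul_zero]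
    · rw [if_neg h, zero_mul]

lemma km_tot (K : Kd N) (i j : Fin (b + m) → Bool) :
    ∑ k, ∑ w : Bool × (Fin m → Bool), ∑ n, km b K w k n i * km b K w k n j
      = if i = j then 1 else 0 := by
  cases K with
  | idle =>
    rw [Fintype.sum_option, sum_w0]
    · simp only [km, and_self, if_true, reduceCtorEq, and_false, if_false, mul_zero,
        Finset.sum_const_zero, add_zero]
      exact sum_Ee_Ee i j
    · intro w hw
      refine Finset.sum_eq_zero fun n _ => ?_
      simp only [km]
      rw [if_neg (fun h => hw h.1), zero_mul]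
  | read q =>
    have h1 : ∀ k : Option (Fin N), ∑ w : Bool × (Fin m → Bool), ∑ n, km b (.read q) w k n i
        * km b (.read q) w k n j
        = ∑ n, km b (.read q) (true, fun _ => false) k n i * km b (.read q) (true, fun _ => false) k n j
          + ∑ n, km b (.read q) (false, fun _ => false) k n i
            * km b (.read q) (false, fun _ => false) k n j := by
      intro k
      rw [sum_read]
      intro w hw
      refine Finset.sum_eq_zero fun n _ => ?_
      simp only [km]
      rw [if_neg hw, zero_mul]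
    simp_rw [h1]
    rw [← sum_Ee_Ee i j, Fintype.sum_option, Finset.sum_eq_single q]
    · simp only [km, if_true, sgn, sv]
      rw [← Finset.sum_add_distrib, ← Finset.sum_add_distrib, ← Finset.sum_add_distrib]
      refine Finset.sum_congr rfl fun n _ => ?_
      simp only [Bool.false_eq_true, if_false, Units.val_neg, Units.val_one, Int.cast_neg,
        Int.cast_one]
      ring
    · intro l _ hl
      simp only [km, if_true, if_neg hl, mul_zero, Finset.sum_const_zero, add_zero]
    · intro h; exact absurd (Finset.mem_univ _) h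
  | gate Z g =>
    rw [← Z.gm_tot g i j]
    refine Finset.sum_congr rfl fun k _ => ?_
    rw [sum_w0]
    · simp only [km, if_true]
    · intro w hw
      refine Finset.sum_eq_zero fun n _ => ?_
      simp only [km]
      rw [if_neg hw, zero_mul]
  | meas =>
    rw [Fintype.sum_option]
    have h2 : ∑ k : Fin N, ∑ w : Bool × (Fin m → Bool), ∑ n, km b (N := N) .meas w (some k) n i
        * km b .meas w (some k) n j = 0 := by
      refine Finset.sum_eq_zero fun k _ => Finset.sum_eq_zero fun w _ =>
        Finset.sum_eq_zero fun n _ => ?_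
      simp [km]
    rw [h2, add_zero, sum_meas]
    · simp only [km, and_self, if_true]
      exact sum_Kr i j
    · intro w hw
      refine Finset.sum_eq_zero fun n _ => ?_
      simp only [km]
      rw [if_neg (fun h => hw h.1), zero_mul]

/-- Control states. -/
structure Cn (N m : ℕ) where
  os : List (Fin m → Bool)
  s : RS N
  c : ℕ
  τ : DTree (Fin N)
  g : ℕ
  d : List Gate
  t : List Gate

/-- The kind of the next step. -/
def kind (cn : Cn N m) : Kd N :=
  match cn.c with
  | _ + 1 => match cn.τ with
    | .ask q _ _ => .read q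
    | .leaf _ => .idle
  | 0 => match cn.g with
    | _ + 1 => match cn.t with
      | g :: _ => .gate cn.s.Z g
      | [] => .idle
    | 0 => .meas

variable (Dc : List (Fin m → Bool) → List Gate) (st : List (Fin m → Bool) → RS N → DTree (Fin N))
variable (s0 L : ℕ)

/-- The state at the beginning of a circuit. -/
def start (os : List (Fin m → Bool)) (s : RS N) : Cn N m := ⟨os, s, s0, st os s, L, [], Dc os⟩

/-- The next control state. -/
def nx (cn : Cn N m) (w : Bool × (Fin m → Bool)) : Cn N m :=
  match cn.c with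
  | c + 1 => match cn.τ with
    | .ask q t0 t1 => ⟨cn.os, cn.s.rd q (sgn w.1), c, tt t0 t1 (sgn w.1), cn.g, cn.d, cn.t⟩
    | .leaf β => ⟨cn.os, cn.s, c, .leaf β, cn.g, cn.d, cn.t⟩
  | 0 => match cn.g with
    | g + 1 => match cn.t with
      | g' :: t' => ⟨cn.os, cn.s, 0, cn.τ, g, cn.d ++ [g'], t'⟩
      | [] => ⟨cn.os, cn.s, 0, cn.τ, g, cn.d, []⟩
    | 0 => start Dc st s0 L (w.2 :: cn.os) cn.s

/-- The machine. -/
noncomputable def CM (b : ℕ) : Mach (Fin N) (Fin (b + m) → Bool) (Bool × (Fin m → Bool)) (Cn N m) where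
  m := fun cn w k => km b (kind cn) w k
  nxt := nx Dc st s0 L
  orth := fun cn k l hkl i j => km_orth (kind cn) k l hkl i j
  tot := fun cn i j => km_tot (kind cn) i j

/-- The matrix of a step for an input. -/
lemma kQ (K : Kd N) (w : Bool × (Fin m → Bool)) (x : Fin N → ℤˣ) (ψ : (Fin (b + m) → Bool) → ℝ) :
    mv (fun i j => ∑ k, sgo x k * km b K w k i j) ψ =
      match K with
      | .idle => if w = w0 then ψ else fun _ => 0
      | .read q => if w.2 = (fun _ => false) ∧ x q = sgn w.1 then ψ else fun _ => 0
      | .gate Z g => if w = w0 then gateAct (Z.O (bx x)) g ψ else fun _ => 0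
      | .meas => if w.1 = false then load m (fun t => ψ (Fin.append t w.2)) else fun _ => 0 := by
  cases K with
  | idle =>
    simp only
    have e : (fun i j => ∑ k, sgo x k * km b (.idle : Kd N) w k i j)
        = if w = w0 then Ee else fun _ _ => 0 := by
      funext n i
      rw [Fintype.sum_option]
      simp only [km, reduceCtorEq, and_false, if_false, mul_zero, Finset.sum_const_zero, add_zero,
        sgo, one_mul, and_true]
      split_ifs <;> rfl
    rw [e]
    split_ifs
    · funext n; exact sum_Ee n ψ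
    · exact mv_fun_zero ψ
  | read q =>
    simp only
    have e : (fun i j => ∑ k, sgo x k * km b (.read q) w k i j)
        = if w.2 = (fun _ => false) ∧ x q = sgn w.1 then Ee else fun _ _ => 0 := by
      funext n i
      rw [Fintype.sum_option]
      simp only [km, sgo, one_mul]
      by_cases hw : w.2 = (fun _ => false)
      · simp only [hw, true_and, if_true]
        rw [Finset.sum_eq_single q]
        · rw [if_pos rfl]
          have hsg : sg x q = sv (x q) := rfl
          rw [hsg]
          by_cases hx : x q = sgn w.1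
          · rw [hx, if_pos rfl]
            have := sv_sq (sgn w.1)
            linear_combination (Ee n i / 2) * this
          · rw [if_neg hx]
            have h2 : sv (x q) = - sv (sgn w.1) := by
              unfold sv
              rcases Int.units_eq_one_or (x q) with h | h <;>
                rcases Int.units_eq_one_or (sgn w.1) with h' | h'
              · exact absurd (h.trans h'.symm) hx
              · rw [h, h']; norm_num
              · rw [h, h']; norm_num
              · exact absurd (h.trans h'.symm) hx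
            rw [h2]
            have := sv_sq (sgn w.1)
            linear_combination (-(Ee n i / 2)) * this
        · intro l _ hl
          rw [if_neg hl, mul_zero]
        · intro h; exact absurd (Finset.mem_univ _) h
      · simp only [if_neg hw, mul_zero, Finset.sum_const_zero, add_zero]
        rw [if_neg (fun h => hw h.1)]
    rw [e]
    split_ifs
    · funext n; exact sum_Ee n ψ
    · exact mv_fun_zero ψ
  | gate Z g =>
    simp only
    have e : (fun i j => ∑ k, sgo x k * km b (.gate Z g) w k i j)
        = if w = w0 then (fun i j => ∑ l, sgo x l * Z.gm g l i j) else fun _ _ => 0 := by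
      funext n i
      simp only [km]
      split_ifs with h
      · rfl
      · simp
    rw [e]
    split_ifs
    · exact Z.gm_act g x ψ
    · exact mv_fun_zero ψ
  | meas =>
    simp only
    have e : (fun i j => ∑ k, sgo x k * km b (.meas : Kd N) w k i j)
        = if w.1 = false then Kr w.2 else fun _ _ => 0 := by
      funext n i
      rw [Fintype.sum_option]
      simp only [km, reduceCtorEq, and_false, if_false, mul_zero, Finset.sum_const_zero, add_zero,
        sgo, one_mul, and_true]
      split_ifs <;> rfl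
    rw [e]
    split_ifs
    · exact mv_Kr _ _
    · exact mv_fun_zero ψ

/-! ### General functionals of the final state -/

section Gv

variable {κ ι W Γ : Type*} [Fintype κ] [DecidableEq κ] [Fintype ι] [DecidableEq ι] [Fintype W]
variable (M : Mach κ ι W Γ)

/-- The sum of a functional over all histories of a given length. -/
noncomputable def gv (Ψ : Γ → (ι → ℝ) → ℝ) (x : κ → ℤˣ) : ℕ → Γ → (ι → ℝ) → ℝ
  | 0, c, s => Ψ c s
  | t + 1, c, s => ∑ w, gv Ψ x t (M.nxt c w) (mv (M.Q c w x) s)

lemma S_gv (c0 : Γ) (v : ι → ℝ) (hv : nsq v = 1) (Ψ : Γ → (ι → ℝ) → ℝ) (x : κ → ℤˣ) (j : ℕ) :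
    ∀ t, S t (fun h => gv M Ψ x j (M.ctl c0 h) ((M.pr c0 v hv).A h x)) = gv M Ψ x (t + j) c0 v := by
  intro t
  induction t generalizing j with
  | zero =>
    rw [Nat.zero_add]
    rfl
  | succ t ih =>
    simp only [S]
    have e : ∀ h : List W, ∑ w, gv M Ψ x j (M.ctl c0 (w :: h)) ((M.pr c0 v hv).A (w :: h) x)
        = gv M Ψ x (j + 1) (M.ctl c0 h) ((M.pr c0 v hv).A h x) := fun h => rfl
    simp_rw [e]
    rw [ih (j + 1)]
    congr 1
    omega

lemma S_Psi (c0 : Γ) (v : ι → ℝ) (hv : nsq v = 1) (Ψ : Γ → (ι → ℝ) → ℝ) (x : κ → ℤˣ) (t : ℕ) :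
    S t (fun h => Ψ (M.ctl c0 h) ((M.pr c0 v hv).A h x)) = gv M Ψ x t c0 v :=
  S_gv M c0 v hv Ψ x 0 t

lemma gv_zero (Ψ : Γ → (ι → ℝ) → ℝ) (hΨ : ∀ c, Ψ c (fun _ => 0) = 0) (x : κ → ℤˣ) :
    ∀ (t : ℕ) (c : Γ), gv M Ψ x t c (fun _ => 0) = 0
  | 0, c => hΨ c
  | t + 1, c => by
    simp only [gv]
    refine Finset.sum_eq_zero fun w _ => ?_
    rw [mv_zero_fun]
    exact gv_zero Ψ hΨ x t _

end Gv

variable (b)

lemma gv_read (Ψ : Cn N m → ((Fin (b + m) → Bool) → ℝ) → ℝ) (hΨ : ∀ c, Ψ c (fun _ => 0) = 0)
    (x : Fin N → ℤˣ) (j : ℕ) (os : List (Fin m → Bool)) (g : ℕ) (d t : List Gate)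
    (ψ : (Fin (b + m) → Bool) → ℝ) : ∀ (c : ℕ) (τ : DTree (Fin N)) (s : RS N), τ.depth ≤ c →
    gv (CM Dc st s0 L b) Ψ x (j + c) ⟨os, s, c, τ, g, d, t⟩ ψ
      = gv (CM Dc st s0 L b) Ψ x j ⟨os, run τ s x, 0, .leaf (τ.eval (bx x)), g, d, t⟩ ψ
  | 0, τ, s, h => by
    cases τ with
    | leaf β => rfl
    | ask q t0 t1 => simp [DTree.depth] at h
  | c + 1, τ, s, h => by
    change ∑ w, gv (CM Dc st s0 L b) Ψ x (j + c) (nx Dc st s0 L ⟨os, s, c + 1, τ, g, d, t⟩ w)
      (mv (fun i j => ∑ k, sgo x k * km b (kind ⟨os, s, c + 1, τ, g, d, t⟩) w k i j) ψ) = _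
    simp_rw [kQ]
    cases τ with
    | leaf β =>
      simp only [kind, nx]
      rw [sum_w0]
      · rw [if_pos rfl]
        exact gv_read Ψ hΨ x j os g d t ψ c (.leaf β) s (Nat.zero_le _)
      · intro w hw
        rw [if_neg hw]
        exact gv_zero _ Ψ hΨ x _ _
    | ask q t0 t1 =>
      simp only [kind, nx]
      simp only [DTree.depth] at h
      rw [Finset.sum_eq_single ((decide (x q = -1), fun _ => false) : Bool × (Fin m → Bool))]
      · have hx : x q = sgn (decide (x q = -1)) := by
          unfold sgn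
          rcases Int.units_eq_one_or (x q) with h | h
          · rw [h]; decide
          · rw [h]; decide
        rw [if_pos ⟨rfl, hx⟩]
        simp only [← hx]
        have hd : (tt t0 t1 (x q)).depth ≤ c := by
          unfold tt
          split_ifs <;> omega
        rw [gv_read Ψ hΨ x j os g d t ψ c (tt t0 t1 (x q)) (s.rd q (x q)) hd, run_ask]
        congr 2
        have he : (tt t0 t1 (x q)).eval (bx x) = (DTree.ask q t0 t1).eval (bx x) := by
          unfold tt
          simp only [DTree.eval, bx, decide_eq_true_eq]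
          split_ifs <;> rfl
        rw [he]
      · intro w _ hw
        rw [if_neg]
        · exact gv_zero _ Ψ hΨ x _ _
        · rintro ⟨h1, h2⟩
          apply hw
          refine Prod.ext ?_ h1
          simp only
          rw [h2]
          unfold sgn
          cases w.1 <;> simp
      · intro h; exact absurd (Finset.mem_univ _) h

lemma gv_gates (Ψ : Cn N m → ((Fin (b + m) → Bool) → ℝ) → ℝ) (hΨ : ∀ c, Ψ c (fun _ => 0) = 0)
    (x : Fin N → ℤˣ) (j : ℕ) (os : List (Fin m → Bool)) (s : RS N) (τ : DTree (Fin N)) :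
    ∀ (i g : ℕ) (d t : List Gate) (ψ : (Fin (b + m) → Bool) → ℝ), i ≤ g →
    gv (CM Dc st s0 L b) Ψ x (j + i) ⟨os, s, 0, τ, g, d, t⟩ ψ
      = gv (CM Dc st s0 L b) Ψ x j ⟨os, s, 0, τ, g - i, d ++ t.take i, t.drop i⟩
          (circAct (s.Z.O (bx x)) (t.take i) ψ)
  | 0, g, d, t, ψ, _ => by simp [circAct]
  | i + 1, 0, d, t, ψ, h => by omega
  | i + 1, g + 1, d, t, ψ, h => by
    change ∑ w, gv (CM Dc st s0 L b) Ψ x (j + i) (nx Dc st s0 L ⟨os, s, 0, τ, g + 1, d, t⟩ w)
      (mv (fun i j => ∑ k, sgo x k * km b (kind ⟨os, s, 0, τ, g + 1, d, t⟩) w k i j) ψ) = _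
    simp_rw [kQ]
    cases t with
    | nil =>
      simp only [kind, nx]
      rw [sum_w0]
      · rw [if_pos rfl, gv_gates Ψ hΨ x j os s τ i g d [] ψ (by omega)]
        simp
      · intro w hw
        rw [if_neg hw]
        exact gv_zero _ Ψ hΨ x _ _
    | cons g' t' =>
      simp only [kind, nx]
      rw [sum_w0]
      · rw [if_pos rfl, gv_gates Ψ hΨ x j os s τ i g (d ++ [g']) t' _ (by omega)]
        simp only [List.take_succ_cons, List.drop_succ_cons, circAct, Nat.add_sub_add_right,
          List.append_assoc, List.singleton_append]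
      · intro w hw
        rw [if_neg hw]
        exact gv_zero _ Ψ hΨ x _ _

lemma gv_meas (Ψ : Cn N m → ((Fin (b + m) → Bool) → ℝ) → ℝ) (hΨ : ∀ c, Ψ c (fun _ => 0) = 0)
    (x : Fin N → ℤˣ) (j : ℕ) (os : List (Fin m → Bool)) (s : RS N) (τ : DTree (Fin N))
    (d t : List Gate) (ψ : (Fin (b + m) → Bool) → ℝ) :
    gv (CM Dc st s0 L b) Ψ x (j + 1) ⟨os, s, 0, τ, 0, d, t⟩ ψ
      = ∑ o : Fin m → Bool, gv (CM Dc st s0 L b) Ψ x j (start Dc st s0 L (o :: os) s)
          (load m (fun t => ψ (Fin.append t o))) := by
  change ∑ w, gv (CM Dc st s0 L b) Ψ x j (nx Dc st s0 L ⟨os, s, 0, τ, 0, d, t⟩ w)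
      (mv (fun i j => ∑ k, sgo x k * km b (kind ⟨os, s, 0, τ, 0, d, t⟩) w k i j) ψ) = _
  simp_rw [kQ]
  simp only [kind, nx]
  rw [sum_meas]
  · simp only [if_true]
  · intro w hw
    rw [if_neg hw]
    exact gv_zero _ Ψ hΨ x _ _

/-! ### Records -/

variable (Z0 : Adm N) (si : RS N)

/-- The reader before the circuit with the record `os`. -/
def zs (x : Fin N → ℤˣ) : List (Fin m → Bool) → RS N
  | [] => si
  | _ :: os => run (st os (zs x os)) (zs x os) x

/-- The reader after the questions for the circuit with the record `os`. -/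
def zr (x : Fin N → ℤˣ) (os : List (Fin m → Bool)) : RS N := run (st os (zs st si x os)) (zs st si x os) x

lemma zs_cons (x : Fin N → ℤˣ) (o : Fin m → Bool) (os : List (Fin m → Bool)) :
    zs st si x (o :: os) = zr st si x os := rfl

/-- The memory after the record `os`. -/
noncomputable def me0 (x : Fin N → ℤˣ) : List (Fin m → Bool) → (Fin b → Bool) → ℝ
  | [] => initSt b
  | o :: os => fun t => circAct (Z0.O (bx x)) (Dc os) (load m (me0 x os)) (Fin.append t o)

lemma zs_O (x : Fin N → ℤˣ) (hsi : si.Z.O (bx x) = Z0.O (bx x)) : ∀ os : List (Fin m → Bool),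
    (zs st si x os).Z.O (bx x) = Z0.O (bx x)
  | [] => hsi
  | _ :: os => by
    change (run _ _ x).Z.O (bx x) = _
    rw [run_O, zs_O x hsi os]

/-- The functional over whole circuits. -/
lemma gv_circs (Ψ : Cn N m → ((Fin (b + m) → Bool) → ℝ) → ℝ) (hΨ : ∀ c, Ψ c (fun _ => 0) = 0)
    (hst : ∀ os s, (st os s).depth ≤ s0) (hD : ∀ os, (Dc os).length ≤ L)
    (x : Fin N → ℤˣ) (hsi : si.Z.O (bx x) = Z0.O (bx x)) : ∀ (k j : ℕ),
    gv (CM Dc st s0 L b) Ψ x (j + k * (s0 + L + 1)) (start Dc st s0 L [] si) (load m (initSt b))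
      = S k (fun os => gv (CM Dc st s0 L b) Ψ x j (start Dc st s0 L os (zs st si x os))
          (load m (me0 b Dc Z0 x os)))
  | 0, j => by simp [S, zs, me0]
  | k + 1, j => by
    have e : j + (k + 1) * (s0 + L + 1) = (j + 1 + L + s0) + k * (s0 + L + 1) := by ring
    rw [e, gv_circs Ψ hΨ hst hD x hsi k]
    change _ = S k (fun os => ∑ o, gv (CM Dc st s0 L b) Ψ x j
      (start Dc st s0 L (o :: os) (zs st si x (o :: os))) (load m (me0 b Dc Z0 x (o :: os))))
    refine S_congr' k fun os _ => ?_
    unfold start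
    rw [gv_read b Dc st s0 L Ψ hΨ x (j + 1 + L) os L [] (Dc os) _ s0 _ _ (hst _ _),
      gv_gates b Dc st s0 L Ψ hΨ x (j + 1) os _ _ L L _ _ _ le_rfl, Nat.sub_self,
      List.take_of_length_le (hD os), gv_meas b Dc st s0 L Ψ hΨ]
    refine Finset.sum_congr rfl fun o _ => ?_
    rw [zs_cons]
    have hO : (run (st os (zs st si x os)) (zs st si x os) x).Z.O (bx x) = Z0.O (bx x) := by
      rw [run_O, zs_O st Z0 si x hsi]
    rw [hO]
    rfl

end Pool.Agent.W938.CQ
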