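import Pool.Agent.W938.CQ.Fcl

/-!
# Numbers
-/

set_option autoImplicit false
set_option linter.unusedSectionVars false

namespace Pool.Agent.W938.CQ

open Finset Pool.Agent.H722R2.AA Pool.Agent.H746R2.AA Pool.Agent.H703R2.AA Pool.Agent.H703R2.AA.Pr
open Pool.Agent.H703R2.AB
open Pool.Agent.H620R2.Gauge Pool.Agent.W938.Hyb
open Pool.Agent.H889R3.RQ (DTree)
open Pool.Agent.NPC (pairBits)

/-- The exponents. -/
def ax (r j : ℕ) : ℕ := 2 ^ ((r - j) + 2) - 1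

lemma ax_one (r j : ℕ) : 1 ≤ ax r j := by
  unfold ax
  have : 2 ^ 2 ≤ 2 ^ ((r - j) + 2) := Nat.pow_le_pow_right (by norm_num) (by omega)
  omega

lemma ax_succ {r j : ℕ} (h : j < r) : ax r j = 2 * ax r (j + 1) + 1 := by
  unfold ax
  have e : (r - j) + 2 = ((r - (j + 1)) + 2) + 1 := by omega
  rw [e, pow_succ]
  have : 1 ≤ 2 ^ ((r - (j + 1)) + 2) := Nat.one_le_two_pow
  omega

lemma ax_mono (r j : ℕ) : ax r (j + 1) ≤ ax r j := by
  unfold ax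
  have : 2 ^ ((r - (j + 1)) + 2) ≤ 2 ^ ((r - j) + 2) :=
    Nat.pow_le_pow_right (by norm_num) (by omega)
  omega

lemma ax_last (r : ℕ) : ax r r = 3 := by
  unfold ax
  rw [Nat.sub_self]
  norm_num

lemma ax_le (r j : ℕ) : ax r j ≤ 2 ^ (r + 2) - 1 := by
  unfold ax
  have : 2 ^ ((r - j) + 2) ≤ 2 ^ (r + 2) := Nat.pow_le_pow_right (by norm_num) (by omega)
  omega

/-- The thresholds. -/
noncomputable def thr (r L b : ℕ) (hL : 1 ≤ L) (Kn Y Λ : ℝ) (hK : 1 ≤ Kn) (hKY : Kn ≤ Y)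
    (hΛ : 0 ≤ Λ) (hY : 6144 * (L : ℝ) ^ 4 * 2 ^ b * Λ ≤ Y) : Thr r L b where
  H := fun j => 1 / Y ^ ax r j
  c := fun j => 4 / 9 * (1 / Y ^ ax r (j + 1))
  κ := 1 / Kn
  Λ := Λ
  H0 := fun j => by
    have : 0 < Y := by linarith
    positivity
  c0 := fun j => by
    have : 0 < Y := by linarith
    positivity
  κ0 := by positivity
  hL := hL
  st := fun j => by ring
  mono := fun j => by
    have hY1 : 1 ≤ Y := hK.trans hKY
    apply one_div_le_one_div_of_le (by positivity)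
    exact pow_le_pow_right₀ hY1 (ax_mono r j)
  cl := fun j hj => by
    have hY1 : 1 ≤ Y := hK.trans hKY
    have hY0 : 0 < Y := by linarith
    have hL0 : (0 : ℝ) < L := by exact_mod_cast hL
    rw [le_div_iff₀ (by positivity), ax_succ hj]
    set P := Y ^ ax r (j + 1) with hP
    have hP0 : 0 < P := by positivity
    have e : Y ^ (2 * ax r (j + 1) + 1) = P ^ 2 * Y := by
      rw [pow_succ, mul_comm 2, pow_mul]
    rw [e]
    have e1 : (4 / 9 * (1 / P)) ^ 2 = 16 / 81 * (1 / P ^ 2) := by ring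
    rw [e1]
    have e2 : Λ * (1024 * (L : ℝ) ^ 4 * 2 ^ b * (1 / (P ^ 2 * Y)))
        = (1024 * (L : ℝ) ^ 4 * 2 ^ b * Λ) / Y * (1 / P ^ 2) := by
      field_simp
    rw [e2]
    refine mul_le_mul_of_nonneg_right ?_ (by positivity)
    rw [div_le_iff₀ hY0]
    have h0 : 0 ≤ (L : ℝ) ^ 4 * 2 ^ b * Λ := by positivity
    linarith
  kl := by
    have hY1 : 1 ≤ Y := hK.trans hKY
    have hY0 : 0 < Y := by linarith
    have hL0 : (0 : ℝ) < L := by exact_mod_cast hL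
    rw [le_div_iff₀ (by positivity), ax_last]
    have h0 : 0 ≤ (L : ℝ) ^ 4 * 2 ^ b * Λ := by positivity
    have e2 : Λ * (1024 * (L : ℝ) ^ 4 * 2 ^ b * (1 / Y ^ 3))
        = (1024 * (L : ℝ) ^ 4 * 2 ^ b * Λ) / Y * (1 / Y ^ 2) := by
      field_simp
    rw [e2]
    have h1 : (1024 * (L : ℝ) ^ 4 * 2 ^ b * Λ) / Y ≤ 1 := by
      rw [div_le_one hY0]
      linarith
    have h2 : 1 / Y ^ 2 ≤ (1 / Kn) ^ 2 := by
      rw [div_pow, one_pow]
      apply one_div_le_one_div_of_le (by positivity)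
      exact pow_le_pow_left₀ (by linarith) hKY 2
    calc _ ≤ 1 * (1 / Y ^ 2) := mul_le_mul_of_nonneg_right h1 (by positivity)
      _ ≤ _ := by rw [one_mul]; exact h2

lemma thr_K (r L b : ℕ) (hL : 1 ≤ L) (Kn Y Λ : ℝ) (hK : 1 ≤ Kn) (hKY : Kn ≤ Y)
    (hΛ : 0 ≤ Λ) (hY : 6144 * (L : ℝ) ^ 4 * 2 ^ b * Λ ≤ Y) :
    ((r * (thr r L b hL Kn Y Λ hK hKY hΛ hY).K + 1 : ℕ) : ℝ)
      ≤ (9 * L * 2 ^ b * r + 1) * Y ^ (2 ^ (r + 2) - 1) := by
  have hY1 : 1 ≤ Y := hK.trans hKY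
  have hY0 : 0 < Y := by linarith
  have h1 : ((thr r L b hL Kn Y Λ hK hKY hΛ hY).K : ℝ) ≤ 9 * L * 2 ^ b * Y ^ (2 ^ (r + 2) - 1) := by
    unfold Thr.K
    refine (Nat.floor_le (by
      have := (thr r L b hL Kn Y Λ hK hKY hΛ hY).c0 0
      positivity)).trans ?_
    change 4 * (L : ℝ) * 2 ^ b / (4 / 9 * (1 / Y ^ ax r (0 + 1))) ≤ _
    have e : 4 * (L : ℝ) * 2 ^ b / (4 / 9 * (1 / Y ^ ax r (0 + 1)))
        = 9 * L * 2 ^ b * Y ^ ax r (0 + 1) := by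
      field_simp
    rw [e]
    refine mul_le_mul_of_nonneg_left ?_ (by positivity)
    exact pow_le_pow_right₀ hY1 (ax_le r _)
  have h2 : (1 : ℝ) ≤ Y ^ (2 ^ (r + 2) - 1) := one_le_pow₀ hY1
  push_cast
  have h3 := mul_le_mul_of_nonneg_left h1 (Nat.cast_nonneg r : (0 : ℝ) ≤ r)
  have e : (9 * (L : ℝ) * 2 ^ b * r + 1) * Y ^ (2 ^ (r + 2) - 1)
      = r * (9 * L * 2 ^ b * Y ^ (2 ^ (r + 2) - 1)) + Y ^ (2 ^ (r + 2) - 1) := by ring
  rw [e]
  linarith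

/-- The bounds in numbers. -/
lemma nums (n L V U Y YA e Mr N F θ ck ik s r : ℝ)
    (hn : 1 ≤ n) (hL : 1 ≤ L) (hV : 1 ≤ V) (hY : 1 ≤ Y) (hYA : Y ≤ YA) (he : 0 < e)
    (hMr : 1 ≤ Mr) (hN : 0 ≤ N) (hF : 1 ≤ F) (hr : 0 ≤ r) (hs0 : 0 ≤ s)
    (hθ : θ = 1 / (YA ^ 2 * Y ^ 2)) (hck : ck ≤ 9 * YA) (hck0 : 0 ≤ ck) (hik : ik ≤ 4 * Y)
    (hik0 : 0 ≤ ik) (hs : s ≤ n * (Y * YA))
    (h3 : 272 * V * n ^ 2 * L ≤ Y) (h6 : 16 * V * n ^ 2 * (4 * r + 8 * L) ≤ Y)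
    (hE : F * (YA * Y ^ 2) * ((N + 1) * Mr) ^ 2 * e ≤ 1) :
    n * (ck * (L * θ) + Mr * (r * (4 * N * e))) * s
      + 2 * (n * (L * (ik * (s * θ) + Mr * (4 * e)))) ≤ 1 / (8 * V) := by
  have hY0 : 0 < Y := by linarith
  have hYA0 : 0 < YA := by linarith
  have hθ0 : 0 < θ := by rw [hθ]; positivity
  have t1 : n * (ck * (L * θ)) * s ≤ 9 * n ^ 2 * L / Y := by
    calc n * (ck * (L * θ)) * s ≤ n * (9 * YA * (L * θ)) * (n * (Y * YA)) := by gcongr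
      _ = _ := by rw [hθ]; field_simp
  have t3 : 2 * (n * (L * (ik * (s * θ)))) ≤ 8 * n ^ 2 * L / Y := by
    calc 2 * (n * (L * (ik * (s * θ)))) ≤ 2 * (n * (L * (4 * Y * ((n * (Y * YA)) * θ)))) := by gcongr
      _ = 8 * n ^ 2 * L / YA := by rw [hθ]; field_simp; norm_num
      _ ≤ 8 * n ^ 2 * L / Y := by gcongr
  have t13 : 9 * n ^ 2 * L / Y + 8 * n ^ 2 * L / Y ≤ 1 / (16 * V) := by
    rw [← add_div, div_le_div_iff₀ hY0 (by positivity)]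
    nlinarith
  have hx1 : N * Y ≤ (N + 1) * (Y * 1) := by nlinarith
  have t24 : n * (Mr * (r * (4 * N * e))) * s + 2 * (n * (L * (Mr * (4 * e)))) ≤ 1 / (16 * V) := by
    have a1 : n * (Mr * (r * (4 * N * e))) * s
        ≤ n * (Mr * (r * (4 * (N + 1) * e))) * (n * (Y * YA)) := by gcongr; linarith
    have a2 : 2 * (n * (L * (Mr * (4 * e)))) ≤ 8 * L * n ^ 2 * (Mr * ((N + 1) * (Y * YA))) * e := by
      have b1 : n ≤ n ^ 2 := by nlinarith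
      have b2 : 1 ≤ Y * YA := by nlinarith
      have b3 : 1 ≤ (N + 1) * (Y * YA) := by nlinarith
      have b4 : Mr ≤ Mr * ((N + 1) * (Y * YA)) := by nlinarith
      calc 2 * (n * (L * (Mr * (4 * e)))) = 8 * L * n * Mr * e := by ring
        _ ≤ 8 * L * n ^ 2 * (Mr * ((N + 1) * (Y * YA))) * e := by gcongr
    have a3 : n * (Mr * (r * (4 * (N + 1) * e))) * (n * (Y * YA))
        + 8 * L * n ^ 2 * (Mr * ((N + 1) * (Y * YA))) * e
        = (n ^ 2 * (4 * r + 8 * L)) * ((Mr * (N + 1)) * (Y * YA) * e) := by ring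
    have a4 : n ^ 2 * (4 * r + 8 * L) ≤ Y / (16 * V) := by
      rw [le_div_iff₀ (by positivity)]
      linarith
    have a5 : (n ^ 2 * (4 * r + 8 * L)) * ((Mr * (N + 1)) * (Y * YA) * e)
        ≤ Y / (16 * V) * ((Mr * (N + 1)) * (Y * YA) * e) :=
      mul_le_mul_of_nonneg_right a4 (by positivity)
    have a6 : (Mr * (N + 1)) * (YA * Y ^ 2) * e ≤ 1 := by
      refine le_trans ?_ hE
      have b1 : 1 ≤ (N + 1) * Mr := by nlinarith
      have b2 : (N + 1) * Mr ≤ ((N + 1) * Mr) ^ 2 := by nlinarith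
      have b3 : 0 < YA * Y ^ 2 := by positivity
      calc (Mr * (N + 1)) * (YA * Y ^ 2) * e = 1 * (YA * Y ^ 2) * ((N + 1) * Mr) * e := by ring
        _ ≤ F * (YA * Y ^ 2) * ((N + 1) * Mr) ^ 2 * e := by gcongr
    have a7 : Y / (16 * V) * ((Mr * (N + 1)) * (Y * YA) * e)
        = ((Mr * (N + 1)) * (YA * Y ^ 2) * e) / (16 * V) := by ring
    have a8 : ((Mr * (N + 1)) * (YA * Y ^ 2) * e) / (16 * V) ≤ 1 / (16 * V) :=
      div_le_div_of_nonneg_right a6 (by positivity)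
    linarith
  have e1 : n * (ck * (L * θ) + Mr * (r * (4 * N * e))) * s
      + 2 * (n * (L * (ik * (s * θ) + Mr * (4 * e))))
      = (n * (ck * (L * θ)) * s + 2 * (n * (L * (ik * (s * θ)))))
        + (n * (Mr * (r * (4 * N * e))) * s + 2 * (n * (L * (Mr * (4 * e))))) := by ring
  have e2 : 1 / (8 * V) = 1 / (16 * V) + 1 / (16 * V) := by field_simp; norm_num
  rw [e1, e2]
  linarith

lemma numC (L U Y Mr N F e : ℝ) (hL : 1 ≤ L) (hU : 1 ≤ U) (hY : 1 ≤ Y) (he : 0 < e)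
    (hMr : 1 ≤ Mr) (hN : 0 ≤ N) (hF : 1 ≤ F) (h5 : 20 * U ^ 2 * L ≤ Y)
    (hE : F * Y * ((N + 1) * Mr) ^ 2 * e ≤ 1) :
    1 / Y ^ 3 + Mr * (F * (2 * L * N * e)) ≤ (1 / U) ^ 2 := by
  have hY0 : 0 < Y := by linarith
  have hU0 : 0 < U := by linarith
  have b1 : 1 ≤ (N + 1) * Mr := by nlinarith
  have b2 : (N + 1) * Mr ≤ ((N + 1) * Mr) ^ 2 := by nlinarith
  have a1 : 1 / Y ^ 3 ≤ 1 / (2 * U ^ 2) := by
    apply one_div_le_one_div_of_le (by positivity)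
    have c1 : Y ≤ Y ^ 3 := by nlinarith [sq_nonneg Y, mul_pos hY0 hY0]
    have c2 : 0 < U ^ 2 := by positivity
    nlinarith
  have a2 : Mr * (F * (2 * L * N * e)) ≤ 1 / (2 * U ^ 2) := by
    rw [le_div_iff₀ (by positivity)]
    refine le_trans ?_ hE
    have c1 : 4 * U ^ 2 * L ≤ Y := by
      have : 0 < U ^ 2 * L := by positivity
      linarith
    calc Mr * (F * (2 * L * N * e)) * (2 * U ^ 2) = F * (4 * U ^ 2 * L) * (N * Mr) * e := by ring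
      _ ≤ F * Y * ((N + 1) * Mr) * e := by gcongr; linarith
      _ ≤ F * Y * ((N + 1) * Mr) ^ 2 * e := by gcongr
  have e2 : (1 / U) ^ 2 = 1 / (2 * U ^ 2) + 1 / (2 * U ^ 2) := by field_simp; norm_num
  rw [e2]
  linarith

lemma numU (n L U Y Mr N F e : ℝ) (hn : 1 ≤ n) (hL : 1 ≤ L) (hU : 1 ≤ U) (hY : 1 ≤ Y) (he : 0 < e)
    (hMr : 1 ≤ Mr) (hN : 0 ≤ N) (hF : 1 ≤ F) (h5 : 20 * U ^ 2 * L ≤ Y)
    (hE : F * Y * ((N + 1) * Mr) ^ 2 * e ≤ 1) :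
    (2 + 8 * L ^ 2) * ((1 + 2 * L) ^ 2 * (9 / 4 * (1 / (2 ^ 13 * U ^ 2 * L ^ 6 * n ^ 2))))
        * (2 + 8 * (n * L) ^ 2)
      + N * (Mr * (Mr * (4 * (F * (2 * L * N * e)) + 2 * L * e))) ≤ (1 / U) ^ 2 := by
  have hY0 : 0 < Y := by linarith
  have hU0 : 0 < U := by linarith
  have hL2 : 1 ≤ L ^ 2 := one_le_pow₀ hL
  have hnL : 1 ≤ (n * L) ^ 2 := one_le_pow₀ (by nlinarith)
  have a1 : (2 + 8 * L ^ 2) * ((1 + 2 * L) ^ 2 * (9 / 4 * (1 / (2 ^ 13 * U ^ 2 * L ^ 6 * n ^ 2))))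
        * (2 + 8 * (n * L) ^ 2) ≤ 1 / (2 * U ^ 2) := by
    calc (2 + 8 * L ^ 2) * ((1 + 2 * L) ^ 2 * (9 / 4 * (1 / (2 ^ 13 * U ^ 2 * L ^ 6 * n ^ 2))))
          * (2 + 8 * (n * L) ^ 2)
        ≤ (10 * L ^ 2) * ((3 * L) ^ 2 * (9 / 4 * (1 / (2 ^ 13 * U ^ 2 * L ^ 6 * n ^ 2))))
          * (10 * (n * L) ^ 2) := by
          gcongr
          · linarith
          · linarith
          · linarith
      _ = 2025 / 2 ^ 13 * (1 / U ^ 2) := by field_simp; norm_num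
      _ ≤ 1 / (2 * U ^ 2) := by
          have : 1 / (2 * U ^ 2) = 1 / 2 * (1 / U ^ 2) := by field_simp
          rw [this]
          refine mul_le_mul_of_nonneg_right (by norm_num) (by positivity)
  have a2 : N * (Mr * (Mr * (4 * (F * (2 * L * N * e)) + 2 * L * e))) ≤ 1 / (2 * U ^ 2) := by
    rw [le_div_iff₀ (by positivity)]
    refine le_trans ?_ hE
    have c0 : 2 * L * e ≤ F * (2 * L * 1 * e) := by
      have : 0 ≤ 2 * L * e := by positivity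
      nlinarith
    calc N * (Mr * (Mr * (4 * (F * (2 * L * N * e)) + 2 * L * e))) * (2 * U ^ 2)
        ≤ (N + 1) * (Mr * (Mr * (4 * (F * (2 * L * (N + 1) * e)) + F * (2 * L * (N + 1) * e))))
          * (2 * U ^ 2) := by
          have c1 : F * (2 * L * 1 * e) ≤ F * (2 * L * (N + 1) * e) := by gcongr; linarith
          have c2 : 2 * L * e ≤ F * (2 * L * (N + 1) * e) := c0.trans c1
          have c3 : F * (2 * L * N * e) ≤ F * (2 * L * (N + 1) * e) := by gcongr; linarith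
          have c4 : 0 ≤ F * (2 * L * N * e) := by positivity
          gcongr
          linarith
      _ = F * (20 * U ^ 2 * L) * ((N + 1) * Mr) ^ 2 * e := by ring
      _ ≤ F * Y * ((N + 1) * Mr) ^ 2 * e := by gcongr
  have e2 : (1 / U) ^ 2 = 1 / (2 * U ^ 2) + 1 / (2 * U ^ 2) := by field_simp; norm_num
  rw [e2]
  linarith

end Pool.Agent.W938.CQ
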