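import Pool.Agent.W938.CQ.Cir
import Pool.Agent.W938.CQ.Lt

/-!
# Reading bits of the oracle
-/

set_option autoImplicit false
set_option linter.unusedSectionVars false

namespace Pool.Agent.W938.CQ

open Finset Pool.Agent.H722R2.AA Pool.Agent.H746R2.AA Pool.Agent.H703R2.AA Pool.Agent.H703R2.AA.Pr
open Pool.Agent.H620R2.Gauge Pool.Agent.W938.Hyb
open Pool.Agent.H889R3.RQ (DTree)

variable {b m N : ℕ}

/-- The oracle does not depend on the bit `k`. -/
def NoDep (Z : Adm N) (k : Fin N) : Prop := ∀ y c, Z.O (Function.update y k c) = Z.O y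

lemma NoDep.fix_self (Z : Adm N) (k : Fin N) (c : Bool) : NoDep (Z.fix k c) k := by
  intro y c'
  change Z.O (Function.update (Function.update y k c') k c) = Z.O (Function.update y k c)
  rw [Function.update_idem]

lemma NoDep.fix {Z : Adm N} {k : Fin N} (h : NoDep Z k) (l : Fin N) (c : Bool) :
    NoDep (Z.fix l c) k := by
  intro y c'
  change Z.O (Function.update (Function.update y k c') l c) = Z.O (Function.update y l c)
  by_cases hkl : k = l
  · subst hkl; rw [Function.update_idem]
  · rw [Function.update_comm hkl, h]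

lemma bx_update (x : Fin N → ℤˣ) (k : Fin N) (u : ℤˣ) :
    bx (Function.update x k u) = Function.update (bx x) k (decide (u = -1)) := by
  funext i
  unfold bx
  by_cases hi : i = k
  · subst hi; simp
  · simp [Function.update_of_ne hi]

lemma NoDep.bx {Z : Adm N} {k : Fin N} (h : NoDep Z k) (x : Fin N → ℤˣ) (u : ℤˣ) :
    Z.O (bx (Function.update x k u)) = Z.O (bx x) := by
  rw [bx_update, h]

lemma Wi_congr (Z : Adm N) (D : List Gate) (i : ℕ) (S : Finset (Fin N)) {x y : Fin N → ℤˣ}
    (h : Z.O (bx x) = Z.O (bx y)) : Wi Z b m D i S x = Wi Z b m D i S y := by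
  unfold Wi WS Wg
  rw [h]

lemma NoDep_kd {Z : Adm N} {k : Fin N} (h : NoDep Z k) (z : List Bool) : Z.kd z ≠ Sum.inr k := by
  intro hk
  have h1 := Z.kd_inr hk (Function.update (fun _ => false) k true)
  have h2 := Z.kd_inr hk (Function.update (fun _ => false) k false)
  rw [h, Function.update_self] at h1
  rw [h, Function.update_self, h1] at h2
  exact absurd h2 (by decide)

lemma kd_fix (Z : Adm N) (k : Fin N) (c : Bool) (z : List Bool) (l : Fin N) :
    (Z.fix k c).kd z = Sum.inr l ↔ Z.kd z = Sum.inr l ∧ l ≠ k := by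
  cases hz : Z.kd z with
  | inl b0 =>
    have hc : ∃ b, ∀ y, (Z.fix k c).O y z = b := ⟨b0, fun y => Z.kd_inl hz _⟩
    have h1 : (Z.fix k c).kd z = Sum.inl hc.choose := by
      unfold Adm.kd
      rw [dif_pos hc]
    rw [h1]
    simp
  | inr l0 =>
    by_cases hl0 : l0 = k
    · have hc : ∃ b, ∀ y, (Z.fix k c).O y z = b := ⟨c, fun y => by
        change Z.O (Function.update y k c) z = c
        rw [Z.kd_inr hz, hl0, Function.update_self]⟩
      have h1 : (Z.fix k c).kd z = Sum.inl hc.choose := by
        unfold Adm.kd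
        rw [dif_pos hc]
      rw [h1]
      simp only [reduceCtorEq, false_iff, Sum.inr.injEq, not_and, not_not]
      intro h
      rw [← h, hl0]
    · cases hf : (Z.fix k c).kd z with
      | inl b0 =>
        exfalso
        have h1 := (Z.fix k c).kd_inl hf (fun _ => true)
        have h2 := (Z.fix k c).kd_inl hf (fun _ => false)
        change Z.O (Function.update (fun _ => true) k c) z = b0 at h1
        change Z.O (Function.update (fun _ => false) k c) z = b0 at h2
        rw [Z.kd_inr hz, Function.update_of_ne hl0] at h1 h2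
        rw [← h1] at h2
        exact absurd h2 (by decide)
      | inr l1 =>
        have h3 : l1 = l0 := by
          by_contra hne
          have h1 := (Z.fix k c).kd_inr hf (fun i => if i = l0 then true else false)
          change Z.O (Function.update (fun i => if i = l0 then true else false) k c) z = _ at h1
          rw [Z.kd_inr hz, Function.update_of_ne hl0] at h1
          simp [hne] at h1
        subst h3
        simp only [Sum.inr.injEq]
        constructor
        · rintro rfl; exact ⟨rfl, hl0⟩
        · rintro ⟨h, _⟩; exact h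

lemma wt_fix (Z : Adm N) (k : Fin N) (c : Bool) (g : Gate) (l : Fin N) (ψ : (Fin m → Bool) → ℝ) :
    (Z.fix k c).wt g l ψ = if l = k then 0 else Z.wt g l ψ := by
  rcases g with i | ⟨u, q, k0⟩
  · simp [Adm.wt]
  · cases u with
    | false => simp [Adm.wt]
    | true =>
      simp only [Adm.wt, Adm.kq]
      split_ifs with hl
      · refine Finset.sum_eq_zero fun s _ => ?_
        rw [if_neg]
        rw [kd_fix]
        exact fun h => h.2 hl
      · refine Finset.sum_congr rfl fun s _ => ?_
        refine if_congr ?_ rfl rfl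
        rw [kd_fix]
        exact ⟨fun h => h.1, fun h => ⟨h, hl⟩⟩

lemma Wi_fix (Z : Adm N) (k : Fin N) (x : Fin N → ℤˣ) (D : List Gate) (i : ℕ) (l : Fin N) :
    Wi (Z.fix k (decide (x k = -1))) b m D i {l} x = if l = k then 0 else Wi Z b m D i {l} x := by
  have hO : (Z.fix k (decide (x k = -1))).O (bx x) = Z.O (bx x) := by
    change Z.O (Function.update (bx x) k (decide (x k = -1))) = _
    congr 1
    exact Function.update_eq_self k (bx x)
  unfold Wi WS Wg
  rw [hO]
  split
  · simp only [Finset.sum_singleton, wt_fix]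
    split_ifs
    · simp
    · rfl
  · split_ifs <;> rfl

lemma Wi_NoDep {Z : Adm N} {k : Fin N} (h : NoDep Z k) (D : List Gate) (i : ℕ) (x : Fin N → ℤˣ) :
    Wi Z b m D i {k} x = 0 := by
  unfold Wi WS Wg
  split
  · rename_i g _
    simp only [Finset.sum_singleton]
    refine Finset.sum_eq_zero fun t _ => ?_
    rcases g with i | ⟨u, q, k0⟩
    · rfl
    · cases u with
      | false => rfl
      | true =>
        simp only [Adm.wt, Adm.kq]
        exact Finset.sum_eq_zero fun s _ => if_neg (NoDep_kd h _)
  · rfl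

/-! ### States of the reader -/

/-- The oracle with the bits which have been read fixed, their positions and values. -/
structure RS (N : ℕ) where
  Z : Adm N
  R : Finset (Fin N)
  v : Fin N → ℤˣ

/-- Read a bit. -/
def RS.rd (s : RS N) (k : Fin N) (u : ℤˣ) : RS N :=
  ⟨s.Z.fix k (decide (u = -1)), insert k s.R, Function.update s.v k u⟩

/-- The state after the questions of a tree. -/
def run : DTree (Fin N) → RS N → (Fin N → ℤˣ) → RS N
  | .leaf _, s, _ => s
  | .ask k t0 t1, s, x => if x k = -1 then run t1 (s.rd k (x k)) x else run t0 (s.rd k (x k)) x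

/-- The tree asks no question twice and no question in `R`. -/
def Fresh : DTree (Fin N) → Finset (Fin N) → Prop
  | .leaf _, _ => True
  | .ask k t0 t1, R => k ∉ R ∧ Fresh t0 (insert k R) ∧ Fresh t1 (insert k R)

/-- The oracle does not depend on the bits which have been read. -/
def Inv (s : RS N) : Prop := ∀ k ∈ s.R, NoDep s.Z k

lemma Inv.rd {s : RS N} (h : Inv s) (k : Fin N) (u : ℤˣ) : Inv (s.rd k u) := by
  intro l hl
  rcases Finset.mem_insert.1 hl with rfl | hl
  · exact NoDep.fix_self _ _ _
  · exact (h l hl).fix _ _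

/-- The branch. -/
def tt (t0 t1 : DTree (Fin N)) (u : ℤˣ) : DTree (Fin N) := if u = -1 then t1 else t0

lemma run_ask (k : Fin N) (t0 t1 : DTree (Fin N)) (s : RS N) (x : Fin N → ℤˣ) :
    run (.ask k t0 t1) s x = run (tt t0 t1 (x k)) (s.rd k (x k)) x := by
  unfold tt
  simp only [run]
  split_ifs <;> rfl

lemma Fresh_tt {k : Fin N} {t0 t1 : DTree (Fin N)} {R : Finset (Fin N)}
    (h : Fresh (.ask k t0 t1) R) (u : ℤˣ) : Fresh (tt t0 t1 u) (insert k R) := by
  unfold tt
  split_ifs
  · exact h.2.2
  · exact h.2.1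

lemma Inv.run {s : RS N} (h : Inv s) (T : DTree (Fin N)) (x : Fin N → ℤˣ) : Inv (run T s x) := by
  induction T generalizing s with
  | leaf _ => exact h
  | ask k t0 t1 ih0 ih1 =>
    simp only [CQ.run]
    split_ifs
    · exact ih1 (h.rd _ _)
    · exact ih0 (h.rd _ _)

lemma run_sub (T : DTree (Fin N)) (s : RS N) (x : Fin N → ℤˣ) : s.R ⊆ (run T s x).R := by
  induction T generalizing s with
  | leaf _ => exact Finset.Subset.refl _
  | ask k t0 t1 ih0 ih1 =>
    simp only [run]
    have hsub : s.R ⊆ (s.rd k (x k)).R := Finset.subset_insert _ _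
    split_ifs
    · exact hsub.trans (ih1 (s.rd k (x k)))
    · exact hsub.trans (ih0 (s.rd k (x k)))

lemma run_agree (T : DTree (Fin N)) (s : RS N) (x y : Fin N → ℤˣ)
    (h : ∀ k ∈ (run T s x).R, k ∉ s.R → x k = y k) (hT : Fresh T s.R) : run T s y = run T s x := by
  induction T generalizing s with
  | leaf _ => rfl
  | ask k t0 t1 ih0 ih1 =>
    have hk : x k = y k := by
      refine h k ?_ hT.1
      rw [run_ask]
      exact run_sub _ _ _ (Finset.mem_insert_self _ _)
    simp only [run] at h ⊢
    rw [← hk]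
    split_ifs at h ⊢
    · exact ih1 _ (fun l hl hl' => h l hl fun h2 => hl' (Finset.mem_insert_of_mem h2)) hT.2.2
    · exact ih0 _ (fun l hl hl' => h l hl fun h2 => hl' (Finset.mem_insert_of_mem h2)) hT.2.1

lemma run_indep (T : DTree (Fin N)) (s : RS N) (hT : Fresh T s.R) (k : Fin N) (hk : k ∈ s.R)
    (x : Fin N → ℤˣ) (u : ℤˣ) : run T s (Function.update x k u) = run T s x := by
  refine run_agree T s x _ (fun l _ hl => ?_) hT
  rw [Function.update_of_ne]
  rintro rfl
  exact hl hk

lemma run_O (T : DTree (Fin N)) (s : RS N) (x : Fin N → ℤˣ) :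
    (run T s x).Z.O (bx x) = s.Z.O (bx x) := by
  induction T generalizing s with
  | leaf _ => rfl
  | ask k t0 t1 ih0 ih1 =>
    have hO : (s.rd k (x k)).Z.O (bx x) = s.Z.O (bx x) := by
      change s.Z.O (Function.update (bx x) k (decide (x k = -1))) = _
      congr 1
      exact Function.update_eq_self k (bx x)
    simp only [run]
    split_ifs
    · rw [ih1, hO]
    · rw [ih0, hO]

lemma run_W (T : DTree (Fin N)) (s : RS N) (hs : Inv s) (x : Fin N → ℤˣ) (D : List Gate) (i : ℕ)
    (l : Fin N) :
    Wi (run T s x).Z b m D i {l} x = if l ∈ (run T s x).R then 0 else Wi s.Z b m D i {l} x := by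
  induction T generalizing s with
  | leaf _ =>
    simp only [run]
    split_ifs with h
    · exact Wi_NoDep (hs l h) D i x
    · rfl
  | ask k t0 t1 ih0 ih1 =>
    have key : ∀ T' : DTree (Fin N), (Wi (run T' (s.rd k (x k)) x).Z b m D i {l} x
        = if l ∈ (run T' (s.rd k (x k)) x).R then 0 else Wi (s.rd k (x k)).Z b m D i {l} x) →
        Wi (run T' (s.rd k (x k)) x).Z b m D i {l} x
        = if l ∈ (run T' (s.rd k (x k)) x).R then 0 else Wi s.Z b m D i {l} x := by
      intro T' h
      rw [h]
      split_ifs with hl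
      · rfl
      · have hlk : l ≠ k := by
          rintro rfl
          exact hl (run_sub T' (s.rd l (x l)) x (Finset.mem_insert_self _ _))
        change Wi (s.Z.fix k (decide (x k = -1))) b m D i {l} x = _
        rw [Wi_fix, if_neg hlk]
    simp only [run]
    split_ifs with h1 h2 h2
    · rw [key t1 (ih1 _ (hs.rd _ _)), if_pos h2]
    · rw [key t1 (ih1 _ (hs.rd _ _)), if_neg h2]
    · rw [key t0 (ih0 _ (hs.rd _ _)), if_pos h2]
    · rw [key t0 (ih0 _ (hs.rd _ _)), if_neg h2]

lemma run_W_le (T : DTree (Fin N)) (s : RS N) (hs : Inv s) (x : Fin N → ℤˣ) (D : List Gate) (i : ℕ)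
    (S : Finset (Fin N)) : Wi (run T s x).Z b m D i S x ≤ Wi s.Z b m D i S x := by
  rw [Wi_sum, Wi_sum s.Z]
  refine Finset.sum_le_sum fun l _ => ?_
  rw [run_W T s hs]
  split_ifs
  · exact Wi_nonneg _ _ _ _ _
  · exact le_rfl

/-! ### Averages over trees -/

lemma Ex_branch {κ : Type*} [Fintype κ] [DecidableEq κ] (k : κ) (F : ℤˣ → (κ → ℤˣ) → ℝ)
    (hF : ∀ u x c, F u (Function.update x k c) = F u x) :
    Ex (fun x => F (x k) x) = (Ex (F 1) + Ex (F (-1))) / 2 := by
  rw [Ex_split k (fun x => F (x k) x)]
  have h : ∀ u, fr k u (fun x => F (x k) x) = F u := by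
    intro u
    funext x
    unfold fr
    beta_reduce
    rw [Function.update_self, hF]
  rw [h, h]

/-- The function depends only on what is not read. -/
def Natl (Φ : RS N → (Fin N → ℤˣ) → ℝ) : Prop :=
  ∀ s, Inv s → ∀ k ∈ s.R, ∀ x u, Φ s (Function.update x k u) = Φ s x

theorem TL (Φ : RS N → (Fin N → ℤˣ) → ℝ) (hΦ : Natl Φ) : ∀ (T : DTree (Fin N)) (s : RS N),
    Inv s → Fresh T s.R →
    Ex (fun x => Φ (run T s x) x) = Ex (fun x => Ex (fun z => Φ (run T s x) z))
  | .leaf _, s, _, _ => by
    simp only [run]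
    rw [Ex_const]
  | .ask k t0 t1, s, hs, hT => by
    have ih : ∀ u, Ex (fun x => Φ (run (tt t0 t1 u) (s.rd k u) x) x)
        = Ex (fun x => Ex (fun z => Φ (run (tt t0 t1 u) (s.rd k u) x) z)) := by
      intro u
      have h1 := TL Φ hΦ t0 (s.rd k u) (hs.rd k u) hT.2.1
      have h2 := TL Φ hΦ t1 (s.rd k u) (hs.rd k u) hT.2.2
      unfold tt
      split_ifs
      · exact h2
      · exact h1
    have hr : ∀ u x c, run (tt t0 t1 u) (s.rd k u) (Function.update x k c)
        = run (tt t0 t1 u) (s.rd k u) x := fun u x c =>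
      run_indep _ _ (Fresh_tt hT u) k (Finset.mem_insert_self _ _) x c
    simp only [run_ask]
    rw [Ex_branch k (fun u x => Φ (run (tt t0 t1 u) (s.rd k u) x) x) (fun u x c => by
        rw [hr]
        exact hΦ _ ((hs.rd k u).run _ x) k
          (run_sub _ _ _ (Finset.mem_insert_self _ _)) x c),
      Ex_branch k (fun u x => Ex (fun z => Φ (run (tt t0 t1 u) (s.rd k u) x) z)) (fun u x c => by
        rw [hr]), ih, ih]

/-- Independence for correlated pairs. -/
lemma PE_indep {κ : Type*} [Fintype κ] [DecidableEq κ] (S : Finset κ) (F H : (κ → ℤˣ) → ℝ)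
    (hF : ∀ k ∉ S, ∀ x u, F (Function.update x k u) = F x)
    (hH : ∀ k ∈ S, ∀ x u, H (Function.update x k u) = H x) (r : ℝ) :
    PE r (fun x y => F x * H y) = Ex F * Ex H := by
  have hd : ∀ r, HasDerivAt (fun r => PE r (fun x y => F x * H y)) 0 r := by
    intro r
    have h1 := hasDerivAt_PE F H r
    have h2 : ∑ k, PE r (fun x y => D F k x * D H k y) = 0 := by
      refine Finset.sum_eq_zero fun k _ => ?_
      rw [← PE_const (κ := κ) r 0]
      refine PE_congr fun x y => ?_
      by_cases hk : k ∈ S
      · have : D H k y = 0 := by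
          unfold D
          rw [hH k hk, hH k hk, sub_self, zero_div]
        rw [this, mul_zero]
      · have : D F k x = 0 := by
          unfold D
          rw [hF k hk, hF k hk, sub_self, zero_div]
        rw [this, zero_mul]
    rw [h2] at h1
    exact h1
  have h3 : PE r (fun x y => F x * H y) = PE 0 (fun x y => F x * H y) :=
    is_const_of_deriv_eq_zero (fun r => (hd r).differentiableAt) (fun r => (hd r).deriv) r 0
  rw [h3, PE_zero]
  simp_rw [Ex_mul_left]
  rw [Ex_mul_right]

theorem PTL (H : Finset (Fin N) → (Fin N → ℤˣ) → ℝ)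
    (hH : ∀ S, ∀ k ∈ S, ∀ x u, H S (Function.update x k u) = H S x)
    (e : ℝ) (he : ∀ S, Ex (H S) ≤ e) (r : ℝ) : ∀ (T : DTree (Fin N)) (s : RS N), Fresh T s.R →
    ∀ F : (Fin N → ℤˣ) → ℝ, (∀ x, 0 ≤ F x) →
      (∀ k ∉ s.R, ∀ x u, F (Function.update x k u) = F x) →
      PE r (fun x y => F x * H (run T s x).R y) ≤ Ex F * e
  | .leaf _, s, _, F, hF0, hF => by
    simp only [run]
    rw [PE_indep s.R F (H s.R) hF (hH s.R)]
    exact mul_le_mul_of_nonneg_left (he _) (Ex_nonneg hF0)
  | .ask k t0 t1, s, hT, F, hF0, hF => by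
    set Fu : ℤˣ → (Fin N → ℤˣ) → ℝ := fun u x => F x * (if x k = u then 1 else 0) with hFu
    have h0 : ∀ u x, 0 ≤ Fu u x := fun u x => mul_nonneg (hF0 x) (by split_ifs <;> norm_num)
    have h1 : ∀ u, ∀ l ∉ insert k s.R, ∀ x c, Fu u (Function.update x l c) = Fu u x := by
      intro u l hl x c
      have hl1 : l ∉ s.R := fun h => hl (Finset.mem_insert_of_mem h)
      have hl2 : k ≠ l := fun h => hl (h ▸ Finset.mem_insert_self _ _)
      simp only [hFu]
      rw [hF l hl1, Function.update_of_ne hl2]
    have ih : ∀ u, PE r (fun x y => Fu u x * H (run (tt t0 t1 u) (s.rd k u) x).R y)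
        ≤ Ex (Fu u) * e := by
      intro u
      have a1 := PTL H hH e he r t0 (s.rd k u) hT.2.1 (Fu u) (h0 u) (h1 u)
      have a2 := PTL H hH e he r t1 (s.rd k u) hT.2.2 (Fu u) (h0 u) (h1 u)
      unfold tt
      split_ifs
      · exact a2
      · exact a1
    have hsum : ∀ x, F x = Fu 1 x + Fu (-1) x := by
      intro x
      simp only [hFu]
      rcases Int.units_eq_one_or (x k) with h | h
      · rw [h, if_pos rfl, if_neg (by decide)]; ring
      · rw [h, if_neg (by decide), if_pos rfl]; ring
    have e1 : PE r (fun x y => F x * H (run (.ask k t0 t1) s x).R y)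
        = PE r (fun x y => Fu 1 x * H (run (tt t0 t1 1) (s.rd k 1) x).R y)
          + PE r (fun x y => Fu (-1) x * H (run (tt t0 t1 (-1)) (s.rd k (-1)) x).R y) := by
      rw [← PE_add]
      refine PE_congr fun x y => ?_
      rw [run_ask]
      rcases Int.units_eq_one_or (x k) with h | h
      · have h2 : Fu (-1) x = 0 := by simp only [hFu]; rw [h, if_neg (by decide), mul_zero]
        have h3 : Fu 1 x = F x := by simp only [hFu]; rw [h, if_pos rfl, mul_one]
        rw [h2, h3, h]; ring
      · have h2 : Fu 1 x = 0 := by simp only [hFu]; rw [h, if_neg (by decide), mul_zero]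
        have h3 : Fu (-1) x = F x := by simp only [hFu]; rw [h, if_pos rfl, mul_one]
        rw [h2, h3, h]; ring
    have e2 : Ex F = Ex (Fu 1) + Ex (Fu (-1)) := by
      rw [← Ex_add]
      exact Ex_congr hsum
    rw [e1, e2]
    have := ih 1
    have := ih (-1)
    linarith

/-! ### Composition of trees -/

/-- Ask the questions of `T`, then continue with the tree `f s` which depends on the state. -/
def sq : DTree (Fin N) → RS N → (RS N → DTree (Fin N)) → DTree (Fin N)
  | .leaf _, s, f => f s
  | .ask k t0 t1, s, f => .ask k (sq t0 (s.rd k 1) f) (sq t1 (s.rd k (-1)) f)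

lemma run_sq (T : DTree (Fin N)) (s : RS N) (f : RS N → DTree (Fin N)) (x : Fin N → ℤˣ) :
    run (sq T s f) s x = run (f (run T s x)) (run T s x) x := by
  induction T generalizing s with
  | leaf _ => rfl
  | ask k t0 t1 ih0 ih1 =>
    simp only [sq, run]
    rcases Int.units_eq_one_or (x k) with h | h
    · rw [h, if_neg (by decide), if_neg (by decide), ih0]
    · rw [h, if_pos rfl, if_pos rfl, ih1]

lemma Fresh_sq (f : RS N → DTree (Fin N)) (hf : ∀ s, Fresh (f s) s.R) (T : DTree (Fin N))
    (s : RS N) (hT : Fresh T s.R) : Fresh (sq T s f) s.R := by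
  induction T generalizing s with
  | leaf _ => exact hf s
  | ask k t0 t1 ih0 ih1 =>
    exact ⟨hT.1, ih0 (s.rd k 1) hT.2.1, ih1 (s.rd k (-1)) hT.2.2⟩

lemma depth_sq (f : RS N → DTree (Fin N)) (d : ℕ) (hf : ∀ s, (f s).depth ≤ d) (T : DTree (Fin N))
    (s : RS N) : (sq T s f).depth ≤ T.depth + d := by
  induction T generalizing s with
  | leaf _ => simp only [sq, DTree.depth, zero_add]; exact hf s
  | ask k t0 t1 ih0 ih1 =>
    simp only [sq, DTree.depth]
    have h0 := ih0 (s.rd k 1)
    have h1 := ih1 (s.rd k (-1))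
    omega

/-- Ask for all bits in a list. -/
def chain : List (Fin N) → DTree (Fin N)
  | [] => .leaf false
  | k :: ks => .ask k (chain ks) (chain ks)

lemma depth_chain (ks : List (Fin N)) : (chain ks).depth = ks.length := by
  induction ks with
  | nil => rfl
  | cons k ks ih => simp [chain, DTree.depth, ih]

lemma Fresh_chain (ks : List (Fin N)) (R : Finset (Fin N)) (h1 : ks.Nodup) (h2 : ∀ k ∈ ks, k ∉ R) :
    Fresh (chain ks) R := by
  induction ks generalizing R with
  | nil => trivial
  | cons k ks ih =>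
    rw [List.nodup_cons] at h1
    have h3 : Fresh (chain ks) (insert k R) := by
      refine ih _ h1.2 fun l hl h => ?_
      rcases Finset.mem_insert.1 h with rfl | h
      · exact h1.1 hl
      · exact h2 l (List.mem_cons_of_mem _ hl) h
    exact ⟨h2 k List.mem_cons_self, h3, h3⟩

lemma run_chain_R (ks : List (Fin N)) (s : RS N) (x : Fin N → ℤˣ) :
    (run (chain ks) s x).R = s.R ∪ ks.toFinset := by
  induction ks generalizing s with
  | nil => simp [chain, run]
  | cons k ks ih =>
    simp only [chain, run]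
    split_ifs <;>
    · rw [ih]
      ext l
      simp only [RS.rd, Finset.mem_union, Finset.mem_insert, List.mem_toFinset, List.mem_cons]
      tauto

end Pool.Agent.W938.CQ
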