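import Pool.Agent.H703R2.AA.Good

/-!
# The inequality of Talagrand for the convex distance on the cube
-/

set_option autoImplicit false
set_option linter.unusedSectionVars false

namespace Pool.Agent.W938.CQ

open Finset Pool.Agent.H722R2.AA Pool.Agent.H746R2.AA Pool.Agent.H703R2.AA Pool.Agent.H703R2.AA.Pr

/-- The probability of a set. -/
noncomputable def Pb {κ : Type*} [Fintype κ] [DecidableEq κ] (A : (κ → ℤˣ) → Prop) : ℝ :=
  Ex (fun x => ind (A x))

section Gen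

variable {κ : Type*} [Fintype κ] [DecidableEq κ]

lemma Pb_nonneg (A : (κ → ℤˣ) → Prop) : 0 ≤ Pb A := Ex_nonneg fun _ => ind_nonneg _

lemma Pb_le_one (A : (κ → ℤˣ) → Prop) : Pb A ≤ 1 := Ex_le_const fun _ => ind_le_one _

lemma Pb_mono {A B : (κ → ℤˣ) → Prop} (h : ∀ x, A x → B x) : Pb A ≤ Pb B :=
  Ex_mono fun x => ind_mono (h x)

lemma Pb_pos {A : (κ → ℤˣ) → Prop} {x : κ → ℤˣ} (h : A x) : 0 < Pb A := by
  unfold Pb Ex
  refine div_pos ?_ (by positivity)
  have h1 : (1 : ℝ) ≤ ∑ x, ind (A x) := by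
    refine le_trans (le_of_eq ?_) (Finset.single_le_sum (f := fun x => ind (A x))
      (fun x _ => ind_nonneg _) (Finset.mem_univ x))
    unfold ind
    rw [if_pos h]
  linarith

lemma Pb_not (A : (κ → ℤˣ) → Prop) : Pb (fun x => ¬ A x) = 1 - Pb A := by
  unfold Pb
  have : ∀ x, ind (¬ A x) = 1 - ind (A x) := fun x => ind_not _
  simp_rw [this]
  rw [Ex_sub, Ex_const]

lemma Pb_or (A B : (κ → ℤˣ) → Prop) : Pb (fun x => A x ∨ B x) ≤ Pb A + Pb B := by
  unfold Pb
  rw [← Ex_add]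
  refine Ex_mono fun x => ?_
  unfold ind
  by_cases h1 : A x <;> by_cases h2 : B x <;> simp [h1, h2]

lemma Pb_exists {τ : Type*} [Fintype τ] (A : τ → (κ → ℤˣ) → Prop) :
    Pb (fun x => ∃ t, A t x) ≤ ∑ t, Pb (A t) := by
  unfold Pb
  rw [← Ex_sum]
  refine Ex_mono fun x => ?_
  by_cases h : ∃ t, A t x
  · obtain ⟨t, ht⟩ := h
    have h1 : ind (∃ t, A t x) = 1 := by unfold ind; rw [if_pos ⟨t, ht⟩]
    have h2 : ind (A t x) = 1 := by unfold ind; rw [if_pos ht]
    rw [h1, ← h2]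
    exact Finset.single_le_sum (f := fun t => ind (A t x)) (fun t _ => ind_nonneg _)
      (Finset.mem_univ t)
  · have h1 : ind (∃ t, A t x) = 0 := by unfold ind; rw [if_neg h]
    rw [h1]
    exact Finset.sum_nonneg fun t _ => ind_nonneg _

/-- Markov. -/
lemma Pb_markov (F : (κ → ℤˣ) → ℝ) (hF : ∀ x, 0 ≤ F x) (c : ℝ) (hc : 0 < c) :
    c * Pb (fun x => c ≤ F x) ≤ Ex F := by
  unfold Pb
  rw [← Ex_mul_left]
  refine Ex_mono fun x => ?_
  unfold ind
  split_ifs with h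
  · linarith
  · have := hF x; linarith

end Gen

lemma Ex_succ {n : ℕ} (g : (Fin (n + 1) → ℤˣ) → ℝ) :
    Ex g = (Ex (fun x => g (Fin.cons 1 x)) + Ex (fun x => g (Fin.cons (-1) x))) / 2 := by
  unfold Ex
  rw [← (Fin.consEquiv (fun _ : Fin (n + 1) => ℤˣ)).sum_comp, Fintype.sum_prod_type, UnitsInt.univ,
    Finset.sum_pair (by decide)]
  simp only [Fin.consEquiv, Equiv.coe_fn_mk, Fintype.card_fin]
  field_simp
  ring

/-- Witnesses for the convex distance. -/
def CD {n : ℕ} (A : (Fin n → ℤˣ) → Prop) (x : Fin n → ℤˣ) (d : ℝ) : Prop :=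
  ∃ (τ : Type) (_ : Fintype τ) (p : τ → ℝ) (y : τ → Fin n → ℤˣ), (∀ t, 0 ≤ p t) ∧ ∑ t, p t = 1 ∧
    (∀ t, A (y t)) ∧ ∑ i, (∑ t, p t * ind (x i ≠ y t i)) ^ 2 ≤ d

lemma CD_step {n : ℕ} (A : (Fin (n + 1) → ℤˣ) → Prop) (c : ℤˣ) (x : Fin n → ℤˣ) (d1 d2 l : ℝ)
    (hl0 : 0 ≤ l) (hl1 : l ≤ 1) (h1 : CD (fun x => A (Fin.cons c x)) x d1)
    (h2 : CD (fun x => ∃ c, A (Fin.cons c x)) x d2) :
    CD A (Fin.cons c x) ((1 - l) ^ 2 + (l * d1 + (1 - l) * d2)) := by
  obtain ⟨τ1, i1, p1, y1, a1, b1, c1, e1⟩ := h1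
  obtain ⟨τ2, i2, p2, y2, a2, b2, c2, e2⟩ := h2
  choose s hs using c2
  refine ⟨τ1 ⊕ τ2, inferInstance, Sum.elim (fun t => l * p1 t) (fun t => (1 - l) * p2 t),
    Sum.elim (fun t => Fin.cons c (y1 t)) (fun t => Fin.cons (s t) (y2 t)), ?_, ?_, ?_, ?_⟩
  · rintro (t | t)
    · exact mul_nonneg hl0 (a1 t)
    · exact mul_nonneg (by linarith) (a2 t)
  · rw [Fintype.sum_sum_type]
    simp only [Sum.elim_inl, Sum.elim_inr]
    rw [← Finset.mul_sum, ← Finset.mul_sum, b1, b2]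
    ring
  · rintro (t | t)
    · exact c1 t
    · exact hs t
  · rw [Fin.sum_univ_succ]
    refine add_le_add ?_ ?_
    · rw [Fintype.sum_sum_type]
      simp only [Sum.elim_inl, Sum.elim_inr, Fin.cons_zero]
      have h3 : ∑ t, l * p1 t * ind (c ≠ c) = 0 := by
        refine Finset.sum_eq_zero fun t _ => ?_
        unfold ind
        rw [if_neg (by simp)]
        ring
      rw [h3, zero_add]
      have h4 : ∑ t, (1 - l) * p2 t * ind (c ≠ s t) ≤ 1 - l := by
        calc ∑ t, (1 - l) * p2 t * ind (c ≠ s t) ≤ ∑ t, (1 - l) * p2 t :=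
              Finset.sum_le_sum fun t _ => mul_le_of_le_one_right
                (mul_nonneg (by linarith) (a2 t)) (ind_le_one _)
          _ = 1 - l := by rw [← Finset.mul_sum, b2, mul_one]
      have h5 : 0 ≤ ∑ t, (1 - l) * p2 t * ind (c ≠ s t) :=
        Finset.sum_nonneg fun t _ => mul_nonneg (mul_nonneg (by linarith) (a2 t)) (ind_nonneg _)
      exact pow_le_pow_left₀ h5 h4 2
    · have h3 : ∀ i : Fin n, (∑ t : τ1 ⊕ τ2, Sum.elim (fun t => l * p1 t) (fun t => (1 - l) * p2 t) t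
          * ind ((Fin.cons c x : Fin (n + 1) → ℤˣ) i.succ
            ≠ Sum.elim (fun t => (Fin.cons c (y1 t) : Fin (n + 1) → ℤˣ))
              (fun t => Fin.cons (s t) (y2 t)) t i.succ)) ^ 2
          ≤ l * (∑ t, p1 t * ind (x i ≠ y1 t i)) ^ 2 + (1 - l) * (∑ t, p2 t * ind (x i ≠ y2 t i)) ^ 2 := by
        intro i
        rw [Fintype.sum_sum_type]
        simp only [Sum.elim_inl, Sum.elim_inr, Fin.cons_succ, mul_assoc]
        rw [← Finset.mul_sum, ← Finset.mul_sum]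
        set u := ∑ t, p1 t * ind (x i ≠ y1 t i)
        set v := ∑ t, p2 t * ind (x i ≠ y2 t i)
        have h6 : 0 ≤ l * (1 - l) * (u - v) ^ 2 := by
          have : 0 ≤ 1 - l := by linarith
          positivity
        nlinarith
      refine (Finset.sum_le_sum fun i _ => h3 i).trans ?_
      rw [Finset.sum_add_distrib, ← Finset.mul_sum, ← Finset.mul_sum]
      have h7 := mul_le_mul_of_nonneg_left e1 hl0
      have h8 := mul_le_mul_of_nonneg_left e2 (by linarith : 0 ≤ 1 - l)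
      linarith

lemma CD_step0 {n : ℕ} (A : (Fin (n + 1) → ℤˣ) → Prop) (c : ℤˣ) (x : Fin n → ℤˣ) (d : ℝ)
    (h2 : CD (fun x => ∃ c, A (Fin.cons c x)) x d) :
    CD A (Fin.cons c x) (1 + d) := by
  obtain ⟨τ2, i2, p2, y2, a2, b2, c2, e2⟩ := h2
  choose s hs using c2
  refine ⟨τ2, i2, p2, fun t => Fin.cons (s t) (y2 t), a2, b2, hs, ?_⟩
  rw [Fin.sum_univ_succ]
  refine add_le_add ?_ ?_
  · simp only [Fin.cons_zero]
    have h4 : ∑ t, p2 t * ind (c ≠ s t) ≤ 1 := by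
      rw [← b2]
      exact Finset.sum_le_sum fun t _ => mul_le_of_le_one_right (a2 t) (ind_le_one _)
    have h5 : 0 ≤ ∑ t, p2 t * ind (c ≠ s t) :=
      Finset.sum_nonneg fun t _ => mul_nonneg (a2 t) (ind_nonneg _)
    calc _ ≤ (1 : ℝ) ^ 2 := pow_le_pow_left₀ h5 h4 2
      _ = 1 := one_pow 2
  · simp only [Fin.cons_succ]
    exact e2

/-- The choice of the weight. -/
lemma opt (d : ℝ) (hd : 0 ≤ d) : ∃ l : ℝ, 0 ≤ l ∧ l ≤ 1 ∧
    Real.exp ((1 - l) ^ 2 / 4 + l * d) ≤ 2 - Real.exp (-d) := by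
  have hem : Real.exp (-d) ≤ 1 - d + d ^ 2 / 2 := by
    have h1 := Real.quadratic_le_exp_of_nonneg hd
    have h2 : Real.exp (-d) * Real.exp d = 1 := by
      rw [← Real.exp_add, neg_add_cancel, Real.exp_zero]
    have h3 : 0 < Real.exp (-d) := Real.exp_pos _
    have h4 : Real.exp (-d) * (1 + d + d ^ 2 / 2) ≤ 1 := by
      have := mul_le_mul_of_nonneg_left h1 h3.le
      linarith
    have h5 : 0 < 1 + d + d ^ 2 / 2 := by positivity
    have h6 : 1 ≤ (1 - d + d ^ 2 / 2) * (1 + d + d ^ 2 / 2) := by nlinarith [sq_nonneg (d ^ 2)]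
    by_contra hc
    push Not at hc
    have h7 := mul_lt_mul_of_pos_right hc h5
    linarith
  have hexp : ∀ u : ℝ, 0 ≤ u → u ≤ 1 → Real.exp u ≤ 1 + u + u ^ 2 / 2 + 2 / 9 * u ^ 3 := by
    intro u h0 h1
    have := Real.exp_bound' h0 h1 (n := 3) (by norm_num)
    refine this.trans (le_of_eq ?_)
    simp only [Finset.sum_range_succ, Finset.sum_range_zero, Nat.factorial]
    norm_num
    ring
  rcases le_or_gt d (1 / 2) with h | h
  · refine ⟨1 - 2 * d, by linarith, by linarith, ?_⟩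
    have e : (1 - (1 - 2 * d)) ^ 2 / 4 + (1 - 2 * d) * d = d - d ^ 2 := by ring
    rw [e]
    have hu0 : 0 ≤ d - d ^ 2 := by nlinarith
    have hu1 : d - d ^ 2 ≤ 1 := by nlinarith
    have h1 := hexp _ hu0 hu1
    have h2 : (d - d ^ 2) ^ 3 ≤ d ^ 3 := pow_le_pow_left₀ hu0 (by nlinarith [sq_nonneg d]) 3
    have h3 : 0 ≤ d ^ 3 * (7 / 9 - d / 2) := mul_nonneg (by positivity) (by linarith)
    nlinarith
  · refine ⟨0, le_rfl, zero_le_one, ?_⟩
    have h1 := hexp (1 / 4) (by norm_num) (by norm_num)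
    have e : ((1 : ℝ) - 0) ^ 2 / 4 + 0 * d = 1 / 4 := by norm_num
    rw [e]
    have h2 : Real.exp (-d) ≤ Real.exp (-(1 / 2)) := Real.exp_le_exp.2 (by linarith)
    have h3 : Real.exp (-(1 / 2 : ℝ)) ≤ 5 / 8 := by
      have h4 := Real.quadratic_le_exp_of_nonneg (by norm_num : (0 : ℝ) ≤ 1 / 2)
      have h5 : Real.exp (-(1 / 2 : ℝ)) * Real.exp (1 / 2) = 1 := by
        rw [← Real.exp_add, neg_add_cancel, Real.exp_zero]
      have h6 : 0 < Real.exp (-(1 / 2 : ℝ)) := Real.exp_pos _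
      nlinarith
    norm_num at h1
    linarith

/-- One side of the induction. -/
lemma tal_side {n : ℕ} (A : (Fin (n + 1) → ℤˣ) → Prop)
    (ih : ∀ A : (Fin n → ℤˣ) → Prop, (∃ x, A x) → ∃ f : (Fin n → ℤˣ) → ℝ, (∀ x, CD A x (f x)) ∧
      Ex (fun x => Real.exp (f x / 4)) * Pb A ≤ 1)
    (hA : ∃ x : Fin n → ℤˣ, ∃ c, A (Fin.cons c x)) (c : ℤˣ) :
    ∃ g : (Fin n → ℤˣ) → ℝ, (∀ x, CD A (Fin.cons c x) (g x)) ∧
      Ex (fun x => Real.exp (g x / 4)) ≤ (2 - Pb (fun x : Fin n → ℤˣ => A (Fin.cons c x))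
        / Pb (fun x : Fin n → ℤˣ => ∃ c, A (Fin.cons c x))) / Pb (fun x : Fin n → ℤˣ => ∃ c, A (Fin.cons c x)) := by
  obtain ⟨f2, hf2, hf2'⟩ := ih _ hA
  set a := Pb (fun x : Fin n → ℤˣ => ∃ c, A (Fin.cons c x)) with ha
  set q := Pb (fun x : Fin n → ℤˣ => A (Fin.cons c x)) with hq
  have ha0 : 0 < a := by
    obtain ⟨x, hx⟩ := hA
    exact Pb_pos (A := fun x : Fin n → ℤˣ => ∃ c, A (Fin.cons c x)) hx
  by_cases hc : ∃ x : Fin n → ℤˣ, A (Fin.cons c x)
  · obtain ⟨f1, hf1, hf1'⟩ := ih _ hc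
    have hq0 : 0 < q := by
      obtain ⟨x, hx⟩ := hc
      exact Pb_pos (A := fun x : Fin n → ℤˣ => A (Fin.cons c x)) hx
    have hqa : q ≤ a := Pb_mono fun x h => ⟨c, h⟩
    set d := Real.log (a / q) with hd
    have hd0 : 0 ≤ d := Real.log_nonneg ((one_le_div hq0).2 hqa)
    obtain ⟨l, hl0, hl1, hl⟩ := opt d hd0
    refine ⟨fun x => (1 - l) ^ 2 + (l * f1 x + (1 - l) * f2 x), fun x =>
      CD_step A c x _ _ l hl0 hl1 (hf1 x) (hf2 x), ?_⟩
    have hed : Real.exp (-d) = q / a := by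
      rw [hd, ← Real.log_inv, Real.exp_log (by positivity), inv_div]
    have key : ∀ x, Real.exp (((1 - l) ^ 2 + (l * f1 x + (1 - l) * f2 x)) / 4)
        ≤ (Real.exp ((1 - l) ^ 2 / 4 + l * d) / a)
          * (l * (Real.exp (f1 x / 4) * q) + (1 - l) * (Real.exp (f2 x / 4) * a)) := by
      intro x
      have h1 := (convexOn_exp).2 (Set.mem_univ (f1 x / 4 + Real.log q))
        (Set.mem_univ (f2 x / 4 + Real.log a)) hl0 (by linarith : 0 ≤ 1 - l) (by ring)
      simp only [smul_eq_mul] at h1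
      rw [Real.exp_add (f1 x / 4), Real.exp_add (f2 x / 4), Real.exp_log hq0, Real.exp_log ha0] at h1
      have e : ((1 - l) ^ 2 + (l * f1 x + (1 - l) * f2 x)) / 4
          = ((1 - l) ^ 2 / 4 + l * d - Real.log a)
            + (l * (f1 x / 4 + Real.log q) + (1 - l) * (f2 x / 4 + Real.log a)) := by
        rw [hd, Real.log_div ha0.ne' hq0.ne']
        ring
      rw [e, Real.exp_add, Real.exp_sub, Real.exp_log ha0]
      exact mul_le_mul_of_nonneg_left h1 (by positivity)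
    refine (Ex_mono key).trans ?_
    rw [Ex_mul_left, Ex_add, Ex_mul_left, Ex_mul_left, Ex_mul_right, Ex_mul_right]
    have h2 : l * (Ex (fun x => Real.exp (f1 x / 4)) * q)
        + (1 - l) * (Ex (fun x => Real.exp (f2 x / 4)) * a) ≤ 1 := by
      have h3 := mul_le_mul_of_nonneg_left hf1' hl0
      have h4 := mul_le_mul_of_nonneg_left hf2' (by linarith : 0 ≤ 1 - l)
      linarith
    have h5 : 0 ≤ Real.exp ((1 - l) ^ 2 / 4 + l * d) / a := by positivity
    calc _ ≤ Real.exp ((1 - l) ^ 2 / 4 + l * d) / a * 1 := mul_le_mul_of_nonneg_left h2 h5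
      _ ≤ _ := by
        rw [mul_one, ← hed]
        exact div_le_div_of_nonneg_right hl ha0.le
  · have hq0 : q = 0 := by
      rw [hq]
      unfold Pb
      have : ∀ x : Fin n → ℤˣ, ind (A (Fin.cons c x)) = 0 := by
        intro x
        unfold ind
        rw [if_neg (fun h => hc ⟨x, h⟩)]
      rw [Ex_congr this, Ex_const]
    refine ⟨fun x => 1 + f2 x, fun x => CD_step0 A c x _ (hf2 x), ?_⟩
    rw [hq0, zero_div, sub_zero]
    have e : ∀ x, Real.exp ((1 + f2 x) / 4) = Real.exp (1 / 4) * Real.exp (f2 x / 4) := by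
      intro x
      rw [← Real.exp_add]
      congr 1
      ring
    rw [Ex_congr e, Ex_mul_left, le_div_iff₀ ha0, mul_assoc]
    have h1 : Real.exp (1 / 4 : ℝ) ≤ 2 := by
      have h2 : Real.exp (1 / 4 : ℝ) ≤ Real.exp (Real.log 2) :=
        Real.exp_le_exp.2 (by have := Real.log_two_gt_d9; linarith)
      rwa [Real.exp_log (by norm_num)] at h2
    have h3 := Real.exp_pos (1 / 4 : ℝ)
    calc Real.exp (1 / 4) * (Ex (fun x => Real.exp (f2 x / 4)) * a) ≤ Real.exp (1 / 4) * 1 :=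
          mul_le_mul_of_nonneg_left hf2' h3.le
      _ ≤ 2 := by linarith

/-- The inequality of Talagrand. -/
theorem tal : ∀ (n : ℕ) (A : (Fin n → ℤˣ) → Prop), (∃ x, A x) → ∃ f : (Fin n → ℤˣ) → ℝ,
    (∀ x, CD A x (f x)) ∧ Ex (fun x => Real.exp (f x / 4)) * Pb A ≤ 1
  | 0, A, ⟨x0, hx0⟩ => by
    refine ⟨fun _ => 0, fun x => ⟨Unit, inferInstance, fun _ => 1, fun _ => x0, by simp, by simp,
      fun _ => hx0, by simp⟩, ?_⟩
    simp only [zero_div, Real.exp_zero]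
    rw [Ex_const, one_mul]
    exact Pb_le_one A
  | n + 1, A, ⟨x0, hx0⟩ => by
    have hA : ∃ x : Fin n → ℤˣ, ∃ c, A (Fin.cons c x) :=
      ⟨Fin.tail x0, x0 0, by rw [Fin.cons_self_tail]; exact hx0⟩
    choose g hg1 hg2 using tal_side A (tal n) hA
    refine ⟨fun x => g (x 0) (Fin.tail x), fun x => ?_, ?_⟩
    · have := hg1 (x 0) (Fin.tail x)
      rwa [Fin.cons_self_tail] at this
    · set a := Pb (fun x : Fin n → ℤˣ => ∃ c, A (Fin.cons c x)) with ha
      have ha0 : 0 < a := by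
        obtain ⟨x, hx⟩ := hA
        exact Pb_pos (A := fun x : Fin n → ℤˣ => ∃ c, A (Fin.cons c x)) hx
      have e1 : Pb A = (Pb (fun x : Fin n → ℤˣ => A (Fin.cons 1 x))
          + Pb (fun x : Fin n → ℤˣ => A (Fin.cons (-1) x))) / 2 := Ex_succ _
      have e2 : Ex (fun x : Fin (n + 1) → ℤˣ => Real.exp (g (x 0) (Fin.tail x) / 4))
          = (Ex (fun x => Real.exp (g 1 x / 4)) + Ex (fun x => Real.exp (g (-1) x / 4))) / 2 := by
        rw [Ex_succ]
        simp only [Fin.cons_zero, Fin.tail_cons]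
      have h1 := hg2 1
      have h2 := hg2 (-1)
      set p1 := Pb (fun x : Fin n → ℤˣ => A (Fin.cons 1 x))
      set p2 := Pb (fun x : Fin n → ℤˣ => A (Fin.cons (-1) x))
      have h3 : Ex (fun x : Fin (n + 1) → ℤˣ => Real.exp (g (x 0) (Fin.tail x) / 4))
          ≤ (2 - Pb A / a) / a := by
        rw [e2, e1]
        have e3 : (2 - (p1 + p2) / 2 / a) / a = ((2 - p1 / a) / a + (2 - p2 / a) / a) / 2 := by
          field_simp
          ring
        rw [e3]
        linarith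
      refine (mul_le_mul_of_nonneg_right h3 (Pb_nonneg A)).trans ?_
      have e4 : (2 - Pb A / a) / a * Pb A = 1 - (1 - Pb A / a) ^ 2 := by
        field_simp
        ring
      rw [e4]
      nlinarith [sq_nonneg (1 - Pb A / a)]

/-- The form which we use: if every point of `B` is far from every point of `A`, in the sense of
weights `w x` with a small square sum, then `A` or `B` is small. -/
theorem tal_use {n : ℕ} (A B : (Fin n → ℤˣ) → Prop) (w : (Fin n → ℤˣ) → Fin n → ℝ)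
    (s2 τ : ℝ) (hτ : 0 ≤ τ) (hs : 0 < s2)
    (h1 : ∀ x, B x → ∑ i, w x i ^ 2 ≤ s2)
    (h2 : ∀ x y, B x → A y → τ ≤ ∑ i, w x i * ind (x i ≠ y i)) :
    Pb A * Pb B ≤ Real.exp (-(τ ^ 2 / (4 * s2))) := by
  by_cases hA : ∃ x, A x
  · obtain ⟨f, hf1, hf2⟩ := tal n A hA
    have h3 : ∀ x, B x → τ ^ 2 / s2 ≤ f x := by
      intro x hx
      obtain ⟨T, iT, p, y, a, b, c, e⟩ := hf1 x
      rw [div_le_iff₀ hs]
      set q : Fin n → ℝ := fun i => ∑ t, p t * ind (x i ≠ y t i) with hq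
      have h4 : τ ≤ ∑ i, w x i * q i := by
        calc τ = ∑ t, p t * τ := by rw [← Finset.sum_mul, b, one_mul]
          _ ≤ ∑ t, p t * ∑ i, w x i * ind (x i ≠ y t i) :=
            Finset.sum_le_sum fun t _ => mul_le_mul_of_nonneg_left (h2 x (y t) hx (c t)) (a t)
          _ = ∑ i, w x i * q i := by
            simp_rw [hq, Finset.mul_sum]
            rw [Finset.sum_comm]
            exact Finset.sum_congr rfl fun i _ => Finset.sum_congr rfl fun t _ => by ring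
      have h5 : (∑ i, w x i * q i) ^ 2 ≤ (∑ i, w x i ^ 2) * ∑ i, q i ^ 2 :=
        Finset.sum_mul_sq_le_sq_mul_sq _ _ _
      have h6 : τ ^ 2 ≤ (∑ i, w x i * q i) ^ 2 := pow_le_pow_left₀ hτ h4 2
      have h7 : (∑ i, w x i ^ 2) * ∑ i, q i ^ 2 ≤ s2 * f x :=
        mul_le_mul (h1 x hx) e (Finset.sum_nonneg fun _ _ => sq_nonneg _) hs.le
      linarith
    have h8 : Real.exp (τ ^ 2 / (4 * s2)) * Pb B ≤ Ex (fun x => Real.exp (f x / 4)) := by
      unfold Pb
      rw [← Ex_mul_left]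
      refine Ex_mono fun x => ?_
      unfold ind
      split_ifs with hx
      · rw [mul_one]
        apply Real.exp_le_exp.2
        have := h3 x hx
        have e : τ ^ 2 / (4 * s2) = τ ^ 2 / s2 / 4 := by field_simp
        rw [e]
        linarith
      · rw [mul_zero]
        exact (Real.exp_pos _).le
    have h9 := mul_le_mul_of_nonneg_right h8 (Pb_nonneg A)
    have h10 : Real.exp (τ ^ 2 / (4 * s2)) * (Pb A * Pb B) ≤ 1 := by linarith
    rw [Real.exp_neg]
    have h11 := Real.exp_pos (τ ^ 2 / (4 * s2))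
    rw [← div_le_div_iff_of_pos_right h11] at h10
    rw [mul_div_cancel_left₀ _ h11.ne'] at h10
    rw [← one_div]
    exact h10
  · have h0 : Pb A = 0 := by
      unfold Pb
      have : ∀ x : Fin n → ℤˣ, ind (A x) = 0 := by
        intro x
        unfold ind
        rw [if_neg (fun h => hA ⟨x, h⟩)]
      rw [Ex_congr this, Ex_const]
    rw [h0, zero_mul]
    exact (Real.exp_pos _).le

end Pool.Agent.W938.CQ
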